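import Pool.Agent.GRK.NFE

/-!
GRK module NCM (helper16): definable cuts invariant under `Nx L A` are `A`-definable; orbits are
cofinal and coinitial in a cell.
-/

set_option autoImplicit false
set_option linter.unusedVariables false
set_option linter.unusedSectionVars false

namespace Pool.Agent.GRK

open FirstOrder.Language Set
open scoped FirstOrder
open Pool.Agent.WOM (tp Mon IsEl IsoM CtU Fx Orb)
open Pool.Agent.PMC (Ini ct Dc cel Sin Nd Ct lts ext XS Ex Fa Ll LL Itv Sm Md NPf fx_refl fx_symm
  fx_comp fx_mono comp_apply' def_img def_mono def_compl def_inter def_union def_mem def_fix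
  def_of_fix conj_of_def exists_isd exists_fin_def isEl_of_orb mem_orb orb_meets sat_fam rel_fx
  rel_def1 rel_def2 rel_hull rel_swap def_close)

variable {L : FirstOrder.Language.{0, 0}} {U : Type} [L.Structure U] {κ ι : Type}
  {R : κ → U → U → Prop} {o : κ → κ} {S : ι → U → U → Prop}

/-- automorphisms over `A` preserve `A`-definable equivalence relations -/
private theorem ncm_fx {A : Set U} {E : U → U → Prop} (h : FE L A E) {g : U ≃[L] U}
    (hg : Fx L A g) (x y : U) : E (g x) (g y) ↔ E x y := by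
  obtain ⟨φ, hφ⟩ := nba_key h.dfn
  have h1 := hφ ![x, y]
  have h2 := hφ ![g x, g y]
  have h3 : E x y ↔ φ.Realize (Sum.elim (fun a : A => (a : U)) (![x, y] : Fin 2 → U)) := h1
  have h4 : E (g x) (g y) ↔
      φ.Realize (Sum.elim (fun a : A => (a : U)) (![g x, g y] : Fin 2 → U)) := h2
  rw [h3, h4]
  have h5 : g ∘ Sum.elim (fun a : A => (a : U)) (![x, y] : Fin 2 → U) =
      Sum.elim (fun a : A => (a : U)) (![g x, g y] : Fin 2 → U) := by
    funext i
    rcases i with i | i
    · exact hg i i.2
    · fin_cases i <;> rfl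
  rw [← h5]
  exact FirstOrder.Language.StrongHomClass.realize_formula g φ

/-- finitely many finite equivalence relations have a common refinement -/
private theorem ncm_inter {A : Set U} {G : Set (U → U → Prop)} (hG : G.Finite)
    (h : ∀ E ∈ G, FE L A E) : ∃ E, FE L A E ∧ ∀ E' ∈ G, ∀ x y, E x y → E' x y := by
  induction G, hG using Set.Finite.induction_on with
  | empty => exact ⟨_, fe_top A, fun E' h' => absurd h' (notMem_empty E')⟩
  | @insert E₀ G hn hfin ih =>
    obtain ⟨E, hE, hE'⟩ := ih (fun E' h' => h E' (mem_insert_of_mem E₀ h'))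
    refine ⟨_, fe_inter hE (h E₀ (mem_insert E₀ G)), ?_⟩
    intro E' h' x y hxy
    rcases h' with rfl | h'
    · exact hxy.2
    · exact hE' E' h' x y hxy.1

/-- the saturation of a definable set is definable -/
private theorem ncm_sat (hM : Mon L U) {A B t : Set U} (hB : B.Finite) (hAB : A ⊆ B)
    {E : U → U → Prop} (hE : FE L A E) (ht : B.Definable₁ L t) :
    B.Definable₁ L {x | ∃ w ∈ t, E w x} := by
  obtain ⟨s, hs, hs'⟩ := hE.fin
  have key : ∀ s' : Set U, s'.Finite →
      (B ∪ s').Definable₁ L {x | ∃ c ∈ s', (∃ w ∈ t, E w c) ∧ E c x} := by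
    intro s' hfin
    induction s', hfin using Set.Finite.induction_on with
    | empty =>
      have h1 : {x : U | ∃ c ∈ (∅ : Set U), (∃ w ∈ t, E w c) ∧ E c x} = (Set.univ : Set U)ᶜ := by
        ext x
        constructor
        · rintro ⟨c, hc, _⟩
          exact absurd hc (notMem_empty c)
        · intro hx
          exact absurd (mem_univ x) hx
      rw [h1]
      exact def_compl definable_univ
    | @insert c s' hn hfin ih =>
      have hc : (B ∪ insert c s').Definable₁ L {x | (∃ w ∈ t, E w c) ∧ E c x} := by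
        by_cases hw : ∃ w ∈ t, E w c
        · have h1 : {x | (∃ w ∈ t, E w c) ∧ E c x} = {x | E c x} := by
            ext x
            exact ⟨fun hx => hx.2, fun hx => ⟨hw, hx⟩⟩
          rw [h1]
          refine def_mono ?_ (fe_def hE c)
          rintro a (rfl | ha)
          · exact Or.inr (mem_insert a s')
          · exact Or.inl (hAB ha)
        · have h1 : {x | (∃ w ∈ t, E w c) ∧ E c x} = (Set.univ : Set U)ᶜ := by
            ext x
            constructor
            · intro hx
              exact absurd hx.1 hw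
            · intro hx
              exact absurd (mem_univ x) hx
          rw [h1]
          exact def_compl definable_univ
      have h1 : {x | ∃ d ∈ insert c s', (∃ w ∈ t, E w d) ∧ E d x} =
          {x | (∃ w ∈ t, E w c) ∧ E c x} ∪ {x | ∃ d ∈ s', (∃ w ∈ t, E w d) ∧ E d x} := by
        ext x
        constructor
        · rintro ⟨d, hd, hx⟩
          rcases hd with rfl | hd
          · exact Or.inl hx
          · exact Or.inr ⟨d, hd, hx⟩
        · rintro (hx | ⟨d, hd, hx⟩)
          · exact ⟨c, mem_insert c s', hx⟩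
          · exact ⟨d, mem_insert_of_mem c hd, hx⟩
      rw [h1]
      exact def_union hc (def_mono (union_subset_union_right B (subset_insert c s')) ih)
  have h1 : {x | ∃ w ∈ t, E w x} = {x | ∃ c ∈ s, (∃ w ∈ t, E w c) ∧ E c x} := by
    ext x
    constructor
    · rintro ⟨w, hw, hwx⟩
      obtain ⟨c, hc, hxc⟩ := hs' x
      exact ⟨c, hc, ⟨w, hw, hE.eqv.trans hwx hxc⟩, hE.eqv.symm hxc⟩
    · rintro ⟨c, hc, ⟨w, hw, hwc⟩, hcx⟩
      exact ⟨w, hw, hE.eqv.trans hwc hcx⟩
  have h2 := key s hs
  rw [← h1] at h2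
  refine def_of_fix hM hB (hB.union hs) h2 ?_
  rintro g hg x ⟨w, hw, hwx⟩
  exact ⟨g w, (def_mem ht hg w).2 hw, (ncm_fx hE (fx_mono hAB hg) w x).2 hwx⟩

/-- a definable set invariant under `Nx L A` is a union of classes of one finite equivalence
relation -/
private theorem ncm_one (hM : Mon L U) {A B C : Set U} (hA : A.Finite) (hB : B.Finite)
    (hC : B.Definable₁ L C) (h : ∀ g : U ≃[L] U, Nx L A g → ∀ x ∈ C, g x ∈ C) :
    ∃ E, FE L A E ∧ ∀ x y, E x y → (x ∈ C ↔ y ∈ C) := by
  classical
  have hc : ∀ g : U ≃[L] U, Nx L A g → ∀ x ∈ Cᶜ, g x ∈ Cᶜ := by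
    intro g hg x hx hx'
    have h1 := h g.symm (nx_symm hg) _ hx'
    rw [g.symm_apply_apply] at h1
    exact hx h1
  have hx : ∀ x : U, ∃ E, FE L A E ∧ ∀ y, E x y → (x ∈ C ↔ y ∈ C) := by
    intro x
    by_cases hxC : x ∈ C
    · obtain ⟨E, hE, hE'⟩ := nx_fe hM hA hB hC h hxC
      exact ⟨E, hE, fun y hy => iff_of_true hxC (hE' y hy)⟩
    · obtain ⟨E, hE, hE'⟩ := nx_fe hM hA hB (def_compl hC) hc (x := x) hxC
      exact ⟨E, hE, fun y hy => iff_of_false hxC (hE' y hy)⟩
  by_contra hcon
  push Not at hcon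
  -- the bad points of `E`
  let bad : (U → U → Prop) → Set U := fun E =>
    (C ∩ {x | ∃ w ∈ Cᶜ, E w x}) ∪ (Cᶜ ∩ {x | ∃ w ∈ C, E w x})
  have hF : ∀ t ∈ ({t : Set U | ∃ E, FE L A E ∧ t = bad E} : Set (Set U)),
      (A ∪ B).Definable₁ L t := by
    rintro t ⟨E, hE, rfl⟩
    have hC' : (A ∪ B).Definable₁ L C := def_mono subset_union_right hC
    exact def_union
      (def_inter hC' (ncm_sat hM (hA.union hB) subset_union_left hE (def_compl hC')))
      (def_inter (def_compl hC') (ncm_sat hM (hA.union hB) subset_union_left hE hC'))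
  obtain ⟨x, hxb⟩ := sat_fam hM (hA.union hB) hF (by
    intro G hG hfin
    have h1 : ∀ t : Set U, ∃ E, FE L A E ∧ ((∃ E, FE L A E ∧ t = bad E) → t = bad E) := by
      intro t
      by_cases ht : ∃ E, FE L A E ∧ t = bad E
      · obtain ⟨E, hE, hE'⟩ := ht
        exact ⟨E, hE, fun _ => hE'⟩
      · exact ⟨_, fe_top A, fun h' => absurd h' ht⟩
    choose e he he' using h1
    obtain ⟨E, hE, hE'⟩ := ncm_inter (A := A) (G := e '' G) (hfin.image e) (by
      rintro _ ⟨t, _, rfl⟩
      exact he t)
    obtain ⟨x, y, hxy, hxy'⟩ := hcon E hE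
    refine ⟨x, fun t ht => ?_⟩
    rw [he' t (hG ht)]
    have h2 : (e t) y x := (he t).eqv.symm (hE' (e t) ⟨t, ht, rfl⟩ x y hxy)
    rcases hxy' with ⟨h3, h4⟩ | ⟨h3, h4⟩
    · exact Or.inl ⟨h3, y, h4, h2⟩
    · exact Or.inr ⟨h3, y, h4, h2⟩)
  obtain ⟨E, hE, hE'⟩ := hx x
  rcases hxb (bad E) ⟨E, hE, rfl⟩ with ⟨h1, w, hw, hwx⟩ | ⟨h1, w, hw, hwx⟩
  · exact hw ((hE' w (hE.eqv.symm hwx)).1 h1)
  · exact h1 ((hE' w (hE.eqv.symm hwx)).2 hw)

/-- a set with finitely many images which is comparable with its image is fixed -/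
private theorem ncm_chain {A C : Set U} {E : U → U → Prop} (hE : FE L A E)
    (hEC : ∀ x y, E x y → (x ∈ C ↔ y ∈ C)) {g : U ≃[L] U} (hg : Fx L A g)
    (hcmp : g '' C ⊆ C ∨ C ⊆ g '' C) : g '' C = C := by
  classical
  obtain ⟨s, hs, hs'⟩ := hE.fin
  let D : ℕ → Set U := fun n => Nat.rec C (fun _ X => g '' X) n
  have hD0 : D 0 = C := rfl
  have hDs : ∀ n, D (n + 1) = g '' D n := fun n => rfl
  have hsat : ∀ n x y, E x y → (x ∈ D n ↔ y ∈ D n) := by
    intro n
    induction n with
    | zero => exact hEC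
    | succ n ih =>
      intro x y hxy
      rw [hDs]
      have h1 : ∀ z : U, z ∈ g '' D n ↔ g.symm z ∈ D n := by
        intro z
        constructor
        · rintro ⟨w, hw, rfl⟩
          rwa [g.symm_apply_apply]
        · intro hz
          exact ⟨g.symm z, hz, g.apply_symm_apply z⟩
      rw [h1, h1]
      exact ih _ _ ((ncm_fx hE (fx_symm hg) x y).2 hxy)
  have hinj : Function.Injective (fun X : Set U => g '' X) :=
    Set.image_injective.2 g.injective
  have hback : ∀ m, D (m + 1) = D m → g '' C = C := by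
    intro m
    induction m with
    | zero => exact fun h => h
    | succ m ih =>
      intro h
      exact ih (hinj h)
  -- two equal members
  have hex : ∃ m n, m < n ∧ D m = D n := by
    have hfin : (Set.range fun n => D n ∩ s).Finite :=
      hs.finite_subsets.subset (by
        rintro _ ⟨n, rfl⟩
        exact inter_subset_right)
    have hni : ¬ Function.Injective (fun n : ℕ => D n ∩ s) := by
      intro hi
      exact Set.infinite_range_of_injective hi hfin
    have h1 : ∃ m n, m ≠ n ∧ D m ∩ s = D n ∩ s := by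
      by_contra hno
      push Not at hno
      apply hni
      intro m n hmn
      by_contra hne
      exact hno m n hne hmn
    obtain ⟨m, n, hmn, hmn'⟩ := h1
    have h2 : D m = D n := by
      ext x
      obtain ⟨c, hc, hxc⟩ := hs' x
      rw [hsat m x c hxc, hsat n x c hxc]
      have h3 := congrArg (fun X : Set U => c ∈ X) hmn'
      have h4 : (c ∈ D m ∩ s) ↔ (c ∈ D n ∩ s) := iff_of_eq h3
      constructor
      · intro h5
        exact (h4.1 ⟨h5, hc⟩).1
      · intro h5
        exact (h4.2 ⟨h5, hc⟩).1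
    rcases lt_or_gt_of_ne hmn with h | h
    · exact ⟨m, n, h, h2⟩
    · exact ⟨n, m, h, h2.symm⟩
  obtain ⟨m, n, hmn, hD⟩ := hex
  rcases hcmp with hc | hc
  · have hstep : ∀ n, D (n + 1) ⊆ D n := by
      intro n
      induction n with
      | zero => exact hc
      | succ n ih => exact Set.image_mono ih
    have hanti : ∀ n k, D (n + k) ⊆ D n := by
      intro n k
      induction k with
      | zero => exact Subset.rfl
      | succ k ih => exact (hstep (n + k)).trans ih
    refine hback m (Subset.antisymm (hstep m) ?_)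
    obtain ⟨k, rfl⟩ := Nat.exists_eq_add_of_le hmn
    rw [hD]
    exact hanti (m + 1) k
  · have hstep : ∀ n, D n ⊆ D (n + 1) := by
      intro n
      induction n with
      | zero => exact hc
      | succ n ih => exact Set.image_mono ih
    have hmono : ∀ n k, D n ⊆ D (n + k) := by
      intro n k
      induction k with
      | zero => exact Subset.rfl
      | succ k ih => exact ih.trans (hstep (n + k))
    refine hback m (Subset.antisymm ?_ (hstep m))
    obtain ⟨k, rfl⟩ := Nat.exists_eq_add_of_le hmn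
    rw [hD]
    exact hmono (m + 1) k

section cx

variable (hC : Cx L R o S)

include hC

/-- [B3] a definable cut invariant under `Nx L A` is `A`-definable -/
theorem nx_cut {A B C : Set U} {j : κ} (hA : A.Finite) (hB : B.Finite) (hD : Dc L R o B j C)
    (h : ∀ g : U ≃[L] U, Nx L A g → ∀ x ∈ C, g x ∈ C) : Dc L R o A j C := by
  obtain ⟨E, hE, hEC⟩ := ncm_one hC.mon hA hB hD.1 h
  refine ⟨def_of_fix hC.mon hA hB hD.1 ?_, hD.2⟩
  intro g hg x hx
  have h1 : g '' C = C := by
    refine ncm_chain hE hEC hg ?_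
    rcases ini_total hC (ini_img hC hD.2 g) hD.2 with h2 | h2
    · exact Or.inl h2
    · exact Or.inr h2
  rw [← h1]
  exact ⟨x, hx, rfl⟩

/-- [B4] orbits of `Nx L A` are cofinal and coinitial in a cell -/
theorem nx_move {A : Set U} (hA : A.Finite) {j : κ} {x y z : U} (hz : Nd L A z)
    (hx : x ∈ cel L R o A j z) (hy : y ∈ cel L R o A j z) (b : Bool) :
    ∃ g : U ≃[L] U, Nx L A g ∧ lts R o b j x (g y) := by
  classical
  by_contra hcon
  -- one finite equivalence relation
  have h1 : ∃ E, FE L A E ∧ ∀ v, E y v → ¬ lts R o b j x v := by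
    by_contra hno
    push Not at hno
    have hF : ∀ t ∈ ({t : Set U | ∃ E, FE L A E ∧ t = {v | E y v}} ∪ {{v | lts R o b j x v}} :
        Set (Set U)), (insert x (insert y A)).Definable₁ L t := by
      rintro t (⟨E, hE, rfl⟩ | ht)
      · exact def_mono (subset_insert x _) (fe_def hE y)
      · rw [mem_singleton_iff] at ht
        subst ht
        exact rel_def2 (lts_def hC b j) x (insert y A)
    obtain ⟨v, hv⟩ := sat_fam hC.mon ((hA.insert y).insert x) hF (by
      intro G hG hfin
      have h1 : ∀ t : Set U, ∃ E, FE L A E ∧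
          ((∃ E, FE L A E ∧ t = {v | E y v}) → t = {v | E y v}) := by
        intro t
        by_cases ht : ∃ E, FE L A E ∧ t = {v | E y v}
        · obtain ⟨E, hE, hE'⟩ := ht
          exact ⟨E, hE, fun _ => hE'⟩
        · exact ⟨_, fe_top A, fun h' => absurd h' ht⟩
      choose e he he' using h1
      obtain ⟨E, hE, hE'⟩ := ncm_inter (A := A) (G := e '' G) (hfin.image e) (by
        rintro _ ⟨t, _, rfl⟩
        exact he t)
      obtain ⟨v, hv, hv'⟩ := hno E hE
      refine ⟨v, ?_⟩
      intro t ht
      rcases hG ht with h2 | h2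
      · rw [he' t h2]
        exact hE' (e t) ⟨t, ht, rfl⟩ y v hv
      · rw [mem_singleton_iff] at h2
        rw [h2]
        exact hv')
    obtain ⟨g, hg, hgy⟩ := nx_of_fe hC.mon hA (x := y) (y := v)
      (fun E hE => hv {v | E y v} (Or.inl ⟨E, hE, rfl⟩))
    apply hcon
    refine ⟨g, hg, ?_⟩
    rw [hgy]
    exact hv {v | lts R o b j x v} (Or.inr rfl)
  obtain ⟨E, hE, hEy⟩ := h1
  have hW : (insert y A).Definable₁ L {v | E y v} := fe_def hE y
  have hD1 : (insert y A).Definable₁ L {v | ∃ w ∈ {v | E y v}, ¬ lts R o b j w v} :=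
    rel_hull (lts_def hC b j) hW
  have hDn : ∀ g : U ≃[L] U, Nx L A g → ∀ v,
      v ∈ {v | ∃ w ∈ {v | E y v}, ¬ lts R o b j w v} →
      g v ∈ {v | ∃ w ∈ {v | E y v}, ¬ lts R o b j w v} := by
    rintro g hg v ⟨w, hw, hwv⟩
    refine ⟨g w, hE.eqv.trans hw (hg.2 E hE w), ?_⟩
    intro h2
    exact hwv ((lts_img hC b j _ _ g).1 h2)
  have hDA : A.Definable₁ L {v | ∃ w ∈ {v | E y v}, ¬ lts R o b j w v} ∧
      (x ∈ {v | ∃ w ∈ {v | E y v}, ¬ lts R o b j w v} ↔
        y ∈ {v | ∃ w ∈ {v | E y v}, ¬ lts R o b j w v}) := by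
    have hxy : x ∈ cel L R o A j y := by
      rw [cel_eq hy]
      exact hx
    cases b
    · have h2 : Dc L R o (insert y A) j {v | ∃ w ∈ {v | E y v}, ¬ lts R o false j w v}ᶜ := by
        refine ⟨def_compl hD1, ?_⟩
        intro v hv v' hv' hc
        obtain ⟨w, hw, hw'⟩ := hc
        refine hv ⟨w, hw, ?_⟩
        intro h3
        apply hw'
        rw [lts_false] at h3 ⊢
        exact hC.tra j _ _ _ hv' h3
      have h3 := nx_cut hC hA (hA.insert y) h2 (by
        intro g hg v hv hv'
        have h4 := hDn g.symm (nx_symm hg) _ hv'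
        rw [g.symm_apply_apply] at h4
        exact hv h4)
      refine ⟨?_, ?_⟩
      · have h4 := def_compl h3.1
        rwa [compl_compl] at h4
      · have h4 := hxy _ h3
        exact not_iff_not.1 h4
    · have h2 : Dc L R o (insert y A) j {v | ∃ w ∈ {v | E y v}, ¬ lts R o true j w v} := by
        refine ⟨hD1, ?_⟩
        rintro v ⟨w, hw, hw'⟩ v' hv'
        refine ⟨w, hw, ?_⟩
        intro h3
        apply hw'
        rw [lts_true] at h3 ⊢
        exact hC.tra j _ _ _ h3 hv'
      have h3 := nx_cut hC hA (hA.insert y) h2 (fun g hg v hv => hDn g hg v hv)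
      exact ⟨h3.1, hxy _ h3⟩
  obtain ⟨hs, hiff⟩ := hDA
  have hyD : y ∈ {v | ∃ w ∈ {v | E y v}, ¬ lts R o b j w v} :=
    ⟨y, hE.eqv.refl y, lts_irr hC b j y⟩
  have hxD := hiff.2 hyD
  have hno : ∀ v ∈ {v | ∃ w ∈ {v | E y v}, ¬ lts R o b j w v}, ¬ lts R o b j x v := by
    rintro v ⟨w, hw, hwv⟩ hxv
    by_cases hwx : w = x
    · rw [hwx] at hwv
      exact hwv hxv
    · rcases lts_tot hC b j hwx with h2 | h2
      · exact hwv (lts_trans hC b j h2 hxv)
      · exact hEy w hw h2
  -- `x` is the last point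
  have hxd : A.Definable₁ L {x} := by
    have h0 : (insert x A).Definable₁ L {x} := by
      have h1 : ({x} : Set U) = {v | ¬ R (o j) x v} ∩ {v | R (o j) v x}ᶜ := by
        ext v
        constructor
        · intro hv
          have : v = x := hv
          rw [this]
          exact ⟨hC.irr j x, hC.irr j x⟩
        · rintro ⟨h1, h2⟩
          by_contra hne
          rcases hC.tot j v x hne with h | h
          · exact h2 h
          · exact h1 h
      rw [h1]
      exact def_inter (le_dc hC j x A).1 (def_compl (lt_dc hC j x A).1)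
    refine def_of_fix hC.mon hA (hA.insert x) h0 ?_
    intro g hg v hv
    have hv' : v = x := hv
    rw [hv']
    have e1 := hno _ ((def_mem hs hg x).2 hxD)
    have e2 := hno _ ((def_mem hs (fx_symm hg) x).2 hxD)
    by_contra hne
    have hne' : g x ≠ x := hne
    rcases lts_tot hC b j hne' with h | h
    · apply e2
      have h3 : lts R o b j (g x) (g (g.symm x)) := by
        rw [g.apply_symm_apply]
        exact h
      exact (lts_img hC b j _ _ g).1 h3
    · exact e1 h
  exact nd_cel hC hz hx hxd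

end cx

end Pool.Agent.GRK
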