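import Pool.Agent.GRK.Base
import Pool.Agent.MST.FEQ

/-!
GRK module STG (helper68): points in the same class of all `A`-definable finite equivalence
relations are conjugate under `Nx L A`.
-/

set_option autoImplicit false
set_option linter.unusedVariables false
set_option linter.unusedSectionVars false

namespace Pool.Agent.GRK

open FirstOrder.Language Set
open scoped FirstOrder
open Pool.Agent.WOM (tp Mon IsEl IsoM CtU Fx Orb)
open Pool.Agent.PMC (Ini ct Dc cel Sin Nd Ct lts ext XS Ex Fa Ll LL Itv Sm Md NPf fx_refl fx_symm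
  fx_comp fx_mono comp_apply' def_img def_mono def_compl def_inter def_union def_mem def_fix
  def_of_fix conj_of_def exists_isd exists_fin_def isEl_of_orb mem_orb orb_meets sat_fam rel_fx
  rel_def1 rel_def2 rel_hull rel_swap def_close)
open Pool.Agent.MST (er pbE prE fmE er_inf er_pbE er_prE er_fmE thm_FEQ)

variable {L : FirstOrder.Language.{0, 0}} {U : Type} [L.Structure U]

namespace STG

/-- `s` preserves strong types over `A` -/
def P (L : FirstOrder.Language.{0, 0}) {U : Type} [L.Structure U] (A : Set U)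
    (s : Set (U × U)) : Prop :=
  ∀ (α : Type) [Finite α] (E : (L[[A]]).Formula (α ⊕ α)), Pool.Agent.MST.FE U E →
    ∀ a b : α → U, (∀ i, (a i, b i) ∈ s) → er E a b

theorem P_mono {A : Set U} {s t : Set (U × U)} (h : P L A s) (hts : t ⊆ s) : P L A t :=
  fun α _ E hE a b hab => h α E hE a b fun i => hts (hab i)

theorem P_swap {A : Set U} {s : Set (U × U)} (h : P L A s) : P L A (Prod.swap '' s) := by
  intro α _ E hE a b hab
  refine hE.symm _ _ (h α E hE b a fun i => ?_)
  obtain ⟨c, hc, hc'⟩ := hab i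
  have h1 : c = (b i, a i) := by
    have h2 := congrArg Prod.swap hc'
    rwa [Prod.swap_swap] at h2
  rwa [← h1]

/-- definable relations with `A` in the language and out -/
theorem exists_out {A : Set U} {α : Type} (φ : (L[[A]]).Formula α) :
    ∃ ψ : L.Formula (A ⊕ α), ∀ v : α → U,
      φ.Realize v ↔ ψ.Realize (Sum.elim (fun a : A => (a : U)) v) := by
  have h : A.Definable L {v : α → U | φ.Realize v} := ⟨φ, rfl⟩
  rw [definable_iff_exists_formula_sum] at h
  obtain ⟨ψ, hψ⟩ := h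
  refine ⟨ψ, fun v => ?_⟩
  have h3 := congrArg (fun t : Set (α → U) => v ∈ t) hψ
  exact iff_of_eq h3

theorem exists_in {A : Set U} {α : Type} (ψ : L.Formula (A ⊕ α)) :
    ∃ φ : (L[[A]]).Formula α, ∀ v : α → U,
      φ.Realize v ↔ ψ.Realize (Sum.elim (fun a : A => (a : U)) v) := by
  have h : A.Definable L {v : α → U | ψ.Realize (Sum.elim (fun a : A => (a : U)) v)} := by
    rw [definable_iff_exists_formula_sum]
    exact ⟨ψ, rfl⟩
  obtain ⟨φ, hφ⟩ := h
  refine ⟨φ, fun v => ?_⟩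
  have h3 := congrArg (fun t : Set (α → U) => v ∈ t) hφ
  exact (iff_of_eq h3).symm

/-- finite relations with `P` are given by automorphisms over `A` -/
theorem P_aut (hM : Mon L U) {A : Set U} (hA : A.Finite) {s : Set (U × U)} (hs : s.Finite)
    (h : P L A s) : ∃ g : U ≃[L] U, Fx L A g ∧ ∀ c ∈ s, g c.1 = c.2 := by
  have _ : Finite A := hA.to_subtype
  have _ : Finite s := hs.to_subtype
  obtain ⟨n, ⟨e⟩⟩ := Finite.exists_equiv_fin (A ⊕ s)
  let a : A ⊕ s → U := Sum.elim (fun a : A => (a : U)) fun c : s => c.1.1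
  let b : A ⊕ s → U := Sum.elim (fun a : A => (a : U)) fun c : s => c.1.2
  have h1 : tp (L := L) (a ∘ e.symm) = tp (b ∘ e.symm) := by
    have h2 : ∀ φ : L.Formula (Fin n), φ.Realize (a ∘ e.symm) ↔ φ.Realize (b ∘ e.symm) := by
      intro φ
      obtain ⟨ψ, hψ⟩ := exists_in (A := A) (α := s) (φ.relabel e.symm)
      have h3 := h s (fmE ψ) ((thm_FEQ _ _).2.2.1 _ ψ) (fun c => c.1.1) (fun c => c.1.2)
        fun c => c.2
      rw [er_fmE, hψ, hψ, FirstOrder.Language.Formula.realize_relabel,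
        FirstOrder.Language.Formula.realize_relabel] at h3
      exact h3
    ext φ
    exact h2 φ
  obtain ⟨g, hg⟩ := hM.hom n _ _ h1
  refine ⟨g, fun x hx => ?_, fun c hc => ?_⟩
  · have h3 := hg (e (Sum.inl ⟨x, hx⟩))
    simp only [Function.comp_apply, Equiv.symm_apply_apply] at h3
    exact h3
  · have h3 := hg (e (Sum.inr ⟨c, hc⟩))
    simp only [Function.comp_apply, Equiv.symm_apply_apply] at h3
    exact h3

/-- forth -/
theorem P_forth (hM : Mon L U) {A : Set U} (hA : A.Finite) {s : Set (U × U)} (hs : s.Finite)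
    (h : P L A s) (c : U) : ∃ d, P L A (insert (c, d) s) := by
  classical
  have _ : Finite A := hA.to_subtype
  have _ : Finite s := hs.to_subtype
  let a : s → U := fun p => p.1.1
  let b : s → U := fun p => p.1.2
  let a' : s ⊕ Unit → U := Sum.elim a fun _ => c
  let B : Set U := A ∪ (range a' ∪ range b)
  have hB : B.Finite := hA.union ((finite_range _).union (finite_range _))
  let D : (L[[A]]).Formula ((s ⊕ Unit) ⊕ (s ⊕ Unit)) → Set U := fun E =>
    {d | er E a' (Sum.elim b fun _ => d)}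
  let F : Set (Set U) := {t | ∃ E, Pool.Agent.MST.FE U E ∧ t = D E}
  have hF : ∀ t ∈ F, B.Definable₁ L t := by
    rintro t ⟨E, hE, rfl⟩
    obtain ⟨ψ, hψ⟩ := exists_out E
    unfold Definable₁
    rw [definable_iff_exists_formula_sum]
    let f : A ⊕ ((s ⊕ Unit) ⊕ (s ⊕ Unit)) → B ⊕ Fin 1 :=
      Sum.elim (fun x => Sum.inl ⟨x, Or.inl x.2⟩) (Sum.elim
        (fun i => Sum.inl ⟨a' i, Or.inr (Or.inl ⟨i, rfl⟩)⟩)
        (Sum.elim (fun i => Sum.inl ⟨b i, Or.inr (Or.inr ⟨i, rfl⟩)⟩) fun _ => Sum.inr 0))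
    refine ⟨ψ.relabel f, ?_⟩
    ext v
    have h5 : v ∈ {x : Fin 1 → U | x 0 ∈ D E} ↔ er E a' (Sum.elim b fun _ => v 0) := Iff.rfl
    rw [h5, Set.mem_ofPred_eq, FirstOrder.Language.Formula.realize_relabel]
    unfold er
    rw [hψ]
    apply iff_of_eq
    congr 1
    funext i
    rcases i with i | (i | (i | i))
    · rfl
    · rfl
    · rfl
    · rfl
  have hFI : ∀ G ⊆ F, G.Finite → ∃ E, Pool.Agent.MST.FE U E ∧ ∀ t ∈ G, D E ⊆ t := by
    intro G hG hfin
    induction G, hfin using Set.Finite.induction_on with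
    | empty =>
      exact ⟨fmE ⊤, (thm_FEQ _ _).2.2.1 _ _, fun t ht => absurd ht (Set.notMem_empty _)⟩
    | @insert t G _ _ ih =>
      obtain ⟨E, hE, h1⟩ := ih ((subset_insert _ _).trans hG)
      obtain ⟨E', hE', rfl⟩ := hG (mem_insert _ _)
      refine ⟨E ⊓ E', (thm_FEQ _ _).1 _ _ _ hE hE', ?_⟩
      have h2 : D (E ⊓ E') ⊆ D E ∩ D E' := by
        intro d hd
        have h3 : er (E ⊓ E') a' (Sum.elim b fun _ => d) := hd
        rw [er_inf] at h3
        exact h3
      rintro t (rfl | ht)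
      · exact h2.trans inter_subset_right
      · exact (h2.trans inter_subset_left).trans (h1 t ht)
  obtain ⟨d, hd⟩ := sat_fam hM hB hF (by
    intro G hG hfin
    obtain ⟨E, hE, h1⟩ := hFI G hG hfin
    have h2 := h s (prE E) ((thm_FEQ _ _).2.2.2 _ _ E hE) a b fun p => p.2
    rw [er_prE] at h2
    obtain ⟨y', hy'⟩ := h2.1 fun _ => c
    refine ⟨y' (), fun t ht => h1 t ht ?_⟩
    exact hy')
  refine ⟨d, fun α _ E hE x y hxy => ?_⟩
  have h1 : ∀ i, ∃ k : s ⊕ Unit, a' k = x i ∧ (Sum.elim b fun _ => d : s ⊕ Unit → U) k = y i := by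
    intro i
    rcases hxy i with hi | hi
    · exact ⟨Sum.inr (), (congrArg Prod.fst hi).symm, (congrArg Prod.snd hi).symm⟩
    · exact ⟨Sum.inl ⟨_, hi⟩, rfl, rfl⟩
  choose f hf hf' using h1
  have h2 := hd (D (pbE f E)) ⟨pbE f E, (thm_FEQ _ _).2.1 _ _ f E hE, rfl⟩
  have h3 : er (pbE f E) a' (Sum.elim b fun _ => d) := h2
  rw [er_pbE] at h3
  have h4 : a' ∘ f = x := funext hf
  have h5 : (Sum.elim b fun _ => d : s ⊕ Unit → U) ∘ f = y := funext hf'
  rwa [h4, h5] at h3

/-- back -/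
theorem P_back (hM : Mon L U) {A : Set U} (hA : A.Finite) {s : Set (U × U)} (hs : s.Finite)
    (h : P L A s) (d : U) : ∃ c, P L A (insert (c, d) s) := by
  obtain ⟨c, hc⟩ := P_forth hM hA (hs.image _) (P_swap h) d
  refine ⟨c, ?_⟩
  have h1 := P_swap hc
  rw [image_insert_eq, image_image] at h1
  simp only [Prod.swap_swap, image_id'] at h1
  exact h1

/-- back and forth -/
theorem baf {U : Type} [Countable U] [Nonempty U] (P : Set (U × U) → Prop)
    (hmo : ∀ s t, P s → t ⊆ s → P t) {s0 : Set (U × U)} (h00 : s0.Finite) (h0 : P s0)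
    (hf : ∀ s, s.Finite → P s → ∀ x, ∃ y, P (insert (x, y) s))
    (hb : ∀ s, s.Finite → P s → ∀ y, ∃ x, P (insert (x, y) s))
    (hg : ∀ s, s.Finite → P s → ∀ c ∈ s, ∀ c' ∈ s, (c.1 = c'.1 ↔ c.2 = c'.2)) :
    ∃ e : U ≃ U, (∀ c ∈ s0, e c.1 = c.2) ∧
      ∀ s : Set U, s.Finite → P ((fun x => (x, e x)) '' s) := by
  classical
  obtain ⟨ex, hex⟩ := exists_surjective_nat U
  -- the stages
  let T : Type := {s : Set (U × U) // s.Finite ∧ P s}
  have step : ∀ (n : ℕ) (s : T), ∃ s' : T, s.1 ⊆ s'.1 ∧ (∃ y, (ex n, y) ∈ s'.1) ∧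
      ∃ x, (x, ex n) ∈ s'.1 := by
    rintro n ⟨s, hs1, hs2⟩
    obtain ⟨y, h1⟩ := hf s hs1 hs2 (ex n)
    obtain ⟨x, h2⟩ := hb _ (hs1.insert _) h1 (ex n)
    refine ⟨⟨insert (x, ex n) (insert (ex n, y) s), (hs1.insert _).insert _, h2⟩, ?_, ?_, ?_⟩
    · exact (Set.subset_insert _ _).trans (Set.subset_insert _ _)
    · exact ⟨y, Or.inr (Or.inl rfl)⟩
    · exact ⟨x, Or.inl rfl⟩
  choose nx hnx1 hnx2 hnx3 using step
  let sq : ℕ → T := fun n => Nat.rec ⟨s0, h00, h0⟩ (fun n s => nx n s) n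
  have hsq : ∀ n, sq (n + 1) = nx n (sq n) := fun n => rfl
  have hmono : ∀ n m, n ≤ m → (sq n).1 ⊆ (sq m).1 := by
    intro n m hnm
    induction hnm with
    | refl => exact subset_rfl
    | step _ ih =>
      refine ih.trans ?_
      rw [hsq]
      exact hnx1 _ _
  have htot : ∀ x, ∃ n y, (x, y) ∈ (sq n).1 := by
    intro x
    obtain ⟨n, rfl⟩ := hex x
    obtain ⟨y, hy⟩ := hnx2 n (sq n)
    exact ⟨n + 1, y, by rw [hsq]; exact hy⟩
  have hsur : ∀ y, ∃ n x, (x, y) ∈ (sq n).1 := by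
    intro y
    obtain ⟨n, rfl⟩ := hex y
    obtain ⟨x, hx⟩ := hnx3 n (sq n)
    exact ⟨n + 1, x, by rw [hsq]; exact hx⟩
  have hone : ∀ n m (c c' : U × U), c ∈ (sq n).1 → c' ∈ (sq m).1 →
      (c.1 = c'.1 ↔ c.2 = c'.2) := by
    intro n m c c' h1 h2
    have h3 := hmono n (max n m) (le_max_left _ _) h1
    have h4 := hmono m (max n m) (le_max_right _ _) h2
    exact hg _ (sq (max n m)).2.1 (sq (max n m)).2.2 _ h3 _ h4
  choose N F hF using htot
  have hbij : Function.Bijective F := by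
    constructor
    · intro x x' h
      exact (hone _ _ _ _ (hF x) (hF x')).2 h
    · intro y
      obtain ⟨n, x, hx⟩ := hsur y
      exact ⟨x, (hone _ _ _ _ (hF x) hx).1 rfl⟩
  refine ⟨Equiv.ofBijective F hbij, fun c hc => ?_, fun s hs => ?_⟩
  · have h1 : c ∈ (sq 0).1 := hc
    exact (hone _ 0 _ _ (hF c.1) h1).1 rfl
  · obtain ⟨M, hM⟩ := (hs.image N).bddAbove
    refine hmo _ _ (sq M).2.2 ?_
    rintro _ ⟨x, hx, rfl⟩
    exact hmono (N x) M (hM (Set.mem_image_of_mem N hx)) (hF x)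

/-- a bijection which is locally an automorphism is an automorphism -/
theorem exists_equiv (e : U ≃ U)
    (h : ∀ s : Set U, s.Finite → ∃ g : U ≃[L] U, ∀ x ∈ s, g x = e x) :
    ∃ g : U ≃[L] U, ∀ x, g x = e x := by
  refine ⟨{ toEquiv := e, map_fun' := ?_, map_rel' := ?_ }, fun x => rfl⟩
  · intro n f x
    obtain ⟨g, hg⟩ := h (insert (FirstOrder.Language.Structure.funMap f x) (range x))
      ((finite_range x).insert _)
    have h1 : (g ∘ x : Fin n → U) = e ∘ x := funext fun i => hg _ (Or.inr ⟨i, rfl⟩)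
    have h2 := hg _ (Or.inl rfl)
    have h3 := g.map_fun f x
    rw [h1] at h3
    exact h2.symm.trans h3
  · intro n r x
    obtain ⟨g, hg⟩ := h (range x) (finite_range x)
    have h1 : (g ∘ x : Fin n → U) = e ∘ x := funext fun i => hg _ ⟨i, rfl⟩
    have h3 := g.map_rel r x
    rw [h1] at h3
    exact h3

/-- points in the same classes -/
theorem P_single {A : Set U} {x y : U} (h : ∀ E, FE L A E → E x y) : P L A {(x, y)} := by
  intro α _ E hE a b hab
  have ha : a = fun _ => x := funext fun i => congrArg Prod.fst (hab i)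
  have hb : b = fun _ => y := funext fun i => congrArg Prod.snd (hab i)
  subst ha hb
  have hE' := (thm_FEQ (L[[A]]) U).2.1 α Unit (fun _ => ()) E hE
  have h1 : FE L A fun u v => er E (fun _ => u) (fun _ => v) := by
    refine ⟨?_, ⟨fun u => hE.refl _, fun h => hE.symm _ _ h, fun h h' => hE.trans _ _ _ h h'⟩, ?_⟩
    · refine ⟨E.relabel (Sum.elim (fun _ => 0) (fun _ => 1)), ?_⟩
      ext v
      rw [Set.mem_ofPred_eq, Set.mem_ofPred_eq, FirstOrder.Language.Formula.realize_relabel]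
      unfold er
      apply iff_of_eq
      congr 1
      funext i
      rcases i with i | i <;> rfl
    · obtain ⟨F, hF, h2⟩ := hE'.fin
      refine ⟨(fun u => u ()) '' F, hF.image _, fun u => ?_⟩
      obtain ⟨z, hz, h3⟩ := h2 fun _ => u
      refine ⟨z (), ⟨z, hz, rfl⟩, ?_⟩
      rw [er_pbE] at h3
      exact h3
  exact h _ h1

/-- relations on points -/
theorem P_rel {A : Set U} {x y : U} (h : P L A {(x, y)}) {E : U → U → Prop} (hE : FE L A E) :
    E x y := by
  obtain ⟨φ, hφ⟩ := hE.dfn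
  have key : ∀ u v : U, E u v ↔ φ.Realize (![u, v] : Fin 2 → U) := by
    intro u v
    have h3 := congrArg (fun t : Set (Fin 2 → U) => (![u, v] : Fin 2 → U) ∈ t) hφ
    exact iff_of_eq h3
  let E' : (L[[A]]).Formula (Unit ⊕ Unit) :=
    φ.relabel fun i : Fin 2 => if i = 0 then Sum.inl () else Sum.inr ()
  have key' : ∀ u v : Unit → U, er E' u v ↔ E (u ()) (v ()) := by
    intro u v
    rw [key]
    show (φ.relabel _).Realize _ ↔ _
    rw [FirstOrder.Language.Formula.realize_relabel]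
    apply iff_of_eq
    congr 1
    funext i
    fin_cases i <;> rfl
  have hE' : Pool.Agent.MST.FE U E' := by
    refine ⟨fun u => ?_, fun u v => ?_, fun u v w => ?_, ?_⟩
    · rw [key']
      exact hE.eqv.refl _
    · rw [key', key']
      exact hE.eqv.symm
    · rw [key', key', key']
      exact hE.eqv.trans
    · obtain ⟨F, hF, h2⟩ := hE.fin
      refine ⟨(fun z _ => z) '' F, hF.image _, fun u => ?_⟩
      obtain ⟨z, hz, h3⟩ := h2 (u ())
      exact ⟨fun _ => z, ⟨z, hz, rfl⟩, (key' _ _).2 h3⟩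
  exact (key' _ _).1 (h Unit E' hE' (fun _ => x) (fun _ => y) fun _ => rfl)

end STG

/-- [STG] points in the same class of all `A`-definable finite equivalence relations are conjugate
under `Nx L A` -/
theorem nx_of_fe (hM : Mon L U) {A : Set U} (hA : A.Finite) {x y : U}
    (h : ∀ E, FE L A E → E x y) : ∃ g : U ≃[L] U, Nx L A g ∧ g x = y := by
  have _ := hM.ctb
  have _ : Nonempty U := ⟨x⟩
  obtain ⟨e, he, he'⟩ := STG.baf (STG.P L A) (fun s t hs hts => STG.P_mono hs hts)
    (finite_singleton (x, y)) (STG.P_single h)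
    (fun s hs h1 c => STG.P_forth hM hA hs h1 c) (fun s hs h1 d => STG.P_back hM hA hs h1 d)
    (fun s hs h1 c hc c' hc' => by
      obtain ⟨g, -, hg⟩ := STG.P_aut hM hA hs h1
      rw [← hg c hc, ← hg c' hc']
      exact g.injective.eq_iff.symm)
  obtain ⟨g, hg⟩ := STG.exists_equiv (L := L) e (fun s hs => by
    obtain ⟨g, -, hg⟩ := STG.P_aut hM hA (hs.image _) (he' s hs)
    exact ⟨g, fun z hz => hg _ ⟨z, hz, rfl⟩⟩)
  have h1 : ∀ z, STG.P L A {(z, g z)} := by
    intro z
    have h2 := he' {z} (finite_singleton z)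
    rw [image_singleton] at h2
    rw [hg]
    exact h2
  refine ⟨g, ⟨fun z hz => ?_, fun E hE z => STG.P_rel (h1 z) hE⟩, ?_⟩
  · obtain ⟨k, hk, hk'⟩ := STG.P_aut hM hA (finite_singleton _) (h1 z)
    have h3 := hk' _ rfl
    have h4 := hk z hz
    exact h3.symm.trans h4
  · rw [hg]
    exact he _ rfl

end Pool.Agent.GRK
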