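import Pool.Agent.GRK.NBA
import Pool.Agent.GRK.STG

/-!
GRK module NFE: definable sets invariant under `Nx L A`.
-/

set_option autoImplicit false
set_option linter.unusedVariables false
set_option linter.unusedSectionVars false

namespace Pool.Agent.GRK

open FirstOrder.Language Set
open scoped FirstOrder
open Pool.Agent.WOM (tp Mon IsEl IsoM CtU Fx Orb)
open Pool.Agent.PMC (Ini ct Dc cel Sin Nd Ct lts ext XS Ex Fa Ll LL Itv Sm Md NPf fx_refl fx_symm
  fx_comp fx_mono comp_apply' def_img def_mono def_compl def_inter def_union def_mem def_fix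
  def_of_fix conj_of_def exists_isd exists_fin_def isEl_of_orb mem_orb orb_meets sat_fam rel_fx
  rel_def1 rel_def2 rel_hull rel_swap def_close)

variable {L : FirstOrder.Language.{0, 0}} {U : Type} [L.Structure U] {κ ι : Type}
  {R : κ → U → U → Prop} {o : κ → κ} {S : ι → U → U → Prop}

/-- finitely many finite equivalence relations have a common refinement -/
private theorem nfe_inter {A : Set U} {G : Set (U → U → Prop)} (hG : G.Finite)
    (h : ∀ E ∈ G, FE L A E) : ∃ E, FE L A E ∧ ∀ E' ∈ G, ∀ x y, E x y → E' x y := by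
  induction G, hG using Set.Finite.induction_on with
  | empty => exact ⟨_, fe_top A, fun E' h' => absurd h' (notMem_empty E')⟩
  | @insert E₀ G hn hfin ih =>
    obtain ⟨E, hE, hE'⟩ := ih (fun E' h' => h E' (mem_insert_of_mem E₀ h'))
    refine ⟨_, fe_inter hE (h E₀ (mem_insert E₀ G)), ?_⟩
    intro E' h' x y hxy
    rcases h' with rfl | h'
    · exact hxy.2
    · exact hE' E' h' x y hxy.1

/-- definable sets invariant under `Nx L A` are, near each of their points, a class of a finite
equivalence relation -/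
theorem nx_fe (hM : Mon L U) {A B s : Set U} (hA : A.Finite) (hB : B.Finite)
    (hs : B.Definable₁ L s) (h : ∀ g : U ≃[L] U, Nx L A g → ∀ x ∈ s, g x ∈ s) {x : U}
    (hx : x ∈ s) : ∃ E, FE L A E ∧ ∀ y, E x y → y ∈ s := by
  by_contra hcon
  push Not at hcon
  have hF : ∀ t ∈ ({t : Set U | ∃ E, FE L A E ∧ t = {y | E x y}} ∪ {sᶜ} : Set (Set U)),
      (insert x (A ∪ B)).Definable₁ L t := by
    rintro t (⟨E, hE, rfl⟩ | ht)
    · exact def_mono (insert_subset_insert subset_union_left) (fe_def hE x)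
    · rw [mem_singleton_iff] at ht
      subst ht
      exact def_compl (def_mono ((subset_union_right).trans (subset_insert x (A ∪ B))) hs)
  obtain ⟨y, hy⟩ := sat_fam hM ((hA.union hB).insert x) hF (by
    intro G hG hfin
    classical
    -- choose the equivalence relations
    have h1 : ∀ t : Set U, ∃ E, FE L A E ∧
        ((∃ E, FE L A E ∧ t = {y | E x y}) → t = {y | E x y}) := by
      intro t
      by_cases ht : ∃ E, FE L A E ∧ t = {y | E x y}
      · obtain ⟨E, hE, hE'⟩ := ht
        exact ⟨E, hE, fun _ => hE'⟩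
      · exact ⟨_, fe_top A, fun h' => absurd h' ht⟩
    choose e he he' using h1
    obtain ⟨E, hE, hE'⟩ := nfe_inter (A := A) (G := e '' G) (hfin.image e) (by
      rintro _ ⟨t, _, rfl⟩
      exact he t)
    obtain ⟨y, hy, hys⟩ := hcon E hE
    refine ⟨y, ?_⟩
    intro t ht
    rcases hG ht with h2 | h2
    · rw [he' t h2]
      exact hE' (e t) ⟨t, ht, rfl⟩ x y hy
    · rw [mem_singleton_iff] at h2
      rw [h2]
      exact hys)
  obtain ⟨g, hg, hgx⟩ := nx_of_fe hM hA (x := x) (y := y)
    (fun E hE => hy {y | E x y} (Or.inl ⟨E, hE, rfl⟩))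
  have h1 : y ∈ sᶜ := hy sᶜ (Or.inr rfl)
  have h2 : g x ∈ s := h g hg x hx
  rw [hgx] at h2
  exact h1 h2

/-- a maximal set of inequivalent points of `M` -/
private theorem nfe_max {A M : Set U} {E : U → U → Prop} (hE : FE L A E) :
    ∃ t : Set U, t.Finite ∧ t ⊆ M ∧ ∀ y ∈ M, ∃ x ∈ t, E x y := by
  classical
  obtain ⟨s, hs, hs'⟩ := hE.fin
  have h1 : ∀ z : U, ∃ y : U, (∃ y ∈ M, E z y) → (y ∈ M ∧ E z y) := by
    intro z
    by_cases hz : ∃ y ∈ M, E z y
    · obtain ⟨y, hy, hy'⟩ := hz
      exact ⟨y, fun _ => ⟨hy, hy'⟩⟩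
    · exact ⟨z, fun h' => absurd h' hz⟩
  choose f hf using h1
  refine ⟨f '' {z | z ∈ s ∧ ∃ y ∈ M, E z y}, (hs.subset (fun z hz => hz.1)).image f, ?_, ?_⟩
  · rintro _ ⟨z, ⟨hz, hz'⟩, rfl⟩
    exact (hf z hz').1
  · intro y hy
    obtain ⟨z, hz, hyz⟩ := hs' y
    have hzy : E z y := hE.eqv.symm hyz
    refine ⟨f z, ⟨z, ⟨hz, y, hy, hzy⟩, rfl⟩, ?_⟩
    exact hE.eqv.trans (hE.eqv.symm (hf z ⟨y, hy, hzy⟩).2) hzy

private theorem nfe_compl {A M : Set U} (hAM : A ⊆ M) {E : U → U → Prop} (hE : FE L A E)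
    {t : Set U} (ht : t.Finite) (htM : t ⊆ M) : M.Definable₁ L {x | ∀ y ∈ t, ¬ E y x} := by
  induction t, ht using Set.Finite.induction_on with
  | empty =>
    have h1 : {x : U | ∀ y ∈ (∅ : Set U), ¬ E y x} = Set.univ := by
      ext x
      constructor
      · intro _
        exact mem_univ x
      · intro _ y hy
        exact absurd hy (notMem_empty y)
    rw [h1]
    have h2 : A.Definable₁ L (Set.univ : Set U) := definable_univ
    exact def_mono hAM h2
  | @insert z t hn hfin ih =>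
    have h1 : {x : U | ∀ y ∈ insert z t, ¬ E y x} =
        {x | E z x}ᶜ ∩ {x : U | ∀ y ∈ t, ¬ E y x} := by
      ext x
      constructor
      · intro hx
        exact ⟨hx z (mem_insert z t), fun y hy => hx y (mem_insert_of_mem z hy)⟩
      · rintro ⟨hx, hx'⟩ y hy
        rcases hy with rfl | hy
        · exact hx
        · exact hx' y hy
    rw [h1]
    have hz : z ∈ M := htM (mem_insert z t)
    have h2 : M.Definable₁ L {x | E z x} :=
      def_mono (insert_subset hz hAM) (fe_def hE z)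
    exact def_inter (def_compl h2) (ih (fun y hy => htM (mem_insert_of_mem z hy)))

/-- every class of an `A`-definable finite equivalence relation meets every elementary submodel
which contains `A` -/
theorem fe_meets (hM : Mon L U) {A M : Set U} (hMd : Md L A M) {E : U → U → Prop}
    (hE : FE L A E) (x : U) : ∃ y ∈ M, E x y := by
  obtain ⟨t, ht, htM, htE⟩ := nfe_max (M := M) hE
  have hdef : M.Definable₁ L {x | ∀ y ∈ t, ¬ E y x} := nfe_compl hMd.2 hE ht htM
  by_contra hcon
  push Not at hcon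
  have hx : x ∈ {x | ∀ y ∈ t, ¬ E y x} := by
    intro y hy hyx
    exact hcon y (htM hy) (hE.eqv.symm hyx)
  obtain ⟨y, hy, hyM⟩ := hMd.1 _ hdef ⟨x, hx⟩
  obtain ⟨z, hz, hzy⟩ := htE y hyM
  exact hy z hz hzy

/-- [B2] nonempty definable sets invariant under `Nx L A` meet every elementary submodel which
contains `A` -/
theorem nx_meets (hM : Mon L U) {A B s M : Set U} (hA : A.Finite) (hB : B.Finite)
    (hs : B.Definable₁ L s) (h : ∀ g : U ≃[L] U, Nx L A g → ∀ x ∈ s, g x ∈ s)
    (hMd : Md L A M) (hn : s.Nonempty) : ∃ y ∈ M, y ∈ s := by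
  obtain ⟨x, hx⟩ := hn
  obtain ⟨E, hE, hE'⟩ := nx_fe hM hA hB hs h hx
  obtain ⟨y, hy, hxy⟩ := fe_meets hM hMd hE x
  exact ⟨y, hy, hE' y hxy⟩

end Pool.Agent.GRK
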