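import Pool.Agent.GRK.NBA
import Pool.Agent.GRK.STG
import Pool.Agent.GRK.NFE
import Pool.Agent.GRK.NCM

/-!
GRK: base lemmas, second part: the automorphisms `Nx L A g` (modules NBA, STG, NFE, NCM).
-/
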