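import Pool.Agent.GRK.StA
import Pool.Agent.PMC.StB
import Pool.Agent.MNO.OFL

/-!
GRK: statements of the second part (helper23), with proofs in the docstrings: good pieces.  The text
follows `Pool/Agent/MNO/StB.lean` (T5) and `Pool/Agent/PMC/StB.lean`; new are GLC, OFM, FC1, FC2, FCA, FCT.
`w << z` is `Ll A sg w z` (= `Fa A sg true w z`: `z` is beyond `w` outwards).  `LL D V`: `d << v` for all
`d ∈ D`, `v ∈ V`.  In the cell `K = cel A j z` with `s = sg (o j) z` we say that `y ∈ K` is on the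
`b`-SIDE of the cut `C` if `y ∈ C ↔ s ≠ b` (`b = true`: outwards); `y` is `b`-BEYOND `x` if
`lts (sd b s) j x y`.  If `y` is on the `b`-side of a cut and `x` is not then `y` is `b`-beyond `x`; if
`x` is on the `b`-side and `y` is `b`-beyond `x` then `y` is on the `b`-side.
`Ex b w j z`: `z` is on the `b`-side of all `insert w A`-definable cuts strictly inside `cel A j z`.
-/

set_option autoImplicit false
set_option linter.unusedVariables false

namespace Pool.Agent.GRK

open FirstOrder.Language Set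
open scoped FirstOrder
open Pool.Agent.WOM (tp Mon IsEl IsoM CtU Fx Orb)
open Pool.Agent.PMC (Ini ct Dc cel Sin Nd Ct lts ext XS Ex Fa Ll LL Itv Sm Md NPf sd)

/-- [FAI] basic facts on good pieces.
PROOF.  (1) clear from the definitions (`sg ≠ b ↔ !sg ≠ !b`); `god` for the reversed orientation,
`i`, `x`, `y`: `god` for the converse relation `i'` and `y`, `x`, then `fin_tr`.
(2) `hC.uni`.  (3) `cls_fx`; `g` maps `insert w A`-definable cuts to `insert (g w) A`-definable cuts
(`dc_img`), cells over `A` to themselves, `sg` is constant on cells; apply this to `g` and `g⁻¹`.  (4), (5): for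
`w, z ∈ E` the set `{v ∈ cel A j z | Fa b w v}` is `ext (sd b (sg (o j) z)) (insert w A) j (cel A j z)`
((2), `cst`): EXB (1), (2), (3).  (6) EXB (7) and `cut`.  (7) EXB (6).  (8) EXB (5).  Model:
`Pool/Agent/PMC/FAI.lean`. -/
def St_FAI : Prop :=
  ∀ (L : FirstOrder.Language.{0, 0}) (U : Type) [L.Structure U] (κ ι : Type) (R : κ → U → U → Prop)
    (o : κ → κ) (S : ι → U → U → Prop), Cx L R o S → ∀ (A E : Set U) (sg : κ → U → Bool), Ori L R o S A E sg →
    (Ori L R o S A E (fun j z => !sg j z) ∧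
      ∀ b w j z, Ex L R o A (fun j z => !sg j z) b w j z ↔ Ex L R o A sg (!b) w j z) ∧
    (∀ w ∈ E, ∀ z ∈ E, ∀ b i, Ex L R o A sg b w i z → Fa L R o A sg b w z) ∧
    (∀ g : U ≃[L] U, Fx L A g → (∀ x, g x ∈ E ↔ x ∈ E) ∧
      ∀ w ∈ E, ∀ z ∈ E, ∀ b, (Fa L R o A sg b (g w) (g z) ↔ Fa L R o A sg b w z)) ∧
    (∀ w ∈ E, ∀ z ∈ E, ∀ j b, ∃ v ∈ cel L R o A j z, Fa L R o A sg b w v) ∧
    (∀ w ∈ E, ∀ z ∈ E, ∀ j b, ∀ v ∈ cel L R o A j z, Fa L R o A sg b w v →
      Nd L (insert w A) v ∧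
        cel L R o (insert w A) j v = {y | y ∈ cel L R o A j z ∧ Fa L R o A sg b w y}) ∧
    (∀ w ∈ E, ∀ z ∈ E, ∀ b, Fa L R o A sg b w z → ¬ Fa L R o A sg (!b) w z) ∧
    (∀ w ∈ E, ∀ z ∈ E, ∀ j b, ∀ y ∈ cel L R o A j z, Fa L R o A sg b w z →
      lts R o (sd b (sg (o j) z)) j z y → Fa L R o A sg b w y) ∧
    (∀ w ∈ E, ∀ z ∈ E, ∀ j b, ∀ p ∈ cel L R o A j z, Fa L R o A sg b w z →
      ∃ g : U ≃[L] U, Nx L (insert w A) g ∧ lts R o (sd b (sg (o j) z)) j p (g z))

/-- [GLC] (CONS) the points of a good piece beyond `w` form a union of pieces over `insert w A`.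
PROOF.  `B = insert w A`.  Let `Lk B u z`.  `u ∈ E ↔ z ∈ E` (`cls_anti`, `clo`).  Let `u, z ∈ E`; by symmetry
(`lk_symm`) it is enough to refute `Fa b w z` and not `Fa b w u`.  By (FAI (2), `cst`, `hC.uni`) `Fa b' w v` iff
`v ∈ ext (sd b' (sg (o j) v)) B j (cel A j v)`, `v ∈ E`.  So `z ∈ ext (sd b (sg (o j) z)) B j (cel A j z)`.  If also not
`Fa (!b) w u` then `u` is in no `ext b' B j (cel A j u)`, and AV (`u := z`, `z := u`) gives not `Lk B z u`, `lk_symm`.
Let `Fa (!b) w u`; by `lk_symm` we may assume `b = true` (otherwise exchange `u` and `z`): `Fa true w z`,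
`Fa false w u`, `Lk B u z`: for some `i` the points of `cel B j z` have infinitely many traces on `cel B j u`.
`K = cel A j u`, `J = cel A j z`, `C` a `B`-definable cut strictly inside `K` (`cut`), `X` = the points of `K` on the
`false`-side of `C`: `cel B j u ⊆ X` (FAI (5), the points of this cell are `Fa false w`), `X` is invariant under
automorphisms over `B`.  `god` for `i`, `u`, `z`: `p ∈ K`, `q ∈ J`; take a point `c` of `K` on the `true`-side of `C` and
(`move`) `g` over `A` with `g p` outwards of `c`; then (images under `g`) the points of `J` outwards of `g q` have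
finitely many traces on the points of `K` inwards of `g p`, so on `X` (`fin_tr_sub`).  Let `Q` be the set of the
traces `t` on `X` which are recurrent in `J` outwards (for all `q' ∈ J` there is `y' ∈ J` outwards of `q'` with
trace `t`); `Q` is finite, and beyond some `q1 ∈ J` all traces are in `Q` (as in ATT).  `Q` is invariant over
`B`.  Every `z' ∈ cel B j z` has its trace in `Q`: otherwise take `h` over `B` with `h z'` outwards of `q1` (FAI (8),
(5)): its trace is not in `Q`.  So the traces of `cel B j z` on `X` are finitely many, also on `cel B j u ⊆ X`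
(`fin_tr_sub`): contradiction. -/
def St_GLC : Prop :=
  ∀ (L : FirstOrder.Language.{0, 0}) (U : Type) [L.Structure U] (κ ι : Type) (R : κ → U → U → Prop)
    (o : κ → κ) (S : ι → U → U → Prop), Cx L R o S → ∀ (A E : Set U) (sg : κ → U → Bool), Ori L R o S A E sg →
    ∀ w ∈ E, ∀ b : Bool, Cls L R o S (insert w A) {z | z ∈ E ∧ Fa L R o A sg b w z}

/-- [GLE] gluing over one point.
PROOF.  GLC and PRD over `insert w A`. -/
def St_GLE : Prop :=
  ∀ (L : FirstOrder.Language.{0, 0}) (U : Type) [L.Structure U] (κ ι : Type) (R : κ → U → U → Prop)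
    (o : κ → κ) (S : ι → U → U → Prop), Cx L R o S → ∀ (A E : Set U) (sg : κ → U → Bool), Ori L R o S A E sg →
    ∀ w ∈ E, ∀ (b : Bool) (g : U ≃[L] U), Nx L (insert w A) g →
    ∃ h : U ≃[L] U, Nx L (insert w A) h ∧ (∀ z ∈ E, Fa L R o A sg b w z → h z = g z) ∧
      ∀ z, ¬ (z ∈ E ∧ Fa L R o A sg b w z) → h z = z

/-- [GPR] cuts of points beyond `w` which are not cuts of the region beyond `w` are definable over `w`.
PROOF.  `nx_cut` for the sets `insert w A` and `A ∪ D`.  Let `g` be in `Nx (insert w A)`, `h` from GLE.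
`h` and `g` agree on `A ∪ D` (`D ⊆ {z ∈ E | Fa b w z}`; on `A` both are the identity), so
`h⁻¹ ∘ g` fixes `A ∪ D`, hence `C`, so `g '' C = h '' C`.  Claim `h '' C = C`.  Let `K = cel A j z ⊆ E`
(`cel_sub_pc`, `pc_sub`), `K^b = {y ∈ K | Fa b w y}`.  `h` maps `K^b` onto itself and fixes the other points
of `K`; `C ∩ K^b` is empty or `K^b`; so `h` preserves `C ∩ K`.  Points below `K` are in `C`, points above
`K` are not, and `h` preserves the set of the points below `K` (`fx_mem_cel`).  (The PMC version of this module is in preparation by its prover.) -/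
def St_GPR : Prop :=
  ∀ (L : FirstOrder.Language.{0, 0}) (U : Type) [L.Structure U] (κ ι : Type) (R : κ → U → U → Prop)
    (o : κ → κ) (S : ι → U → U → Prop), Cx L R o S → ∀ (A E : Set U) (sg : κ → U → Bool), Ori L R o S A E sg →
    ∀ w ∈ E, ∀ (b : Bool) (D : Set U), D.Finite → D ⊆ E → (∀ d ∈ D, Fa L R o A sg b w d) →
    ∀ z ∈ E, ∀ (j : κ) (C : Set U), Dc L R o (A ∪ D) j C → Sin C (cel L R o A j z) →
    ¬ Sin C {y | y ∈ cel L R o A j z ∧ Fa L R o A sg b w y} → Dc L R o (insert w A) j C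

/-- [FTW] (F2) cuts of `u` and `w` if `u` is `b`-beyond `w`: the cut of `u` is strictly `b`-beyond.
PROOF.  As in `Pool/Agent/MNO/FTW.lean`.  `K = cel A j z`, `K^b = {y ∈ K | Fa b w y}`.  Suppose there is no such
`y`.  Every `y ∈ K^b` is on the `b`-side of `C'`, so it is not on the `!b`-side of `C`, so it is on the `b`-side
of `C`.  So `C` is not strictly inside `K^b`, and GPR (`D = {u}`) gives `Dc (insert w A) j C`.  Take `v0 ∈ K` with
`Fa !b w v0` (FAI (4)), `y0 ∈ K` on the `b`-side of `C`, and (`move`) `t` over `A` with `t y0` `!b`-beyond `v0`; so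
`v0` is on the `b`-side of `t '' C`.  `t '' C` is definable over `insert (t u) A` and over `insert (t w) A`, and
`Fa b (t w) (t u)` (FAI (3)).  With any `i`: `p ∈ cel A i (t u)` with `Fa b w p` (FAI (4)), and `r` over
`insert (t w) A` with `r (t u)` `b`-beyond `p` (FAI (8)), so `Fa b w (r (t u))` (FAI (7)).  `r '' (t '' C) =
t '' C`, so `t '' C` is definable over `insert (r (t u)) A`.  Points of `K^b` are `b`-beyond `v0` (FAI (6),
(7)), so on the `b`-side of `t '' C`; so `t '' C` is not strictly inside `K^b` and GPR (`D = {r (t u)}`)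
gives `Dc (insert w A) j (t '' C)`.  It is strictly inside `K` (`sin_img`), so `v0` is on its `!b`-side:
contradiction. -/
def St_FTW : Prop :=
  ∀ (L : FirstOrder.Language.{0, 0}) (U : Type) [L.Structure U] (κ ι : Type) (R : κ → U → U → Prop)
    (o : κ → κ) (S : ι → U → U → Prop), Cx L R o S → ∀ (A E : Set U) (sg : κ → U → Bool), Ori L R o S A E sg →
    ∀ w ∈ E, ∀ u ∈ E, ∀ b, Fa L R o A sg b w u → ∀ z ∈ E, ∀ (j : κ) (C C' : Set U),
    Dc L R o (insert u A) j C → Dc L R o (insert w A) j C' → Sin C (cel L R o A j z) →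
    Sin C' (cel L R o A j z) → ∃ y ∈ cel L R o A j z,
      (y ∈ C ↔ sg (o j) z ≠ (!b)) ∧ (y ∈ C' ↔ sg (o j) z ≠ b)

/-- [ORD] (F3) the weak order.
PROOF.  Copy `Pool/Agent/MNO/ORD.lean` (it uses FAI, FTW and base lemmas). -/
def St_ORD : Prop :=
  ∀ (L : FirstOrder.Language.{0, 0}) (U : Type) [L.Structure U] (κ ι : Type) (R : κ → U → U → Prop)
    (o : κ → κ) (S : ι → U → U → Prop), Cx L R o S → ∀ (A E : Set U) (sg : κ → U → Bool), Ori L R o S A E sg →
    (∀ w ∈ E, ∀ u ∈ E, ∀ b, (Fa L R o A sg b w u ↔ Fa L R o A sg (!b) u w)) ∧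
    (∀ w ∈ E, ∀ b, ¬ Fa L R o A sg b w w) ∧
    (∀ u ∈ E, ∀ w ∈ E, Ll L R o A sg u w → ∀ v ∈ E, Ll L R o A sg u v ∨ Ll L R o A sg v w) ∧
    (∀ u ∈ E, ∀ v ∈ E, ∀ w ∈ E, Ll L R o A sg u v → Ll L R o A sg v w → Ll L R o A sg u w) ∧
    (∀ z ∈ E, ∀ j, ∀ y ∈ cel L R o A j z, ∀ y' ∈ cel L R o A j z,
      lts R o (sg (o j) z) j y y' → ∀ w ∈ E, (Ll L R o A sg w y → Ll L R o A sg w y') ∧
        (Ll L R o A sg y' w → Ll L R o A sg y w)) ∧
    (∀ z ∈ E, ∀ j, ∀ y ∈ cel L R o A j z, ∀ y' ∈ cel L R o A j z,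
      Ll L R o A sg y y' → lts R o (sg (o j) z) j y y')

/-- [BTW] points between finite sets.
PROOF.  Copy `Pool/Agent/MNO/BTW.lean` (FAI, FTW, ORD). -/
def St_BTW : Prop :=
  ∀ (L : FirstOrder.Language.{0, 0}) (U : Type) [L.Structure U] (κ ι : Type) (R : κ → U → U → Prop)
    (o : κ → κ) (S : ι → U → U → Prop), Cx L R o S → ∀ (A E : Set U) (sg : κ → U → Bool), Ori L R o S A E sg →
    ∀ (D V : Set U), D.Finite → V.Finite → D ⊆ E → V ⊆ E → LL L R o A sg D V → ∀ z ∈ E, ∀ j,
    ∃ p ∈ cel L R o A j z, LL L R o A sg D {p} ∧ LL L R o A sg {p} V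

/-- [TUP] cuts of finite sets.
PROOF.  Copy `Pool/Agent/MNO/TUP.lean` (FAI, GPR, ORD, BTW). -/
def St_TUP : Prop :=
  ∀ (L : FirstOrder.Language.{0, 0}) (U : Type) [L.Structure U] (κ ι : Type) (R : κ → U → U → Prop)
    (o : κ → κ) (S : ι → U → U → Prop), Cx L R o S → ∀ (A E : Set U) (sg : κ → U → Bool), Ori L R o S A E sg →
    ∀ (D : Set U), D.Finite → D ⊆ E → ∀ z ∈ E, ∀ (j : κ) (C : Set U), Dc L R o (A ∪ D) j C →
    Sin C (cel L R o A j z) → ∀ v ∈ cel L R o A j z, ∀ b, (∀ d ∈ D, Fa L R o A sg b v d) →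
    (v ∈ C ↔ sg (o j) z ≠ (!b))

/-- [MVT] moving finite sets.
PROOF.  As in `Pool/Agent/MNO/MVT.lean`, with `nx_move` over `A ∪ D` in place of `move`. -/
def St_MVT : Prop :=
  ∀ (L : FirstOrder.Language.{0, 0}) (U : Type) [L.Structure U] (κ ι : Type) (R : κ → U → U → Prop)
    (o : κ → κ) (S : ι → U → U → Prop), Cx L R o S → ∀ (A E : Set U) (sg : κ → U → Bool), Ori L R o S A E sg →
    ∀ (D V Z : Set U), D.Finite → V.Finite → Z.Finite → D ⊆ E → V ⊆ E → Z ⊆ E →
    LL L R o A sg D V →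
    (LL L R o A sg D Z → ∃ g : U ≃[L] U, Nx L (A ∪ D) g ∧ LL L R o A sg D (g '' Z) ∧
      LL L R o A sg (g '' Z) V) ∧
    (LL L R o A sg Z V → ∃ g : U ≃[L] U, Nx L (A ∪ V) g ∧ LL L R o A sg D (g '' Z) ∧
      LL L R o A sg (g '' Z) V)

/-! ### The facts between `x << w` -/

/-- [OFM] the module OFL of MNO for arbitrary `U`.
PROOF.  `Pool/Agent/MNO/OFL.lean` (the proof uses only `hC.mon`): copy it with `hM : Mon L U`. -/
def St_OFM : Prop :=
  ∀ (L : FirstOrder.Language.{0, 0}) (U : Type) [L.Structure U], Mon L U →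
    ∀ (α : Type) [Finite α] (A : Set U) (x0 : α → U)
    (P : (α → U) → (α → U) → Prop) (p : Set (α → U)), A.Finite →
    p = {u | ∃ g : U ≃[L] U, Fx L A g ∧ u = fun i => g (x0 i)} →
    (∀ g : U ≃[L] U, Fx L A g → ∀ u v, P u v → P (fun i => g (u i)) (fun i => g (v i))) →
    (∀ u ∈ p, P u u) → (∀ u ∈ p, ∀ v ∈ p, P u v → P v u) →
    (∀ u ∈ p, ∀ v ∈ p, ∀ w ∈ p, P u v → P v w → P u w) →
    (∃ F ⊆ p, F.Finite ∧ ∀ u ∈ p, ∃ v ∈ F, P u v) →
    (∀ u ∈ p, ∀ v ∈ p, P u v → ∃ E : (α ⊕ α → U) → Prop, Pool.Agent.MNO.Dp L A E ∧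
      E (Sum.elim u v) ∧ ∀ u' ∈ p, ∀ v' ∈ p, E (Sum.elim u' v') → P u' v') →
    ∀ u ∈ p, ∀ v ∈ p, Pool.Agent.MNO.Sq L A u v → P u v

/-- `u`, `u'` have the same facts with the points of the orbit of `w` over `A` which are `b`-beyond both -/
def Fcr {L : FirstOrder.Language.{0, 0}} {U : Type} [L.Structure U] {κ ι : Type}
    (R : κ → U → U → Prop) (o : κ → κ) (S : ι → U → U → Prop) (A : Set U) (sg : κ → U → Bool)
    (b : Bool) (i : ι) (w u u' : U) : Prop :=
  ∀ g : U ≃[L] U, Fx L A g → Fa L R o A sg b u (g w) → Fa L R o A sg b u' (g w) →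
    (S i u (g w) ↔ S i u' (g w))

/-- [FC1] `Fcr` is an equivalence relation with finitely many classes on an orbit.
PROOF.  `J = cel A j w`, `K = cel A j x`, `X0` = the orbit of `x` over `A`, `q` = the orbit of `w`.
MOVING: let `D ⊆ E` be finite, `w' ∈ q` with `Fa b d w'` for all `d ∈ D`, and `y ∈ J`.  There is `h` over `A ∪ D` such that
`h w'` is `b`-beyond `y` (`lts (sd b (sg (o j) w)) j y (h w')`): all points `v ∈ J` with `Fa b d v` for all `d ∈ D` are in
one cell over `A ∪ D` (TUP, ORD (1): `Fa b d v ↔ Fa (!b) v d`; the other cuts do not separate points of `J`), some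
`v` in it is `b`-beyond `y` and `w'` (FAI (7), `exists_lts`), the cell has two points so `w'` is not definable over
`A ∪ D`, `move` over `A ∪ D` (see the proof of MVT).  `Fa b d (h w')` for `d ∈ D` (FAI (3)).
(1) transitivity: let `u1, u2, u3 ∈ X0`, `w' ∈ q`, `Fa b u1 w'`, `Fa b u3 w'`.  Take `y ∈ J` with `Fa b u2 y` (FAI (4)) and
MOVING with `D = {u1, u3}`: `w'' = h w'` is `b`-beyond `y`, so `Fa b u2 w''` (FAI (7)).  `S i u1 w' ↔ S i u1 w''` (`S_img`),
`↔ S i u2 w'' ↔ S i u3 w'' ↔ S i u3 w'`.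
(2) `k` with `NoDiv R o S j i k` (`hC.grd`).  Suppose that there are `2 ^ k` pairwise inequivalent points in `X0`, `X` the
set of these.  For `u ≠ u'` in `X` there is `w'` in `q` with different facts, `Fa b u w'`, `Fa b u' w'`; by MOVING (`D = {u, u'}`,
`y ∈ J` with `Fa b v y` for all `v ∈ X`: BTW or FAI (4), (7)) also `Fa b v w'` for all `v ∈ X`.  So the traces `tr S i X w'` of
the `w'` in `q' = {w' ∈ q | Fa b v w' for all v ∈ X}` separate the points of `X`; so there are at least `k` of them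
(a point of `X` is determined by the set of the traces which contain it): `w_1, .., w_k ∈ q'` with different
traces on `X`; by MOVING (`D = X`) for every `y ∈ J` they can be replaced by points `b`-beyond `y` (same traces).
`move` in `K`: `g_0, .., g_(k-1)` over `A` with all points of `g_a '' X` below (`R (o j)`) all points of `g_(a+1) '' X`
(move the lowest point of `X` above the highest of `g_a '' X`).  `I a = g_a '' X`.  For every `a` and `y ∈ J` there are
`k` points of `J` `b`-beyond `y` with different traces on `I a` (images under `g_a` of points `b`-beyond `g_a⁻¹ y`).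
Choose recursively finite sets `J_0, J_1, .. ⊆ J`, each `b`-beyond the previous one, such that `J_c` contains `k` such
points for every `a < k`; for `sd b (sg (o j) w) = false` reverse the order.  Contradiction to `NoDiv`. -/
def St_FC1 : Prop :=
  ∀ (L : FirstOrder.Language.{0, 0}) (U : Type) [L.Structure U] (κ ι : Type) (R : κ → U → U → Prop)
    (o : κ → κ) (S : ι → U → U → Prop), Cx L R o S →
    ∀ (A E : Set U) (sg : κ → U → Bool), Ori L R o S A E sg →
    ∀ (i : ι) (b : Bool) (x w : U), x ∈ E → w ∈ E →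
    (∀ u1 ∈ Orb L A x, ∀ u2 ∈ Orb L A x, ∀ u3 ∈ Orb L A x,
      Fcr (L := L) R o S A sg b i w u1 u2 → Fcr (L := L) R o S A sg b i w u2 u3 →
      Fcr (L := L) R o S A sg b i w u1 u3) ∧
    ∃ F ⊆ Orb L A x, F.Finite ∧ ∀ u ∈ Orb L A x, ∃ v ∈ F, Fcr (L := L) R o S A sg b i w u v

/-- [FC2] `Fcr` is open.
PROOF.  `u, u'` in the orbit of `x`, `J = cel A j w`.  Saturation (`sat_fam`, one variable `w'`, over
`insert u (insert u' A)`) for: the `A`-definable sets which contain `w`; the sets of the points on the `b`-side of `C`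
(`C` or its complement) for the `insert u A`-definable and the `insert u' A`-definable cuts `C` strictly inside
`J`; and `{w' | ¬ (S i u w' ↔ S i u' w')}`.  A point `w'` in all of them is `g w` for some `g` over `A` (`conj_of_def`), in
`J` (`fx_cel`), `Ex b u j w'`, `Ex b u' j w'` (`cst`: `sg (o j) w' = sg (o j) w`), so `Fa b u w'`, `Fa b u' w'` (FAI (2)):
contradiction to `Fcr .. u u'`.  So there are an `A`-definable `θ` with `w ∈ θ` and finite sets `G`, `G'` of cuts of
`u`, of `u'` such that all `w' ∈ θ` on the `b`-side of all these cuts have `S i u w' ↔ S i u' w'`.  Every `C ∈ G` is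
`{v | Q_C (v, u)}` for an `A`-definable `Q_C` (`Pool.Agent.MNO.dp_fam1`), every `C ∈ G'` is `{v | Q_C (v, u')}`.
`E (v, v')` := for all `w' ∈ θ`: if (`Q_C (w', v)` iff `sg (o j) w ≠ b`) for all `C ∈ G` and (`Q_C (w', v')` iff
`sg (o j) w ≠ b`) for all `C ∈ G'` then (`S i v w' ↔ S i v' w'`).  It is `A`-definable (`dp_all1`, `dp_ball`, ..) and
holds for `(u, u')`.  Let `E (v, v')`, `v, v'` in the orbit of `x`, and `g w` with `Fa b v (g w)`, `Fa b v' (g w)`.
`g w ∈ θ`.  `v = h u` (`h` over `A`): `{y | Q_C (y, v)} = h '' C` (`dp_fx`) is an `insert v A`-definable cut strictly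
inside `h '' J = J`, so `g w` is on its `b`-side; the same for `v'`.  So `S i v (g w) ↔ S i v' (g w)`. -/
def St_FC2 : Prop :=
  ∀ (L : FirstOrder.Language.{0, 0}) (U : Type) [L.Structure U] (κ ι : Type) (R : κ → U → U → Prop)
    (o : κ → κ) (S : ι → U → U → Prop), Cx L R o S →
    ∀ (A E : Set U) (sg : κ → U → Bool), Ori L R o S A E sg →
    ∀ (i : ι) (b : Bool) (x w : U), x ∈ E → w ∈ E → ∀ u ∈ Orb L A x, ∀ u' ∈ Orb L A x,
    Fcr (L := L) R o S A sg b i w u u' →
    ∃ P : (Unit ⊕ Unit → U) → Prop, Pool.Agent.MNO.Dp L A P ∧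
      P (Sum.elim (fun _ => u) (fun _ => u')) ∧
      ∀ v ∈ Orb L A x, ∀ v' ∈ Orb L A x, P (Sum.elim (fun _ => v) (fun _ => v')) →
        Fcr (L := L) R o S A sg b i w v v'

/-- [FCA] one side of the facts may be moved.
PROOF.  OFM for `α := Unit`, `x0 = fun _ => x`, `p` = the orbit, `P u v := Fcr .. w (u ()) (v ())`: invariant
(`S_img`, FAI (3); replace `g` by `h⁻¹ g`), reflexive and symmetric clearly, transitive and finite: FC1,
open: FC2.  `Sq L A (fun _ => x) (fun _ => g x)` for `g` in `Nx L A`: for `E` with `MNO.FE L A E` on `Unit → U` the relation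
`F y y' := E (fun _ => y) (fun _ => y')` is in `FE L A`.  So `Fcr .. w x (g x)`; take the identity for the
automorphism. -/
def St_FCA : Prop :=
  ∀ (L : FirstOrder.Language.{0, 0}) (U : Type) [L.Structure U] (κ ι : Type) (R : κ → U → U → Prop)
    (o : κ → κ) (S : ι → U → U → Prop), Cx L R o S →
    ∀ (A E : Set U) (sg : κ → U → Bool), Ori L R o S A E sg →
    ∀ (i : ι) (b : Bool), ∀ x ∈ E, ∀ w ∈ E, Fa L R o A sg b x w → ∀ g : U ≃[L] U, Nx L A g →
    Fa L R o A sg b (g x) w → (S i x w ↔ S i (g x) w)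

/-- [FCT] the facts between `z << z'` depend only on the orbits of `z` and `z'` under `Nx L A`.
PROOF.  (M1) FCA with `b = true`: `x << w`, `g x << w` imply `S i x w ↔ S i (g x) w`.  (M2) FCA for the converse
relation `i'`, `b = false`, with the roles exchanged, and ORD (1): `x << w`, `x << h w` imply `S i x w ↔ S i x (h w)`.
Let `z << z'`, `g z << g' z'`.  Take `y ∈ cel A j z'` with `z << y`, `g z << y` (BTW with `D = {z, g z}`, `V = ∅`) and
(`nx_move`) `h` in `Nx A` such that `h z'` is outwards of `y`: `z << h z'`, `g z << h z'` (ORD (5)).  `S i z z' ↔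
S i z (h z')` (M2) `↔ S i (g z) (h z')` (M1) `↔ S i (g z) (g' z')` (M2 for `w := h z'`, `h := g' h⁻¹`). -/
def St_FCT : Prop :=
  ∀ (L : FirstOrder.Language.{0, 0}) (U : Type) [L.Structure U] (κ ι : Type) (R : κ → U → U → Prop)
    (o : κ → κ) (S : ι → U → U → Prop), Cx L R o S →
    ∀ (A E : Set U) (sg : κ → U → Bool), Ori L R o S A E sg →
    ∀ z ∈ E, ∀ z' ∈ E, ∀ g g' : U ≃[L] U, Nx L A g → Nx L A g' → Ll L R o A sg z z' →
    Ll L R o A sg (g z) (g' z') → ∀ i, (S i z z' ↔ S i (g z) (g' z'))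

/-- [CHN] gluing along a chain.
PROOF.  As `Pool/Agent/PMC/CHN.lean`, with `Nx L A` in place of `Fx L A`; MVT gives `Nx`, PRD gives `Nx`.  Let `F` be
nonempty (otherwise the identity).  (a) There are `r_n` in `Nx A` with `r_0 = id`, `r_(n+1) b = r_n (g b)` for
`b ∈ F`, and, with `B_n = r_n '' F`: `LL B_n B_(n+1)`, `LL B_n W`.  (b) `q_n = r_(n+1) ∘ r_n⁻¹` is in `Nx A` and maps `B_n`
onto `B_(n+1)` and `B_(n+1)` onto `B_(n+2)`.  (c) For `z ∈ E` let `N z` be the least `n` with not `LL B_n {z}`.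
`H z = z` if `z ∉ E` or `LL B_n {z}` for all `n`; `H z = q_0 z` if `N z = 0`; `H z = q_(n-1) z` if `N z = n ≥ 1`: a
permutation.  (d) `hC.det` for `H`: every `H x` is the image of `x` under an automorphism in `Nx A`.  `S i x y ↔
S i (H x) (H y)`: `x ∉ E` or `y ∉ E`: PRD with `Q = E` and `q` (the automorphism `q` on `E`, identity elsewhere).
`x, y ∈ E` with the same `N` (or both without): the same automorphism.  Otherwise `x << y` and `H x << H y`, or
`y << x` and `H y << H x`: FCT (for `i`, or for the converse `i'`).  So `H` is an automorphism, in `Nx A` (`nx_glue`); it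
fixes `W` (`LL B_n W` for all `n`), and for `b ∈ F`: `N b = 0`, `H b = q_0 b = r_1 b = g b`. -/
def St_CHN : Prop :=
  ∀ (L : FirstOrder.Language.{0, 0}) (U : Type) [L.Structure U] (κ ι : Type) (R : κ → U → U → Prop)
    (o : κ → κ) (S : ι → U → U → Prop), Cx L R o S →
    ∀ (A E : Set U) (sg : κ → U → Bool), Ori L R o S A E sg →
    ∀ (F W : Set U), F.Finite → W.Finite → F ⊆ E → W ⊆ E → LL L R o A sg F W →
    ∀ g : U ≃[L] U, Nx L A g → LL L R o A sg F (g '' F) → LL L R o A sg (g '' F) W →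
    ∃ h : U ≃[L] U, Nx L A h ∧ (∀ w ∈ W, h w = w) ∧ ∀ b ∈ F, h b = g b

/-- [ORT] orthogonality.
PROOF.  As `Pool/Agent/PMC/ORT.lean`.  (1) `F = ∅`: identity.  MVT (1) (with `D := ∅`, `V := F ∪ g '' F`, `Z := F`): `t` in
`Nx A` with `LL (t '' F) (F ∪ g '' F)`, so `LL (t '' F) W` (ORD (4)).  CHN for `t '' F` and the automorphism `t⁻¹`: `h1`
which fixes `W` with `h1 (t b) = b`; CHN for `t '' F` and `g ∘ t⁻¹`: `h2 (t b) = g b`.  `h = h2 ∘ h1⁻¹`.
(2) (1) for the reversed orientation (FAI (1), ORD (1)).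
(3) (1) with `F := M`, `W := V`: `h1` in `Nx A` which fixes `V`, `h1 = g` on `M`.  (2) with `W := D`,
`F := M ∪ V`, `g := h1` (`h1` fixes `V`): `h` in `Nx A` which fixes `D`, `h = h1` on `M ∪ V`.
(4) MVT (1) with `D := ∅`: `g1` in `Nx A` with `LL (g1 '' Z) V`; MVT (2) with `Z := g1 '' Z`: `g2`. -/
def St_ORT : Prop :=
  ∀ (L : FirstOrder.Language.{0, 0}) (U : Type) [L.Structure U] (κ ι : Type) (R : κ → U → U → Prop)
    (o : κ → κ) (S : ι → U → U → Prop), Cx L R o S → ∀ (A E : Set U) (sg : κ → U → Bool), Ori L R o S A E sg →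
    (∀ (F W : Set U), F.Finite → W.Finite → F ⊆ E → W ⊆ E → LL L R o A sg F W →
      ∀ g : U ≃[L] U, Nx L A g → LL L R o A sg (g '' F) W →
      ∃ h : U ≃[L] U, Nx L A h ∧ (∀ w ∈ W, h w = w) ∧ ∀ b ∈ F, h b = g b) ∧
    (∀ (F W : Set U), F.Finite → W.Finite → F ⊆ E → W ⊆ E → LL L R o A sg W F →
      ∀ g : U ≃[L] U, Nx L A g → LL L R o A sg W (g '' F) →
      ∃ h : U ≃[L] U, Nx L A h ∧ (∀ w ∈ W, h w = w) ∧ ∀ b ∈ F, h b = g b) ∧
    (∀ (D M V : Set U), D.Finite → M.Finite → V.Finite → D ⊆ E → M ⊆ E → V ⊆ E →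
      LL L R o A sg D V → LL L R o A sg D M → LL L R o A sg M V →
      ∀ g : U ≃[L] U, Nx L A g → LL L R o A sg D (g '' M) → LL L R o A sg (g '' M) V →
      ∃ h : U ≃[L] U, Nx L A h ∧ (∀ w ∈ D, h w = w) ∧ (∀ w ∈ V, h w = w) ∧
        ∀ m ∈ M, h m = g m) ∧
    (∀ (D V Z : Set U), D.Finite → V.Finite → Z.Finite → D ⊆ E → V ⊆ E → Z ⊆ E →
      LL L R o A sg D V → ∃ g : U ≃[L] U, Nx L A g ∧ LL L R o A sg D (g '' Z) ∧
        LL L R o A sg (g '' Z) V)

end Pool.Agent.GRK
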