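import Pool.Agent.GRK.Defs

/-!
GRK: statements of the first part (helper23), with proofs in the docstrings: saturation in several
variables, facts between unlinked cells, gluing, pieces, traces, cuts over larger sets, extreme pieces.
Base lemmas: `Base.lean` (cells, cuts, links, pieces; `move`, `sat_cel`, `cel_eq_of_sin`, `fin_tr`, `lk_symm`,
`lk_cel`, ..) and `NBase.lean` (`Nx L A g`: `nx_of_fe`, `nx_meets`, `nx_cut`, `nx_move`, `nx_glue`, ..).
Names of PMC (`cel`, `Dc`, `Sin`, `Ct`, `lts`, `ext`, ..) are opened from `Pool.Agent.PMC`; `κ` has one element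
(`Cx.uni`), so all `j : κ` are equal.  Always `K = cel A j x`, `L = cel A j y`.
-/

set_option autoImplicit false
set_option linter.unusedVariables false

namespace Pool.Agent.GRK

open FirstOrder.Language Set
open scoped FirstOrder
open Pool.Agent.WOM (tp Mon IsEl IsoM CtU Fx Orb)
open Pool.Agent.PMC (Ini ct Dc cel Sin Nd Ct lts ext XS Ex Fa Ll LL Itv Sm Md NPf)

/-! ### Several variables -/

/-- [SAN] saturation in `n` variables.
PROOF.  Induction on `n` (for all finite `B`).  `n = 0`: all members of `F` contain the unique point or one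
is empty.  `n + 1`: the sets `{x | ∃ v, Fin.snoc v x ∈ ⋂₀ G}` (`G ⊆ F` finite) are `B`-definable
(`Set.Definable.image_comp` and reindexing) and have the finite intersection property; `Mon.sat` gives `x`
in all of them; apply the induction hypothesis over `insert x B` to the sets `{v | Fin.snoc v x ∈ s}`, `s ∈ F`
(finite subfamilies are satisfiable by the choice of `x`). -/
def St_SAN : Prop :=
  ∀ (L : FirstOrder.Language.{0, 0}) (U : Type) [L.Structure U], Mon L U →
    ∀ (n : ℕ) (B : Set U), B.Finite → ∀ F : Set (Set (Fin n → U)), (∀ s ∈ F, B.Definable L s) →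
    (∀ G ⊆ F, G.Finite → ∃ v, ∀ s ∈ G, v ∈ s) → ∃ v, ∀ s ∈ F, v ∈ s

/-- [HMN] tuples in the same `A`-definable sets are conjugate over `A`.
PROOF.  Enumerate `A = range c`, `c : Fin k → U`; the tuples `(c, a)` and `(c, b)` (`Fin (k + n) → U`) have the same
type `tp` (a formula `φ` with `φ(c, a)` defines an `A`-definable set); `Mon.hom`. -/
def St_HMN : Prop :=
  ∀ (L : FirstOrder.Language.{0, 0}) (U : Type) [L.Structure U], Mon L U →
    ∀ (A : Set U), A.Finite → ∀ (n : ℕ) (a b : Fin n → U),
    (∀ s : Set (Fin n → U), A.Definable L s → a ∈ s → b ∈ s) →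
    ∃ g : U ≃[L] U, Fx L A g ∧ ∀ m, g (a m) = b m

/-! ### Facts between unlinked cells, gluing -/

/-- [CLA] finitely many traces on a cell.
PROOF.  Let `y_1, .., y_n ∈ L` represent all traces of `L` on `K` (w.r.t. `S i`).  Suppose that for all
`A`-definable `D ⊇ K`, `D' ⊇ L` there is `y' ∈ D'` such that for all `m` the trace of `y'` on `D` is different
from the one of `y_m`.  For `A`-definable `D ⊇ K` let `W D = {y' | ∀ m, ∃ x ∈ D, ¬ (S i x y' ↔ S i x y_m)}`: it is
definable over `A ∪ {y_1, .., y_n}` and decreases with `D`.  Saturation (`sat_fam`) for the sets `W D` and the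
`A`-definable sets `D' ⊇ L`: `y'` in all of them, so `y' ∈ L` (`y' ∉ C` or `y' ∈ C` for the `A`-definable cuts).
Fix `m`; saturation over `A ∪ {y', y_m}` for the `A`-definable `D ⊇ K` and `{x | ¬ (S i x y' ↔ S i x y_m)}`: a point
`x ∈ K` where the traces of `y'` and `y_m` differ.  So the trace of `y'` on `K` is different from all
traces of the `y_m`: contradiction.  For the `D`, `D'` found the traces of `D'` on `D` are those of
the `y_m`. -/
def St_CLA : Prop :=
  ∀ (L : FirstOrder.Language.{0, 0}) (U : Type) [L.Structure U] (κ ι : Type) (R : κ → U → U → Prop)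
    (o : κ → κ) (S : ι → U → U → Prop), Cx L R o S → ∀ (A : Set U) (i : ι) (j : κ) (x y : U),
    A.Finite → {t | ∃ y' ∈ cel L R o A j y, t = tr S i (cel L R o A j x) y'}.Finite →
    ∃ D D' : Set U, A.Definable₁ L D ∧ A.Definable₁ L D' ∧ cel L R o A j x ⊆ D ∧
      cel L R o A j y ⊆ D' ∧ {t | ∃ y' ∈ D', t = tr S i D y'}.Finite

/-- [UNL] facts between unlinked points depend only on the orbits under `Nx L A`.
PROOF.  Let `i` be given, `j : κ`.  As `x`, `y` are not linked the traces of `L` on `K` are finitely many: CLA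
gives `D`, `D'`.  `E x1 x2 := (x1 ∈ D ∧ x2 ∈ D ∧ ∀ y' ∈ D', (S i x1 y' ↔ S i x2 y')) ∨ (x1 ∉ D ∧ x2 ∉ D)` is in `FE L A`
(finitely many classes: `x1` in `D` is determined by the set of the traces which contain it, as in
`fin_tr`).  So `E x (g x)`, `x ∈ D`: `S i (g x) y' ↔ S i x y'` for all `y' ∈ D'`, in particular for `y' = h y ∈ L`
(`fx_cel`).  So `S i (g x) (h y) ↔ S i x (h y)`.  In the same way with the converse relation `i'` and the
link of `y`, `x` (`lk_symm`, `fin_tr`): `S i x (h y) ↔ S i x y`.  The second statement: apply the first to the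
converse `i'`. -/
def St_UNL : Prop :=
  ∀ (L : FirstOrder.Language.{0, 0}) (U : Type) [L.Structure U] (κ ι : Type) (R : κ → U → U → Prop)
    (o : κ → κ) (S : ι → U → U → Prop), Cx L R o S → ∀ (A : Set U) (x y : U), A.Finite →
    ¬ Lk L R o S A x y → ∀ g h : U ≃[L] U, Nx L A g → Nx L A h → ∀ i,
    (S i (g x) (h y) ↔ S i x y) ∧ (S i (h y) (g x) ↔ S i y x)

/-- [PRD] gluing along unions of pieces.
PROOF.  `h` = `g` on `Q`, identity elsewhere: a permutation of `U` (`cls_fx`).  `hC.det`: `S i` is preserved: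
both points in `Q`: `S_img`; none: clear; one in `Q`, the other not: they are not linked (`Cls`), UNL with
`g` and the identity.  So `h` is an automorphism; `nx_glue`. -/
def St_PRD : Prop :=
  ∀ (L : FirstOrder.Language.{0, 0}) (U : Type) [L.Structure U] (κ ι : Type) (R : κ → U → U → Prop)
    (o : κ → κ) (S : ι → U → U → Prop), Cx L R o S → ∀ (A Q : Set U), A.Finite →
    Cls L R o S A Q → ∀ g : U ≃[L] U, Nx L A g →
    ∃ h : U ≃[L] U, Nx L A h ∧ (∀ x ∈ Q, h x = g x) ∧ ∀ x ∉ Q, h x = x

/-- [PRF] gluing of finitely many automorphisms on disjoint unions of pieces.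
PROOF.  Induction on `n` with PRD (compose). -/
def St_PRF : Prop :=
  ∀ (L : FirstOrder.Language.{0, 0}) (U : Type) [L.Structure U] (κ ι : Type) (R : κ → U → U → Prop)
    (o : κ → κ) (S : ι → U → U → Prop), Cx L R o S → ∀ (A : Set U), A.Finite →
    ∀ (n : ℕ) (Q : Fin n → Set U),
    (∀ m, Cls L R o S A (Q m)) → (∀ m m', m ≠ m' → Disjoint (Q m) (Q m')) →
    ∀ g : Fin n → (U ≃[L] U), (∀ m, Nx L A (g m)) →
    ∃ h : U ≃[L] U, Nx L A h ∧ (∀ m, ∀ x ∈ Q m, h x = g m x) ∧ ∀ x, (∀ m, x ∉ Q m) → h x = x

/-- [UNP] an elementary submodel may be chosen for every piece.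
PROOF.  `X = {z | z ∈ m z}`.  `isEl_of_orb` with the finite set `A`: let `A ⊆ B ⊆ X`, `B` finite,
`O = Orb B x` definable over `B`.  Let `P = Pc A x`.  If `x` is definable over `A` then `x ∈ m x`, so
`x ∈ X`.  Otherwise let `B' = A ∪ (B ∩ P)`; `O ⊆ P` (`cls_fx`).  For `g` in `Nx L B'` let `h` be `g` on `P`, identity
elsewhere (PRD over `A`; `Nx L B' g` implies `Nx L A g`): `h` fixes `B`, so `g` maps `O` into `O` (`g x' = h x' ∈ O`
for `x' ∈ O ⊆ P`).  `B' ⊆ m x` (for `y ∈ B ∩ P`: `y ∈ m y = m x`), so `nx_meets` (over `B'`, `s = O`, `M = m x`) gives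
`y ∈ m x ∩ O ⊆ P`, and `m y = m x`, `y ∈ X`. -/
def St_UNP : Prop :=
  ∀ (L : FirstOrder.Language.{0, 0}) (U : Type) [L.Structure U] (κ ι : Type) (R : κ → U → U → Prop)
    (o : κ → κ) (S : ι → U → U → Prop), Cx L R o S → ∀ (A : Set U), A.Finite →
    ∀ m : U → Set U, (∀ z, Md L A (m z)) →
    (∀ z, ∀ y ∈ Pc L R o S A z, m y = m z) → Md L A {z | z ∈ m z}

/-- [SMB] calculus of `SmN`.
PROOF.  As PMC.SMB.  (1)-(3), (8) clear.  (4) the restriction of `e`.  (5) glue the bijections of the pieces;
a finite set meets finitely many pieces; PRF.  The same inside a union `Q` of pieces.  (6) `IsoM`: for a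
tuple `a : Fin n → M` take `s = range a`.  (7) `A ⊆ B`: `nx_mono`. -/
def St_SMB : Prop :=
  ∀ (L : FirstOrder.Language.{0, 0}) (U : Type) [L.Structure U] (κ ι : Type) (R : κ → U → U → Prop)
    (o : κ → κ) (S : ι → U → U → Prop), Cx L R o S →
    (∀ A X : Set U, SmN L A X X) ∧
    (∀ A X Y : Set U, SmN L A X Y → SmN L A Y X) ∧
    (∀ A X Y Z : Set U, SmN L A X Y → SmN L A Y Z → SmN L A X Z) ∧
    (∀ A X Y Q : Set U, (∀ g : U ≃[L] U, Nx L A g → ∀ x, g x ∈ Q ↔ x ∈ Q) → SmN L A X Y →
      SmN L A (X ∩ Q) (Y ∩ Q)) ∧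
    (∀ A M M' Q : Set U, A.Finite → Cls L R o S A Q →
      (∀ z ∈ Q, SmN L A (M ∩ Pc L R o S A z) (M' ∩ Pc L R o S A z)) →
      SmN L A (M ∩ Q) (M' ∩ Q)) ∧
    (∀ A M M' : Set U, SmN L A M M' → IsoM L M M') ∧
    (∀ A B X Y : Set U, A ⊆ B → SmN L B X Y → SmN L A X Y) ∧
    (∀ A X Y : Set U, SmN L A X Y → Sm L A X Y)

/-! ### Traces -/

/-- [ATT] recurrent traces.
PROOF.  `k` with `NoDiv R o S j i k` (`hC.grd`; `k ≥ 1` as `NoDiv` fails for `k = 0`).  Claim: there is `w ∈ L` such that
the `y' ∈ L` beyond `w` (direction `b`) have less than `k` traces on `X`.  Suppose not.  `move` in `K`,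
recursively: automorphisms `g_0, .., g_(k-1)` over `A` with `R (o j) (g_a p') (g_(a+1) p)`; `I a = g_a '' X ⊆
btw (g_a p) (g_a p')`.  `g_a '' L = L` and `tr S i (g_a '' X) (g_a y) = g_a '' tr S i X y`, so for every `w ∈ L` and every
`a` there are `k` elements of `L` beyond `w` with different traces on `I a` (use `g_a⁻¹ w`).  Choose
recursively finite sets `J_0, J_1, ..` of elements of `L`, `J_(n+1)` beyond all elements of `J_n`, such that
`J_n` contains `k` such elements for every `a`.  For `b = true` take `J`, for `b = false` the reversed sequence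
`J_(k-1-n)`: contradiction to `NoDiv`.
Let `w` be as in the claim and `T` the (finite) set of traces of the `y' ∈ L` beyond `w`.  `Rc ⊆ T`.  For every
`t ∈ T` which is not recurrent there is `w_t ∈ L` beyond which it does not occur; take the last of
`w` and all `w_t`. -/
def St_ATT : Prop :=
  ∀ (L : FirstOrder.Language.{0, 0}) (U : Type) [L.Structure U] (κ ι : Type) (R : κ → U → U → Prop)
    (o : κ → κ) (S : ι → U → U → Prop), Cx L R o S → ∀ i : ι, ∃ k : ℕ,
    ∀ (A : Set U) (j : κ) (x y p p' : U) (X : Set U) (b : Bool), A.Finite → Nd L A x → Nd L A y →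
    p ∈ cel L R o A j x → p' ∈ cel L R o A j x → X ⊆ btw R o j p p' →
    (Rc R o S b j i X (cel L R o A j y)).Finite ∧
    (Rc R o S b j i X (cel L R o A j y)).ncard < k ∧
    ∃ w ∈ cel L R o A j y, ∀ y' ∈ cel L R o A j y, lts R o b j w y' →
      tr S i X y' ∈ Rc R o S b j i X (cel L R o A j y)

/-- [AF] (A4) linked cells are cut by the same sets.
PROOF.  `i` the index of the link of `x`, `y`.  Let `C` be a `B`-definable cut strictly inside `K`.  Suppose
that no `B`-definable cut is strictly inside `L`: `L = cel B j y` (`cel_of_not_ct`), `y` is not definable over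
`B` (`cel_def`, `exists_lts`).  For `z ∈ K`, `z ∉ C` let `X z = {v ∈ K | v ∉ C ∧ ¬ R (o j) z v}` (`⊆ btw p z`, `p ∈ K ∩ C`),
`Q z = Rc true .. (X z) L ∪ Rc false .. (X z) L` (finite, ATT), `m z` its number of elements,
`T z = {y' ∈ L | tr S i (X z) y' ∉ Q z}`.
(a) `T z` is bounded in `L` on both sides (ATT).  (b) if `¬ R (o j) z' z` (`z ≤ z'`) then `X z ⊆ X z'`, intersection with
`X z` maps `Q z'` into and onto `Q z` (onto: `t ∈ Rc b (X z)`; beyond some `w` all traces on `X z'` are in the
finite set `Rc b (X z')`, and `t` occurs beyond every `w' ∈ L`, so some `t' ∈ Rc b (X z')` with `t' ∩ X z = t`), so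
`m z ≤ m z'`, and `T z ⊆ T z'`.  (c) for `h` over `B`: `h '' K = K`, `h '' L = L`, `h '' C = C`, so `X (h z) = h '' X z`,
`Q (h z)` = the images, `m (h z) = m z`, `T (h z) = h '' T z`.  (d) `m` is constant, `= n`, on `K⁺ = ext true B j K`: for
`z, z' ∈ K⁺` some `h` over `B` has `R (o j) z' (h z)` (EXB (5)): `m z' ≤ m z`, and conversely.
(e) `T z` is nonempty for some `z ∈ K⁺`: otherwise `L` has at most `n` traces on `K`: let `y_0, .., y_n ∈ L` have
different traces on `K`, distinguished by finitely many points of `K`; `move`: `h` over `A` maps the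
lowest of these points above a point of `K \ C`, so all of them outside of `C`; by EXB (4) some `z ∈ K⁺` is
above all of them; the `h y_a ∈ L` have `n + 1` different traces on `X z`, all in `Q z`, contradiction.  So the
traces of `L` on `K` are finitely many, contradiction to the link.
(f) `T z` nonempty, between `w` and `w'` in `L`.  `move` in `L = cel B j y` over `B`: `h` over `B` with `R (o j) w' (h w)`.
`T (h z) = h '' T z` is nonempty, above `w'`, so disjoint from `T z`; but `z ≤ h z` or `h z ≤ z`, so by (b) one of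
`T z`, `T (h z)` contains the other: contradiction. -/
def St_AF : Prop :=
  ∀ (L : FirstOrder.Language.{0, 0}) (U : Type) [L.Structure U] (κ ι : Type) (R : κ → U → U → Prop)
    (o : κ → κ) (S : ι → U → U → Prop), Cx L R o S → ∀ (A B : Set U) (j : κ) (x y : U), A ⊆ B →
    B.Finite → Lk L R o S A x y → Ct L R o B j (cel L R o A j x) →
    Ct L R o B j (cel L R o A j y)

/-- [AG] a set which contains a point of a piece cuts all its cells.
PROOF.  `{x | R (o j) x w}` is strictly inside `cel A j w` (`sin_self`), definable over `B` (`lt_dc`, `dc_mono`).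
Induction along `Relation.EqvGen` with AF and `lk_symm`: `Ct B j (cel A j u) ↔ Ct B j (cel A j v)` if `Lk A u v`. -/
def St_AG : Prop :=
  ∀ (L : FirstOrder.Language.{0, 0}) (U : Type) [L.Structure U] (κ ι : Type) (R : κ → U → U → Prop)
    (o : κ → κ) (S : ι → U → U → Prop), Cx L R o S → ∀ (A B : Set U) (w z : U), A ⊆ B → B.Finite →
    w ∈ B → Nd L A w → z ∈ Pc L R o S A w → ∀ j, Ct L R o B j (cel L R o A j z)

/-- [EXB] extreme cells.  `K = cel A j z`, `z` not definable over `A`.
PROOF.  Copy `Pool/Agent/PMC/EXB.lean` (the proofs use only base lemmas); (5) is now for `Nx L B g`: use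
`nx_move` over `B` in `cel B j v = ext b B j K`. -/
def St_EXB : Prop :=
  ∀ (L : FirstOrder.Language.{0, 0}) (U : Type) [L.Structure U] (κ ι : Type) (R : κ → U → U → Prop)
    (o : κ → κ) (S : ι → U → U → Prop), Cx L R o S → ∀ (A B : Set U) (j : κ) (z : U) (b : Bool),
    A ⊆ B → B.Finite → Nd L A z →
    (ext L R o b B j (cel L R o A j z)).Nonempty ∧
    (∀ v ∈ ext L R o b B j (cel L R o A j z),
      cel L R o B j v = ext L R o b B j (cel L R o A j z)) ∧
    (∀ v ∈ ext L R o b B j (cel L R o A j z), Nd L B v) ∧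
    (∀ p ∈ cel L R o A j z, ∃ v ∈ ext L R o b B j (cel L R o A j z), lts R o b j p v) ∧
    (∀ v ∈ ext L R o b B j (cel L R o A j z), ∀ p ∈ cel L R o A j z,
      ∃ g : U ≃[L] U, Nx L B g ∧ lts R o b j p (g v)) ∧
    (∀ v ∈ ext L R o b B j (cel L R o A j z), ∀ p ∈ cel L R o A j z, lts R o b j v p →
      p ∈ ext L R o b B j (cel L R o A j z)) ∧
    (Ct L R o B j (cel L R o A j z) → ∀ v ∈ ext L R o b B j (cel L R o A j z),
      v ∉ ext L R o (!b) B j (cel L R o A j z))

/-- [AV] (A5) extreme points are not linked with inner points.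
PROOF.  `K = cel A j u`, `L = cel A j z`.  As `z` is in no `ext b B j L` there are `B`-definable cuts `C1`, `C2` strictly
inside `L` with `z ∉ C1`, `z ∈ C2`.  `X = {v ∈ L | v ∉ C1 ∧ v ∈ C2}` is contained in `btw p p'`, `p ∈ L ∩ C1`, `p' ∈ L \ C2`;
`cel B j z ⊆ X`.  Suppose `Lk B u z`, so `Lk B z u` (`lk_symm`): for some `i` the points of `cel B j u` have infinitely many
traces on `cel B j z`.  ATT over `A` (with `x := z`, `y := u`, `X`): `Q = Rc b j i X K` is finite and beyond some
`w ∈ K` all traces are in `Q`.  Every `u' ∈ cel B j u = ext b B j K` (EXB (2)) has its trace on `X` in `Q`: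
otherwise for `h` over `B` with `h u'` beyond `w` (EXB (5)): `h '' X = X`, `h '' K = K`, so the trace of `h u'`
is not in `Q` (`Q` is invariant), contradiction.  So the traces of `cel B j u` on `X` are in `Q`, and those on
`cel B j z ⊆ X` are finitely many (`fin_tr_sub`): contradiction. -/
def St_AV : Prop :=
  ∀ (L : FirstOrder.Language.{0, 0}) (U : Type) [L.Structure U] (κ ι : Type) (R : κ → U → U → Prop)
    (o : κ → κ) (S : ι → U → U → Prop), Cx L R o S → ∀ (A B : Set U) (j : κ) (u z : U) (b : Bool),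
    A ⊆ B → B.Finite → Nd L A u → Nd L A z → u ∈ ext L R o b B j (cel L R o A j u) →
    (∀ b', z ∉ ext L R o b' B j (cel L R o A j z)) → ¬ Lk L R o S B u z

/-- [AVP] (A5') an extreme cell of `K` is linked with an extreme cell of `L` if `K`, `L` are linked.
PROOF.  `i` the index of the link of `x`, `y`; `K' = ext b B j K = cel B j v` (EXB (2)).  Suppose there is no such `w`.
`w1 ∈ ext true B j L`, `w2 ∈ ext false B j L` (EXB (1)): `ext true B j L = cel B j w1` has finitely many traces (for
`S i`) on `K'`, also `ext false B j L`.  Let `L0` = the points of `L` in none of them.  Claim: the points of `K'`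
have finitely many traces on `L0` for the converse `S i'`; then (`fin_tr`) `L0` has finitely many traces
on `K'` for `S i`.  Proof of the claim: `k` from ATT for `i'`; suppose `u_0, .., u_(k-1) ∈ K'` have different
traces on `L0`, distinguished by finitely many points of `L0`; every point of `L0` is outside of some
`B`-definable cut and inside another one strictly inside `L`; the cuts are comparable, so there are `C1`,
`C2` such that all these points are in `X = {v ∈ L | v ∉ C1 ∧ v ∈ C2}`.  As in the proof of AV the traces of `K'` on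
`X` are in the set `Rc b j i' X K`, which has less than `k` elements: contradiction.
So `L` has finitely many traces on `K'`, say `n`.  Then it has at most `n` traces on `K`: if `y_0, .., y_n ∈ L` have
different traces on `K`, distinguished by finitely many points of `K`, take (`move`, over `A`) `h` which maps the
first of them (in the direction `b`) beyond `v`; so all of them into `K'` (EXB (6)); the `h y_a ∈ L` have
different traces on `K'`.  Contradiction to the link. -/
def St_AVP : Prop :=
  ∀ (L : FirstOrder.Language.{0, 0}) (U : Type) [L.Structure U] (κ ι : Type) (R : κ → U → U → Prop)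
    (o : κ → κ) (S : ι → U → U → Prop), Cx L R o S → ∀ (A B : Set U) (j : κ) (x y : U) (b : Bool),
    A ⊆ B → B.Finite → Lk L R o S A x y → ∀ v ∈ ext L R o b B j (cel L R o A j x),
    ∃ b', ∃ w ∈ ext L R o b' B j (cel L R o A j y), Lk L R o S B v w

/-- [XSP] extreme points form a union of pieces.
PROOF.  (1) all `j` are equal (`hC.uni`).  (2) Let `Lk B u z`; both are not definable over `B` (`lk_nd`), so not
over `A`.  If `u` is extreme and `z` is not then AV is contradicted (`z ∉ XS`: for the unique `j` no `b` has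
`z ∈ ext b B j (cel A j z)`); the other case by `lk_symm`. -/
def St_XSP : Prop :=
  ∀ (L : FirstOrder.Language.{0, 0}) (U : Type) [L.Structure U] (κ ι : Type) (R : κ → U → U → Prop)
    (o : κ → κ) (S : ι → U → U → Prop), Cx L R o S → ∀ (A B : Set U), A ⊆ B → B.Finite →
    (∀ z j b, Nd L A z → z ∈ ext L R o b B j (cel L R o A j z) → z ∈ XS L R o A B) ∧
    Cls L R o S B (XS L R o A B)

/-- [TWO] there are at most two extreme pieces inside a piece, and they meet all cells.
PROOF.  Claim: let `y, y' ∈ Pc A x` and `v ∈ XS A B`, `v ∈ cel A j y`; then there is `v' ∈ XS A B ∩ cel A j y'` in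
`Pc B v`.  By induction along the links (`EqvGen` from `y` to `y'`): if `Lk A u u'` (or `Lk A u' u`, `lk_symm`),
`v ∈ XS ∩ cel A j u`: `cel A j v = cel A j u`, `v ∈ ext b B j (cel A j u)` for some `b`; AVP: `w ∈ ext b' B j (cel A j u')`,
`Lk B v w`; `w ∈ Pc B v`, `w ∈ XS` (XSP (1); `w` not definable over `A`: `lk_nd`, `nd_anti`).
Let `z ∈ Pc A x ∩ XS A B`; the claim for `v = z`, `y = z`, `y' = x` gives `v' ∈ Pc B z` in `ext b B j0 (cel A j0 x)`, which is the
cell over `B` of `y1` or `y2` (EXB (2)); a cell is contained in a piece (`cel_sub_pc`). -/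
def St_TWO : Prop :=
  ∀ (L : FirstOrder.Language.{0, 0}) (U : Type) [L.Structure U] (κ ι : Type) (R : κ → U → U → Prop)
    (o : κ → κ) (S : ι → U → U → Prop), Cx L R o S → ∀ (A B : Set U) (x y1 y2 : U) (j0 : κ),
    A ⊆ B → B.Finite → Nd L A x → y1 ∈ ext L R o true B j0 (cel L R o A j0 x) →
    y2 ∈ ext L R o false B j0 (cel L R o A j0 x) →
    (∀ z ∈ Pc L R o S A x, z ∈ XS L R o A B →
      z ∈ Pc L R o S B y1 ∨ z ∈ Pc L R o S B y2) ∧
    (∀ z ∈ Pc L R o S A x, z ∈ XS L R o A B → ∀ y ∈ Pc L R o S A x, ∀ j,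
      ∃ v ∈ Pc L R o S B z, v ∈ cel L R o A j y ∧ v ∈ XS L R o A B)

/-- [MKO] (A6) extreme pieces are good, with the orientation outwards.
PROOF.  `B = insert x A`, `E = Pc B z0 ⊆ Pc A x` (`pc_anti`, `pc_eq`), `E ⊆ XS A B` (XSP).  By AG all cells
`cel A j z`, `z ∈ E`, are cut by `B`, so (EXB (7)) for `z ∈ E` there is exactly one `b` with
`z ∈ ext b B j (cel A j z)`: let `sg j z` be this `b`; `cel B j z = ext (sg j z) B j (cel A j z)`.  `fin`, `ne`, `clo` (`cls_pc`)
clear; `nd`: EXB (3); `cut`: AG over `B` (`w ∈ E` is not definable over `B`, `E = Pc B w`); `cst`: by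
`cel B j z = ext ..` and `hC.uni`.
`god`: `y1, y2 ∈ E`; `K0 = cel A j y1`, `L0 = cel A j y2`, `s = sg (o j) y1`, `t = sg (o j) y2`, `K' = cel B j y1 = ext s B j K0`,
`L' = cel B j y2 = ext t B j L0`.  `p := y1`, `X = {x' ∈ K' | lts (!s) j y1 x'}`.  A `B`-definable cut `C` is strictly inside `K0`
(AG); `K'` is on one side of `C`; with a point `c ∈ K0` on the other side `X ⊆ btw c y1` (`s = true`) or
`X ⊆ btw y1 c` (`s = false`).  ATT over `A` for `X`, `b = t`: `w ∈ L0` such that all `y' ∈ L0` beyond `w` have traces in a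
finite set.  `q` := a point of `L'` beyond `w` (EXB (4)).  The last two clauses: `j = o j` (`hC.uni`), the definition of `sg`, `pc_anti`, `pc_eq`. -/
def St_MKO : Prop :=
  ∀ (L : FirstOrder.Language.{0, 0}) (U : Type) [L.Structure U] (κ ι : Type) (R : κ → U → U → Prop)
    (o : κ → κ) (S : ι → U → U → Prop), Cx L R o S → ∀ (A : Set U) (x z0 : U), A.Finite →
    Nd L A x → z0 ∈ Pc L R o S A x → z0 ∈ XS L R o A (insert x A) →
    ∃ sg : κ → U → Bool, Ori L R o S (insert x A) (Pc L R o S (insert x A) z0) sg ∧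
      (∀ z ∈ Pc L R o S (insert x A) z0, ∀ j,
        z ∈ ext L R o (sg (o j) z) (insert x A) j (cel L R o A j z)) ∧
      Pc L R o S (insert x A) z0 ⊆ Pc L R o S A x

end Pool.Agent.GRK
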