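import Pool.Agent.GRK.Base
import Pool.Agent.GRK.StA

/-!
GRK [AF] (helper67): linked cells are cut by the same sets.
-/

set_option autoImplicit false
set_option linter.unusedVariables false

namespace Pool.Agent.GRK

open FirstOrder.Language Set
open scoped FirstOrder
open Pool.Agent.WOM (tp Mon IsEl IsoM CtU Fx Orb)
open Pool.Agent.PMC (Ini ct Dc cel Sin Nd Ct lts ext XS Ex Fa Ll LL Itv Sm Md NPf fx_symm fx_mono
  def_mem)

section

variable {L : FirstOrder.Language.{0, 0}} {U : Type} [L.Structure U] {κ ι : Type}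
  {R : κ → U → U → Prop} {o : κ → κ} {S : ι → U → U → Prop}

/-- few traces on finite sets -/
private theorem AF_local {i : ι} {X Y : Set U} {k : ℕ} (hX : X.Nonempty)
    (h : ∀ P ⊆ X, P.Finite → P.Nonempty → {t | ∃ y ∈ Y, t = tr S i P y}.Finite ∧
      {t | ∃ y ∈ Y, t = tr S i P y}.ncard < k) : {t | ∃ y ∈ Y, t = tr S i X y}.Finite := by
  classical
  by_contra hinf
  obtain ⟨q0, hq0⟩ := hX
  obtain ⟨s, hs, hsk⟩ := Set.Infinite.exists_subset_card_eq hinf k
  have hq : ∀ t t' : Set U, ∃ q ∈ X, t ∈ s → t' ∈ s → t ≠ t' → ¬ (q ∈ t ↔ q ∈ t') := by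
    intro t t'
    by_cases hc : t ∈ s ∧ t' ∈ s ∧ t ≠ t'
    · obtain ⟨h1, h2, h3⟩ := hc
      by_contra hcon
      push Not at hcon
      apply h3
      obtain ⟨y, hy, rfl⟩ := hs h1
      obtain ⟨y', hy', rfl⟩ := hs h2
      ext q
      by_cases hqX : q ∈ X
      · exact (hcon q hqX).2.2.2
      · exact ⟨fun h => absurd h.1 hqX, fun h => absurd h.1 hqX⟩
    · refine ⟨q0, hq0, fun h1 h2 h3 => absurd ⟨h1, h2, h3⟩ hc⟩
  choose q hqX hq using hq
  let P : Set U := insert q0 ((fun p : Set U × Set U => q p.1 p.2) '' (s ×ˢ s : Finset _))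
  have hPX : P ⊆ X := by
    rintro x (rfl | ⟨p, -, rfl⟩)
    · exact hq0
    · exact hqX _ _
  have hPf : P.Finite := ((Finset.finite_toSet _).image _).insert _
  obtain ⟨hf, hk⟩ := h P hPX hPf ⟨q0, Or.inl rfl⟩
  have hinj : Set.InjOn (fun t : Set U => t ∩ P) (s : Set (Set U)) := by
    intro t ht t' ht' he
    by_contra hne
    have hP : q t t' ∈ P := Or.inr ⟨(t, t'), Finset.mem_coe.2 (Finset.mem_product.2 ⟨ht, ht'⟩), rfl⟩
    apply hq t t' ht ht' hne
    have he' : t ∩ P = t' ∩ P := he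
    constructor
    · intro h1
      have : q t t' ∈ t' ∩ P := by rw [← he']; exact ⟨h1, hP⟩
      exact this.1
    · intro h1
      have : q t t' ∈ t ∩ P := by rw [he']; exact ⟨h1, hP⟩
      exact this.1
  have hsub : (fun t : Set U => t ∩ P) '' (s : Set (Set U)) ⊆ {t | ∃ y ∈ Y, t = tr S i P y} := by
    rintro _ ⟨t, ht, rfl⟩
    obtain ⟨y, hy, rfl⟩ := hs ht
    refine ⟨y, hy, ?_⟩
    ext x
    constructor
    · rintro ⟨⟨_, h2⟩, h3⟩
      exact ⟨h3, h2⟩
    · rintro ⟨h1, h2⟩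
      exact ⟨⟨hPX h1, h2⟩, h1⟩
  have h1 := Set.ncard_le_ncard hsub hf
  rw [Set.InjOn.ncard_image hinj, Set.ncard_coe_finset, hsk] at h1
  omega

/-- a first element -/
private theorem AF_first (hC : Cx L R o S) (b : Bool) (j : κ) {P : Set U} (hP : P.Finite)
    (hne : P.Nonempty) : ∃ p ∈ P, ∀ p' ∈ P, ¬ lts R o b j p' p := by
  revert hne
  refine Set.Finite.induction_on P hP (fun h => absurd h Set.not_nonempty_empty) ?_
  intro a Q _ _ ih _
  by_cases hQ : Q.Nonempty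
  · obtain ⟨p, hp, h⟩ := ih hQ
    by_cases hap : lts R o b j a p
    · refine ⟨a, Or.inl rfl, ?_⟩
      rintro p' (rfl | hp')
      · exact lts_irr hC b j _
      · intro h'
        exact h p' hp' (lts_trans hC b j h' hap)
    · refine ⟨p, Or.inr hp, ?_⟩
      rintro p' (rfl | hp')
      · exact hap
      · exact h p' hp'
  · refine ⟨a, Or.inl rfl, ?_⟩
    rintro p' (rfl | hp')
    · exact lts_irr hC b j _
    · exact absurd ⟨p', hp'⟩ hQ


/-- the points of `K` outside of `C` which are not above `z` -/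
private def AF_X (R : κ → U → U → Prop) (o : κ → κ) (j : κ) (K C : Set U) (z : U) : Set U :=
  {v | v ∈ K ∧ v ∉ C ∧ ¬ R (o j) z v}

/-- the recurrent traces in both directions -/
private def AF_Q (R : κ → U → U → Prop) (o : κ → κ) (S : ι → U → U → Prop) (i : ι) (j : κ)
    (K C Y : Set U) (z : U) : Set (Set U) :=
  Rc R o S true j i (AF_X R o j K C z) Y ∪ Rc R o S false j i (AF_X R o j K C z) Y

private theorem AF_mem_Q {i : ι} {j : κ} {K C Y : Set U} {z : U} {t : Set U} :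
    t ∈ AF_Q R o S i j K C Y z ↔ ∃ b, t ∈ Rc R o S b j i (AF_X R o j K C z) Y := by
  constructor
  · rintro (h | h)
    · exact ⟨true, h⟩
    · exact ⟨false, h⟩
  · rintro ⟨b, h⟩
    cases b
    · exact Or.inr h
    · exact Or.inl h

private theorem AF_X_mono (hC : Cx L R o S) {j : κ} {K C : Set U} {z z' : U}
    (h : ¬ R (o j) z' z) : AF_X R o j K C z ⊆ AF_X R o j K C z' := by
  rintro v ⟨h1, h2, h3⟩
  refine ⟨h1, h2, fun h4 => ?_⟩
  by_cases hz : z = z'
  · exact h3 (hz ▸ h4)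
  · rcases hC.tot j z z' hz with h5 | h5
    · exact h3 (hC.tra j z z' v h5 h4)
    · exact h h5

private theorem AF_X_img (hC : Cx L R o S) {j : κ} {K C : Set U} {g : U ≃[L] U}
    (hK : ∀ v, g v ∈ K ↔ v ∈ K) (hCC : ∀ v, g v ∈ C ↔ v ∈ C) (z : U) :
    g '' AF_X R o j K C z = AF_X R o j K C (g z) := by
  have key : ∀ v, g v ∈ AF_X R o j K C (g z) ↔ v ∈ AF_X R o j K C z := by
    intro v
    show (g v ∈ K ∧ g v ∉ C ∧ ¬ R (o j) (g z) (g v)) ↔ (v ∈ K ∧ v ∉ C ∧ ¬ R (o j) z v)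
    rw [hK, hCC, R_img hC (o j) z v g]
  ext v
  constructor
  · rintro ⟨w, hw, rfl⟩
    exact (key w).2 hw
  · intro hv
    refine ⟨g.symm v, (key (g.symm v)).1 ?_, g.apply_symm_apply v⟩
    rw [g.apply_symm_apply]
    exact hv

private theorem AF_Q_img (hC : Cx L R o S) {i : ι} {j : κ} {K C Y : Set U} {g : U ≃[L] U}
    (hK : ∀ v, g v ∈ K ↔ v ∈ K) (hCC : ∀ v, g v ∈ C ↔ v ∈ C) (hY : ∀ v, g v ∈ Y ↔ v ∈ Y)
    {z : U} {t : Set U} (h : t ∈ AF_Q R o S i j K C Y z) :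
    g '' t ∈ AF_Q R o S i j K C Y (g z) := by
  rw [AF_mem_Q] at h ⊢
  obtain ⟨b, h⟩ := h
  refine ⟨b, fun w hw => ?_⟩
  obtain ⟨y, hy, hy1, hy2⟩ := h (g.symm w) ((hY _).1 (by rwa [g.apply_symm_apply]))
  refine ⟨g y, (hY y).2 hy, ?_, ?_⟩
  · have h1 := (lts_img hC b j (g.symm w) y g).2 hy1
    rwa [g.apply_symm_apply] at h1
  · rw [hy2, tr_img hC, AF_X_img hC hK hCC]

end

/-- [AF] -/
theorem thm_AF (hATT : St_ATT) (hEXB : St_EXB) : St_AF := by
  intro L U _ κ ι R o S hC A B j x y hAB hB hL hct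
  have hA : A.Finite := hB.subset hAB
  obtain ⟨hx, hy⟩ := lk_nd hC hL
  obtain ⟨i, j', hinf⟩ := hL
  obtain rfl : j' = j := hC.uni j' j
  obtain ⟨C, hD, hSin⟩ := hct
  by_contra hno
  have hLB := cel_of_not_ct hC hAB hno
  set K := cel L R o A j' x with hK
  set Y := cel L R o A j' y with hY
  obtain ⟨⟨p, hp, hpC⟩, ⟨c0, hc0, hc0C⟩⟩ := hSin
  -- invariance
  have iK : ∀ g : U ≃[L] U, Fx L A g → ∀ v, g v ∈ K ↔ v ∈ K := fun g hg v =>
    fx_mem_cel hC j' v x hg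
  have iY : ∀ g : U ≃[L] U, Fx L A g → ∀ v, g v ∈ Y ↔ v ∈ Y := fun g hg v =>
    fx_mem_cel hC j' v y hg
  have iC : ∀ g : U ≃[L] U, Fx L B g → ∀ v, g v ∈ C ↔ v ∈ C := fun g hg v => def_mem hD.1 hg v
  -- `y` is not definable over `B`
  have hyB : Nd L B y := by
    intro hd
    have h1 := cel_def hC (fun h => h hd) (j := j') (A := B) (z := y)
    obtain ⟨y', hy', hlt⟩ := exists_lts hC hA hy (mem_cel A j' y) true
    rw [← hY, ← hLB, h1] at hy'
    rw [Set.mem_singleton_iff] at hy'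
    subst hy'
    exact lts_irr hC true j' _ hlt
  obtain ⟨k, hk⟩ := hATT L U κ ι R o S hC i
  let X : U → Set U := fun z => AF_X R o j' K C z
  let Q : U → Set (Set U) := fun z => AF_Q R o S i j' K C Y z
  let T : U → Set U := fun z => {y' | y' ∈ Y ∧ tr S i (X z) y' ∉ Q z}
  have hbtw : ∀ z, X z ⊆ btw R o j' p z := by
    rintro z v ⟨h1, h2, h3⟩
    exact ⟨fun h => h2 (hD.2 p hpC v h), h3⟩
  have hatt : ∀ z ∈ K, ∀ b, (Rc R o S b j' i (X z) Y).Finite ∧
      ∃ w ∈ Y, ∀ y' ∈ Y, lts R o b j' w y' → tr S i (X z) y' ∈ Rc R o S b j' i (X z) Y := by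
    intro z hz b
    obtain ⟨h1, -, h3⟩ := hk A j' x y p z (X z) b hA hx hy hp hz (hbtw z)
    exact ⟨h1, h3⟩
  have hQfin : ∀ z ∈ K, (Q z).Finite := fun z hz =>
    (hatt z hz true).1.union (hatt z hz false).1
  -- (a)
  have ha : ∀ z ∈ K, ∀ b, ∃ w ∈ Y, ∀ y' ∈ T z, ¬ lts R o b j' w y' := by
    intro z hz b
    obtain ⟨-, w, hw, h⟩ := hatt z hz b
    exact ⟨w, hw, fun y' hy' hlt => hy'.2 (AF_mem_Q.2 ⟨b, h y' hy'.1 hlt⟩)⟩
  -- (b)
  have htr : ∀ z z', X z ⊆ X z' → ∀ y', tr S i (X z') y' ∩ X z = tr S i (X z) y' := by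
    intro z z' hzz y'
    ext v
    constructor
    · rintro ⟨⟨_, h2⟩, h3⟩
      exact ⟨h3, h2⟩
    · rintro ⟨h1, h2⟩
      exact ⟨⟨hzz h1, h2⟩, h1⟩
  have hb1 : ∀ z z', X z ⊆ X z' → ∀ t ∈ Q z', t ∩ X z ∈ Q z := by
    intro z z' hzz t ht
    rw [AF_mem_Q] at ht
    obtain ⟨b, ht⟩ := ht
    refine AF_mem_Q.2 ⟨b, fun w hw => ?_⟩
    obtain ⟨y', hy', h1, h2⟩ := ht w hw
    refine ⟨y', hy', h1, ?_⟩
    rw [h2]
    exact htr z z' hzz y'
  have hb2 : ∀ z z', z' ∈ K → X z ⊆ X z' → ∀ t ∈ Q z, ∃ t' ∈ Q z', t' ∩ X z = t := by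
    intro z z' hz' hzz t ht
    rw [AF_mem_Q] at ht
    obtain ⟨b, ht⟩ := ht
    obtain ⟨-, w, hw, h⟩ := hatt z' hz' b
    obtain ⟨y', hy', h1, h2⟩ := ht w hw
    refine ⟨tr S i (X z') y', AF_mem_Q.2 ⟨b, h y' hy' h1⟩, ?_⟩
    rw [h2]
    exact htr z z' hzz y'
  have hb3 : ∀ z z', z' ∈ K → ¬ R (o j') z' z → (Q z).ncard ≤ (Q z').ncard := by
    intro z z' hz' hzz
    have hX := AF_X_mono (K := K) (C := C) hC hzz
    have hsub : Q z ⊆ (fun t => t ∩ X z) '' Q z' := by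
      intro t ht
      obtain ⟨t', ht', he⟩ := hb2 z z' hz' hX t ht
      exact ⟨t', ht', he⟩
    exact (Set.ncard_le_ncard hsub ((hQfin z' hz').image _)).trans
      (Set.ncard_image_le (hQfin z' hz'))
  have hb4 : ∀ z z', ¬ R (o j') z' z → T z ⊆ T z' := by
    intro z z' hzz y' hy'
    have hX := AF_X_mono (K := K) (C := C) hC hzz
    refine ⟨hy'.1, fun h => hy'.2 ?_⟩
    have h1 := hb1 z z' hX _ h
    rwa [htr z z' hX y'] at h1
  -- (c)
  have hc1 : ∀ h : U ≃[L] U, Fx L B h → ∀ z, ∀ t ∈ Q z, h '' t ∈ Q (h z) := by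
    intro h hh z t ht
    have hhA := fx_mono hAB hh
    exact AF_Q_img hC (iK h hhA) (iC h hh) (iY h hhA) ht
  have hc2 : ∀ h : U ≃[L] U, Fx L B h → ∀ z, ∀ y' ∈ T z, h y' ∈ T (h z) := by
    intro h hh z y' hy'
    have hhA := fx_mono hAB hh
    refine ⟨(iY h hhA y').2 hy'.1, fun h1 => hy'.2 ?_⟩
    have h2 := hc1 h.symm (fx_symm hh) (h z) _ h1
    rw [h.symm_apply_apply] at h2
    have h3 : tr S i (X (h z)) (h y') = h '' tr S i (X z) y' := by
      rw [tr_img hC]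
      congr 1
      exact (AF_X_img hC (iK h hhA) (iC h hh) z).symm
    rwa [h3, img_symm_img] at h2
  have hc3 : ∀ h : U ≃[L] U, Fx L B h → ∀ z ∈ K, (Q (h z)).ncard ≤ (Q z).ncard := by
    intro h hh z hz
    have hsub : Q (h z) ⊆ (fun t => h '' t) '' Q z := by
      intro t ht
      refine ⟨h.symm '' t, ?_, img_img_symm h t⟩
      have h2 := hc1 h.symm (fx_symm hh) (h z) t ht
      rwa [h.symm_apply_apply] at h2
    exact (Set.ncard_le_ncard hsub ((hQfin z hz).image _)).trans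
      (Set.ncard_image_le (hQfin z hz))
  -- (d)
  obtain ⟨e1, -, -, e4, e5, -, -⟩ := hEXB L U κ ι R o S hC A B j' x true hAB hB hx
  have hd : ∀ z ∈ ext L R o true B j' K, ∀ z' ∈ ext L R o true B j' K,
      (Q z').ncard ≤ (Q z).ncard := by
    intro z hz z' hz'
    obtain ⟨h, hh, hlt⟩ := e5 z hz z' hz'.1
    rw [lts_true] at hlt
    have hhB : Fx L B h := hh.1
    have h1 : h z ∈ K := (iK h (fx_mono hAB hhB) z).2 hz.1
    have h2 : ¬ R (o j') (h z) z' := fun h3 => hC.irr j' _ (hC.tra j' _ _ _ hlt h3)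
    exact (hb3 z' (h z) h1 h2).trans (hc3 h hhB z hz.1)
  -- (e)
  have he : ∃ z ∈ ext L R o true B j' K, (T z).Nonempty := by
    by_contra hcon
    push Not at hcon
    obtain ⟨z0, hz0⟩ := e1
    apply hinf
    refine AF_local (k := (Q z0).ncard + 1) ⟨x, mem_cel A j' x⟩ fun P hPX hPf hPn => ?_
    obtain ⟨p0, hp0, hp0'⟩ := AF_first hC true j' hPf hPn
    obtain ⟨p1, hp1, hp1'⟩ := AF_first hC false j' hPf hPn
    obtain ⟨h, hh, hvh⟩ := move hC hA hx hc0 (hPX hp0) true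
    obtain ⟨z, hz, hzl⟩ := e4 (h p1) ((iK h hh p1).2 (hPX hp1))
    rw [lts_true] at hvh hzl
    have hhP : ∀ q ∈ P, h q ∈ X z := by
      intro q hq
      refine ⟨(iK h hh q).2 (hPX hq), fun h1 => ?_, fun h1 => ?_⟩
      · have h2 : R (o j') c0 (h q) := by
          by_cases hqq : q = p0
          · rw [hqq]
            exact hvh
          · have h3 := hp0' q hq
            rw [lts_true] at h3
            rcases hC.tot j' q p0 hqq with h5 | h5
            · exact absurd h5 h3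
            · exact hC.tra j' _ _ _ hvh ((R_img hC (o j') p0 q h).2 h5)
        exact hc0C (hD.2 (h q) h1 c0 h2)
      · by_cases hqq : q = p1
        · rw [hqq] at h1
          exact hC.irr j' _ (hC.tra j' _ _ _ h1 hzl)
        · have h3 := hp1' q hq
          rw [lts_false] at h3
          rcases hC.tot j' q p1 hqq with h5 | h5
          · have h6 := (R_img hC (o j') q p1 h).2 h5
            exact hC.irr j' _ (hC.tra j' _ _ _ h1 (hC.tra j' _ _ _ h6 hzl))
          · exact absurd h5 h3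
    have hall : ∀ y' ∈ Y, tr S i (X z) y' ∈ Q z := by
      intro y' hy'
      by_contra h1
      have h2 : y' ∈ T z := ⟨hy', h1⟩
      rw [hcon z hz] at h2
      exact h2
    have hsub : {t | ∃ y' ∈ Y, t = tr S i P y'} ⊆
        (fun t => h.symm '' (t ∩ h '' P)) '' Q z := by
      rintro t ⟨y', hy', rfl⟩
      refine ⟨tr S i (X z) (h y'), hall (h y') ((iY h hh y').2 hy'), ?_⟩
      show h.symm '' (tr S i (X z) (h y') ∩ h '' P) = _
      have h5 : tr S i (X z) (h y') ∩ h '' P = h '' tr S i P y' := by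
        rw [tr_img hC]
        ext q
        constructor
        · rintro ⟨⟨_, h2⟩, h3⟩
          exact ⟨h3, h2⟩
        · rintro ⟨h1, h2⟩
          refine ⟨⟨?_, h2⟩, h1⟩
          obtain ⟨q', hq', rfl⟩ := h1
          exact hhP q' hq'
      rw [h5, img_symm_img]
    have hzf := hQfin z hz.1
    refine ⟨(hzf.image _).subset hsub, ?_⟩
    refine Nat.lt_succ_of_le ?_
    exact ((Set.ncard_le_ncard hsub (hzf.image _)).trans (Set.ncard_image_le hzf)).trans
      (hd z0 hz0 z hz)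
  -- (f)
  obtain ⟨z, hz, y1, hy1⟩ := he
  obtain ⟨w, hw, hwT⟩ := ha z hz.1 true
  obtain ⟨w', hw', hwT'⟩ := ha z hz.1 false
  obtain ⟨h, hh, hlt⟩ := move hC hB hyB (hLB ▸ hw : w ∈ cel L R o B j' y)
    (hLB ▸ hw' : w' ∈ cel L R o B j' y) true
  rw [lts_true] at hlt
  have hdis : ∀ y' ∈ T z, h y' ∉ T z := by
    intro y' hy' hn
    have h1 := hwT' y' hy'
    have h2 := hwT (h y') hn
    rw [lts_false] at h1
    rw [lts_true] at h2
    by_cases he : y' = w'
    · rw [he] at h2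
      exact h2 hlt
    · rcases hC.tot j' y' w' he with h3 | h3
      · exact h1 h3
      · exact h2 (hC.tra j' _ _ _ hlt ((R_img hC (o j') w' y' h).2 h3))
  by_cases hr : R (o j') z (h z)
  · have h1 : ¬ R (o j') (h z) z := fun h3 => hC.irr j' _ (hC.tra j' _ _ _ hr h3)
    have h2 := hb4 z (h z) h1 hy1
    have h3 := hc2 h.symm (fx_symm hh) (h z) y1 h2
    rw [h.symm_apply_apply] at h3
    refine hdis _ h3 ?_
    rw [h.apply_symm_apply]
    exact hy1
  · exact hdis y1 hy1 (hb4 (h z) z hr (hc2 h hh z y1 hy1))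

end Pool.Agent.GRK
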