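import Pool.Agent.GRK.Base
import Pool.Agent.GRK.StA

/-!
GRK, module AG: a set which contains a point of a piece cuts all its cells.
-/

set_option autoImplicit false

namespace Pool.Agent.GRK

open FirstOrder.Language Set
open scoped FirstOrder
open Pool.Agent.WOM (tp Mon IsEl IsoM CtU Fx Orb)
open Pool.Agent.PMC (Ini ct Dc cel Sin Nd Ct lts ext XS Ex Fa Ll LL Itv Sm Md NPf)

theorem thm_AG (hAF : St_AF) : St_AG := by
  intro L U _ κ ι R o S hC A B w z hAB hB hwB hw hz j
  have hA : A.Finite := hB.subset hAB
  have key : ∀ u v : U, Relation.EqvGen (Lk L R o S A) u v →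
      (Ct L R o B j (cel L R o A j u) ↔ Ct L R o B j (cel L R o A j v)) := by
    intro u v huv
    induction huv with
    | rel a b hab =>
      exact ⟨hAF L U κ ι R o S hC A B j a b hAB hB hab,
        hAF L U κ ι R o S hC A B j b a hAB hB (lk_symm hC hab)⟩
    | refl a => exact Iff.rfl
    | symm a b _ ih => exact ih.symm
    | trans a b c _ _ ih1 ih2 => exact ih1.trans ih2
  refine (key w z hz).1 ⟨{x | R (o j) x w}, ?_, sin_self hC hA j hw⟩
  have h1 := lt_dc hC j w B
  rwa [insert_eq_of_mem hwB] at h1

end Pool.Agent.GRK
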