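import Pool.Agent.GRK.Base
import Pool.Agent.GRK.StA

/-!
GRK, module ATT: recurrent traces (helper89).
-/

set_option autoImplicit false
set_option linter.unusedVariables false
set_option linter.unusedSectionVars false

namespace Pool.Agent.GRK

open FirstOrder.Language Set
open scoped FirstOrder
open Pool.Agent.WOM (tp Mon IsEl IsoM CtU Fx Orb)
open Pool.Agent.PMC (Ini ct Dc cel Sin Nd Ct lts ext XS Ex Fa Ll LL Itv Sm Md NPf fx_refl fx_symm
  fx_comp fx_mono comp_apply' def_img def_mono def_compl def_inter def_union def_mem def_fix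
  def_of_fix conj_of_def exists_isd exists_fin_def isEl_of_orb mem_orb orb_meets sat_fam rel_fx
  rel_def1 rel_def2 rel_hull rel_swap def_close)

variable {L : FirstOrder.Language.{0, 0}} {U : Type} [L.Structure U] {κ ι : Type}
  {R : κ → U → U → Prop} {o : κ → κ} {S : ι → U → U → Prop}

section att

variable (hC : Cx L R o S)

include hC

/-- beyond a point which is not before `w` -/
private theorem att_le_lt {b : Bool} {j : κ} {w w' v : U} (h : ¬ lts R o b j w' w)
    (h' : lts R o b j w' v) : lts R o b j w v := by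
  by_cases hne : w = w'
  · rw [hne]; exact h'
  · rcases lts_tot hC b j hne with h1 | h1
    · exact lts_trans hC b j h1 h'
    · exact absurd h1 h

/-- the order relation in the direction `b` is transitive -/
private theorem att_le_le {b : Bool} {j : κ} {u v w : U} (h : ¬ lts R o b j v u)
    (h' : ¬ lts R o b j w v) : ¬ lts R o b j w u := fun h1 =>
  h (att_le_lt hC h' h1)

/-- finite sets have an upper bound in the direction `b` in the cell -/
private theorem att_max {b : Bool} {j : κ} {Lc : Set U} {G : Set U} (hG : G.Finite)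
    (hGL : G ⊆ Lc) {w : U} (hw : w ∈ Lc) :
    ∃ w' ∈ Lc, ¬ lts R o b j w' w ∧ ∀ v ∈ G, ¬ lts R o b j w' v := by
  revert hGL
  refine Set.Finite.induction_on G hG ?_ ?_
  · intro _
    exact ⟨w, hw, lts_irr hC b j w, fun v hv => absurd hv (Set.notMem_empty v)⟩
  · intro a G' _ _ ih hGL
    obtain ⟨w', hw', h1, h2⟩ := ih ((subset_insert a G').trans hGL)
    by_cases h : lts R o b j w' a
    · refine ⟨a, hGL (mem_insert a G'), fun h3 => h1 (lts_trans hC b j h h3), ?_⟩
      rintro v (rfl | hv)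
      · exact lts_irr hC b j v
      · exact fun h3 => h2 v hv (lts_trans hC b j h h3)
    · refine ⟨w', hw', h1, ?_⟩
      rintro v (rfl | hv)
      · exact h
      · exact h2 v hv

/-- disjoint copies of the interval -/
private theorem att_copies {A : Set U} (hA : A.Finite) {j : κ} {x p p' : U} (hx : Nd L A x)
    (hp : p ∈ cel L R o A j x) (hp' : p' ∈ cel L R o A j x) :
    ∃ g : ℕ → (U ≃[L] U), (∀ n, Fx L A (g n)) ∧ ∀ n, R (o j) (g n p') (g (n + 1) p) := by
  have hstep : ∀ g : {g : U ≃[L] U // Fx L A g}, ∃ h : {g : U ≃[L] U // Fx L A g},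
      R (o j) (g.1 p') (h.1 p) := by
    intro g
    have h1 : g.1 p' ∈ cel L R o A j x := (fx_mem_cel hC j p' x g.2).2 hp'
    obtain ⟨h, hh, h2⟩ := move hC hA hx h1 hp true
    rw [lts_true] at h2
    exact ⟨⟨h, hh⟩, h2⟩
  choose f hf using hstep
  let G : ℕ → {g : U ≃[L] U // Fx L A g} := fun n =>
    Nat.rec ⟨FirstOrder.Language.Equiv.refl L U, fx_refl A⟩ (fun _ g => f g) n
  exact ⟨fun n => (G n).1, fun n => (G n).2, fun n => hf (G n)⟩

/-- the claim -/
private theorem att_claim {i : ι} {k : ℕ} {A : Set U} {j : κ} {x y p p' : U} {X : Set U}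
    {b : Bool} (hk : NoDiv R o S j i k) (hA : A.Finite) (hx : Nd L A x)
    (hp : p ∈ cel L R o A j x) (hp' : p' ∈ cel L R o A j x) (hX : X ⊆ btw R o j p p') :
    ∃ w ∈ cel L R o A j y, ¬ ∃ v : Fin k → U, (∀ m, v m ∈ cel L R o A j y ∧ lts R o b j w (v m)) ∧
      ∀ m m', m ≠ m' → tr S i X (v m) ≠ tr S i X (v m') := by
  by_contra hcon
  push Not at hcon
  obtain ⟨g, hg, hgR⟩ := att_copies hC hA hx hp hp'
  have hord : ∀ a m : ℕ, X.Nonempty → R (o j) (g a p') (g (a + 1 + m) p) := by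
    intro a m hne
    obtain ⟨v, hv⟩ := hne
    have hpp : ¬ R (o j) p' p := by
      intro h
      have h1 := hX hv
      by_cases hvp : v = p'
      · rw [hvp] at h1
        exact h1.1 h
      · rcases hC.tot j v p' hvp with h2 | h2
        · exact h1.1 (hC.tra j v p' p h2 h)
        · exact h1.2 h2
    induction m with
    | zero => exact hgR a
    | succ m ih =>
      have h1 : ¬ R (o j) (g (a + 1 + m) p') (g (a + 1 + m) p) := fun h =>
        hpp ((R_img hC (o j) p' p (g (a + 1 + m))).1 h)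
      have h2 := hgR (a + 1 + m)
      have h3 : R (o j) (g a p') (g (a + 1 + m) p') := by
        by_cases he : g (a + 1 + m) p' = g (a + 1 + m) p
        · rw [he]; exact ih
        · rcases hC.tot j _ _ he with h4 | h4
          · exact absurd h4 h1
          · exact hC.tra j _ _ _ ih h4
      exact hC.tra j _ _ _ h3 h2
  -- elements with different traces on the copies
  have hstep : ∀ w ∈ cel L R o A j y, ∃ w' ∈ cel L R o A j y, ¬ lts R o b j w' w ∧
      ∀ a : Fin k, ∃ v : Fin k → U, (∀ m, lts R o b j w (v m) ∧ ¬ lts R o b j w' (v m)) ∧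
        ∀ m m', m ≠ m' → tr S i (g a '' X) (v m) ≠ tr S i (g a '' X) (v m') := by
    intro w hw
    have h1 : ∀ a : Fin k, ∃ v : Fin k → U,
        (∀ m, v m ∈ cel L R o A j y ∧ lts R o b j w (v m)) ∧
        ∀ m m', m ≠ m' → tr S i (g a '' X) (v m) ≠ tr S i (g a '' X) (v m') := by
      intro a
      have hw' : (g a).symm w ∈ cel L R o A j y :=
        (fx_mem_cel hC j w y (fx_symm (hg a))).2 hw
      obtain ⟨v, hv, hv'⟩ := hcon _ hw'
      refine ⟨fun m => g a (v m), fun m => ⟨(fx_mem_cel hC j _ y (hg a)).2 (hv m).1, ?_⟩, ?_⟩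
      · have h2 := (lts_img hC b j _ _ (g a)).2 (hv m).2
        rw [(g a).apply_symm_apply] at h2
        exact h2
      · intro m m' hm h2
        rw [← tr_img hC, ← tr_img hC] at h2
        apply hv' m m' hm
        rw [← img_symm_img (g a) (tr S i X (v m)), h2, img_symm_img]
    choose v hv hv' using h1
    obtain ⟨w', hw', h2, h3⟩ := att_max hC (b := b) (j := j)
      (G := ⋃ a : Fin k, Set.range (v a)) (Set.finite_iUnion fun a => Set.finite_range (v a))
      (by
        intro u hu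
        obtain ⟨a, m, rfl⟩ := Set.mem_iUnion.1 hu
        exact (hv a m).1) hw
    exact ⟨w', hw', h2, fun a => ⟨v a, fun m => ⟨(hv a m).2,
      h3 _ (Set.mem_iUnion.2 ⟨a, m, rfl⟩)⟩, hv' a⟩⟩
  have hstep' : ∀ w : {w // w ∈ cel L R o A j y}, ∃ w' : {w // w ∈ cel L R o A j y},
      ¬ lts R o b j w'.1 w.1 ∧
      ∀ a : Fin k, ∃ v : Fin k → U, (∀ m, lts R o b j w.1 (v m) ∧ ¬ lts R o b j w'.1 (v m)) ∧
        ∀ m m', m ≠ m' → tr S i (g a '' X) (v m) ≠ tr S i (g a '' X) (v m') := by
    intro w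
    obtain ⟨w', hw', h⟩ := hstep w.1 w.2
    exact ⟨⟨w', hw'⟩, h⟩
  choose f hf1 hf2 using hstep'
  let W : ℕ → {w // w ∈ cel L R o A j y} := fun n =>
    Nat.rec ⟨y, mem_cel A j y⟩ (fun _ w => f w) n
  have hW1 : ∀ n, ¬ lts R o b j (W (n + 1)).1 (W n).1 := fun n => hf1 (W n)
  have hW2 : ∀ n (a : Fin k), ∃ v : Fin k → U,
      (∀ m, lts R o b j (W n).1 (v m) ∧ ¬ lts R o b j (W (n + 1)).1 (v m)) ∧
        ∀ m m', m ≠ m' → tr S i (g a '' X) (v m) ≠ tr S i (g a '' X) (v m') := fun n => hf2 (W n)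
  have hW3 : ∀ n m, ¬ lts R o b j (W (n + m)).1 (W n).1 := by
    intro n m
    induction m with
    | zero => exact lts_irr hC b j _
    | succ m ih => exact att_le_le hC ih (hW1 (n + m))
  let J : ℕ → Set U := fun n => {v | lts R o b j (W n).1 v ∧ ¬ lts R o b j (W (n + 1)).1 v}
  have hJ : ∀ n n', n < n' → ∀ v ∈ J n, ∀ v' ∈ J n', lts R o b j v v' := by
    intro n n' hn v hv v' hv'
    obtain ⟨m, rfl⟩ := Nat.exists_eq_add_of_lt hn
    have h1 : ¬ lts R o b j (W (n + 1 + m)).1 v := att_le_le hC hv.2 (hW3 (n + 1) m)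
    have h2 : n + m + 1 = n + 1 + m := by omega
    rw [h2] at hv'
    exact att_le_lt hC h1 hv'.1
  apply hk
  refine ⟨fun a => g a '' X, fun n => J (if b = true then (n : ℕ) else k - 1 - n), ?_, ?_, ?_⟩
  · rintro a a' haa _ ⟨v, hv, rfl⟩ _ ⟨v', hv', rfl⟩
    obtain ⟨m, hm⟩ := Nat.exists_eq_add_of_lt (Fin.lt_def.1 haa)
    have h1 := hord a m ⟨v, hv⟩
    have h2 : (a : ℕ) + 1 + m = a' := by omega
    rw [h2] at h1
    have h3 : ¬ R (o j) (g a p') (g a v) := fun h => (hX hv).2 ((R_img hC (o j) _ _ (g a)).1 h)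
    have h4 : ¬ R (o j) (g a' v') (g a' p) := fun h => (hX hv').1 ((R_img hC (o j) _ _ (g a')).1 h)
    have h5 : R (o j) (g a v) (g a' p) := by
      by_cases he : g a v = g a p'
      · rw [he]; exact h1
      · rcases hC.tot j _ _ he with h6 | h6
        · exact hC.tra j _ _ _ h6 h1
        · exact absurd h6 h3
    by_cases he : g a' v' = g a' p
    · rw [he]; exact h5
    · rcases hC.tot j _ _ he with h6 | h6
      · exact absurd h6 h4
      · exact hC.tra j _ _ _ h5 h6
  · intro n n' hn v hv v' hv'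
    have hn' : (n : ℕ) < n' := hn
    cases b
    · have h1 := hJ (k - 1 - n') (k - 1 - n) (by omega) v' hv' v hv
      rw [lts_false] at h1
      exact h1
    · have h1 := hJ n n' hn' v hv v' hv'
      rw [lts_true] at h1
      exact h1
  · intro a n
    obtain ⟨v, hv, hv'⟩ := hW2 (if b = true then (n : ℕ) else k - 1 - n) a
    exact ⟨v, fun m => hv m, hv'⟩

end att

/-- `k` different elements of a set which is infinite or has at least `k` elements -/
private theorem att_card {V : Type} {T : Set V} {k : ℕ} (h : ¬ (T.Finite ∧ T.ncard < k)) :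
    ∃ f : Fin k → V, (∀ m, f m ∈ T) ∧ ∀ m m', m ≠ m' → f m ≠ f m' := by
  have h1 : (k : ℕ∞) ≤ T.encard := by
    by_cases hT : T.Finite
    · have h2 : k ≤ T.ncard := by
        by_contra h3
        exact h ⟨hT, not_le.1 h3⟩
      rw [← hT.cast_ncard_eq]
      exact_mod_cast h2
    · rw [Set.encard_eq_top_iff.2 hT]
      exact le_top
  obtain ⟨t, htT, ht⟩ := Set.exists_subset_encard_eq h1
  have hfin : t.Finite := Set.finite_of_encard_eq_coe ht
  have hn : t.ncard = k := by
    rw [Set.ncard_def, ht]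
    rfl
  have : Finite t := hfin
  have hcard : Nat.card t = k := hn
  let e := (Finite.equivFinOfCardEq hcard).symm
  exact ⟨fun m => (e m).1, fun m => htT (e m).2, fun m m' hm he => hm (e.injective (Subtype.ext he))⟩

theorem thm_ATT : St_ATT := by
  classical
  intro L U _ κ ι R o S hC i
  obtain ⟨k, hk⟩ := hC.grd i
  refine ⟨k, fun A j x y p p' X b hA hx hy hp hp' hX => ?_⟩
  obtain ⟨w, hw, hno⟩ := att_claim hC (y := y) (b := b) (hk j) hA hx hp hp' hX
  set Lc := cel L R o A j y with hLc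
  set T : Set (Set U) := {t | ∃ y' ∈ Lc, lts R o b j w y' ∧ t = tr S i X y'} with hT
  have hTf : T.Finite ∧ T.ncard < k := by
    by_contra hcon
    obtain ⟨f, hf, hf'⟩ := att_card hcon
    choose v hv hv' hv'' using hf
    refine hno ⟨v, fun m => ⟨hv m, hv' m⟩, fun m m' hm he => hf' m m' hm ?_⟩
    rw [hv'' m, hv'' m', he]
  have hsub : Rc R o S b j i X Lc ⊆ T := fun t ht => ht w hw
  refine ⟨hTf.1.subset hsub, (Set.ncard_le_ncard hsub hTf.1).trans_lt hTf.2, ?_⟩
  have hnr : ∀ t : Set U, ∃ u ∈ Lc, t ∉ Rc R o S b j i X Lc →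
      ∀ y' ∈ Lc, lts R o b j u y' → t ≠ tr S i X y' := by
    intro t
    by_cases ht : t ∈ Rc R o S b j i X Lc
    · exact ⟨w, hw, fun h => absurd ht h⟩
    · have ht' : ¬ ∀ u ∈ Lc, ∃ y' ∈ Lc, lts R o b j u y' ∧ t = tr S i X y' := ht
      push Not at ht'
      obtain ⟨u, hu, h⟩ := ht'
      exact ⟨u, hu, fun _ y' hy' hl => h y' hy' hl⟩
  choose u hu hu' using hnr
  obtain ⟨w₁, hw₁, h1, h2⟩ := att_max hC (b := b) (j := j) (G := u '' T) (hTf.1.image u)
    (by rintro _ ⟨t, -, rfl⟩; exact hu t) hw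
  refine ⟨w₁, hw₁, fun y' hy' hl => ?_⟩
  by_contra hcon
  have hyT : tr S i X y' ∈ T := ⟨y', hy', att_le_lt hC h1 hl, rfl⟩
  have h3 := h2 _ ⟨_, hyT, rfl⟩
  exact hu' _ hcon y' hy' (att_le_lt hC h3 hl) rfl

end Pool.Agent.GRK
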