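import Pool.Agent.GRK.Base
import Pool.Agent.GRK.StA

/-!
GRK: module AV (helper72): extreme points are not linked with inner points.
-/

set_option autoImplicit false
set_option linter.unusedVariables false

namespace Pool.Agent.GRK

open FirstOrder.Language Set
open scoped FirstOrder
open Pool.Agent.WOM (tp Mon IsEl IsoM CtU Fx Orb)
open Pool.Agent.PMC (Ini ct Dc cel Sin Nd Ct lts ext XS Ex Fa Ll LL Itv Sm Md NPf fx_symm fx_mono
  def_mem)

section

variable {L : FirstOrder.Language.{0, 0}} {U : Type} [L.Structure U] {κ ι : Type}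
  {R : κ → U → U → Prop} {o : κ → κ} {S : ι → U → U → Prop}

/-- The recurrent traces are invariant. -/
theorem av_rc (hC : Cx L R o S) {A B : Set U} (hAB : A ⊆ B) {j : κ} {b : Bool} {i : ι} {u : U}
    {X : Set U} (hinv : ∀ g : U ≃[L] U, Fx L B g → g '' X = X) {g : U ≃[L] U} (hg : Fx L B g)
    {t : Set U} (h : g '' t ∈ Rc R o S b j i X (cel L R o A j u)) :
    t ∈ Rc R o S b j i X (cel L R o A j u) := by
  have hgA : Fx L A g := fx_mono hAB hg
  intro w hw
  obtain ⟨y, hy, hwy, he⟩ := h (g w) ((fx_mem_cel hC j w u hgA).2 hw)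
  refine ⟨g.symm y, (fx_mem_cel hC j y u (fx_symm hgA)).2 hy, ?_, ?_⟩
  · have h1 := (lts_img hC b j w (g.symm y) g).1 (by
      rw [g.apply_symm_apply]
      exact hwy)
    exact h1
  · have h2 := tr_img hC i X y g.symm
    rw [hinv g.symm (fx_symm hg), ← he, img_symm_img] at h2
    exact h2

/-- The traces of extreme points on a bounded invariant set are recurrent. -/
theorem av_tr (hATT : St_ATT) (hEXB : St_EXB) (hC : Cx L R o S) {A B : Set U} (hAB : A ⊆ B)
    (hB : B.Finite) {j : κ} {b : Bool} {i : ι} {u z p p' : U} (hu : Nd L A u) (hz : Nd L A z)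
    (hp : p ∈ cel L R o A j z) (hp' : p' ∈ cel L R o A j z) {X : Set U}
    (hX : X ⊆ btw R o j p p') (hinv : ∀ g : U ≃[L] U, Fx L B g → g '' X = X) {v : U}
    (hv : v ∈ ext L R o b B j (cel L R o A j u)) :
    tr S i X v ∈ Rc R o S b j i X (cel L R o A j u) := by
  obtain ⟨k, hk⟩ := hATT L U κ ι R o S hC i
  obtain ⟨-, -, w, hw, hwt⟩ := hk A j z u p p' X b (hB.subset hAB) hz hu hp hp' hX
  obtain ⟨-, -, -, -, h5, -⟩ := hEXB L U κ ι R o S hC A B j u b hAB hB hu
  obtain ⟨g, hg, hgv⟩ := h5 v hv w hw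
  have hgB : Fx L B g := hg.1
  have h1 := hwt (g v) ((fx_mem_cel hC j v u (fx_mono hAB hgB)).2 hv.1) hgv
  have h2 := tr_img hC i X v g
  rw [hinv g hgB] at h2
  rw [← h2] at h1
  exact av_rc hC hAB hinv hgB h1

end

theorem thm_AV (hATT : St_ATT) (hEXB : St_EXB) : St_AV := by
  intro L U _ κ ι R o S hC A B j u z b hAB hB hu hz hue hze hlk
  have h1 : ∃ C, Dc L R o B j C ∧ Sin C (cel L R o A j z) ∧ z ∈ C := by
    by_contra hcon
    refine hze true ⟨mem_cel A j z, fun C hD hS => ?_⟩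
    constructor
    · intro h
      exact absurd ⟨C, hD, hS, h⟩ hcon
    · intro h
      exact absurd h (by decide)
  have h2 : ∃ C, Dc L R o B j C ∧ Sin C (cel L R o A j z) ∧ z ∉ C := by
    by_contra hcon
    refine hze false ⟨mem_cel A j z, fun C hD hS => ?_⟩
    constructor
    · intro _
      rfl
    · intro _
      by_contra h
      exact hcon ⟨C, hD, hS, h⟩
  obtain ⟨C2, hD2, ⟨-, p', hp', hpC'⟩, hz2⟩ := h1
  obtain ⟨C1, hD1, ⟨⟨p, hp, hpC⟩, -⟩, hz1⟩ := h2
  set X : Set U := {v | v ∈ cel L R o A j z ∧ v ∉ C1 ∧ v ∈ C2} with hX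
  have hXb : X ⊆ btw R o j p p' := by
    rintro v ⟨-, hv1, hv2⟩
    exact ⟨fun h => hv1 (hD1.2 p hpC v h), fun h => hpC' (hD2.2 v hv2 p' h)⟩
  have hinv1 : ∀ g : U ≃[L] U, Fx L B g → ∀ v, g v ∈ X ↔ v ∈ X := by
    intro g hg v
    have e1 := fx_mem_cel hC j v z (fx_mono hAB hg)
    have e2 := def_mem hD1.1 hg v
    have e3 := def_mem hD2.1 hg v
    show (g v ∈ cel L R o A j z ∧ g v ∉ C1 ∧ g v ∈ C2) ↔
      (v ∈ cel L R o A j z ∧ v ∉ C1 ∧ v ∈ C2)
    rw [e1, e2, e3]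
  have hinv : ∀ g : U ≃[L] U, Fx L B g → g '' X = X := by
    intro g hg
    ext v
    constructor
    · rintro ⟨w, hw, rfl⟩
      exact (hinv1 g hg w).2 hw
    · intro hv
      exact ⟨g.symm v, (hinv1 g.symm (fx_symm hg) v).2 hv, g.apply_symm_apply v⟩
  have hzX : cel L R o B j z ⊆ X := by
    intro y hy
    exact ⟨cel_anti hAB j z hy, fun h => hz1 ((hy C1 hD1).1 h), (hy C2 hD2).2 hz2⟩
  obtain ⟨i, j', hj⟩ := lk_symm hC hlk
  have e : j' = j := hC.uni j' j
  subst e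
  obtain ⟨k, hk⟩ := hATT L U κ ι R o S hC i
  obtain ⟨hfin, -⟩ := hk A j' z u p p' X b (hB.subset hAB) hz hu hp hp' hXb
  obtain ⟨-, hcel, -⟩ := hEXB L U κ ι R o S hC A B j' u b hAB hB hu
  refine hj (fin_tr_sub hzX (Subset.refl _) (hfin.subset ?_))
  rintro t ⟨v, hv, rfl⟩
  rw [hcel u hue] at hv
  exact av_tr hATT hEXB hC hAB hB hu hz hp hp' hXb hinv hv

end Pool.Agent.GRK
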