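import Pool.Agent.GRK.StA
import Pool.Agent.GRK.NBase

/-!
GRK [AVP] (helper33): an extreme cell of a cell is linked with an extreme cell of a linked cell.
-/

set_option autoImplicit false
set_option linter.unusedVariables false

namespace Pool.Agent.GRK

open FirstOrder.Language Set
open scoped FirstOrder
open Pool.Agent.WOM (tp Mon IsEl IsoM CtU Fx Orb)
open Pool.Agent.PMC (Ini ct Dc cel Sin Nd Ct lts ext XS Ex Fa Ll LL Itv Sm Md NPf fx_refl fx_symm
  fx_comp fx_mono comp_apply' def_img def_mono def_compl def_inter def_union def_mem def_fix)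

section

variable {L : FirstOrder.Language.{0, 0}} {U : Type} [L.Structure U] {κ ι : Type}
  {R : κ → U → U → Prop} {o : κ → κ} {S : ι → U → U → Prop}

/-- few traces on finite sets -/
private theorem AVP_local {i : ι} {X Y : Set U} {k : ℕ} (hX : X.Nonempty)
    (h : ∀ P ⊆ X, P.Finite → P.Nonempty → {t | ∃ y ∈ Y, t = tr S i P y}.Finite ∧
      {t | ∃ y ∈ Y, t = tr S i P y}.ncard < k) : {t | ∃ y ∈ Y, t = tr S i X y}.Finite := by
  classical
  by_contra hinf
  obtain ⟨q0, hq0⟩ := hX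
  obtain ⟨s, hs, hsk⟩ := Set.Infinite.exists_subset_card_eq hinf k
  have hq : ∀ t t' : Set U, ∃ q ∈ X, t ∈ s → t' ∈ s → t ≠ t' → ¬ (q ∈ t ↔ q ∈ t') := by
    intro t t'
    by_cases hc : t ∈ s ∧ t' ∈ s ∧ t ≠ t'
    · obtain ⟨h1, h2, h3⟩ := hc
      by_contra hcon
      push Not at hcon
      apply h3
      obtain ⟨y, hy, rfl⟩ := hs h1
      obtain ⟨y', hy', rfl⟩ := hs h2
      ext q
      by_cases hqX : q ∈ X
      · exact (hcon q hqX).2.2.2
      · exact ⟨fun h => absurd h.1 hqX, fun h => absurd h.1 hqX⟩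
    · refine ⟨q0, hq0, fun h1 h2 h3 => absurd ⟨h1, h2, h3⟩ hc⟩
  choose q hqX hq using hq
  let P : Set U := insert q0 ((fun p : Set U × Set U => q p.1 p.2) '' (s ×ˢ s : Finset _))
  have hPX : P ⊆ X := by
    rintro x (rfl | ⟨p, -, rfl⟩)
    · exact hq0
    · exact hqX _ _
  have hPf : P.Finite := ((Finset.finite_toSet _).image _).insert _
  obtain ⟨hf, hk⟩ := h P hPX hPf ⟨q0, Or.inl rfl⟩
  have hinj : Set.InjOn (fun t : Set U => t ∩ P) (s : Set (Set U)) := by
    intro t ht t' ht' he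
    by_contra hne
    have hP : q t t' ∈ P := Or.inr ⟨(t, t'), Finset.mem_coe.2 (Finset.mem_product.2 ⟨ht, ht'⟩), rfl⟩
    apply hq t t' ht ht' hne
    have he' : t ∩ P = t' ∩ P := he
    constructor
    · intro h1
      have : q t t' ∈ t' ∩ P := by rw [← he']; exact ⟨h1, hP⟩
      exact this.1
    · intro h1
      have : q t t' ∈ t ∩ P := by rw [he']; exact ⟨h1, hP⟩
      exact this.1
  have hsub : (fun t : Set U => t ∩ P) '' (s : Set (Set U)) ⊆ {t | ∃ y ∈ Y, t = tr S i P y} := by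
    rintro _ ⟨t, ht, rfl⟩
    obtain ⟨y, hy, rfl⟩ := hs ht
    refine ⟨y, hy, ?_⟩
    ext x
    constructor
    · rintro ⟨⟨_, h2⟩, h3⟩
      exact ⟨h3, h2⟩
    · rintro ⟨h1, h2⟩
      exact ⟨⟨hPX h1, h2⟩, h1⟩
  have h1 := Set.ncard_le_ncard hsub hf
  rw [Set.InjOn.ncard_image hinj, Set.ncard_coe_finset, hsk] at h1
  omega

/-- a first element -/
private theorem AVP_first (hC : Cx L R o S) (b : Bool) (j : κ) {P : Set U} (hP : P.Finite)
    (hne : P.Nonempty) : ∃ p ∈ P, ∀ p' ∈ P, ¬ lts R o b j p' p := by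
  revert hne
  refine Set.Finite.induction_on P hP (fun h => absurd h Set.not_nonempty_empty) ?_
  intro a Q _ _ ih _
  by_cases hQ : Q.Nonempty
  · obtain ⟨p, hp, h⟩ := ih hQ
    by_cases hap : lts R o b j a p
    · refine ⟨a, Or.inl rfl, ?_⟩
      rintro p' (rfl | hp')
      · exact lts_irr hC b j _
      · intro h'
        exact h p' hp' (lts_trans hC b j h' hap)
    · refine ⟨p, Or.inr hp, ?_⟩
      rintro p' (rfl | hp')
      · exact hap
      · exact h p' hp'
  · refine ⟨a, Or.inl rfl, ?_⟩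
    rintro p' (rfl | hp')
    · exact lts_irr hC b j _
    · exact absurd ⟨p', hp'⟩ hQ

end

/-- [AVP] -/
theorem thm_AVP (hATT : St_ATT) (hEXB : St_EXB) : St_AVP := by
  intro L U _ κ ι R o S hC A B j x y b hAB hB hL v hv
  have hA : A.Finite := hB.subset hAB
  obtain ⟨hx, hy⟩ := lk_nd hC hL
  obtain ⟨i, j', hinf⟩ := hL
  obtain rfl : j' = j := hC.uni j' j
  obtain ⟨i', hi'⟩ := hC.cnv i
  obtain ⟨e1, e2, e3, e4, e5, e6, e7⟩ := hEXB L U κ ι R o S hC A B j' x b hAB hB hx
  by_contra hcon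
  push Not at hcon
  set K := cel L R o A j' x with hK
  set Ly := cel L R o A j' y with hLy
  have hKv : cel L R o B j' v = ext L R o b B j' K := e2 v hv
  -- (1)
  have h1 : ∀ b', {t | ∃ y' ∈ ext L R o b' B j' Ly,
      t = tr S i (ext L R o b B j' K) y'}.Finite := by
    intro b'
    obtain ⟨f1, f2, -⟩ := hEXB L U κ ι R o S hC A B j' y b' hAB hB hy
    obtain ⟨w, hw⟩ := f1
    by_contra hf
    apply hcon b' w hw
    refine ⟨i, j', ?_⟩
    rw [hKv, f2 w hw]
    exact hf
  -- (2)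
  let L0 : Set U := {q | q ∈ Ly ∧ q ∉ ext L R o true B j' Ly ∧ q ∉ ext L R o false B j' Ly}
  have h2 : {t | ∃ u ∈ ext L R o b B j' K, t = tr S i' L0 u}.Finite := by
    by_cases hL0 : L0.Nonempty
    swap
    · rw [Set.not_nonempty_iff_eq_empty] at hL0
      refine (Set.finite_singleton (∅ : Set U)).subset ?_
      rintro t ⟨u, -, rfl⟩
      rw [hL0]
      exact Set.eq_empty_of_forall_notMem fun x hx => hx.1
    obtain ⟨k, hk⟩ := hATT L U κ ι R o S hC i'
    refine AVP_local (k := k) hL0 fun P hPX hPf hPn => ?_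
    -- the two cuts
    have hc2 : ∃ C, Dc L R o B j' C ∧ Sin C Ly ∧ ∀ q ∈ P, q ∈ C := by
      revert hPn hPX
      refine Set.Finite.induction_on P hPf (fun _ h => absurd h Set.not_nonempty_empty) ?_
      intro a Q _ _ ih hsub _
      have ha : ∃ C, Dc L R o B j' C ∧ Sin C Ly ∧ a ∈ C := by
        have h3 := (hsub (Or.inl rfl)).2.1
        by_contra hno
        push Not at hno
        apply h3
        refine ⟨(hsub (Or.inl rfl)).1, fun C hD hS => ?_⟩
        exact ⟨fun h => absurd h (hno C hD hS), fun h => absurd h (by decide)⟩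
      obtain ⟨C, hD, hS, haC⟩ := ha
      by_cases hQ : Q.Nonempty
      · obtain ⟨C', hD', hS', hQC⟩ := ih (fun q hq => hsub (Or.inr hq)) hQ
        rcases ini_total hC hD.2 hD'.2 with h3 | h3
        · refine ⟨C', hD', hS', ?_⟩
          rintro q (rfl | hq)
          · exact h3 haC
          · exact hQC q hq
        · refine ⟨C, hD, hS, ?_⟩
          rintro q (rfl | hq)
          · exact haC
          · exact h3 (hQC q hq)
      · refine ⟨C, hD, hS, ?_⟩
        rintro q (rfl | hq)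
        · exact haC
        · exact absurd ⟨q, hq⟩ hQ
    have hc1 : ∃ C, Dc L R o B j' C ∧ Sin C Ly ∧ ∀ q ∈ P, q ∉ C := by
      revert hPn hPX
      refine Set.Finite.induction_on P hPf (fun _ h => absurd h Set.not_nonempty_empty) ?_
      intro a Q _ _ ih hsub _
      have ha : ∃ C, Dc L R o B j' C ∧ Sin C Ly ∧ a ∉ C := by
        have h3 := (hsub (Or.inl rfl)).2.2
        by_contra hno
        push Not at hno
        apply h3
        refine ⟨(hsub (Or.inl rfl)).1, fun C hD hS => ?_⟩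
        exact ⟨fun _ => rfl, fun _ => hno C hD hS⟩
      obtain ⟨C, hD, hS, haC⟩ := ha
      by_cases hQ : Q.Nonempty
      · obtain ⟨C', hD', hS', hQC⟩ := ih (fun q hq => hsub (Or.inr hq)) hQ
        rcases ini_total hC hD.2 hD'.2 with h3 | h3
        · refine ⟨C, hD, hS, ?_⟩
          rintro q (rfl | hq)
          · exact haC
          · exact fun h => hQC q hq (h3 h)
        · refine ⟨C', hD', hS', ?_⟩
          rintro q (rfl | hq)
          · exact fun h => haC (h3 h)
          · exact hQC q hq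
      · refine ⟨C, hD, hS, ?_⟩
        rintro q (rfl | hq)
        · exact haC
        · exact absurd ⟨q, hq⟩ hQ
    obtain ⟨C2, hD2, hS2, hP2⟩ := hc2
    obtain ⟨C1, hD1, hS1, hP1⟩ := hc1
    let X : Set U := {q | q ∈ Ly ∧ q ∉ C1 ∧ q ∈ C2}
    have hPX' : P ⊆ X := fun q hq => ⟨(hPX hq).1, hP1 q hq, hP2 q hq⟩
    obtain ⟨⟨p, hp, hpC⟩, -⟩ := hS1
    obtain ⟨-, p', hp', hpC'⟩ := hS2
    have hbtw : X ⊆ btw R o j' p p' := by
      rintro q ⟨hq, hq1, hq2⟩
      exact ⟨fun h => hq1 (hD1.2 p hpC q h), fun h => hpC' (hD2.2 q hq2 p' h)⟩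
    obtain ⟨hQf, hQk, w, hw, hwQ⟩ := hk A j' y x p p' X b hA hy hx hp hp' hbtw
    -- invariance
    have hXh : ∀ h : U ≃[L] U, Fx L B h → h '' X = X := by
      have key : ∀ h : U ≃[L] U, Fx L B h → h '' X ⊆ X := by
        rintro h hh _ ⟨q, ⟨hq, hq1, hq2⟩, rfl⟩
        exact ⟨(fx_mem_cel hC j' q y (fx_mono hAB hh)).2 hq,
          fun h' => hq1 ((def_mem hD1.1 hh q).1 h'), (def_mem hD2.1 hh q).2 hq2⟩
      intro h hh
      refine Set.Subset.antisymm (key h hh) ?_
      have h3 := Set.image_mono (f := h) (key h.symm (fx_symm hh))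
      rwa [img_img_symm] at h3
    have hQ : ∀ u' ∈ ext L R o b B j' K, tr S i' X u' ∈ Rc R o S b j' i' X K := by
      intro u' hu'
      obtain ⟨h, hh, hwh⟩ := e5 u' hu' w hw
      have hhB : Fx L B h := nx_fx hh
      have hhA : Fx L A h := fx_mono hAB hhB
      have hu'K : u' ∈ K := hu'.1
      have hhu : h u' ∈ K := (fx_mem_cel hC j' u' x hhA).2 hu'K
      have h3 := hwQ (h u') hhu hwh
      -- apply the inverse
      intro w' hw'
      obtain ⟨z, hz, hz1, hz2⟩ := h3 (h w') ((fx_mem_cel hC j' w' x hhA).2 hw')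
      have hsA : Fx L A h.symm := fx_symm hhA
      refine ⟨h.symm z, (fx_mem_cel hC j' z x hsA).2 hz, ?_, ?_⟩
      · have h4 := (lts_img hC b j' (h w') z h.symm).2 hz1
        rwa [h.symm_apply_apply] at h4
      · have h4 := tr_img hC i' X z h.symm
        rw [hXh h.symm (fx_symm hhB)] at h4
        rw [← h4, ← hz2]
        have h5 := tr_img hC i' X (h u') h.symm
        rw [hXh h.symm (fx_symm hhB), h.symm_apply_apply] at h5
        exact h5.symm
    have hsub : {t | ∃ u ∈ ext L R o b B j' K, t = tr S i' P u} ⊆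
        (fun t => t ∩ P) '' (Rc R o S b j' i' X K) := by
      rintro t ⟨u, hu, rfl⟩
      refine ⟨tr S i' X u, hQ u hu, ?_⟩
      ext q
      constructor
      · rintro ⟨⟨_, h2⟩, h3⟩
        exact ⟨h3, h2⟩
      · rintro ⟨h1, h2⟩
        exact ⟨⟨hPX' h1, h2⟩, h1⟩
    refine ⟨(hQf.image _).subset hsub, ?_⟩
    calc _ ≤ ((fun t => t ∩ P) '' (Rc R o S b j' i' X K)).ncard :=
          Set.ncard_le_ncard hsub (hQf.image _)
      _ ≤ (Rc R o S b j' i' X K).ncard := Set.ncard_image_le hQf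
      _ < k := hQk
  -- (3), (4)
  have h3 : {t | ∃ y' ∈ L0, t = tr S i (ext L R o b B j' K) y'}.Finite :=
    fin_tr hC (i := i') (i' := i) (fun a c => (hi' c a).symm) h2
  have h4 : {t | ∃ y' ∈ Ly, t = tr S i (ext L R o b B j' K) y'}.Finite := by
    refine ((h1 true).union ((h1 false).union h3)).subset ?_
    rintro t ⟨y', hy', rfl⟩
    by_cases k1 : y' ∈ ext L R o true B j' Ly
    · exact Or.inl ⟨y', k1, rfl⟩
    · by_cases k2 : y' ∈ ext L R o false B j' Ly
      · exact Or.inr (Or.inl ⟨y', k2, rfl⟩)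
      · exact Or.inr (Or.inr ⟨y', ⟨hy', k1, k2⟩, rfl⟩)
  -- (5)
  apply hinf
  refine AVP_local (k := {t | ∃ y' ∈ Ly, t = tr S i (ext L R o b B j' K) y'}.ncard + 1)
    ⟨x, mem_cel A j' x⟩ fun P hPX hPf hPn => ?_
  obtain ⟨p0, hp0, hp0'⟩ := AVP_first hC b j' hPf hPn
  obtain ⟨h, hh, hvh⟩ := move hC hA hx hv.1 (hPX hp0) b
  have hhP : ∀ p ∈ P, h p ∈ ext L R o b B j' K := by
    intro p hp
    refine e6 v hv (h p) ((fx_mem_cel hC j' p x hh).2 (hPX hp)) ?_
    by_cases hpp : p = p0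
    · rw [hpp]
      exact hvh
    · rcases lts_tot hC b j' hpp with h5 | h5
      · exact absurd h5 (hp0' p hp)
      · exact lts_trans hC b j' hvh ((lts_img hC b j' p0 p h).2 h5)
  have hsub : {t | ∃ y' ∈ Ly, t = tr S i P y'} ⊆
      (fun t => h.symm '' (t ∩ h '' P)) ''
        {t | ∃ y' ∈ Ly, t = tr S i (ext L R o b B j' K) y'} := by
    rintro t ⟨y', hy', rfl⟩
    refine ⟨tr S i (ext L R o b B j' K) (h y'), ⟨h y', (fx_mem_cel hC j' y' y hh).2 hy', rfl⟩, ?_⟩
    show h.symm '' (tr S i (ext L R o b B j' K) (h y') ∩ h '' P) = _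
    have h5 : tr S i (ext L R o b B j' K) (h y') ∩ h '' P = h '' tr S i P y' := by
      rw [tr_img hC]
      ext q
      constructor
      · rintro ⟨⟨_, h2⟩, h3⟩
        exact ⟨h3, h2⟩
      · rintro ⟨h1, h2⟩
        refine ⟨⟨?_, h2⟩, h1⟩
        obtain ⟨p, hp, rfl⟩ := h1
        exact hhP p hp
    rw [h5, img_symm_img]
  refine ⟨(h4.image _).subset hsub, ?_⟩
  refine Nat.lt_succ_of_le ?_
  exact (Set.ncard_le_ncard hsub (h4.image _)).trans (Set.ncard_image_le h4)

end Pool.Agent.GRK
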