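import Pool.Agent.GRK.StC
import Pool.Agent.GRK.Base

/-!
GRK: back and forth (from `BAG`).
-/

set_option autoImplicit false
set_option linter.unusedVariables false

namespace Pool.Agent.GRK

open FirstOrder.Language Set
open scoped FirstOrder
open Pool.Agent.WOM (tp Mon IsEl IsoM CtU Fx Orb)
open Pool.Agent.PMC (Ini ct Dc cel Sin Nd Ct lts ext XS Ex Fa Ll LL Itv Sm Md NPf)

theorem thm_BAF (hBAG : St_BAG) : St_BAF := by
  intro L U _ A X Y P hX hY h0 h1 h2 h3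
  obtain ⟨e, he⟩ := hBAG U U X Y P hX hY h0 h1 h2 (fun s hs hP c hc c' hc' => by
    obtain ⟨g, -, hg⟩ := h3 s hs hP
    rw [← hg c hc, ← hg c' hc']
    exact ⟨fun h => by rw [h], fun h => g.injective h⟩)
  refine ⟨e, fun s hs => ?_⟩
  obtain ⟨t, ht, hP, -, h4⟩ := he s hs
  obtain ⟨g, hg, hg2⟩ := h3 t ht hP
  exact ⟨g, hg, fun x hx => hg2 _ (h4 x hx)⟩

end Pool.Agent.GRK
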