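import Pool.Agent.GRK.StE

/-!
MNO: [BAG] back and forth, general form.
-/

set_option autoImplicit false

namespace Pool.Agent.GRK

open Set

/-- [BAG] -/
theorem thm_BAG : St_BAG := by
  classical
  intro U V X Y P hX hY h0 hf hb hg
  rcases X.eq_empty_or_nonempty with hXe | hXn
  · have hYe : Y = ∅ := by
      refine Set.eq_empty_of_forall_notMem fun y hy => ?_
      obtain ⟨x, hx, -⟩ := hb ∅ Set.finite_empty h0 y hy
      rw [hXe] at hx
      exact hx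
    subst hXe
    subst hYe
    refine ⟨Equiv.equivOfIsEmpty _ _, fun s _ => ⟨∅, Set.finite_empty, h0, ?_, ?_⟩⟩
    · intro c hc
      exact absurd hc (Set.notMem_empty _)
    · intro x _
      exact absurd x.2 (Set.notMem_empty _)
  have hYn : Y.Nonempty := by
    obtain ⟨x, hx⟩ := hXn
    obtain ⟨y, hy, -⟩ := hf ∅ Set.finite_empty h0 x hx
    exact ⟨y, hy⟩
  obtain ⟨ex, hex⟩ := hX.exists_eq_range hXn
  obtain ⟨ey, hey⟩ := hY.exists_eq_range hYn
  have hexm : ∀ n, ex n ∈ X := fun n => hex ▸ Set.mem_range_self n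
  have heym : ∀ n, ey n ∈ Y := fun n => hey ▸ Set.mem_range_self n
  -- the stages
  let T : Type := {s : Set (U × V) // s.Finite ∧ P s ∧ ∀ c ∈ s, c.1 ∈ X ∧ c.2 ∈ Y}
  have step : ∀ (n : ℕ) (s : T), ∃ s' : T, s.1 ⊆ s'.1 ∧ (∃ y, (ex n, y) ∈ s'.1) ∧
      ∃ x, (x, ey n) ∈ s'.1 := by
    rintro n ⟨s, hs1, hs2, hs3⟩
    obtain ⟨y, hy, h1⟩ := hf s hs1 hs2 (ex n) (hexm n)
    obtain ⟨x, hx, h2⟩ := hb _ (hs1.insert _) h1 (ey n) (heym n)
    refine ⟨⟨insert (x, ey n) (insert (ex n, y) s), (hs1.insert _).insert _, h2, ?_⟩, ?_, ?_, ?_⟩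
    · intro c hc
      rcases hc with rfl | rfl | hc
      · exact ⟨hx, heym n⟩
      · exact ⟨hexm n, hy⟩
      · exact hs3 c hc
    · exact (Set.subset_insert _ _).trans (Set.subset_insert _ _)
    · exact ⟨y, Or.inr (Or.inl rfl)⟩
    · exact ⟨x, Or.inl rfl⟩
  choose nx hnx1 hnx2 hnx3 using step
  let sq : ℕ → T := fun n => Nat.rec
    ⟨∅, Set.finite_empty, h0, fun c hc => absurd hc (Set.notMem_empty c)⟩ (fun n s => nx n s) n
  have hsq : ∀ n, sq (n + 1) = nx n (sq n) := fun n => rfl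
  have hmono : ∀ n m, n ≤ m → (sq n).1 ⊆ (sq m).1 := by
    intro n m hnm
    induction hnm with
    | refl => exact subset_rfl
    | step _ ih =>
      refine ih.trans ?_
      rw [hsq]
      exact hnx1 _ _
  have htot : ∀ x ∈ X, ∃ n y, (x, y) ∈ (sq n).1 := by
    intro x hx
    rw [hex] at hx
    obtain ⟨n, rfl⟩ := hx
    obtain ⟨y, hy⟩ := hnx2 n (sq n)
    exact ⟨n + 1, y, by rw [hsq]; exact hy⟩
  have hsur : ∀ y ∈ Y, ∃ n x, (x, y) ∈ (sq n).1 := by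
    intro y hy
    rw [hey] at hy
    obtain ⟨n, rfl⟩ := hy
    obtain ⟨x, hx⟩ := hnx3 n (sq n)
    exact ⟨n + 1, x, by rw [hsq]; exact hx⟩
  have hfun : ∀ n m x y y', (x, y) ∈ (sq n).1 → (x, y') ∈ (sq m).1 → y = y' := by
    intro n m x y y' h1 h2
    have h3 := hmono n (max n m) (le_max_left _ _) h1
    have h4 := hmono m (max n m) (le_max_right _ _) h2
    exact (hg _ (sq (max n m)).2.1 (sq (max n m)).2.2.1 _ h3 _ h4).1 rfl
  have hinj : ∀ n m x x' y, (x, y) ∈ (sq n).1 → (x', y) ∈ (sq m).1 → x = x' := by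
    intro n m x x' y h1 h2
    have h3 := hmono n (max n m) (le_max_left _ _) h1
    have h4 := hmono m (max n m) (le_max_right _ _) h2
    exact (hg _ (sq (max n m)).2.1 (sq (max n m)).2.2.1 _ h3 _ h4).2 rfl
  choose N F hF using fun x : X => htot x.1 x.2
  have hFY : ∀ x, F x ∈ Y := fun x => ((sq (N x)).2.2.2 _ (hF x)).2
  let f : X → Y := fun x => ⟨F x, hFY x⟩
  have hbij : Function.Bijective f := by
    constructor
    · intro x x' h
      have h1 : F x = F x' := congrArg Subtype.val h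
      exact Subtype.ext (hinj _ _ _ _ _ (hF x) (h1 ▸ hF x'))
    · rintro ⟨y, hy⟩
      obtain ⟨n, x, hx⟩ := hsur y hy
      refine ⟨⟨x, ((sq n).2.2.2 _ hx).1⟩, Subtype.ext ?_⟩
      exact hfun _ _ _ _ _ (hF ⟨x, ((sq n).2.2.2 _ hx).1⟩) hx
  refine ⟨Equiv.ofBijective f hbij, fun s hs => ?_⟩
  obtain ⟨M, hM⟩ := (hs.image N).bddAbove
  refine ⟨(sq M).1, (sq M).2.1, (sq M).2.2.1, ?_, ?_⟩
  · rintro ⟨x, y⟩ hc
    have hxX : x ∈ X := ((sq M).2.2.2 _ hc).1
    refine ⟨⟨x, hxX⟩, ?_⟩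
    have h1 : y = F ⟨x, hxX⟩ := hfun _ _ _ _ _ hc (hF ⟨x, hxX⟩)
    rw [h1]
    rfl
  · intro x hx
    exact hmono (N x) M (hM (Set.mem_image_of_mem N hx)) (hF x)

end Pool.Agent.GRK
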