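import Pool.Agent.GRK.Base

/-!
GRK: base lemmas, second part, module NBA: the automorphisms `Nx L A g` and the finite
equivalence relations (helper89).
-/

set_option autoImplicit false
set_option linter.unusedVariables false
set_option linter.unusedSectionVars false

namespace Pool.Agent.GRK

open FirstOrder.Language Set
open scoped FirstOrder
open Pool.Agent.WOM (tp Mon IsEl IsoM CtU Fx Orb)
open Pool.Agent.PMC (Ini ct Dc cel Sin Nd Ct lts ext XS Ex Fa Ll LL Itv Sm Md NPf fx_refl fx_symm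
  fx_comp fx_mono comp_apply' def_img def_mono def_compl def_inter def_union def_mem def_fix
  def_of_fix conj_of_def exists_isd exists_fin_def isEl_of_orb mem_orb orb_meets sat_fam rel_fx
  rel_def1 rel_def2 rel_hull rel_swap def_close)

variable {L : FirstOrder.Language.{0, 0}} {U : Type} [L.Structure U] {κ ι : Type}
  {R : κ → U → U → Prop} {o : κ → κ} {S : ι → U → U → Prop}

/-- a formula for an equivalence relation -/
theorem nba_key {A : Set U} {E : U → U → Prop}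
    (h : A.Definable L {v : Fin 2 → U | E (v 0) (v 1)}) :
    ∃ φ : L.Formula (A ⊕ Fin 2), ∀ v : Fin 2 → U, E (v 0) (v 1) ↔
      φ.Realize (Sum.elim (fun a : A => (a : U)) v) := by
  rw [definable_iff_exists_formula_sum] at h
  obtain ⟨φ, hφ⟩ := h
  refine ⟨φ, fun v => ?_⟩
  have h3 := congrArg (fun t : Set (Fin 2 → U) => v ∈ t) hφ
  exact iff_of_eq h3

/-- the image of a finite equivalence relation -/
theorem fe_img {A : Set U} {E : U → U → Prop} (h : FE L A E) (g : U ≃[L] U) :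
    FE L (g '' A) (fun x y => E (g.symm x) (g.symm y)) := by
  refine ⟨?_, ?_, ?_⟩
  · obtain ⟨φ, hφ⟩ := nba_key h.dfn
    rw [definable_iff_exists_formula_sum]
    refine ⟨φ.relabel (Sum.map (fun a : A => (⟨g a, a, a.2, rfl⟩ : (g '' A : Set U))) id :
      A ⊕ Fin 2 → (g '' A : Set U) ⊕ Fin 2), ?_⟩
    ext v
    have h5 : v ∈ {v : Fin 2 → U | E (g.symm (v 0)) (g.symm (v 1))} ↔
        E ((fun i => g.symm (v i)) 0) ((fun i => g.symm (v i)) 1) := Iff.rfl
    rw [h5, hφ (fun i => g.symm (v i)), Set.mem_ofPred_eq,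
      FirstOrder.Language.Formula.realize_relabel]
    have h6 := FirstOrder.Language.StrongHomClass.realize_formula g φ
      (v := Sum.elim (fun a : A => (a : U)) (fun i => g.symm (v i)))
    rw [← h6]
    apply iff_of_eq
    congr 1
    funext i
    rcases i with i | i
    · rfl
    · exact g.apply_symm_apply (v i)
  · exact ⟨fun x => h.eqv.refl _, fun hxy => h.eqv.symm hxy, fun hxy hyz => h.eqv.trans hxy hyz⟩
  · obtain ⟨s, hs, hs'⟩ := h.fin
    refine ⟨g '' s, hs.image g, fun x => ?_⟩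
    obtain ⟨y, hy, hxy⟩ := hs' (g.symm x)
    refine ⟨g y, ⟨y, hy, rfl⟩, ?_⟩
    rw [g.symm_apply_apply]
    exact hxy

theorem fe_mono {A B : Set U} (hAB : A ⊆ B) {E : U → U → Prop} (h : FE L A E) : FE L B E :=
  ⟨h.dfn.mono hAB, h.eqv, h.fin⟩

theorem nx_fx {A : Set U} {g : U ≃[L] U} (h : Nx L A g) : Fx L A g := h.1

theorem nx_refl (A : Set U) : Nx L A (FirstOrder.Language.Equiv.refl L U) :=
  ⟨fx_refl A, fun E hE x => hE.eqv.refl x⟩

theorem nx_symm {A : Set U} {g : U ≃[L] U} (h : Nx L A g) : Nx L A g.symm := by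
  refine ⟨fx_symm h.1, fun E hE x => ?_⟩
  have h1 := h.2 E hE (g.symm x)
  rw [g.apply_symm_apply] at h1
  exact hE.eqv.symm h1

theorem nx_comp {A : Set U} {g h : U ≃[L] U} (hg : Nx L A g) (hh : Nx L A h) :
    Nx L A (g.comp h) := by
  refine ⟨fx_comp hg.1 hh.1, fun E hE x => ?_⟩
  rw [comp_apply']
  exact hE.eqv.trans (hh.2 E hE x) (hg.2 E hE (h x))

theorem nx_mono {A B : Set U} (hAB : A ⊆ B) {g : U ≃[L] U} (h : Nx L B g) : Nx L A g :=
  ⟨fx_mono hAB h.1, fun E hE x => h.2 E (fe_mono hAB hE) x⟩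

/-- conjugates; `A` may be fixed by `g` or not -/
theorem nx_conj (hM : Mon L U) {A : Set U} (g : U ≃[L] U) {h : U ≃[L] U} (hh : Nx L A h) :
    Nx L (g '' A) (g.comp (h.comp g.symm)) := by
  refine ⟨?_, fun E hE x => ?_⟩
  · rintro _ ⟨a, ha, rfl⟩
    rw [comp_apply', comp_apply', g.symm_apply_apply, hh.1 a ha]
  · have hE' : FE L A (fun x y => E (g x) (g y)) := by
      have h1 := fe_img hE g.symm
      have h2 : g.symm '' (g '' A) = A := by
        ext y
        constructor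
        · rintro ⟨_, ⟨a, ha, rfl⟩, rfl⟩
          rw [g.symm_apply_apply]
          exact ha
        · intro hy
          exact ⟨g y, ⟨y, hy, rfl⟩, g.symm_apply_apply y⟩
      rw [h2] at h1
      exact h1
    have h1 := hh.2 _ hE' (g.symm x)
    rw [comp_apply', comp_apply']
    have h2 : E (g (g.symm x)) (g (h (g.symm x))) := h1
    rw [g.apply_symm_apply] at h2
    exact h2

theorem nx_conj_fx (hM : Mon L U) {A : Set U} {g h : U ≃[L] U} (hg : Fx L A g) (hh : Nx L A h) :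
    Nx L A (g.comp (h.comp g.symm)) := by
  have h1 := nx_conj hM g hh
  have h2 : g '' A = A := by
    ext y
    constructor
    · rintro ⟨a, ha, rfl⟩
      rw [hg a ha]
      exact ha
    · intro hy
      exact ⟨y, hy, hg y hy⟩
  rw [h2] at h1
  exact h1

/-- an automorphism which is pointwise in `Nx` is in `Nx` (gluing) -/
theorem nx_glue {A : Set U} {h : U ≃[L] U} (H : ∀ x, ∃ g : U ≃[L] U, Nx L A g ∧ g x = h x) :
    Nx L A h := by
  refine ⟨fun a ha => ?_, fun E hE x => ?_⟩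
  · obtain ⟨g, hg, hga⟩ := H a
    rw [← hga]
    exact hg.1 a ha
  · obtain ⟨g, hg, hgx⟩ := H x
    rw [← hgx]
    exact hg.2 E hE x

theorem fe_inter {A : Set U} {E E' : U → U → Prop} (h : FE L A E) (h' : FE L A E') :
    FE L A (fun x y => E x y ∧ E' x y) := by
  classical
  refine ⟨h.dfn.inter h'.dfn, ?_, ?_⟩
  · exact ⟨fun x => ⟨h.eqv.refl x, h'.eqv.refl x⟩,
      fun hxy => ⟨h.eqv.symm hxy.1, h'.eqv.symm hxy.2⟩,
      fun hxy hyz => ⟨h.eqv.trans hxy.1 hyz.1, h'.eqv.trans hxy.2 hyz.2⟩⟩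
  · obtain ⟨s, hs, hs'⟩ := h.fin
    obtain ⟨t, ht, ht'⟩ := h'.fin
    let f : U × U → U := fun p => if hp : ∃ c, E c p.1 ∧ E' c p.2 then hp.choose else p.1
    refine ⟨f '' (s ×ˢ t), (hs.prod ht).image f, fun x => ?_⟩
    obtain ⟨a, ha, hxa⟩ := hs' x
    obtain ⟨b, hb, hxb⟩ := ht' x
    have hp : ∃ c, E c (a, b).1 ∧ E' c (a, b).2 := ⟨x, hxa, hxb⟩
    have hf : f (a, b) = hp.choose := dif_pos hp
    refine ⟨f (a, b), ⟨(a, b), ⟨ha, hb⟩, rfl⟩, ?_⟩
    rw [hf]
    exact ⟨h.eqv.trans hxa (h.eqv.symm hp.choose_spec.1),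
      h'.eqv.trans hxb (h'.eqv.symm hp.choose_spec.2)⟩

theorem fe_top (A : Set U) : FE L A (fun _ _ => True) := by
  refine ⟨?_, ⟨fun _ => trivial, fun _ => trivial, fun _ _ => trivial⟩, ?_⟩
  · have h1 : ({v : Fin 2 → U | True} : Set (Fin 2 → U)) = Set.univ := Set.ofPred_true
    rw [h1]
    exact Set.definable_univ
  · rcases isEmpty_or_nonempty U with hU | ⟨⟨u⟩⟩
    · exact ⟨∅, Set.finite_empty, fun x => (hU.false x).elim⟩
    · exact ⟨{u}, Set.finite_singleton u, fun x => ⟨u, rfl, trivial⟩⟩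

/-- the classes are definable -/
theorem fe_def {A : Set U} {E : U → U → Prop} (h : FE L A E) (x : U) :
    (insert x A).Definable₁ L {y | E x y} := by
  obtain ⟨φ, hφ⟩ := nba_key h.dfn
  unfold Definable₁
  rw [definable_iff_exists_formula_sum]
  refine ⟨φ.relabel (fun i : A ⊕ Fin 2 => (match i with
    | Sum.inl e => Sum.inl ⟨e, mem_insert_of_mem x e.2⟩
    | Sum.inr i => if i = 0 then Sum.inl ⟨x, mem_insert x A⟩ else Sum.inr 0 :
      (insert x A : Set U) ⊕ Fin 1)), ?_⟩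
  ext v
  have h5 : v ∈ {x_1 : Fin 1 → U | x_1 0 ∈ {y | E x y}} ↔ E x (v 0) := Iff.rfl
  have h6 : E x (v 0) ↔ φ.Realize (Sum.elim (fun a : A => (a : U)) (![x, v 0] : Fin 2 → U)) :=
    hφ ![x, v 0]
  rw [h5, h6]
  rw [Set.mem_ofPred_eq, FirstOrder.Language.Formula.realize_relabel]
  apply iff_of_eq
  congr 1
  funext i
  rcases i with i | i
  · rfl
  · fin_cases i <;> rfl

/-- membership in an `A`-definable set -/
theorem fe_of_def {A s : Set U} (h : A.Definable₁ L s) :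
    FE L A (fun x y => x ∈ s ↔ y ∈ s) := by
  classical
  have hp : ∀ i : Fin 2, A.Definable L {v : Fin 2 → U | v i ∈ s} := by
    intro i
    exact Set.Definable.preimage_comp (fun _ : Fin 1 => i) h
  refine ⟨?_, ⟨fun _ => Iff.rfl, fun hxy => hxy.symm, fun hxy hyz => hxy.trans hyz⟩, ?_⟩
  · have h1 : {v : Fin 2 → U | v 0 ∈ s ↔ v 1 ∈ s} =
        ({v : Fin 2 → U | v 0 ∈ s} ∩ {v : Fin 2 → U | v 1 ∈ s}) ∪
        ({v : Fin 2 → U | v 0 ∈ s}ᶜ ∩ {v : Fin 2 → U | v 1 ∈ s}ᶜ) := by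
      ext v
      simp only [Set.mem_ofPred_eq, Set.mem_union, Set.mem_inter_iff, Set.mem_compl_iff]
      tauto
    rw [h1]
    exact ((hp 0).inter (hp 1)).union ((hp 0).compl.inter (hp 1).compl)
  · by_cases h1 : ∃ a, a ∈ s
    · obtain ⟨a, ha⟩ := h1
      by_cases h2 : ∃ b, b ∉ s
      · obtain ⟨b, hb⟩ := h2
        refine ⟨{a, b}, by simp, fun x => ?_⟩
        by_cases hx : x ∈ s
        · exact ⟨a, by simp, iff_of_true hx ha⟩
        · exact ⟨b, by simp, iff_of_false hx hb⟩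
      · refine ⟨{a}, by simp, fun x => ⟨a, rfl, ?_⟩⟩
        have hx : x ∈ s := by
          by_contra hx
          exact h2 ⟨x, hx⟩
        exact iff_of_true hx ha
    · by_cases h2 : ∃ b : U, b ∉ s
      · obtain ⟨b, hb⟩ := h2
        refine ⟨{b}, by simp, fun x => ⟨b, rfl, iff_of_false (fun hx => h1 ⟨x, hx⟩) hb⟩⟩
      · refine ⟨∅, Set.finite_empty, fun x => ?_⟩
        exact absurd ⟨x, fun hx => h1 ⟨x, hx⟩⟩ h2

end Pool.Agent.GRK
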