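import Pool.Agent.GRK.StB
import Pool.Agent.GRK.NBA

/-!
GRK module CHN: gluing along a chain (helper85, after Pool/Agent/PMC/CHN.lean by helper74).
-/

set_option autoImplicit false
set_option linter.unusedVariables false
set_option linter.unusedSectionVars false

namespace Pool.Agent.GRK

open FirstOrder.Language Set
open scoped FirstOrder
open Pool.Agent.WOM (tp Mon IsEl IsoM CtU Fx Orb)
open Pool.Agent.PMC (Ini ct Dc cel Sin Nd Ct lts ext XS Ex Fa Ll LL Itv Sm Md NPf sd)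

namespace CHN

variable {L : FirstOrder.Language.{0, 0}} {U : Type} [L.Structure U] {κ ι : Type}
  {R : κ → U → U → Prop} {o : κ → κ} {S : ι → U → U → Prop}

/-- one step of the construction of the sequence -/
theorem step (hF : St_FAI) (hV : St_MVT) (hC : Cx L R o S) {A E : Set U} {sg : κ → U → Bool}
    (hO : Ori L R o S A E sg) {F W : Set U} (hS : F.Finite) (hW : W.Finite) (hSE : F ⊆ E)
    (hWE : W ⊆ E) {g : U ≃[L] U} (hg : Nx L A g) (h1 : LL L R o A sg F (g '' F))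
    (r : U ≃[L] U) (hr : Nx L A r ∧ ∀ b ∈ F, ∀ w ∈ W, Ll L R o A sg (r (g b)) w) :
    ∃ r' : U ≃[L] U, (Nx L A r' ∧ ∀ b ∈ F, ∀ w ∈ W, Ll L R o A sg (r' (g b)) w) ∧
      ∀ b ∈ F, r' b = r (g b) := by
  obtain ⟨-, -, h3, -⟩ := hF L U κ ι R o S hC A E sg hO
  have hrg : Nx L A (r.comp g) := nx_comp hr.1 hg
  have hE1 : ∀ x, (r.comp g) x ∈ E ↔ x ∈ E := (h3 _ (nx_fx hrg)).1
  have hE2 : ∀ x, g x ∈ E ↔ x ∈ E := (h3 _ (nx_fx hg)).1
  have hD : (r.comp g) '' F ⊆ E := by
    rintro _ ⟨b, hb, rfl⟩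
    exact (hE1 b).2 (hSE hb)
  have hZ : (r.comp g) '' (g '' F) ⊆ E := by
    rintro _ ⟨_, ⟨b, hb, rfl⟩, rfl⟩
    exact (hE1 _).2 ((hE2 b).2 (hSE hb))
  have hDV : LL L R o A sg ((r.comp g) '' F) W := by
    rintro _ ⟨b, hb, rfl⟩ w hw
    exact hr.2 b hb w hw
  have hDZ : LL L R o A sg ((r.comp g) '' F) ((r.comp g) '' (g '' F)) := by
    rintro _ ⟨b, hb, rfl⟩ _ ⟨c, hc, rfl⟩
    have hcE : c ∈ E := by
      obtain ⟨b', hb', rfl⟩ := hc
      exact (hE2 b').2 (hSE hb')
    exact ((h3 _ (nx_fx hrg)).2 b (hSE hb) c hcE true).2 (h1 b hb c hc)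
  obtain ⟨s, hs, hs1, hs2⟩ := (hV L U κ ι R o S hC A E sg hO ((r.comp g) '' F) W
    ((r.comp g) '' (g '' F)) (hS.image _) hW ((hS.image _).image _) hD hWE hZ hDV).1 hDZ
  refine ⟨s.comp (r.comp g), ⟨nx_comp (nx_mono subset_union_left hs) hrg, ?_⟩, ?_⟩
  · intro b hb w hw
    exact hs2 _ ⟨(r.comp g) (g b), ⟨g b, ⟨b, hb, rfl⟩, rfl⟩, rfl⟩ w hw
  · intro b hb
    exact nx_fx hs _ (Or.inr ⟨b, hb, rfl⟩)

/-- the sequence of the automorphisms `r_n` -/
theorem seq (hF : St_FAI) (hV : St_MVT) (hC : Cx L R o S) {A E : Set U} {sg : κ → U → Bool}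
    (hO : Ori L R o S A E sg) {F W : Set U} (hS : F.Finite) (hW : W.Finite) (hSE : F ⊆ E)
    (hWE : W ⊆ E) {g : U ≃[L] U} (hg : Nx L A g) (h1 : LL L R o A sg F (g '' F))
    (h2 : LL L R o A sg (g '' F) W) :
    ∃ r : ℕ → (U ≃[L] U), r 0 = FirstOrder.Language.Equiv.refl L U ∧ (∀ n, Nx L A (r n)) ∧
      (∀ n, ∀ b ∈ F, ∀ w ∈ W, Ll L R o A sg (r n (g b)) w) ∧
      ∀ n, ∀ b ∈ F, r (n + 1) b = r n (g b) := by
  classical
  have hst := step hF hV hC hO hS hW hSE hWE hg h1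
  choose f hf1 hf2 using hst
  have h0 : Nx L A (FirstOrder.Language.Equiv.refl L U) ∧
      ∀ b ∈ F, ∀ w ∈ W, Ll L R o A sg ((FirstOrder.Language.Equiv.refl L U) (g b)) w :=
    ⟨nx_refl A, fun b hb w hw => h2 _ ⟨b, hb, rfl⟩ w hw⟩
  let G0 : ℕ → {r : U ≃[L] U // Nx L A r ∧ ∀ b ∈ F, ∀ w ∈ W, Ll L R o A sg (r (g b)) w} :=
    fun n => Nat.rec ⟨_, h0⟩ (fun _ x => ⟨f x.1 x.2, hf1 x.1 x.2⟩) n
  refine ⟨fun n => (G0 n).1, rfl, fun n => (G0 n).2.1, fun n => (G0 n).2.2, ?_⟩
  intro n b hb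
  exact hf2 (G0 n).1 (G0 n).2 b hb

end CHN

open CHN in
theorem thm_CHN (hPRD : St_PRD) (hMVT : St_MVT) (hFCT : St_FCT) (hFAI : St_FAI)
    (hORD : St_ORD) : St_CHN := by
  classical
  have hP := hPRD
  have hV := hMVT
  have hT := hFCT
  have hF := hFAI
  have hOR := hORD
  intro L U _ κ ι R o S hC A E sg hO F W hS hW hSE hWE hSW g hg h1 h2
  obtain ⟨r, hr0, hrA, hrW, hrs⟩ := seq hF hV hC hO hS hW hSE hWE hg h1 h2
  obtain ⟨-, -, h3, -⟩ := hF L U κ ι R o S hC A E sg hO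
  obtain ⟨-, ho2, ho3, ho4, -, -⟩ := hOR L U κ ι R o S hC A E sg hO
  rcases F.eq_empty_or_nonempty with hSe | ⟨b0, hb0⟩
  · subst hSe
    exact ⟨FirstOrder.Language.Equiv.refl L U, nx_refl _, fun _ _ => rfl,
      fun b hb => absurd hb (notMem_empty b)⟩
  -- images
  have hE : ∀ (q : U ≃[L] U), Nx L A q → ∀ x, q x ∈ E ↔ x ∈ E := fun q hq => (h3 q (nx_fx hq)).1
  have hLl : ∀ (q : U ≃[L] U), Nx L A q → ∀ x ∈ E, ∀ y ∈ E,
      (Ll L R o A sg (q x) (q y) ↔ Ll L R o A sg x y) :=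
    fun q hq x hx y hy => (h3 q (nx_fx hq)).2 x hx y hy true
  have hrE : ∀ n, ∀ b ∈ F, r n b ∈ E := fun n b hb => (hE _ (hrA n) b).2 (hSE hb)
  -- `B_n << B_(n+1)` and `B_n << W`
  have hBB : ∀ n, ∀ b ∈ F, ∀ c ∈ F, Ll L R o A sg (r n b) (r (n + 1) c) := by
    intro n b hb c hc
    rw [hrs n c hc]
    exact (hLl _ (hrA n) b (hSE hb) (g c) ((hE g hg c).2 (hSE hc))).2 (h1 b hb _ ⟨c, hc, rfl⟩)
  have hBW : ∀ n, ∀ b ∈ F, ∀ w ∈ W, Ll L R o A sg (r n b) w := by
    intro n b hb w hw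
    cases n with
    | zero =>
      rw [hr0]
      exact hSW b hb w hw
    | succ n =>
      rw [hrs n b hb]
      exact hrW n b hb w hw
  -- the levels
  let P : ℕ → U → Prop := fun n z => ∀ b ∈ F, Ll L R o A sg (r n b) z
  have hP1 : ∀ n, ∀ z ∈ E, P (n + 1) z → P n z := by
    intro n z hz h b hb
    exact ho4 _ (hrE n b hb) _ (hrE (n + 1) b hb) z hz (hBB n b hb b hb) (h b hb)
  have hPm : ∀ z ∈ E, ∀ m n, n ≤ m → P m z → P n z := by
    intro z hz m n hnm
    induction hnm with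
    | refl => exact fun h => h
    | step _ ih => exact fun h => ih (hP1 _ z hz h)
  let q : ℕ → (U ≃[L] U) := fun n => (r (n + 1)).comp (r n).symm
  have hqA : ∀ n, Nx L A (q n) := fun n => nx_comp (hrA (n + 1)) (nx_symm (hrA n))
  have hqr : ∀ n x, q n (r n x) = r (n + 1) x := by
    intro n x
    show r (n + 1) ((r n).symm (r n x)) = r (n + 1) x
    rw [(r n).symm_apply_apply]
  have hq1 : ∀ n, ∀ z ∈ E, (P (n + 1) (q n z) ↔ P n z) := by
    intro n z hz
    refine forall₂_congr fun b hb => ?_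
    rw [← hqr n b]
    exact hLl _ (hqA n) _ (hrE n b hb) z hz
  have hq2 : ∀ n, ∀ z ∈ E, (P (n + 2) (q n z) ↔ P (n + 1) z) := by
    intro n z hz
    refine forall₂_congr fun b hb => ?_
    have e : r (n + 2) b = q n (r (n + 1) b) := by
      rw [hrs (n + 1) b hb, hrs n b hb, hqr]
    rw [e]
    exact hLl _ (hqA n) _ (hrE (n + 1) b hb) z hz
  -- trichotomy of the levels
  have htri : ∀ z, (∀ n, P n z) ∨ ¬ P 0 z ∨ ∃ n, P n z ∧ ¬ P (n + 1) z := by
    intro z
    by_contra hc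
    push Not at hc
    obtain ⟨⟨n, hn⟩, h0, hs⟩ := hc
    exact hn (Nat.rec h0 (fun k hk => hs k hk) n)
  -- the automorphism at `z`
  have hex : ∀ z, ∃ a : U ≃[L] U, Nx L A a ∧ (z ∉ E → a = FirstOrder.Language.Equiv.refl L U) ∧
      ((∀ n, P n z) → a = FirstOrder.Language.Equiv.refl L U) ∧
      (z ∈ E → ¬ P 0 z → a = q 0) ∧
      (z ∈ E → ∀ n, P n z → ¬ P (n + 1) z → a = q n) := by
    intro z
    by_cases hz : z ∈ E
    · rcases htri z with h | h | ⟨n, hn, hn'⟩
      · exact ⟨_, nx_refl A, fun h' => absurd hz h', fun _ => rfl, fun _ h' => absurd (h 0) h',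
          fun _ n _ h' => absurd (h (n + 1)) h'⟩
      · refine ⟨q 0, hqA 0, fun h' => absurd hz h', fun h' => absurd (h' 0) h, fun _ _ => rfl, ?_⟩
        intro _ n hn _
        exact absurd (hPm z hz n 0 (Nat.zero_le n) hn) h
      · refine ⟨q n, hqA n, fun h' => absurd hz h', fun h' => absurd (h' _) hn',
          fun _ h' => absurd (hPm z hz n 0 (Nat.zero_le n) hn) h', ?_⟩
        intro _ m hm hm'
        have : n = m := by
          by_contra hne
          rcases lt_or_gt_of_ne hne with hlt | hlt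
          · exact hn' (hPm z hz m (n + 1) hlt hm)
          · exact hm' (hPm z hz n (m + 1) hlt hn)
        rw [this]
    · exact ⟨_, nx_refl A, fun _ => rfl, fun _ => rfl, fun h => absurd h hz,
        fun h => absurd h hz⟩
  choose a haA ha1 ha2 ha3 ha4 using hex
  let H : U → U := fun z => a z z
  have hHE : ∀ z, H z ∈ E ↔ z ∈ E := fun z => hE (a z) (haA z) z
  have hH1 : ∀ z, z ∉ E → H z = z := by
    intro z hz
    show a z z = z
    rw [ha1 z hz]
    rfl
  have hH2 : ∀ z, (∀ n, P n z) → H z = z := by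
    intro z hz
    show a z z = z
    rw [ha2 z hz]
    rfl
  have hH3 : ∀ z ∈ E, ¬ P 0 z → H z = q 0 z := by
    intro z hz h
    show a z z = q 0 z
    rw [ha3 z hz h]
  have hH4 : ∀ z ∈ E, ∀ n, P n z → ¬ P (n + 1) z → H z = q n z := by
    intro z hz n h h'
    show a z z = q n z
    rw [ha4 z hz n h h']
  -- levels of the images
  have hL1 : ∀ z ∈ E, ∀ n, P n z → P (n + 1) (H z) := by
    intro z hz n hn
    rcases htri z with h | h | ⟨m, hm, hm'⟩
    · rw [hH2 z h]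
      exact h _
    · exact absurd (hPm z hz n 0 (Nat.zero_le n) hn) h
    · rw [hH4 z hz m hm hm']
      have hnm : n ≤ m := by
        by_contra hlt
        exact hm' (hPm z hz n (m + 1) (by omega) hn)
      exact hPm _ ((hE _ (hqA m) z).2 hz) (m + 1) (n + 1) (by omega) ((hq1 m z hz).2 hm)
  have hL2 : ∀ z ∈ E, ∀ n, ¬ P n z → ¬ P (n + 1) (H z) := by
    intro z hz n hn
    rcases htri z with h | h | ⟨m, hm, hm'⟩
    · exact absurd (h n) hn
    · rw [hH3 z hz h]
      intro h'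
      exact h ((hq1 0 z hz).1 (hPm _ ((hE _ (hqA 0) z).2 hz) (n + 1) 1 (by omega) h'))
    · rw [hH4 z hz m hm hm']
      have hnm : m + 1 ≤ n := by
        by_contra hlt
        exact hn (hPm z hz m n (by omega) hm)
      intro h'
      exact hm' ((hq2 m z hz).1 (hPm _ ((hE _ (hqA m) z).2 hz) (n + 1) (m + 2) (by omega) h'))
  -- comparison of levels
  have hcmp : ∀ x ∈ E, ∀ y ∈ E, ∀ n, ¬ P n x → P n y → Ll L R o A sg x y := by
    intro x hx y hy n hnx hny
    have hnx' : ∃ b ∈ F, ¬ Ll L R o A sg (r n b) x := by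
      by_contra hc
      push Not at hc
      exact hnx hc
    obtain ⟨b, hb, hbx⟩ := hnx'
    rcases ho3 _ (hrE n b hb) y hy (hny b hb) x hx with h | h
    · exact absurd h hbx
    · exact h
  have hR1 : ∀ x ∈ E, ∀ y ∈ E, ∀ n, ¬ P n x → P n y → ∀ i,
      (S i x y ↔ S i (H x) (H y)) ∧ (S i y x ↔ S i (H y) (H x)) := by
    intro x hx y hy n hnx hny i
    have hT' := hT L U κ ι R o S hC A E sg hO x hx y hy (a x) (a y) (haA x) (haA y)
      (hcmp x hx y hy n hnx hny)
      (hcmp _ ((hHE x).2 hx) _ ((hHE y).2 hy) (n + 1) (hL2 x hx n hnx) (hL1 y hy n hny))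
    obtain ⟨i', hi'⟩ := hC.cnv i
    exact ⟨hT' i, (hi' x y).symm.trans ((hT' i').trans (hi' _ _))⟩
  -- same levels: the same automorphism
  have hsame : ∀ x ∈ E, ∀ y ∈ E, (∀ n, P n x ↔ P n y) → a x = a y := by
    intro x hx y hy h
    rcases htri x with hh | hh | ⟨m, hm, hm'⟩
    · rw [ha2 x hh, ha2 y (fun n => (h n).1 (hh n))]
    · rw [ha3 x hx hh, ha3 y hy (fun h' => hh ((h 0).2 h'))]
    · rw [ha4 x hx m hm hm', ha4 y hy m ((h m).1 hm) (fun h' => hm' ((h _).2 h'))]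
  have hRH : ∀ i x y, S i (H x) (H y) ↔ S i x y := by
    intro i x y
    by_cases hx : x ∈ E
    · by_cases hy : y ∈ E
      · by_cases hs : ∀ n, P n x ↔ P n y
        · show S i (a x x) (a y y) ↔ S i x y
          rw [hsame x hx y hy hs]
          exact S_img hC i x y (a y)
        · push Not at hs
          obtain ⟨n, hn | hn⟩ := hs
          · exact (hR1 y hy x hx n hn.2 hn.1 i).2.symm
          · exact (hR1 x hx y hy n hn.1 hn.2 i).1.symm
      · obtain ⟨p, hp1, hp2, hp3⟩ := hP L U κ ι R o S hC A E hO.fin hO.clo (a x) (haA x)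
        rw [hH1 y hy]
        show S i (a x x) y ↔ S i x y
        rw [← hp2 x hx]
        nth_rewrite 1 [← hp3 y hy]
        exact S_img hC i x y p
    · by_cases hy : y ∈ E
      · obtain ⟨p, hp1, hp2, hp3⟩ := hP L U κ ι R o S hC A E hO.fin hO.clo (a y) (haA y)
        rw [hH1 x hx]
        show S i x (a y y) ↔ S i x y
        rw [← hp2 y hy]
        nth_rewrite 1 [← hp3 x hx]
        exact S_img hC i x y p
      · rw [hH1 x hx, hH1 y hy]
  -- `H` is a bijection
  have hinj : Function.Injective H := by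
    intro x y hxy
    by_cases hx : x ∈ E
    · have hy : y ∈ E := (hHE y).1 (hxy ▸ (hHE x).2 hx)
      have hs : ∀ n, P n x ↔ P n y := by
        intro n
        constructor
        · intro h
          by_contra hn
          exact hL2 y hy n hn (hxy ▸ hL1 x hx n h)
        · intro h
          by_contra hn
          exact hL2 x hx n hn (hxy.symm ▸ hL1 y hy n h)
      have h' : a x x = a y y := hxy
      rw [hsame x hx y hy hs] at h'
      exact (a y).injective h'
    · have hy : y ∉ E := fun hy => hx ((hHE x).1 (hxy ▸ (hHE y).2 hy))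
      rw [hH1 x hx, hH1 y hy] at hxy
      exact hxy
  have hsur : Function.Surjective H := by
    intro y
    by_cases hy : y ∈ E
    · rcases htri y with h | h | ⟨m, hm, hm'⟩
      · exact ⟨y, hH2 y h⟩
      · refine ⟨(q 0).symm y, ?_⟩
        have hz : (q 0).symm y ∈ E := (hE _ (nx_symm (hqA 0)) y).2 hy
        have hq : q 0 ((q 0).symm y) = y := (q 0).apply_symm_apply y
        rw [hH3 _ hz, hq]
        intro h'
        have := (hq1 0 _ hz).2 h'
        rw [hq] at this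
        exact h (hP1 0 y hy this)
      · cases m with
        | zero =>
          refine ⟨(q 0).symm y, ?_⟩
          have hz : (q 0).symm y ∈ E := (hE _ (nx_symm (hqA 0)) y).2 hy
          have hq : q 0 ((q 0).symm y) = y := (q 0).apply_symm_apply y
          rw [hH3 _ hz, hq]
          intro h'
          have := (hq1 0 _ hz).2 h'
          rw [hq] at this
          exact hm' this
        | succ m =>
          refine ⟨(q m).symm y, ?_⟩
          have hz : (q m).symm y ∈ E := (hE _ (nx_symm (hqA m)) y).2 hy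
          have hq : q m ((q m).symm y) = y := (q m).apply_symm_apply y
          rw [hH4 _ hz m, hq]
          · rw [← hq1 m _ hz, hq]
            exact hm
          · rw [← hq2 m _ hz, hq]
            exact hm'
    · exact ⟨y, hH1 y hy⟩
  obtain ⟨h, hh⟩ := hC.det (Equiv.ofBijective H ⟨hinj, hsur⟩) hRH (fun x => ⟨a x, rfl⟩)
  refine ⟨h, nx_glue (fun x => ⟨a x, haA x, (hh x).symm⟩), ?_, ?_⟩
  · intro x hx
    rw [hh x]
    exact hH2 x (fun n b hb => hBW n b hb x hx)
  · intro b hb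
    rw [hh b]
    show H b = g b
    rw [hH3 b (hSE hb)]
    · have e : q 0 b = q 0 (r 0 b) := by rw [hr0]; rfl
      rw [e, hqr, hrs 0 b hb, hr0]
      rfl
    · intro h'
      have := h' b hb
      rw [hr0] at this
      exact ho2 b (hSE hb) true this

end Pool.Agent.GRK
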