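import Pool.Agent.GRK.Base
import Pool.Agent.GRK.StA

/-!
GRK: module CLA (helper90): finitely many traces on a cell.
-/

set_option autoImplicit false
set_option linter.unusedVariables false
set_option linter.unusedSectionVars false

namespace Pool.Agent.GRK

open FirstOrder.Language Set
open scoped FirstOrder
open Pool.Agent.WOM (tp Mon IsEl IsoM CtU Fx Orb)
open Pool.Agent.PMC (Ini ct Dc cel Sin Nd Ct lts ext XS Ex Fa Ll LL Itv Sm Md NPf fx_refl fx_symm
  fx_comp fx_mono comp_apply' def_img def_mono def_compl def_inter def_union def_mem def_fix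
  def_of_fix conj_of_def exists_isd exists_fin_def isEl_of_orb mem_orb orb_meets sat_fam rel_fx
  rel_def1 rel_def2 rel_hull rel_swap def_close)

variable {L : FirstOrder.Language.{0, 0}} {U : Type} [L.Structure U] {κ ι : Type}
  {R : κ → U → U → Prop} {o : κ → κ} {S : ι → U → U → Prop}

private theorem def_univ (A : Set U) : A.Definable₁ L (univ : Set U) := by
  have h : A.Definable L (univ : Set (Fin 1 → U)) := definable_univ
  exact h

private theorem fin_inter {A K : Set U} {G : Set (Set U)} (hG : G.Finite)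
    (h : ∀ s ∈ G, A.Definable₁ L s ∧ K ⊆ s) :
    ∃ D, A.Definable₁ L D ∧ K ⊆ D ∧ ∀ s ∈ G, D ⊆ s := by
  induction G, hG using Set.Finite.induction_on with
  | empty => exact ⟨univ, def_univ A, subset_univ K, fun s hs => absurd hs (by simp)⟩
  | insert ha hfin ih =>
    rename_i a G'
    obtain ⟨D, h1, h2, h3⟩ := ih fun s hs => h s (mem_insert_of_mem _ hs)
    obtain ⟨h4, h5⟩ := h a (mem_insert _ _)
    refine ⟨a ∩ D, def_inter h4 h1, subset_inter h5 h2, ?_⟩
    rintro s (rfl | hs)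
    · exact inter_subset_left
    · exact inter_subset_right.trans (h3 s hs)

private theorem mem_cel_of {A : Set U} {j : κ} {z v : U}
    (h : ∀ s, A.Definable₁ L s → cel L R o A j z ⊆ s → v ∈ s) : v ∈ cel L R o A j z := by
  intro C hCC
  constructor
  · intro hvC
    by_contra hzC
    exact h Cᶜ (def_compl hCC.1) (fun y hy hyC => hzC ((hy C hCC).1 hyC)) hvC
  · intro hzC
    exact h C hCC.1 fun y hy => (hy C hCC).2 hzC

private theorem sat_nbh (hM : Mon L U) {A B : Set U} (hB : B.Finite) (hAB : A ⊆ B) {j : κ} {z : U}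
    {F : Set (Set U)} (hF : ∀ s ∈ F, B.Definable₁ L s)
    (h : ∀ G ⊆ F, G.Finite → ∀ D, A.Definable₁ L D → cel L R o A j z ⊆ D →
      ∃ v ∈ D, ∀ s ∈ G, v ∈ s) :
    ∃ v ∈ cel L R o A j z, ∀ s ∈ F, v ∈ s := by
  have hF' : ∀ s ∈ F ∪ {s | A.Definable₁ L s ∧ cel L R o A j z ⊆ s}, B.Definable₁ L s := by
    rintro s (hs | hs)
    · exact hF s hs
    · exact def_mono hAB hs.1
  obtain ⟨v, hv⟩ := sat_fam hM hB hF' (by
    intro G hG hGfin
    obtain ⟨D, h1, h2, h3⟩ := fin_inter (A := A) (K := cel L R o A j z)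
      (G := G ∩ {s | A.Definable₁ L s ∧ cel L R o A j z ⊆ s}) (hGfin.inter_of_left _)
      (fun s hs => hs.2)
    obtain ⟨v, hv, hv'⟩ := h (G ∩ F) inter_subset_right (hGfin.inter_of_left _) D h1 h2
    refine ⟨v, fun s hs => ?_⟩
    rcases hG hs with h4 | h4
    · exact hv' s ⟨hs, h4⟩
    · exact h3 s ⟨hs, h4⟩ hv)
  exact ⟨v, mem_cel_of fun s hs hs' => hv s (Or.inr ⟨hs, hs'⟩), fun s hs => hv s (Or.inl hs)⟩

/-- the points which differ from `m` on `D` -/
private def Df (S : ι → U → U → Prop) (i : ι) (D : Set U) (m : U) : Set U :=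
  {v | ∃ x ∈ D, ¬ (S i x v ↔ S i x m)}

private theorem df_def {i : ι} (hS : (∅ : Set U).Definable L {v : Fin 2 → U | S i (v 0) (v 1)})
    {A D : Set U} (hD : A.Definable₁ L D) (m : U) : (insert m A).Definable₁ L (Df S i D m) := by
  have h0 : (insert m A).Definable₁ L D := def_mono (subset_insert m A) hD
  have h1 := rel_def1 hS m A
  have h2 : (insert m A).Definable₁ L {v | ∃ w ∈ D ∩ {x | S i x m}, ¬ S i w v} :=
    rel_hull hS (def_inter h0 h1)
  have hS' : (∅ : Set U).Definable L {v : Fin 2 → U | ¬ S i (v 0) (v 1)} := hS.compl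
  have h3 : (insert m A).Definable₁ L {v | ∃ w ∈ D ∩ {x | S i x m}ᶜ, ¬ ¬ S i w v} :=
    rel_hull (P := fun a b => ¬ S i a b) hS' (def_inter h0 (def_compl h1))
  have h4 : Df S i D m = {v | ∃ w ∈ D ∩ {x | S i x m}, ¬ S i w v} ∪
      {v | ∃ w ∈ D ∩ {x | S i x m}ᶜ, ¬ ¬ S i w v} := by
    ext v
    constructor
    · rintro ⟨x, hx, hx'⟩
      by_cases h5 : S i x m
      · exact Or.inl ⟨x, ⟨hx, h5⟩, fun h6 => hx' ⟨fun _ => h5, fun _ => h6⟩⟩
      · refine Or.inr ⟨x, ⟨hx, h5⟩, fun h6 => hx' ⟨fun h7 => absurd h7 h6, fun h7 => absurd h7 h5⟩⟩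
    · rintro (⟨x, ⟨hx, h5⟩, h6⟩ | ⟨x, ⟨hx, h5⟩, h6⟩)
      · exact ⟨x, hx, fun h7 => h6 (h7.2 h5)⟩
      · exact ⟨x, hx, fun h7 => h6 fun h8 => h5 (h7.1 h8)⟩
  rw [h4]
  exact def_union h2 h3

private theorem wd_def {i : ι} (hS : (∅ : Set U).Definable L {v : Fin 2 → U | S i (v 0) (v 1)})
    {A D Y : Set U} (hD : A.Definable₁ L D) (hY : Y.Finite) :
    (A ∪ Y).Definable₁ L {v | ∀ m ∈ Y, v ∈ Df S i D m} := by
  induction Y, hY using Set.Finite.induction_on with
  | empty =>
    have h : {v : U | ∀ m ∈ (∅ : Set U), v ∈ Df S i D m} = univ := by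
      ext v
      simp
    rw [h]
    exact def_univ _
  | insert ha hfin ih =>
    rename_i a Y'
    have h : {v : U | ∀ m ∈ insert a Y', v ∈ Df S i D m} =
        Df S i D a ∩ {v | ∀ m ∈ Y', v ∈ Df S i D m} := by
      ext v
      constructor
      · intro hv
        exact ⟨hv a (mem_insert _ _), fun m hm => hv m (mem_insert_of_mem _ hm)⟩
      · rintro ⟨h1, h2⟩ m (rfl | hm)
        · exact h1
        · exact h2 m hm
    rw [h]
    refine def_inter (def_mono ?_ (df_def hS hD a)) (def_mono ?_ ih)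
    · rintro b (rfl | hb)
      · exact Or.inr (mem_insert _ _)
      · exact Or.inl hb
    · exact union_subset_union_right A (subset_insert a Y')

theorem thm_CLA : St_CLA := by
  intro L U _ κ ι R o S hC A i j x y hA hfin
  have hS := hC.sdf i
  obtain ⟨Y, hYL, hYb⟩ := exists_subset_bijOn (cel L R o A j y) (tr S i (cel L R o A j x))
  have himg : (tr S i (cel L R o A j x) '' cel L R o A j y).Finite := by
    refine hfin.subset ?_
    rintro t ⟨y', hy', rfl⟩
    exact ⟨y', hy', rfl⟩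
  have hYfin : Y.Finite := by
    have h1 : (tr S i (cel L R o A j x) '' Y).Finite := by
      rw [hYb.image_eq]
      exact himg
    exact h1.of_finite_image hYb.injOn
  by_contra hcon
  have hinf : ∀ D D' : Set U, A.Definable₁ L D → A.Definable₁ L D' → cel L R o A j x ⊆ D →
      cel L R o A j y ⊆ D' → ∃ v ∈ D', ∀ m ∈ Y, v ∈ Df S i D m := by
    intro D D' h1 h2 h3 h4
    by_contra hno
    refine hcon ⟨D, D', h1, h2, h3, h4, (hYfin.image (tr S i D)).subset ?_⟩
    rintro t ⟨y', hy', rfl⟩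
    by_contra ht
    refine hno ⟨y', hy', fun m hm => ?_⟩
    by_contra h5
    refine ht ⟨m, hm, ?_⟩
    ext z
    constructor
    · rintro ⟨hz, hz'⟩
      refine ⟨hz, ?_⟩
      by_contra h6
      exact h5 ⟨z, hz, fun h7 => h6 (h7.2 hz')⟩
    · rintro ⟨hz, hz'⟩
      refine ⟨hz, ?_⟩
      by_contra h6
      exact h5 ⟨z, hz, fun h7 => h6 (h7.1 hz')⟩
  obtain ⟨v, hv, hv'⟩ := sat_nbh (R := R) (o := o) hC.mon (A := A) (B := A ∪ Y) (j := j) (z := y)
    (F := {s | ∃ D, A.Definable₁ L D ∧ cel L R o A j x ⊆ D ∧ s = {v | ∀ m ∈ Y, v ∈ Df S i D m}})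
    (hA.union hYfin) subset_union_left
    (by
      rintro s ⟨D, hD, _, rfl⟩
      exact wd_def hS hD hYfin)
    (by
      intro G hG hGfin D' hD' hD'K
      have h1 : ∃ D, A.Definable₁ L D ∧ cel L R o A j x ⊆ D ∧
          ∀ s ∈ G, {v | ∀ m ∈ Y, v ∈ Df S i D m} ⊆ s := by
        choose! f hf1 hf2 hf3 using fun s (hs : s ∈ G) => hG hs
        obtain ⟨D, h1, h2, h3⟩ := fin_inter (A := A) (K := cel L R o A j x) (G := f '' G)
          (hGfin.image f) (by
            rintro _ ⟨s, hs, rfl⟩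
            exact ⟨hf1 s hs, hf2 s hs⟩)
        refine ⟨D, h1, h2, fun s hs w hw => ?_⟩
        rw [hf3 s hs]
        intro m hm
        obtain ⟨z, hz, hz'⟩ := hw m hm
        exact ⟨z, h3 _ ⟨s, hs, rfl⟩ hz, hz'⟩
      obtain ⟨D, h2, h3, h4⟩ := h1
      obtain ⟨w, hw, hw'⟩ := hinf D D' h2 hD' h3 hD'K
      exact ⟨w, hw, fun s hs => h4 s hs hw'⟩)
  have h5 : tr S i (cel L R o A j x) v ∈ tr S i (cel L R o A j x) '' Y := by
    rw [hYb.image_eq]
    exact ⟨v, hv, rfl⟩
  obtain ⟨m, hm, hm'⟩ := h5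
  obtain ⟨w, hw, hw'⟩ := sat_nbh (R := R) (o := o) hC.mon (A := A) (B := insert v (insert m A))
    (j := j) (z := x) (F := {{w | ¬ (S i w v ↔ S i w m)}}) ((hA.insert m).insert v)
    ((subset_insert m A).trans (subset_insert v _))
    (by
      rintro s rfl
      have h6 := def_mono (B := insert v (insert m A)) (subset_insert v _) (rel_def1 hS m A)
      have h7 := rel_def1 hS v (insert m A)
      have h8 : {w | ¬ (S i w v ↔ S i w m)} =
          ({w | S i w v} ∩ {w | S i w m}ᶜ) ∪ ({w | S i w v}ᶜ ∩ {w | S i w m}) := by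
        ext w
        simp only [mem_ofPred_eq, mem_union, mem_inter_iff, mem_compl_iff]
        tauto
      rw [h8]
      exact def_union (def_inter h7 (def_compl h6)) (def_inter (def_compl h7) h6))
    (by
      intro G hG hGfin D hD hDK
      obtain ⟨z, hz, hz'⟩ := hv' _ ⟨D, hD, hDK, rfl⟩ m hm
      refine ⟨z, hz, fun s hs => ?_⟩
      rw [show s = _ from hG hs]
      exact hz')
  refine hw' _ rfl ?_
  constructor
  · intro h9
    have : w ∈ tr S i (cel L R o A j x) v := ⟨hw, h9⟩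
    rw [← hm'] at this
    exact this.2
  · intro h9
    have : w ∈ tr S i (cel L R o A j x) m := ⟨hw, h9⟩
    rw [hm'] at this
    exact this.2

end Pool.Agent.GRK
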