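import Pool.Agent.GRK.StD

/-!
GRK, module CVG: divisions of the converse relation and of the order (helper14).
-/

set_option autoImplicit false
set_option linter.unusedVariables false

namespace Pool.Agent.GRK

open Set

/-- many points with pairwise different sections force many different traces of the converse -/
private theorem CVG_traces {U : Type} {κ ι : Type} (R : κ → U → U → Prop) (o : κ → κ)
    (S : ι → U → U → Prop) (i i' : ι) (hc : ∀ x y, S i' x y ↔ S i y x) (k : ℕ) (A B : Set U)
    (y : Fin (2 ^ k) → U) (hy : ∀ m, y m ∈ B)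
    (hd : ∀ m m', m ≠ m' → tr S i' A (y m) ≠ tr S i' A (y m')) :
    ∃ z : Fin k → U, (∀ m, z m ∈ A) ∧ ∀ m m', m ≠ m' → tr S i B (z m) ≠ tr S i B (z m') := by
  classical
  set Tr : Set (Set U) := (fun x => tr S i B x) '' A with hTr
  have key : ∃ s : Finset (Set U), (↑s : Set (Set U)) ⊆ Tr ∧ s.card = k := by
    rcases Tr.finite_or_infinite with hf | hi
    · have hinj : Function.Injective (fun m : Fin (2 ^ k) => hf.toFinset.filter (fun t => y m ∈ t)) := by
        intro m m' hmm
        have hmm2 : hf.toFinset.filter (fun t => y m ∈ t) =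
            hf.toFinset.filter (fun t => y m' ∈ t) := hmm
        by_contra hne
        apply hd m m' hne
        ext x
        have hx : ∀ n : Fin (2 ^ k), x ∈ A → (S i' x (y n) ↔
            tr S i B x ∈ hf.toFinset.filter (fun t => y n ∈ t)) := by
          intro n hxA
          rw [Finset.mem_filter, Set.Finite.mem_toFinset, hc]
          constructor
          · intro h
            exact ⟨⟨x, hxA, rfl⟩, hy n, h⟩
          · intro h
            exact h.2.2
        constructor
        · rintro ⟨hxA, hs⟩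
          refine ⟨hxA, (hx m' hxA).2 ?_⟩
          rw [← hmm2]
          exact (hx m hxA).1 hs
        · rintro ⟨hxA, hs⟩
          refine ⟨hxA, (hx m hxA).2 ?_⟩
          rw [hmm2]
          exact (hx m' hxA).1 hs
      have hcard : 2 ^ k ≤ 2 ^ hf.toFinset.card := by
        have h1 := Finset.card_le_card_of_injOn
          (s := (Finset.univ : Finset (Fin (2 ^ k)))) (t := hf.toFinset.powerset)
          (fun m => hf.toFinset.filter (fun t => y m ∈ t))
          (fun m _ => Finset.mem_powerset.2 (Finset.filter_subset _ _))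
          (fun m _ m' _ h => hinj h)
        rwa [Finset.card_univ, Fintype.card_fin, Finset.card_powerset] at h1
      have hk : k ≤ hf.toFinset.card := (Nat.pow_le_pow_iff_right (by norm_num)).1 hcard
      obtain ⟨t, ht, htc⟩ := Finset.exists_subset_card_eq hk
      exact ⟨t, fun u hu => hf.mem_toFinset.1 (ht hu), htc⟩
    · obtain ⟨s, hs, hsc⟩ := hi.exists_subset_card_eq k
      exact ⟨s, hs, hsc⟩
  obtain ⟨s, hs, hsc⟩ := key
  have e := (Finset.equivFinOfCardEq hsc).symm
  have hrep : ∀ m : Fin k, ∃ x ∈ A, tr S i B x = (e m : Set U) := fun m => hs (e m).2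
  choose z hzA hz using hrep
  refine ⟨z, hzA, fun m m' hne heq => hne ?_⟩
  apply e.injective
  apply Subtype.ext
  rw [← hz m, ← hz m', heq]

theorem thm_CVG : St_CVG := by
  intro U κ ι R o S j i i'
  refine ⟨?_, ?_⟩
  · rintro k hc hno ⟨I, J, hI, hJ, hd⟩
    apply hno
    have hk : k ≤ 2 ^ k := Nat.le_of_lt Nat.lt_two_pow_self
    refine ⟨fun a => J (Fin.castLE hk a), fun b => I (Fin.castLE hk b), ?_, ?_, ?_⟩
    · intro a a' haa
      exact hJ _ _ haa
    · intro b b' hbb
      exact hI _ _ hbb
    · intro a b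
      obtain ⟨y, hy, hyd⟩ := hd (Fin.castLE hk b) (Fin.castLE hk a)
      exact CVG_traces R o S i i' hc k _ _ y hy hyd
  · rintro hirr htra htot hS ⟨I, J, hI, hJ, hd⟩
    have h01 : ∃ x ∈ I 0, ∃ y ∈ J 1, ¬ R (o j) x y := by
      obtain ⟨y, hy, hyd⟩ := hd 0 1
      by_contra hcon
      push Not at hcon
      apply hyd 0 1 (by decide)
      ext x
      constructor
      · rintro ⟨hx, _⟩
        exact ⟨hx, (hS _ _).2 (hcon x hx _ (hy 1))⟩
      · rintro ⟨hx, _⟩
        exact ⟨hx, (hS _ _).2 (hcon x hx _ (hy 0))⟩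
    have h10 : ∃ x ∈ I 1, ∃ y ∈ J 0, R (o j) x y := by
      obtain ⟨y, hy, hyd⟩ := hd 1 0
      by_contra hcon
      push Not at hcon
      apply hyd 0 1 (by decide)
      ext x
      constructor
      · rintro ⟨hx, h⟩
        exact absurd ((hS _ _).1 h) (hcon x hx _ (hy 0))
      · rintro ⟨hx, h⟩
        exact absurd ((hS _ _).1 h) (hcon x hx _ (hy 1))
    obtain ⟨x, hx, y, hy, hxy⟩ := h01
    obtain ⟨x', hx', y'', hy'', h2⟩ := h10
    exact hxy (htra _ _ _ (htra _ _ _ (hI 0 1 (by decide) x hx x' hx') h2)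
      (hJ 0 1 (by decide) y'' hy'' y hy))

end Pool.Agent.GRK
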