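import Pool.Agent.GRK.StB
import Pool.Agent.GRK.NBase

/-!
MNO, module FAI: basic facts on good pieces (helper12, after PMC/FAI.lean of helper68)
-/

set_option autoImplicit false
set_option linter.unusedVariables false

namespace Pool.Agent.GRK

open FirstOrder.Language Set
open scoped FirstOrder
open Pool.Agent.WOM (tp Mon IsEl IsoM CtU Fx Orb)
open Pool.Agent.PMC (Ini ct Dc cel Sin Nd Ct lts ext XS Ex Fa Ll LL Itv Sm Md NPf sd fx_refl fx_symm
  fx_comp fx_mono comp_apply' def_img def_mono def_compl def_inter def_union def_mem def_fix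
  def_of_fix conj_of_def exists_isd exists_fin_def isEl_of_orb mem_orb orb_meets sat_fam rel_fx
  rel_def1 rel_def2 rel_hull rel_swap def_close)

section fai

variable {L : FirstOrder.Language.{0, 0}} {U : Type} [L.Structure U] {κ ι : Type}
  {R : κ → U → U → Prop} {o : κ → κ} {S : ι → U → U → Prop} {A E : Set U} {sg : κ → U → Bool}

private theorem FAI_ex (b : Bool) (w : U) (j : κ) (z : U) :
    Ex L R o A (fun j z => !sg j z) b w j z ↔ Ex L R o A sg (!b) w j z := by
  unfold Ex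
  refine forall_congr' fun C => forall_congr' fun _ => forall_congr' fun _ => ?_
  have h1 : (!sg (o j) z) ≠ b ↔ sg (o j) z ≠ !b := by
    cases sg (o j) z <;> cases b <;> simp
  exact iff_congr Iff.rfl h1

private theorem FAI_rev (hC : Cx L R o S) (hO : Ori L R o S A E sg) :
    Ori L R o S A E (fun j z => !sg j z) where
  fin := hO.fin
  ne := hO.ne
  nd := hO.nd
  clo := hO.clo
  cut := hO.cut
  cst := fun j z hz y hy => by
    show (!sg (o j) y) = !sg (o j) z
    rw [hO.cst j z hz y hy]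
  god := fun i j x hx y hy => by
    obtain ⟨i', hi'⟩ := hC.cnv i
    obtain ⟨p, hp, q, hq, hf⟩ := hO.god i' j y hy x hx
    refine ⟨q, hq, p, hp, ?_⟩
    have h1 : {t | ∃ x' ∈ {x' | x' ∈ cel L R o A j x ∧ lts R o (sg (o j) x) j q x'},
        t = tr S i' {y' | y' ∈ cel L R o A j y ∧ lts R o (!sg (o j) y) j p y'} x'}.Finite := by
      refine hf.subset ?_
      rintro t ⟨x', ⟨h2, h3⟩, h4⟩
      exact ⟨x', h2, h3, h4⟩
    have h5 := fin_tr hC (i := i') (i' := i) (fun x y => (hi' y x).symm) h1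
    refine h5.subset ?_
    rintro t ⟨y', h2, h3, h4⟩
    refine ⟨y', ⟨h2, h3⟩, ?_⟩
    rw [h4]
    have h6 : (!(fun (j : κ) (z : U) => !sg j z) (o j) x) = sg (o j) x := by
      show (!(!sg (o j) x)) = sg (o j) x
      rw [Bool.not_not]
    rw [h6]

private theorem FAI_two (hC : Cx L R o S) (hO : Ori L R o S A E sg) {w z : U} (hw : w ∈ E)
    (hz : z ∈ E) {b : Bool} {i : κ} (h : Ex L R o A sg b w i z) : Fa L R o A sg b w z := by
  intro j
  rw [hC.uni j i]
  exact h

private theorem FAI_cel (hC : Cx L R o S) (hO : Ori L R o S A E sg) {z : U} (hz : z ∈ E) (j : κ) :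
    cel L R o A j z ⊆ E :=
  (cel_sub_pc hC hO.fin j z).trans (pc_sub hO.clo hz)

private theorem FAI_img (hC : Cx L R o S) (hO : Ori L R o S A E sg) {g : U ≃[L] U} (hg : Fx L A g)
    {w z : U} (hw : w ∈ E) (hz : z ∈ E) {b : Bool} (h : Fa L R o A sg b w z) :
    Fa L R o A sg b (g w) (g z) := by
  intro j C hD hS
  have hgz : g z ∈ cel L R o A j z := fx_cel hC j z hg
  have hA' : g.symm '' (insert (g w) A) = insert w A := by
    rw [image_insert_eq, g.symm_apply_apply]
    congr 1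
    ext x
    constructor
    · rintro ⟨a, ha, rfl⟩
      rw [fx_symm hg a ha]
      exact ha
    · intro hx
      exact ⟨x, hx, fx_symm hg x hx⟩
  have hD' : Dc L R o (insert w A) j (g.symm '' C) := by
    have h1 := dc_img hC hD g.symm
    rwa [hA'] at h1
  have hS' : Sin (g.symm '' C) (cel L R o A j z) := by
    rw [cel_eq hgz] at hS
    exact sin_img hC (fx_img_cel hC j z (fx_symm hg)) hS
  have h1 := h j (g.symm '' C) hD' hS'
  rw [hO.cst j z hz (g z) hgz, ← h1]
  constructor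
  · intro h2
    exact ⟨g z, h2, g.symm_apply_apply z⟩
  · rintro ⟨y, hy, hyz⟩
    have h2 : g z = y := by
      rw [← hyz]
      exact g.apply_symm_apply y
    rw [h2]
    exact hy

private theorem FAI_sd (b s : Bool) : sd b s = false ↔ s ≠ b := by
  unfold sd
  cases b <;> cases s <;> simp

private theorem FAI_ext (hC : Cx L R o S) (hO : Ori L R o S A E sg) {w z : U} (hw : w ∈ E)
    (hz : z ∈ E) (b : Bool) (j : κ) (v : U) :
    v ∈ ext L R o (sd b (sg (o j) z)) (insert w A) j (cel L R o A j z) ↔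
      v ∈ cel L R o A j z ∧ Fa L R o A sg b w v := by
  constructor
  · rintro ⟨hv, hx⟩
    refine ⟨hv, ?_⟩
    refine FAI_two hC hO hw (FAI_cel hC hO hz j hv) (i := j) ?_
    intro C hD hS
    rw [cel_eq hv] at hS
    rw [hx C hD hS, FAI_sd, hO.cst j z hz v hv]
  · rintro ⟨hv, hx⟩
    refine ⟨hv, fun C hD hS => ?_⟩
    have h1 := hx j C hD (by rw [cel_eq hv]; exact hS)
    rw [h1, FAI_sd, hO.cst j z hz v hv]

end fai

theorem thm_FAI (h1 : St_EXB) : St_FAI := by
  intro L U _ κ ι R o S hC A E sg hO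
  have hX := fun (w z : U) (hz : z ∈ E) (j : κ) (b : Bool) =>
    h1 L U κ ι R o S hC A (insert w A) j z b (subset_insert w A) (hO.fin.insert w) (hO.nd z hz)
  refine ⟨⟨FAI_rev hC hO, fun b w j z => FAI_ex b w j z⟩, ?_, ?_, ?_, ?_, ?_, ?_, ?_⟩
  · intro w hw z hz b i h
    exact FAI_two hC hO hw hz h
  · intro g hg
    refine ⟨fun x => cls_fx hC hO.fin hO.clo hg x, fun w hw z hz b => ⟨fun h => ?_, fun h =>
      FAI_img hC hO hg hw hz h⟩⟩
    have h2 := FAI_img hC hO (fx_symm hg) ((cls_fx hC hO.fin hO.clo hg w).2 hw)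
      ((cls_fx hC hO.fin hO.clo hg z).2 hz) h
    rwa [g.symm_apply_apply, g.symm_apply_apply] at h2
  · intro w hw z hz j b
    obtain ⟨v, hv⟩ := (hX w z hz j (sd b (sg (o j) z))).1
    exact ⟨v, ((FAI_ext hC hO hw hz b j v).1 hv).1, ((FAI_ext hC hO hw hz b j v).1 hv).2⟩
  · intro w hw z hz j b v hv hF
    have hv' := (FAI_ext hC hO hw hz b j v).2 ⟨hv, hF⟩
    refine ⟨(hX w z hz j (sd b (sg (o j) z))).2.2.1 v hv', ?_⟩
    rw [(hX w z hz j (sd b (sg (o j) z))).2.1 v hv']
    ext y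
    exact FAI_ext hC hO hw hz b j y
  · intro w hw z hz b h h'
    obtain ⟨j⟩ := hC.ne
    obtain ⟨C, hD, hS⟩ := hO.cut w hw z hz j
    have h2 := (h j C hD hS).symm.trans (h' j C hD hS)
    cases b <;> cases hs : sg (o j) z <;> simp [hs] at h2
  · intro w hw z hz j b y hy hF hl
    have hz' := (FAI_ext hC hO hw hz b j z).2 ⟨mem_cel A j z, hF⟩
    have h2 := (hX w z hz j (sd b (sg (o j) z))).2.2.2.2.2.1 z hz' y hy hl
    exact ((FAI_ext hC hO hw hz b j y).1 h2).2
  · intro w hw z hz j b p hp hF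
    have hz' := (FAI_ext hC hO hw hz b j z).2 ⟨mem_cel A j z, hF⟩
    exact (hX w z hz j (sd b (sg (o j) z))).2.2.2.2.1 z hz' p hp

end Pool.Agent.GRK
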