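import Pool.Agent.GRK.StB
import Pool.Agent.GRK.Base
import Pool.Agent.MNO.Kit

/-!
GRK: [FC2] openness of the relation `Fcr` (helper25).
-/

set_option autoImplicit false
set_option linter.unusedVariables false

namespace Pool.Agent.GRK

open FirstOrder.Language Set
open scoped FirstOrder
open Pool.Agent.WOM (tp Mon IsEl IsoM CtU Fx Orb)
open Pool.Agent.PMC (Ini ct Dc cel Sin Nd Ct lts ext XS Ex Fa Ll LL Itv Sm Md NPf fx_refl fx_symm
  fx_comp fx_mono comp_apply' def_mono def_compl def_mem conj_of_def sat_fam rel_def2)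
open Pool.Agent.MNO (Dp dp_congr dp_mono dp_not dp_iff dp_imp dp_ball dp_sub dp_all1 dp_fam1
  dp_fx dp_of_def1 def1_of_dp1)

theorem thm_FC2 (hFAI : St_FAI) : St_FC2 := by
  intro L U _ κ ι R o S hC A E sg hE i b x w hx hw u hu u' hu' hF
  classical
  obtain ⟨j⟩ := hC.ne
  obtain ⟨-, f2, f3, -, -, -, -, -⟩ := hFAI L U κ ι R o S hC A E sg hE
  have hA := hE.fin
  have horb : ∀ a ∈ Orb L A x, a ∈ E := by
    rintro a ⟨g, hg, rfl⟩
    exact ((f3 g hg).1 x).2 hx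
  have huE := horb u hu
  have hu'E := horb u' hu'
  let F1 : Set (Set U) := {s | A.Definable₁ L s ∧ w ∈ s}
  let F2 : U → Set (Set U) := fun a => {s | ∃ C, Dc L R o (insert a A) j C ∧
    Sin C (cel L R o A j w) ∧ s = {y | y ∈ C ↔ sg (o j) w ≠ b}}
  let F4 : Set (Set U) := {s | s = {y | ¬ (S i u y ↔ S i u' y)}}
  have hdef2 : ∀ a, ∀ s ∈ F2 a, (insert a A).Definable₁ L s := by
    rintro a s ⟨C, hCd, -, rfl⟩
    by_cases hb : sg (o j) w ≠ b
    · have e : {y | y ∈ C ↔ sg (o j) w ≠ b} = C := by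
        ext y
        exact ⟨fun h => h.2 hb, fun h => ⟨fun _ => hb, fun _ => h⟩⟩
      rw [e]
      exact hCd.1
    · have e : {y | y ∈ C ↔ sg (o j) w ≠ b} = Cᶜ := by
        ext y
        exact ⟨fun h hy => hb (h.1 hy), fun h => ⟨fun hy => absurd hy h, fun h' => absurd h' hb⟩⟩
      rw [e]
      exact def_compl hCd.1
  have hne : ¬ ∃ y, ∀ s ∈ F1 ∪ F2 u ∪ F2 u' ∪ F4, y ∈ s := by
    rintro ⟨y, hy⟩
    obtain ⟨g, hg, rfl⟩ := conj_of_def hC.mon hA (x := w) (y := y)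
      (fun s hs hws => hy s (Or.inl (Or.inl (Or.inl ⟨hs, hws⟩))))
    have hgc : g w ∈ cel L R o A j w := fx_cel hC j w hg
    have hside : ∀ a ∈ E, (∀ s ∈ F2 a, g w ∈ s) → Fa L R o A sg b a (g w) := by
      intro a ha hs
      refine f2 a ha (g w) (((f3 g hg).1 w).2 hw) b j ?_
      intro C hCd hCs
      rw [cel_eq hgc] at hCs
      rw [hE.cst j w hw _ hgc]
      exact hs _ ⟨C, hCd, hCs, rfl⟩
    have h1 := hside u huE (fun s hs => hy s (Or.inl (Or.inl (Or.inr hs))))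
    have h2 := hside u' hu'E (fun s hs => hy s (Or.inl (Or.inr hs)))
    exact hy _ (Or.inr rfl) (hF g hg h1 h2)
  have hfin : ∃ G ⊆ F1 ∪ F2 u ∪ F2 u' ∪ F4, G.Finite ∧ ∀ v, ∃ s ∈ G, v ∉ s := by
    by_contra hcon
    apply hne
    refine sat_fam hC.mon (B := insert u (insert u' A)) ((hA.insert u').insert u) ?_ ?_
    · rintro s (((hs | hs) | hs) | hs)
      · exact def_mono ((subset_insert _ _).trans (subset_insert _ _)) hs.1
      · exact def_mono (insert_subset_insert (subset_insert _ _)) (hdef2 u s hs)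
      · exact def_mono (subset_insert _ _) (hdef2 u' s hs)
      · have e : s = {y | ¬ (S i u y ↔ S i u' y)} := hs
        rw [e]
        refine def1_of_dp1 (P := fun y => ¬ (S i u y ↔ S i u' y)) ?_
        refine dp_not (dp_iff ?_ ?_)
        · have h1 := rel_def2 (hC.sdf i) u (insert u' A)
          exact dp_of_def1 h1
        · have h1 := rel_def2 (hC.sdf i) u' A
          exact dp_of_def1 (def_mono (subset_insert _ _) h1)
    · intro G hG hGf
      by_contra hcon2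
      apply hcon
      refine ⟨G, hG, hGf, fun v => ?_⟩
      by_contra hcon3
      apply hcon2
      refine ⟨v, fun s hs => ?_⟩
      by_contra hv
      exact hcon3 ⟨s, hs, hv⟩
  obtain ⟨G, hG, hGf, hGv⟩ := hfin
  have hQ : ∀ (a : U) (s : Set U), ∃ Q : (Unit ⊕ Unit → U) → Prop, s ∈ F2 a →
      Dp L A Q ∧ ∀ y, y ∈ s ↔ Q (Sum.elim (fun _ => y) (fun _ => a)) := by
    intro a s
    by_cases hs : s ∈ F2 a
    · obtain ⟨Q, hQ, hQ'⟩ := dp_fam1 (dp_of_def1 (hdef2 a s hs) (i := ()))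
      exact ⟨Q, fun _ => ⟨hQ, fun y => hQ' (fun _ => y)⟩⟩
    · exact ⟨fun _ => True, fun h => absurd h hs⟩
  choose Q hQd using hQ
  have hkey : ∀ a ∈ E, ∀ h : U ≃[L] U, Fx L A h → ∀ g : U ≃[L] U, Fx L A g →
      Fa L R o A sg b (h a) (g w) → ∀ s ∈ F2 a,
      Q a s (Sum.elim (fun _ => g w) (fun _ => h a)) := by
    intro a ha h hh g hg hfa s hs
    have hyc : h.symm (g w) ∈ cel L R o A j w :=
      (fx_mem_cel hC j (g w) w (fx_symm hh)).2 (fx_cel hC j w hg)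
    have hyE : h.symm (g w) ∈ E := ((f3 h.symm (fx_symm hh)).1 _).2 (((f3 g hg).1 w).2 hw)
    have e : h (h.symm (g w)) = g w := h.apply_symm_apply (g w)
    have h1 : Fa L R o A sg b a (h.symm (g w)) := by
      refine ((f3 h hh).2 a ha _ hyE b).1 ?_
      rw [e]
      exact hfa
    have h2 : h.symm (g w) ∈ s := by
      obtain ⟨C, hCd, hCs, rfl⟩ := hs
      have h3 := h1 j C hCd (by
        rw [cel_eq hyc]
        exact hCs)
      rw [hE.cst j w hw _ hyc] at h3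
      exact h3
    have h4 := ((hQd a s hs).2 _).1 h2
    have h5 := (dp_fx (hQd a s hs).1 hh _).2 h4
    have e2 : (fun k : Unit ⊕ Unit => h (Sum.elim (fun _ => h.symm (g w)) (fun _ => a) k)) =
        Sum.elim (fun _ => g w) (fun _ => h a) := by
      funext k
      rcases k with k | k
      · exact e
      · rfl
    rw [e2] at h5
    exact h5
  have hconj : ∀ a ∈ Orb L A x, ∀ v ∈ Orb L A x, ∃ h : U ≃[L] U, Fx L A h ∧ h a = v := by
    rintro a ⟨g1, hg1, rfl⟩ v ⟨g2, hg2, rfl⟩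
    refine ⟨g2.comp g1.symm, fx_comp hg2 (fx_symm hg1), ?_⟩
    show g2 (g1.symm (g1 x)) = g2 x
    rw [g1.symm_apply_apply]
  refine ⟨fun p => ∀ y : U, (∀ s ∈ {s | s ∈ G ∧ s ∈ F1}, y ∈ s) →
    (∀ s ∈ {s | s ∈ G ∧ s ∈ F2 u}, Q u s (Sum.elim (fun _ => y) (fun _ => p (Sum.inl ())))) →
    (∀ s ∈ {s | s ∈ G ∧ s ∈ F2 u'}, Q u' s (Sum.elim (fun _ => y) (fun _ => p (Sum.inr ())))) →
    (S i (p (Sum.inl ())) y ↔ S i (p (Sum.inr ())) y), ?_, ?_, ?_⟩
  · refine dp_congr (dp_all1 (α := Unit ⊕ Unit) (P := fun q =>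
      (∀ s ∈ {s | s ∈ G ∧ s ∈ F1}, q (Sum.inr ()) ∈ s) →
      (∀ s ∈ {s | s ∈ G ∧ s ∈ F2 u}, Q u s (fun k => q ((Sum.elim (fun _ => Sum.inr ())
        (fun _ => Sum.inl (Sum.inl ())) : Unit ⊕ Unit → (Unit ⊕ Unit) ⊕ Unit) k))) →
      (∀ s ∈ {s | s ∈ G ∧ s ∈ F2 u'}, Q u' s (fun k => q ((Sum.elim (fun _ => Sum.inr ())
        (fun _ => Sum.inl (Sum.inr ())) : Unit ⊕ Unit → (Unit ⊕ Unit) ⊕ Unit) k))) →
      (S i (q (Sum.inl (Sum.inl ()))) (q (Sum.inr ())) ↔
        S i (q (Sum.inl (Sum.inr ()))) (q (Sum.inr ())))) ?_) ?_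
    · refine dp_imp ?_ (dp_imp ?_ (dp_imp ?_ (dp_iff ?_ ?_)))
      · exact dp_ball (hGf.subset (fun s hs => hs.1)) (fun s hs => dp_of_def1 hs.2.1)
      · exact dp_ball (hGf.subset (fun s hs => hs.1)) (fun s hs => dp_sub (hQd u s hs.2).1 _)
      · exact dp_ball (hGf.subset (fun s hs => hs.1)) (fun s hs => dp_sub (hQd u' s hs.2).1 _)
      · have h1 : Dp L (∅ : Set U) (fun v : Fin 2 → U => S i (v 0) (v 1)) := hC.sdf i
        exact dp_sub (dp_mono (empty_subset A) h1)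
          (![Sum.inl (Sum.inl ()), Sum.inr ()] : Fin 2 → (Unit ⊕ Unit) ⊕ Unit)
      · have h1 : Dp L (∅ : Set U) (fun v : Fin 2 → U => S i (v 0) (v 1)) := hC.sdf i
        exact dp_sub (dp_mono (empty_subset A) h1)
          (![Sum.inl (Sum.inr ()), Sum.inr ()] : Fin 2 → (Unit ⊕ Unit) ⊕ Unit)
    · intro p
      refine forall_congr' (fun y => ?_)
      have e1 : (fun k : Unit ⊕ Unit => (Sum.elim p (fun _ => y) : (Unit ⊕ Unit) ⊕ Unit → U)
          ((Sum.elim (fun _ => Sum.inr ()) (fun _ => Sum.inl (Sum.inl ())) :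
            Unit ⊕ Unit → (Unit ⊕ Unit) ⊕ Unit) k)) =
          Sum.elim (fun _ => y) (fun _ => p (Sum.inl ())) := by
        funext k
        rcases k with k | k <;> rfl
      have e2 : (fun k : Unit ⊕ Unit => (Sum.elim p (fun _ => y) : (Unit ⊕ Unit) ⊕ Unit → U)
          ((Sum.elim (fun _ => Sum.inr ()) (fun _ => Sum.inl (Sum.inr ())) :
            Unit ⊕ Unit → (Unit ⊕ Unit) ⊕ Unit) k)) =
          Sum.elim (fun _ => y) (fun _ => p (Sum.inr ())) := by
        funext k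
        rcases k with k | k <;> rfl
      rw [e1, e2]
      exact Iff.rfl
  · intro y h1 h2 h3
    by_contra hcon
    obtain ⟨s, hs, hys⟩ := hGv y
    apply hys
    rcases hG hs with ((h | h) | h) | h
    · exact h1 s ⟨hs, h⟩
    · exact ((hQd u s h).2 y).2 (h2 s ⟨hs, h⟩)
    · exact ((hQd u' s h).2 y).2 (h3 s ⟨hs, h⟩)
    · have e : s = {y | ¬ (S i u y ↔ S i u' y)} := h
      rw [e]
      exact hcon
  · intro v hv v' hv' hP g hg h1 h2
    obtain ⟨h, hh, rfl⟩ := hconj u hu v hv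
    obtain ⟨h', hh', rfl⟩ := hconj u' hu' v' hv'
    refine hP (g w) ?_ ?_ ?_
    · intro s hs
      exact (def_mem hs.2.1 hg w).2 hs.2.2
    · intro s hs
      exact hkey u huE h hh g hg h1 s hs.2
    · intro s hs
      exact hkey u' hu'E h' hh' g hg h2 s hs.2

end Pool.Agent.GRK
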