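import Pool.Agent.GRK.StB
import Pool.Agent.MNO.Kit

/-!
GRK module FCA: one side of the facts may be moved (helper9).
-/

set_option autoImplicit false
set_option linter.unusedVariables false
set_option linter.unusedSectionVars false

namespace Pool.Agent.GRK

open FirstOrder.Language Set
open scoped FirstOrder
open Pool.Agent.WOM (tp Mon IsEl IsoM CtU Fx Orb)
open Pool.Agent.PMC (Ini ct Dc cel Sin Nd Ct lts ext XS Ex Fa Ll LL Itv Sm Md NPf fx_refl fx_symm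
  fx_comp comp_apply' mem_orb rel_fx)

/-- automorphisms in `Nx L A` preserve the strong types of elements -/
private theorem FCA_sq {L : FirstOrder.Language.{0, 0}} {U : Type} [L.Structure U] {A : Set U}
    {g : U ≃[L] U} (hg : Nx L A g) (x : U) :
    Pool.Agent.MNO.Sq L A (fun _ : Unit => x) (fun _ : Unit => g x) := by
  intro E hE
  have h1 : FE L A (fun y y' => E (fun _ => y) (fun _ => y')) := by
    refine ⟨?_, ⟨fun y => hE.eqv.refl _, fun h => hE.eqv.symm h, fun h h' => hE.eqv.trans h h'⟩, ?_⟩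
    · exact Pool.Agent.MNO.dp_sub hE.dfn (Sum.elim (fun _ => (0 : Fin 2)) (fun _ => (1 : Fin 2)))
    · obtain ⟨s, hs, hs2⟩ := hE.fin
      refine ⟨(fun u : Unit → U => u ()) '' s, hs.image _, fun y => ?_⟩
      obtain ⟨u, hu, hyu⟩ := hs2 (fun _ => y)
      exact ⟨u (), ⟨u, hu, rfl⟩, hyu⟩
  exact hg.2 _ h1 x

/-- [FCA] -/
theorem thm_FCA (hOFM : St_OFM) (hFC1 : St_FC1) (hFC2 : St_FC2) (hFAI : St_FAI) : St_FCA := by
  intro L U _ κ ι R o S hC A E sg hE i b x hx w hw hxw g hg hgw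
  obtain ⟨-, -, f3, -⟩ := hFAI L U κ ι R o S hC A E sg hE
  have hEi : ∀ g : U ≃[L] U, Fx L A g → ∀ x, g x ∈ E ↔ x ∈ E := fun g hg => (f3 g hg).1
  have hOE : ∀ u ∈ Orb L A x, u ∈ E := by
    rintro _ ⟨h, hh, rfl⟩
    exact (hEi h hh x).2 hx
  obtain ⟨c1, F, hF, hFf, hF2⟩ := hFC1 L U κ ι R o S hC A E sg hE i b x w hx hw
  have hmem : ∀ u : Unit → U, u ∈ {u : Unit → U | ∃ g : U ≃[L] U, Fx L A g ∧ u = fun i => g x} ↔
      u () ∈ Orb L A x := by
    intro u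
    constructor
    · rintro ⟨h, hh, rfl⟩
      exact ⟨h, hh, rfl⟩
    · rintro ⟨h, hh, hu⟩
      refine ⟨h, hh, ?_⟩
      funext j
      exact hu.symm
  have key := hOFM L U hC.mon Unit A (fun _ => x)
    (fun u v => u () ∈ E ∧ v () ∈ E ∧ Fcr (L := L) R o S A sg b i w (u ()) (v ()))
    {u : Unit → U | ∃ g : U ≃[L] U, Fx L A g ∧ u = fun i => g x} hE.fin rfl
    (by
      rintro h hh u v ⟨h1, h2, h3⟩
      refine ⟨(hEi h hh _).2 h1, (hEi h hh _).2 h2, ?_⟩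
      intro k hk h4 h5
      have h6 : Fx L A (h.symm.comp k) := fx_comp (fx_symm hh) hk
      have hkw : k w ∈ E := (hEi k hk w).2 hw
      have e1 : h ((h.symm.comp k) w) = k w := by
        rw [comp_apply', h.apply_symm_apply]
      have hkw' : (h.symm.comp k) w ∈ E := (hEi _ h6 w).2 hw
      have h7 : Fa L R o A sg b (u ()) ((h.symm.comp k) w) := by
        rw [← (f3 h hh).2 _ h1 _ hkw' b, e1]
        exact h4
      have h8 : Fa L R o A sg b (v ()) ((h.symm.comp k) w) := by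
        rw [← (f3 h hh).2 _ h2 _ hkw' b, e1]
        exact h5
      have h9 := h3 _ h6 h7 h8
      rw [← rel_fx (hC.sdf i) h (u ()), ← rel_fx (hC.sdf i) h (v ()), e1] at h9
      exact h9)
    (fun u hu => ⟨hOE _ ((hmem u).1 hu), hOE _ ((hmem u).1 hu), fun k hk h1 h2 => Iff.rfl⟩)
    (fun u hu v hv h => ⟨h.2.1, h.1, fun k hk h1 h2 => (h.2.2 k hk h2 h1).symm⟩)
    (fun u hu v hv t ht h h' => ⟨h.1, h'.2.1, c1 _ ((hmem u).1 hu) _ ((hmem v).1 hv) _
      ((hmem t).1 ht) h.2.2 h'.2.2⟩)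
    (by
      refine ⟨(fun y : U => fun _ : Unit => y) '' F, ?_, hFf.image _, fun u hu => ?_⟩
      · rintro _ ⟨y, hy, rfl⟩
        exact (hmem _).2 (hF hy)
      · obtain ⟨v, hv, huv⟩ := hF2 _ ((hmem u).1 hu)
        exact ⟨fun _ => v, ⟨v, hv, rfl⟩, hOE _ ((hmem u).1 hu), hOE _ (hF hv), huv⟩)
    (by
      intro u hu v hv h
      obtain ⟨P, hP, hP1, hP2⟩ := hFC2 L U κ ι R o S hC A E sg hE i b x w hx hw _ ((hmem u).1 hu) _
        ((hmem v).1 hv) h.2.2
      refine ⟨P, hP, hP1, fun u' hu' v' hv' h' => ⟨hOE _ ((hmem u').1 hu'), hOE _ ((hmem v').1 hv'),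
        hP2 _ ((hmem u').1 hu') _ ((hmem v').1 hv') h'⟩⟩)
    (fun _ => x) ((hmem _).2 (mem_orb A x)) (fun _ => g x) ((hmem _).2 ⟨g, hg.1, rfl⟩)
    (FCA_sq hg x)
  exact key.2.2 _ (fx_refl A) hxw hgw

end Pool.Agent.GRK
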