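import Pool.Agent.GRK.StB
import Pool.Agent.GRK.NCM

/-!
GRK, module FCT: the facts between `z << z'` depend only on the orbits of `z` and `z'` under `Nx L A`.
-/

set_option autoImplicit false

namespace Pool.Agent.GRK

open FirstOrder.Language Set
open scoped FirstOrder
open Pool.Agent.WOM (tp Mon IsEl IsoM CtU Fx Orb)
open Pool.Agent.PMC (Ini ct Dc cel Sin Nd Ct lts ext XS Ex Fa Ll LL Itv Sm Md NPf)

theorem thm_FCT (hFCA : St_FCA) (hFAI : St_FAI) (hORD : St_ORD) (hBTW : St_BTW) : St_FCT := by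
  intro L U _ κ ι R o S hC A E sg hO z hz z' hz' g g' hg hg' h h' i
  obtain ⟨-, -, hF3, -, -, -, -, -⟩ := hFAI L U κ ι R o S hC A E sg hO
  obtain ⟨hO1, -, -, -, hO5, -⟩ := hORD L U κ ι R o S hC A E sg hO
  have hinv : ∀ k : U ≃[L] U, Nx L A k → ∀ x ∈ E, k x ∈ E := fun k hk x hx =>
    ((hF3 k hk.1).1 x).2 hx
  have M1 : ∀ x ∈ E, ∀ w ∈ E, ∀ k : U ≃[L] U, Nx L A k → Ll L R o A sg x w →
      Ll L R o A sg (k x) w → (S i x w ↔ S i (k x) w) := fun x hx w hw k hk h1 h2 =>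
    hFCA L U κ ι R o S hC A E sg hO i true x hx w hw h1 k hk h2
  have M2 : ∀ x ∈ E, ∀ w ∈ E, ∀ k : U ≃[L] U, Nx L A k → Ll L R o A sg x w →
      Ll L R o A sg x (k w) → (S i x w ↔ S i x (k w)) := by
    intro x hx w hw k hk h1 h2
    obtain ⟨i', hi'⟩ := hC.cnv i
    have h3 : Fa L R o A sg false w x := (hO1 x hx w hw true).1 h1
    have h4 : Fa L R o A sg false (k w) x := (hO1 x hx (k w) (hinv k hk w hw) true).1 h2
    have h5 := hFCA L U κ ι R o S hC A E sg hO i' false w hw x hx h3 k hk h4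
    rw [hi', hi'] at h5
    exact h5
  obtain ⟨j⟩ := hC.ne
  have hgz : g z ∈ E := hinv g hg z hz
  obtain ⟨y, hy, hDy, -⟩ := hBTW L U κ ι R o S hC A E sg hO {z, g z} ∅
    ((finite_singleton (g z)).insert z) finite_empty (by
      intro x hx
      rcases hx with rfl | hx
      · exact hz
      · rw [mem_singleton_iff.1 hx]
        exact hgz) (empty_subset E) (fun _ _ _ hv => absurd hv (notMem_empty _)) z' hz' j
  have hzy : Ll L R o A sg z y := hDy z (mem_insert _ _) y rfl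
  have hgy : Ll L R o A sg (g z) y := hDy (g z) (mem_insert_of_mem _ rfl) y rfl
  obtain ⟨k, hk, hkl⟩ := nx_move hC hO.fin (hO.nd z' hz') hy (Pool.Agent.PMC.mem_cel A j z')
    (sg (o j) z')
  have hkE : k z' ∈ E := hinv k hk z' hz'
  have hkc : k z' ∈ cel L R o A j z' := fx_cel hC j z' hk.1
  have h1 : Ll L R o A sg z (k z') := (hO5 z' hz' j y hy (k z') hkc hkl z hz).1 hzy
  have h2 : Ll L R o A sg (g z) (k z') := (hO5 z' hz' j y hy (k z') hkc hkl (g z) hgz).1 hgy
  have e1 := M2 z hz z' hz' k hk h h1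
  have e2 := M1 z hz (k z') hkE g hg h1 h2
  have e3 := M2 (g z) hgz (k z') hkE (g'.comp k.symm) (nx_comp hg' (nx_symm hk)) h2 (by
    show Ll L R o A sg (g z) (g' (k.symm (k z')))
    rw [k.symm_apply_apply]
    exact h')
  have e4 : (g'.comp k.symm) (k z') = g' z' := by
    show g' (k.symm (k z')) = g' z'
    rw [k.symm_apply_apply]
  rw [e4] at e3
  exact e1.trans (e2.trans e3)

end Pool.Agent.GRK
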