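import Pool.Agent.GRK.StE
import Pool.Agent.GRK.NBase
import Pool.Agent.MNO.Kit

/-!
GRK: [FE1] finite equivalence relations on `U`.
-/

set_option autoImplicit false
set_option linter.unusedVariables false

namespace Pool.Agent.GRK

open FirstOrder.Language Set
open scoped FirstOrder
open Pool.Agent.WOM (tp Mon IsEl IsoM CtU Fx Orb)
open Pool.Agent.PMC (Ini ct Dc cel Sin Nd Ct lts ext XS Ex Fa Ll LL Itv Sm Md NPf fx_refl fx_symm
  fx_comp fx_mono comp_apply' rel_fx)

theorem thm_FE1 : St_FE1 := by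
  intro L U _ κ ι R o S hC A hA
  refine ⟨fe_top A, fun F F' h h' => fe_inter h h', fun F hF g hg x => hg.2 F hF x,
    fun x y h => nx_of_fe hC.mon hA h, fun F hF x => fe_def hF x, ?_, ?_, ?_⟩
  · intro F hF g hg x y
    exact Pool.Agent.MNO.dp_fx (L := L) (α := Fin 2) (P := fun v : Fin 2 → U => F (v 0) (v 1))
      hF.dfn hg ![x, y]
  · intro F hF M hM x
    exact fe_meets hC.mon hM hF x
  · exact ⟨⟨fun s _ hs => by rwa [inter_univ], subset_univ A⟩,
      fun F hF j x => ⟨x, mem_univ x, mem_cel A j x, hF.eqv.refl x⟩⟩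

end Pool.Agent.GRK
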