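import Pool.Agent.GRK.StD

/-!
GRK: the statement FE1 (as in `Pool/Agent/MNO/StC.lean`).
-/

set_option autoImplicit false
set_option linter.unusedVariables false

namespace Pool.Agent.GRK

open FirstOrder.Language Set
open scoped FirstOrder
open Pool.Agent.WOM (tp Mon IsEl IsoM CtU Fx Orb)
open Pool.Agent.PMC (Ini ct Dc cel Sin Nd Ct lts ext XS Ex Fa Ll LL Itv Sm Md NPf)

/-- [FE1] finite equivalence relations on `U` (from `NBase.lean`). -/
def St_FE1 : Prop :=
  ∀ (L : FirstOrder.Language.{0, 0}) (U : Type) [L.Structure U] (κ ι : Type) (R : κ → U → U → Prop)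
    (o : κ → κ) (S : ι → U → U → Prop), Cx L R o S → ∀ (A : Set U), A.Finite →
    (FE L A (fun _ _ => True)) ∧
    (∀ F F' : U → U → Prop, FE L A F → FE L A F' → FE L A (fun x y => F x y ∧ F' x y)) ∧
    (∀ F : U → U → Prop, FE L A F → ∀ g : U ≃[L] U, Nx L A g → ∀ x, F x (g x)) ∧
    (∀ x y : U, (∀ F : U → U → Prop, FE L A F → F x y) → ∃ g : U ≃[L] U, Nx L A g ∧ g x = y) ∧
    (∀ F : U → U → Prop, FE L A F → ∀ x, (insert x A).Definable₁ L {y | F x y}) ∧
    (∀ F : U → U → Prop, FE L A F → ∀ g : U ≃[L] U, Fx L A g → ∀ x y, F (g x) (g y) ↔ F x y) ∧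
    (∀ F : U → U → Prop, FE L A F → ∀ M, Md L A M → ∀ x, ∃ y ∈ M, F x y) ∧
    Ric L R o A univ

end Pool.Agent.GRK
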