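import Pool.Agent.GRK.StB
import Pool.Agent.GRK.StE
import Pool.Agent.GRK.EXB
import Pool.Agent.MNO.Ext
import Pool.Agent.GRK.NBase

/-!
MNO: [FIN] finiteness of the number of orbits of `Nx L A` in an orbit over `A` (helper87).
-/

set_option autoImplicit false
set_option linter.unusedVariables false

namespace Pool.Agent.GRK

open FirstOrder.Language Set
open scoped FirstOrder
open Pool.Agent.WOM (tp Mon IsEl IsoM CtU Fx Orb)
open Pool.Agent.PMC (Ini ct Dc cel Sin Nd Ct lts ext XS Ex Fa Ll LL Itv Sm Md NPf def_mem)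
open Pool.Agent.MNO (ext_sub ext_of_not_ct)

/-- [FIN] -/
theorem thm_FIN (hOMI : St_OMI) (hEXB : St_EXB) (hXSP : St_XSP) (hMKO : St_MKO) (hORD : St_ORD)
    (hNWL : St_NWL) : St_FIN := by
  classical
  intro L U _ κ ι R o S hC hN A hA x
  by_contra hno
  have hx : Nd L A x := by
    intro hd
    apply hno
    refine ⟨{x}, finite_singleton x, ?_⟩
    rintro y ⟨g, hg, rfl⟩
    refine ⟨x, rfl, FirstOrder.Language.Equiv.refl L U, nx_refl A, ?_⟩
    have h1 : g x = x := (def_mem hd hg x).2 rfl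
    rw [h1]
    rfl
  obtain ⟨j⟩ := hC.ne
  have hAB : A ⊆ insert x A := subset_insert x A
  have hB : (insert x A).Finite := hA.insert x
  obtain ⟨M0, x', hRic, ⟨g0, hg0, hx'⟩, hom⟩ := hOMI L U κ ι R o S hC A (insert x A) x hAB hB hno
  have hx'K : x' ∈ cel L R o A j x := by
    rw [← hx']
    exact fx_cel hC j x hg0
  obtain ⟨hne, hcel, -, -, -, hbey, -⟩ := hEXB L U κ ι R o S hC A (insert x A) j x true hAB hB hx
  obtain ⟨z0, hz0⟩ := hne
  have hz0K : z0 ∈ cel L R o A j x := ext_sub true (insert x A) j (cel L R o A j x) hz0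
  have hz0P : z0 ∈ Pc L R o S A x := cel_sub_pc hC hA j x hz0K
  have hz0X : z0 ∈ XS L R o A (insert x A) := by
    refine (hXSP L U κ ι R o S hC A (insert x A) hAB hB).1 z0 j true ((pc_nd hC hz0P).2 hx) ?_
    rw [cel_eq hz0K]
    exact hz0
  obtain ⟨sg, hOri, -, -⟩ := hMKO L U κ ι R o S hC A x z0 hA hx hz0P hz0X
  obtain ⟨-, -, -, -, hmv, -, -⟩ := hEXB L U κ ι R o S hC A A j x true subset_rfl hA hx
  have hnct : ¬ Ct L R o A j (cel L R o A j x) := by
    rintro ⟨C, hD, hS⟩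
    exact not_sin_cel hD x hS
  obtain ⟨g, hg, hlt⟩ := hmv x' (by rw [ext_of_not_ct hnct true]; exact hx'K) z0 hz0K
  have hgK : g x' ∈ cel L R o A j x := (fx_mem_cel hC j x' x hg.1).2 hx'K
  have hge : g x' ∈ ext L R o true (insert x A) j (cel L R o A j x) :=
    hbey z0 hz0 (g x') hgK hlt
  have hgE : g x' ∈ Pc L R o S (insert x A) z0 := by
    apply cel_sub_pc hC hB j z0
    rw [hcel z0 hz0]
    exact hge
  obtain ⟨z, -, hzE, e, he⟩ := hNWL L U κ ι R o S hC hN (insert x A) (Pc L R o S (insert x A) z0) sg hOri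
    M0 univ (g x') hRic ⟨fun s _ hs => by rw [inter_univ]; exact hs, subset_univ _⟩ (mem_univ _) hgE
  obtain ⟨-, hirr, -⟩ := hORD L U κ ι R o S hC (insert x A) (Pc L R o S (insert x A) z0) sg hOri
  have hp : g x' ∈ Itv L R o (insert x A) (Pc L R o S (insert x A) z0) sg univ (g x') (g x') :=
    ⟨mem_univ _, hgE, hirr _ hgE true, hirr _ hgE true⟩
  obtain ⟨h, hh, hhe⟩ := he {⟨g x', hp⟩} (finite_singleton _)
  have h1 : h (g x') = e ⟨g x', hp⟩ := hhe ⟨g x', hp⟩ rfl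
  have h2 : (e ⟨g x', hp⟩ : U) ∈ M0 := (e ⟨g x', hp⟩).2.1
  refine hom _ h2 ⟨h.comp g, nx_comp (nx_mono hAB hh) hg, ?_⟩
  exact h1

end Pool.Agent.GRK
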