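import Pool.Agent.GRK.StB
import Pool.Agent.GRK.AV

/-!
GRK [GLC] (helper72): the points of a good piece beyond `w` form a union of pieces over
`insert w A`.
-/

set_option autoImplicit false
set_option linter.unusedVariables false
set_option linter.unusedSectionVars false

namespace Pool.Agent.GRK

open FirstOrder.Language Set
open scoped FirstOrder
open Pool.Agent.WOM (tp Mon IsEl IsoM CtU Fx Orb)
open Pool.Agent.PMC (Ini ct Dc cel Sin Nd Ct lts ext XS Ex Fa Ll LL Itv Sm Md NPf sd fx_symm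
  fx_mono def_mem)

section

variable {L : FirstOrder.Language.{0, 0}} {U : Type} [L.Structure U] {κ ι : Type}
  {R : κ → U → U → Prop} {o : κ → κ} {S : ι → U → U → Prop}

private theorem glc_ext (A : Set U) (sg : κ → U → Bool) (b : Bool) (w : U) (j : κ)
    (z : U) : Ex L R o A sg b w j z ↔
      z ∈ ext L R o (sd b (sg (o j) z)) (insert w A) j (cel L R o A j z) := by
  have h1 : (sd b (sg (o j) z) = false) ↔ sg (o j) z ≠ b := by
    cases b <;> cases sg (o j) z <;> simp [sd]
  constructor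
  · intro h
    exact ⟨fun C _ => Iff.rfl, fun C hC hS => (h C hC hS).trans h1.symm⟩
  · intro h C hC hS
    exact (h.2 C hC hS).trans h1

private theorem glc_bool (b s b' : Bool) : b' = sd b s ∨ b' = sd (!b) s := by
  cases b <;> cases s <;> cases b' <;> simp [sd]

private theorem glc_le_lt (hC : Cx L R o S) {b : Bool} {j : κ} {w w' v : U}
    (h : ¬ lts R o b j w' w) (h' : lts R o b j w' v) : lts R o b j w v := by
  by_cases hne : w = w'
  · rw [hne]; exact h'
  · rcases lts_tot hC b j hne with h1 | h1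
    · exact lts_trans hC b j h1 h'
    · exact absurd h1 h

/-- finite sets have an upper bound in the direction `b` in the cell -/
private theorem glc_max (hC : Cx L R o S) {b : Bool} {j : κ} {Lc : Set U} {G : Set U}
    (hG : G.Finite) (hGL : G ⊆ Lc) {w : U} (hw : w ∈ Lc) :
    ∃ w' ∈ Lc, ¬ lts R o b j w' w ∧ ∀ v ∈ G, ¬ lts R o b j w' v := by
  revert hGL
  refine Set.Finite.induction_on G hG ?_ ?_
  · intro _
    exact ⟨w, hw, lts_irr hC b j w, fun v hv => absurd hv (Set.notMem_empty v)⟩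
  · intro a G' _ _ ih hGL
    obtain ⟨w', hw', h1, h2⟩ := ih ((subset_insert a G').trans hGL)
    by_cases h : lts R o b j w' a
    · refine ⟨a, hGL (mem_insert a G'), fun h3 => h1 (lts_trans hC b j h h3), ?_⟩
      rintro v (rfl | hv)
      · exact lts_irr hC b j v
      · exact fun h3 => h2 v hv (lts_trans hC b j h h3)
    · refine ⟨w', hw', h1, ?_⟩
      rintro v (rfl | hv)
      · exact h
      · exact h2 v hv

/-- If the points of the cell beyond `w` have finitely many traces then these are recurrent beyond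
some point. -/
private theorem glc_rec (hC : Cx L R o S) {A : Set U} {j : κ} {b : Bool} {i : ι} {y w : U}
    {X : Set U} (hw : w ∈ cel L R o A j y)
    (hfin : {t | ∃ y' ∈ cel L R o A j y, lts R o b j w y' ∧ t = tr S i X y'}.Finite) :
    (Rc R o S b j i X (cel L R o A j y)).Finite ∧
    ∃ w ∈ cel L R o A j y, ∀ y' ∈ cel L R o A j y, lts R o b j w y' →
      tr S i X y' ∈ Rc R o S b j i X (cel L R o A j y) := by
  classical
  set Lc := cel L R o A j y with hLc
  set T : Set (Set U) := {t | ∃ y' ∈ Lc, lts R o b j w y' ∧ t = tr S i X y'} with hT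
  have hsub : Rc R o S b j i X Lc ⊆ T := fun t ht => ht w hw
  refine ⟨hfin.subset hsub, ?_⟩
  have hnr : ∀ t : Set U, ∃ u ∈ Lc, t ∉ Rc R o S b j i X Lc →
      ∀ y' ∈ Lc, lts R o b j u y' → t ≠ tr S i X y' := by
    intro t
    by_cases ht : t ∈ Rc R o S b j i X Lc
    · exact ⟨w, hw, fun h => absurd ht h⟩
    · have ht' : ¬ ∀ u ∈ Lc, ∃ y' ∈ Lc, lts R o b j u y' ∧ t = tr S i X y' := ht
      push Not at ht'
      obtain ⟨u, hu, h⟩ := ht'
      exact ⟨u, hu, fun _ y' hy' hl => h y' hy' hl⟩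
  choose u hu hu' using hnr
  obtain ⟨w₁, hw₁, h1, h2⟩ := glc_max hC (b := b) (j := j) (G := u '' T) (hfin.image u)
    (by rintro _ ⟨t, -, rfl⟩; exact hu t) hw
  refine ⟨w₁, hw₁, fun y' hy' hl => ?_⟩
  by_contra hcon
  have hyT : tr S i X y' ∈ T := ⟨y', hy', glc_le_lt hC h1 hl, rfl⟩
  have h3 := h2 _ ⟨_, hyT, rfl⟩
  exact hu' _ hcon y' hy' (glc_le_lt hC h3 hl) rfl

/-- The two sides are not linked. -/
private theorem glc_two (hFAI : St_FAI) (hC : Cx L R o S) {A E : Set U}
    {sg : κ → U → Bool} (hO : Ori L R o S A E sg) {w : U} (hw : w ∈ E) {u z : U}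
    (hu : u ∈ E) (hz : z ∈ E) (hl : Lk L R o S (insert w A) u z)
    (hfz : Fa L R o A sg true w z) (hfu : Fa L R o A sg false w u) : False := by
  obtain ⟨-, -, -, -, -, -, -, hF8⟩ := hFAI L U κ ι R o S hC A E sg hO
  have hB : (insert w A).Finite := hO.fin.insert w
  have hAB : A ⊆ insert w A := Set.subset_insert w A
  obtain ⟨i, j, hj⟩ := hl
  set s := sg (o j) u with hs
  set τ := sg (o j) z with hτ
  obtain ⟨C, hD, hS⟩ := hO.cut w hw u hu j
  -- the inner part
  set X : Set U := {v | v ∈ cel L R o A j u ∧ (v ∈ C ↔ s ≠ false)} with hX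
  have huC : u ∈ C ↔ s ≠ false := hfu j C hD hS
  have hcX : cel L R o (insert w A) j u ⊆ X := fun y hy =>
    ⟨cel_anti hAB j u hy, (hy C hD).trans huC⟩
  have hinv1 : ∀ g : U ≃[L] U, Fx L (insert w A) g → ∀ v, g v ∈ X ↔ v ∈ X := by
    intro g hg v
    have e1 := fx_mem_cel hC j v u (fx_mono hAB hg)
    have e2 := def_mem hD.1 hg v
    show (g v ∈ cel L R o A j u ∧ (g v ∈ C ↔ s ≠ false)) ↔
      (v ∈ cel L R o A j u ∧ (v ∈ C ↔ s ≠ false))
    rw [e1, e2]
  have hinv : ∀ g : U ≃[L] U, Fx L (insert w A) g → g '' X = X := by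
    intro g hg
    ext v
    constructor
    · rintro ⟨v', hv', rfl⟩
      exact (hinv1 g hg v').2 hv'
    · intro hv
      exact ⟨g.symm v, (hinv1 g.symm (fx_symm hg) v).2 hv, g.apply_symm_apply v⟩
  -- a point on the outer side
  obtain ⟨c, hcK, hcC⟩ : ∃ c ∈ cel L R o A j u, (c ∈ C ↔ s ≠ true) := by
    obtain ⟨⟨c1, h1, h1'⟩, ⟨c2, h2, h2'⟩⟩ := hS
    cases hs' : s
    · exact ⟨c1, h1, ⟨fun _ => by decide, fun _ => h1'⟩⟩
    · exact ⟨c2, h2, ⟨fun h => absurd h h2', fun h => absurd rfl h⟩⟩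
  -- goodness
  obtain ⟨p, hp, q, hq, hfin⟩ := hO.god i j u hu z hz
  obtain ⟨g, hg, hgp⟩ := move hC hO.fin (hO.nd u hu) hcK hp s
  have hXin : ∀ x ∈ X, lts R o (!s) j (g p) x := by
    rintro x ⟨hxK, hxC⟩
    have h1 : lts R o (!s) j c x := by
      cases hs' : s
      · -- `c ∈ C`, `x ∉ C`
        rw [hs'] at hxC hcC
        have hc1 : c ∈ C := hcC.2 (by decide)
        have hx1 : x ∉ C := fun h => (hxC.1 h) rfl
        have hne : c ≠ x := fun h => hx1 (h ▸ hc1)
        rcases hC.tot j c x hne with h | h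
        · exact (lts_true j c x).2 h
        · exact absurd (hD.2 c hc1 x h) hx1
      · rw [hs'] at hxC hcC
        have hc1 : c ∉ C := fun h => (hcC.1 h) rfl
        have hx1 : x ∈ C := hxC.2 (by decide)
        have hne : c ≠ x := fun h => hc1 (h ▸ hx1)
        rcases hC.tot j c x hne with h | h
        · exact absurd (hD.2 x hx1 c h) hc1
        · exact (lts_false j c x).2 h
    have h2 : lts R o (!s) j (g p) c := by
      have h3 : lts R o s j c (g p) := hgp
      cases hs' : s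
      · rw [hs'] at h3
        exact (lts_true j (g p) c).2 ((lts_false j c (g p)).1 h3)
      · rw [hs'] at h3
        exact (lts_false j (g p) c).2 ((lts_true j c (g p)).1 h3)
    exact lts_trans hC _ j h2 h1
  have hfin2 : {t | ∃ y' ∈ cel L R o A j z, lts R o τ j (g q) y' ∧ t = tr S i X y'}.Finite := by
    refine (hfin.image (fun t => (g '' t) ∩ X)).subset ?_
    rintro t ⟨y', hy', hl', rfl⟩
    have hy2 : g.symm y' ∈ cel L R o A j z := (fx_mem_cel hC j y' z (fx_symm hg)).2 hy'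
    refine ⟨tr S i {x' | x' ∈ cel L R o A j u ∧ lts R o (!s) j p x'} (g.symm y'),
      ⟨g.symm y', hy2, ?_, rfl⟩, ?_⟩
    · have h1 := (lts_img hC τ j q (g.symm y') g).1 (by
        rw [g.apply_symm_apply]
        exact hl')
      exact h1
    · show (g '' tr S i {x' | x' ∈ cel L R o A j u ∧ lts R o (!s) j p x'} (g.symm y')) ∩ X =
        tr S i X y'
      ext x
      constructor
      · rintro ⟨⟨x', hx', rfl⟩, hxX⟩
        refine ⟨hxX, ?_⟩
        have h1 := (S_img hC i x' (g.symm y') g).2 hx'.2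
        rw [g.apply_symm_apply] at h1
        exact h1
      · rintro ⟨hxX, hxS⟩
        refine ⟨⟨g.symm x, ⟨⟨(fx_mem_cel hC j x u (fx_symm hg)).2 hxX.1, ?_⟩, ?_⟩,
          g.apply_symm_apply x⟩, hxX⟩
        · have h1 := (lts_img hC (!s) j p (g.symm x) g).1 (by
            rw [g.apply_symm_apply]
            exact hXin x hxX)
          exact h1
        · exact (S_img hC i x y' g.symm).2 hxS
  have hgq : g q ∈ cel L R o A j z := (fx_mem_cel hC j q z hg).2 hq
  obtain ⟨hQ, q1, hq1, hbey⟩ := glc_rec hC (b := τ) (i := i) (X := X) hgq hfin2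
  refine hj (fin_tr_sub hcX (Subset.refl _) (hQ.subset ?_))
  rintro t ⟨z', hz', rfl⟩
  have hz'J : z' ∈ cel L R o A j z := cel_anti hAB j z hz'
  have hz'E : z' ∈ E := (cls_cel hC hO.fin hO.clo hz'J).2 hz
  have hτ' : sg (o j) z' = τ := hO.cst j z hz z' hz'J
  have hcz : cel L R o A j z' = cel L R o A j z := cel_eq hz'J
  have hfz' : Fa L R o A sg true w z' := by
    intro j' C' hD' hS'
    have e : j' = j := hC.uni j' j
    subst e
    rw [hcz] at hS'
    rw [hz' C' hD', hτ']
    exact hfz j' C' hD' hS'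
  obtain ⟨h, hh, hlt⟩ := hF8 w hw z' hz'E j true q1 (by rw [hcz]; exact hq1) hfz'
  rw [hτ'] at hlt
  have hsd : sd true τ = τ := by simp [sd]
  rw [hsd] at hlt
  have hhz : h z' ∈ cel L R o A j z := (fx_mem_cel hC j z' z (fx_mono hAB hh.1)).2 hz'J
  have h1 := hbey (h z') hhz hlt
  have h2 := tr_img hC i X z' h
  rw [hinv h hh.1] at h2
  rw [← h2] at h1
  exact av_rc hC hAB hinv hh.1 h1

private theorem glc_one (hAV : St_AV) (hFAI : St_FAI) (hC : Cx L R o S) {A E : Set U}
    {sg : κ → U → Bool} (hO : Ori L R o S A E sg) {w : U} (hw : w ∈ E) (b : Bool) {u z : U}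
    (hu : u ∈ E) (hz : z ∈ E) (hl : Lk L R o S (insert w A) u z) (hf : Fa L R o A sg b w z) :
    Fa L R o A sg b w u := by
  obtain ⟨-, hF2, -⟩ := hFAI L U κ ι R o S hC A E sg hO
  have hB : (insert w A).Finite := hO.fin.insert w
  obtain ⟨j⟩ := hC.ne
  by_contra hcon
  by_cases hf' : Fa L R o A sg (!b) w u
  · cases b
    · exact glc_two hFAI hC hO hw hz hu (lk_symm hC hl) hf' hf
    · exact glc_two hFAI hC hO hw hu hz hl hf hf'
  · have hz1 := (glc_ext (L := L) (R := R) (o := o) A sg b w j z).1 (hf j)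
    refine hAV L U κ ι R o S hC A (insert w A) j z u (sd b (sg (o j) z)) (Set.subset_insert w A)
      hB (hO.nd z hz) (hO.nd u hu) hz1 (fun b' hb' => ?_) (lk_symm hC hl)
    rcases glc_bool b (sg (o j) u) b' with h | h
    · rw [h] at hb'
      exact hcon (hF2 w hw u hu b j ((glc_ext A sg b w j u).2 hb'))
    · rw [h] at hb'
      exact hf' (hF2 w hw u hu (!b) j ((glc_ext A sg (!b) w j u).2 hb'))

end

/-- [GLC] -/
theorem thm_GLC (hAV : St_AV) (hFAI : St_FAI) : St_GLC := by
  intro L U _ κ ι R o S hC A E sg hO w hw b u z hl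
  have hE : u ∈ E ↔ z ∈ E := cls_anti (Set.subset_insert w A) hO.clo u z hl
  constructor
  · rintro ⟨hu, hf⟩
    exact ⟨hE.1 hu, glc_one hAV hFAI hC hO hw b (hE.1 hu) hu (lk_symm hC hl) hf⟩
  · rintro ⟨hz, hf⟩
    exact ⟨hE.2 hz, glc_one hAV hFAI hC hO hw b (hE.2 hz) hz hl hf⟩

end Pool.Agent.GRK
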