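import Pool.Agent.GRK.StB
import Pool.Agent.GRK.NBase

/-!
MNO [GLE]: gluing over one point.
-/

set_option autoImplicit false
set_option linter.unusedVariables false

namespace Pool.Agent.GRK

open FirstOrder.Language Set
open scoped FirstOrder
open Pool.Agent.WOM (tp Mon IsEl IsoM CtU Fx Orb)
open Pool.Agent.PMC (Ini ct Dc cel Sin Nd Ct lts ext XS Ex Fa Ll LL Itv Sm Md NPf sd fx_refl fx_symm
  fx_comp fx_mono comp_apply' def_img def_mono def_compl def_inter def_union def_mem def_fix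
  def_of_fix conj_of_def exists_isd exists_fin_def isEl_of_orb mem_orb orb_meets sat_fam rel_fx
  rel_def1 rel_def2 rel_hull rel_swap def_close)

/-- [GLE] -/
theorem thm_GLE (hPRD : St_PRD) (hGLC : St_GLC) : St_GLE := by
  intro L U _ κ ι R o S hC A E sg hO w hw b g hg
  obtain ⟨h, hh1, hh2, hh3⟩ := hPRD L U κ ι R o S hC (insert w A) {z | z ∈ E ∧ Fa L R o A sg b w z}
    (hO.fin.insert w) (hGLC L U κ ι R o S hC A E sg hO w hw b) g hg
  exact ⟨h, hh1, fun z hz hz' => hh2 z ⟨hz, hz'⟩, fun z hz => hh3 z hz⟩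

end Pool.Agent.GRK
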