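import Pool.Agent.GRK.StD
import Pool.Agent.PMC.HYU

/-!
GRK, module HYU: the hypotheses in the saturated model (helper47).
-/

set_option autoImplicit false
set_option linter.unusedVariables false

namespace Pool.Agent.GRK

open FirstOrder.Language Set
open scoped FirstOrder
open Pool.Agent.WOM (tp Mon IsEl IsoM CtU Fx Orb CtT PerfT ThS Small)
open Pool.Agent.PMC (Ini ct Dc cel Sin Nd Ct lts ext XS Ex Fa Ll LL Itv Sm Md NPf rel)
open Pool.Agent.PMC.HYU (rel_iso fml_iso)

namespace HYU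

variable {L : FirstOrder.Language.{0, 0}}

theorem hyp_iso {M N : Type} [L.Structure M] [L.Structure N] (E : M ≃[L] N)
    {lt : L.Formula (Fin 2)} {ψ : ℕ → L.Formula (Fin 2)} (h : Hyp L N lt ψ) : Hyp L M lt ψ where
  irr := fun x hx => h.irr (E x) ((rel_iso E _ x x).2 hx)
  tra := fun x y z h1 h2 => (rel_iso E _ x z).1
    (h.tra (E x) (E y) (E z) ((rel_iso E _ x y).2 h1) ((rel_iso E _ y z).2 h2))
  tot := fun x y hxy => by
    rcases h.tot (E x) (E y) (fun he => hxy (E.injective he)) with h1 | h1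
    · exact Or.inl ((rel_iso E _ x y).1 h1)
    · exact Or.inr ((rel_iso E _ y x).1 h1)
  grd := fun i => by
    obtain ⟨k, hk⟩ := h.grd i
    refine ⟨k, fun hg => hk ?_⟩
    obtain ⟨I, J, hI, hJ, hIJ⟩ := hg
    refine ⟨fun a => E '' I a, fun b => E '' J b, ?_, ?_, ?_⟩
    · rintro a a' haa _ ⟨x, hx, rfl⟩ _ ⟨x', hx', rfl⟩
      exact (rel_iso E _ _ _).2 (hI a a' haa x hx x' hx')
    · rintro b b' hbb _ ⟨x, hx, rfl⟩ _ ⟨x', hx', rfl⟩
      exact (rel_iso E _ _ _).2 (hJ b b' hbb x hx x' hx')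
    · intro a b
      obtain ⟨y, hy, hy'⟩ := hIJ a b
      refine ⟨fun m => E (y m), fun m => ⟨y m, hy m, rfl⟩, fun m m' hm => ?_⟩
      obtain ⟨x, hx, hx'⟩ := hy' m m' hm
      refine ⟨E x, ⟨x, hx, rfl⟩, fun hc => hx' ?_⟩
      exact (rel_iso E _ _ _).symm.trans (hc.trans (rel_iso E _ _ _))
  det := fun g hg0 hg1 hg2 => by
    have ht : ∀ (φ : L.Formula (Fin 2)), (∀ x y, rel L M φ (g x) (g y) ↔ rel L M φ x y) →
        ∀ x y, rel L N φ (E (g (E.symm x))) (E (g (E.symm y))) ↔ rel L N φ x y := by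
      intro φ hφ x y
      have h1 := hφ (E.symm x) (E.symm y)
      have h2 : rel L N φ (E (g (E.symm x))) (E (g (E.symm y))) ↔
          rel L M φ (g (E.symm x)) (g (E.symm y)) := rel_iso E _ _ _
      have h3 := rel_iso E φ (E.symm x) (E.symm y)
      rw [E.apply_symm_apply, E.apply_symm_apply] at h3
      exact h2.trans (h1.trans h3.symm)
    obtain ⟨h', hh'⟩ := h.det ((E.toEquiv.symm.trans g).trans E.toEquiv)
      (fun x y => ht lt hg0 x y)
      (fun i x y => ht (ψ i) (hg1 i) x y)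
      (fun χ x => by
        have h1 := hg2 χ (E.symm x)
        have h2 : χ.Realize ![E (g (E.symm x))] ↔ χ.Realize ![g (E.symm x)] := fml_iso E _ _
        have h3 := fml_iso E χ (E.symm x)
        rw [E.apply_symm_apply] at h3
        exact h2.trans (h1.trans h3.symm))
    refine ⟨E.symm.comp (h'.comp E), fun x => ?_⟩
    show E.symm (h' (E x)) = g x
    rw [hh' (E x)]
    show E.symm (E (g (E.symm (E x)))) = g x
    rw [E.symm_apply_apply, E.symm_apply_apply]

theorem rel_def {U : Type} [L.Structure U] (φ : L.Formula (Fin 2)) :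
    (∅ : Set U).Definable L {v : Fin 2 → U | rel L U φ (v 0) (v 1)} := by
  rw [Set.empty_definable_iff]
  refine ⟨φ, ?_⟩
  ext v
  have hv : (![v 0, v 1] : Fin 2 → U) = v := by
    funext i
    fin_cases i <;> rfl
  simp only [Set.mem_ofPred_eq]
  unfold rel
  rw [hv]

theorem rel_def' {U : Type} [L.Structure U] (φ : L.Formula (Fin 2)) :
    (∅ : Set U).Definable L {v : Fin 2 → U | rel L U φ (v 1) (v 0)} := by
  have h := Set.Definable.preimage_comp (![1, 0] : Fin 2 → Fin 2) (rel_def (L := L) (U := U) φ)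
  exact h

theorem hyp_cx (hCVG : St_CVG) {U : Type} [L.Structure U] (hM : Mon L U)
    {lt : L.Formula (Fin 2)} {ψ : ℕ → L.Formula (Fin 2)} (h : Hyp L U lt ψ) :
    Cx L (fun _ : Unit => rel L U lt) id (SS L U lt ψ) where
  mon := hM
  ne := ⟨()⟩
  uni := fun _ _ => rfl
  dfn := fun _ => rel_def lt
  oo := fun _ => rfl
  irr := fun _ => h.irr
  tra := fun _ => h.tra
  tot := fun _ => h.tot
  ini := fun _ u x hx y hy => h.tra y x u hy hx
  sdf := by
    rintro ⟨_ | _, _ | i⟩
    · exact rel_def lt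
    · exact rel_def (ψ i)
    · exact rel_def' lt
    · exact rel_def' (ψ i)
  ord := fun _ => ⟨(false, none), fun x y => Iff.rfl⟩
  cnv := by
    rintro ⟨_ | _, _ | i⟩
    · exact ⟨(true, none), fun x y => Iff.rfl⟩
    · exact ⟨(true, some i), fun x y => Iff.rfl⟩
    · exact ⟨(false, none), fun x y => Iff.rfl⟩
    · exact ⟨(false, some i), fun x y => Iff.rfl⟩
  grd := by
    have h0 : ∀ j : Unit, NoDiv (fun _ : Unit => rel L U lt) id (SS L U lt ψ) j (false, none) 2 :=
      fun j => (hCVG U Unit (Bool × Option ℕ) (fun _ : Unit => rel L U lt) id (SS L U lt ψ) j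
        (false, none) (false, none)).2 h.irr h.tra h.tot (fun x y => Iff.rfl)
    have h1 : ∀ i : ℕ, ∃ k, ∀ j : Unit, NoDiv (fun _ : Unit => rel L U lt) id (SS L U lt ψ) j
        (false, some i) k := by
      intro i
      obtain ⟨k, hk⟩ := h.grd i
      refine ⟨k, fun j hg => hk ?_⟩
      obtain ⟨I, J, hI, hJ, hIJ⟩ := hg
      refine ⟨I, J, hI, hJ, fun a b => ?_⟩
      obtain ⟨y, hy, hy'⟩ := hIJ a b
      refine ⟨y, hy, fun m m' hm => ?_⟩
      by_contra hcon
      push Not at hcon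
      apply hy' m m' hm
      ext x
      constructor
      · rintro ⟨hx1, hx2⟩
        exact ⟨hx1, (hcon x hx1).1 hx2⟩
      · rintro ⟨hx1, hx2⟩
        exact ⟨hx1, (hcon x hx1).2 hx2⟩
    rintro ⟨_ | _, _ | i⟩
    · exact ⟨2, h0⟩
    · exact h1 i
    · refine ⟨2 ^ 2, fun j => ?_⟩
      exact (hCVG U Unit (Bool × Option ℕ) (fun _ : Unit => rel L U lt) id (SS L U lt ψ) j
        (false, none) (true, none)).1 2 (fun x y => Iff.rfl) (h0 j)
    · obtain ⟨k, hk⟩ := h1 i
      refine ⟨2 ^ k, fun j => ?_⟩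
      exact (hCVG U Unit (Bool × Option ℕ) (fun _ : Unit => rel L U lt) id (SS L U lt ψ) j
        (false, some i) (true, some i)).1 k (fun x y => Iff.rfl) (hk j)
  det := fun g hg1 hg2 => h.det g (fun x y => hg1 (false, none) x y)
    (fun i x y => hg1 (false, some i) x y) (fun χ x => by
      obtain ⟨k, hk⟩ := hg2 x
      rw [← hk]
      exact fml_iso k χ x)

end HYU

theorem thm_HYU : St_HYU := by
  intro hCVG L T lt ψ hT U _ hUT hM
  have hctb : Countable U := hM.ctb
  have hinf : Infinite U := hM.inf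
  obtain ⟨e⟩ : Nonempty (U ≃ ℕ) := nonempty_equiv_of_countable
  let S : L.Structure ℕ := e.inducedStructure
  let E : @FirstOrder.Language.Equiv L U ℕ _ S := e.inducedStructureEquiv
  have hmod : @FirstOrder.Language.Theory.Model L ℕ S T :=
    FirstOrder.Language.StrongHomClass.theory_model E
  exact HYU.hyp_cx hCVG hM (HYU.hyp_iso E (hT S hmod))

end Pool.Agent.GRK
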