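import Pool.Agent.GRK.StB
import Pool.Agent.GRK.StE
import Pool.Agent.GRK.Base

/-!
MNO, module INN: inner pieces are rigid (helper68)
-/

set_option autoImplicit false
set_option linter.unusedVariables false

namespace Pool.Agent.GRK

open FirstOrder.Language Set
open scoped FirstOrder
open Pool.Agent.WOM (tp Mon IsEl IsoM CtU Fx Orb)
open Pool.Agent.PMC (Ini ct Dc cel Sin Nd Ct lts ext XS Ex Fa Ll LL Itv Sm Md NPf fx_refl fx_symm
  fx_comp fx_mono def_img)

section inn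

variable {L : FirstOrder.Language.{0, 0}} {U : Type} [L.Structure U]

private theorem INN_mono {A A' X Y : Set U} (h : A ⊆ A') (hS : Sm L A' X Y) : Sm L A X Y := by
  obtain ⟨e, he⟩ := hS
  exact ⟨e, fun s hs => let ⟨g, hg, h2⟩ := he s hs; ⟨g, fx_mono h hg, h2⟩⟩

private theorem INN_symm_img (g : U ≃[L] U) (X : Set U) : g.symm '' (g '' X) = X := by
  ext x
  constructor
  · rintro ⟨_, ⟨y, hy, rfl⟩, rfl⟩
    rw [g.symm_apply_apply]
    exact hy
  · intro hx
    exact ⟨g x, ⟨x, hx, rfl⟩, g.symm_apply_apply x⟩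

private theorem INN_img {A X Y : Set U} (g : U ≃[L] U) (hS : Sm L A X Y) :
    Sm L (g '' A) (g '' X) (g '' Y) := by
  obtain ⟨e, he⟩ := hS
  refine ⟨((Equiv.image g.toEquiv X).symm.trans e).trans (Equiv.image g.toEquiv Y),
    fun s hs => ?_⟩
  obtain ⟨h, hh, h2⟩ := he ((Equiv.image g.toEquiv X).symm '' s) (hs.image _)
  refine ⟨(g.comp h).comp g.symm, ?_, ?_⟩
  · rintro _ ⟨a, ha, rfl⟩
    show g (h (g.symm (g a))) = g a
    rw [g.symm_apply_apply, hh a ha]
  · intro x hx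
    have h3 := h2 _ (mem_image_of_mem _ hx)
    have h4 : ((Equiv.image g.toEquiv X).symm x : U) = g.symm x := by
      obtain ⟨y, rfl⟩ := (Equiv.image g.toEquiv X).surjective x
      rw [Equiv.symm_apply_apply]
      show (y : U) = g.symm (g y)
      rw [g.symm_apply_apply]
    show g (h (g.symm x)) = g (e ((Equiv.image g.toEquiv X).symm x))
    rw [← h4, h3]

/-- fix one point -/
private theorem INN_pt {A X Y : Set U} (hS : Sm L A X Y) {x : U} (hx : x ∈ X) :
    ∃ g : U ≃[L] U, Fx L A g ∧ g x ∈ Y ∧ Sm L (insert x A) X (g.symm '' Y) := by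
  obtain ⟨e, he⟩ := hS
  obtain ⟨g, hg, h2⟩ := he {⟨x, hx⟩} (finite_singleton _)
  have h3 : g x = e ⟨x, hx⟩ := h2 ⟨x, hx⟩ rfl
  refine ⟨g, hg, by rw [h3]; exact (e ⟨x, hx⟩).2,
    e.trans (Equiv.image g.symm.toEquiv Y), fun s hs => ?_⟩
  obtain ⟨h, hh, h4⟩ := he (insert ⟨x, hx⟩ s) (hs.insert _)
  refine ⟨g.symm.comp h, ?_, ?_⟩
  · intro b hb
    rcases hb with rfl | hb
    · show g.symm (h b) = b
      rw [h4 ⟨b, hx⟩ (mem_insert _ _), ← h3, g.symm_apply_apply]
    · exact fx_comp (fx_symm hg) hh b hb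
  · intro v hv
    show g.symm (h v) = g.symm (e v)
    rw [h4 v (mem_insert_of_mem _ hv)]

private theorem INN_el {κ ι : Type} {R : κ → U → U → Prop} {o : κ → κ} {S : ι → U → U → Prop} (hC : Cx L R o S)
    {M : Set U} (hM : IsEl L M) (t : U ≃[L] U) : IsEl L (t '' M) := by
  intro s hs hne
  have h1 := def_img hC.mon t.symm hs
  rw [INN_symm_img] at h1
  obtain ⟨z, ⟨y, hy, rfl⟩, hz2⟩ := hM _ h1 (hne.image _)
  refine ⟨y, hy, t.symm y, hz2, ?_⟩
  exact t.apply_symm_apply y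

end inn

theorem thm_INN (h1 : St_UNP) (h2 : St_SMN) (h3 : St_NWL) (h4 : St_AEI) (h5 : St_ORD)
    (h6 : St_FAI) (h7 : St_LFT) (h8 : St_FE1) : St_INN := by
  intro L U _ κ ι R o S hC hNP hFN A x y hA hx hy hny hnX M hM
  obtain ⟨t, z0, sg, htN, hO, hxE, hxP, hP⟩ := h4 L U κ ι R o S hC A x y hA hx hy hny hnX
  have htA : Fx L A t := htN.1
  set B := insert x A with hB
  have hBf : B.Finite := hA.insert x
  set P := Pc L R o S B y with hPdef
  have hPinv : ∀ g : U ≃[L] U, Fx L B g → ∀ x, g x ∈ P ↔ x ∈ P := fun g hg v =>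
    cls_fx hC hBf (cls_pc B y) hg v
  refine h7 L U hC.mon hFN B P (M ∩ P) hBf hPinv inter_subset_right ?_
  set E := Pc L R o S B z0 with hE
  set B' := t '' B with hB'
  have hB'f : B'.Finite := hBf.image t
  set P' := t '' P with hP'
  have hP'pc : P' = Pc L R o S B' (t y) := by rw [hP', hPdef, img_pc hC, hB']
  have hxB' : t x ∈ B' := ⟨x, mem_insert x A, rfl⟩
  have hAB' : A ⊆ B' := fun a ha => ⟨a, mem_insert_of_mem x ha, htA a ha⟩
  have hcP' : Cls L R o S B' P' := by rw [hP'pc]; exact cls_pc B' (t y)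
  -- the submodel
  set m : U → Set U := fun z => {v | z ∈ P' → v ∈ t '' M} with hm
  have hm1 : ∀ z ∈ P', m z = t '' M := by
    intro z hz
    ext v
    exact ⟨fun h => h hz, fun h _ => h⟩
  have hm2 : ∀ z ∉ P', m z = univ := by
    intro z hz
    ext v
    exact ⟨fun _ => mem_univ v, fun _ h => absurd h hz⟩
  have hM' : Md L B' {z | z ∈ m z} := by
    refine h1 L U κ ι R o S hC B' hB'f m ?_ ?_
    · intro z
      by_cases hz : z ∈ P'
      · rw [hm1 z hz]
        exact ⟨INN_el hC hM.1 t, image_mono hM.2⟩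
      · rw [hm2 z hz]
        exact ⟨fun s _ hne => by rwa [inter_univ], subset_univ _⟩
    · intro z v hv
      by_cases hz : z ∈ P'
      · rw [hm1 z hz, hm1 v (pc_sub hcP' hz hv)]
      · have hv' : v ∉ P' := by
          intro h
          have h7 : z ∈ Pc L R o S B' v := by rw [pc_eq hv]; exact mem_pc B' z
          exact hz (pc_sub hcP' h h7)
        rw [hm2 z hz, hm2 v hv']
  set M' : Set U := {z | z ∈ m z} with hM'def
  have hMB : Md L B M' := by
    refine ⟨hM'.1, fun b hb => ?_⟩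
    rcases hb with rfl | hb
    · show b ∈ m b
      rw [hm2 b hxP]
      exact mem_univ b
    · exact hM'.2 (hAB' hb)
  obtain ⟨-, -, fai3, -⟩ := h6 L U κ ι R o S hC B E sg hO
  obtain ⟨-, ord2, ord3, -⟩ := h5 L U κ ι R o S hC B E sg hO
  obtain ⟨-, -, -, -, smn5, -, smn7, smn8⟩ := h2 L U κ ι R o S hC
  have hric : Ric L R o B univ := (h8 L U κ ι R o S hC B hBf).2.2.2.2.2.2.2
  have hxI : t x ∈ Itv L R o B E sg M' (t x) (t x) :=
    ⟨hM'.2 hxB', hxE, ord2 (t x) hxE true, ord2 (t x) hxE true⟩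
  obtain ⟨z, -, hz, hSN⟩ := h3 L U κ ι R o S hC hNP B E sg hO univ M' (t x) hric hMB (hM'.2 hxB') hxE
  have hS := (smn5 B B _ _ subset_rfl hSN).2
  obtain ⟨g, hg, hgw, hS2⟩ := INN_pt hS hxI
  have hB'sub : B' ⊆ insert (t x) B := by
    rintro _ ⟨b, hb, rfl⟩
    rcases hb with rfl | hb
    · exact mem_insert _ _
    · rw [htA b hb]
      exact mem_insert_of_mem _ (mem_insert_of_mem _ hb)
  have hS3 := smn7 (insert (t x) B) _ _ P' (fun k hk v => by
    exact cls_fx hC hB'f hcP' (fx_mono hB'sub hk) v) hS2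
  have e1 : Itv L R o B E sg M' (t x) (t x) ∩ P' = t '' (M ∩ P) := by
    ext v
    constructor
    · rintro ⟨⟨hv1, -⟩, hv2⟩
      have h7 : v ∈ m v := hv1
      rw [hm1 v hv2] at h7
      obtain ⟨a, ha, rfl⟩ := h7
      obtain ⟨b, hb, hab⟩ := hv2
      have h8 : b = a := t.injective hab
      subst h8
      exact ⟨b, ⟨ha, hb⟩, rfl⟩
    · rintro ⟨a, ⟨ha, haP⟩, rfl⟩
      have h8 : t a ∈ P' := ⟨a, haP, rfl⟩
      refine ⟨⟨?_, (hP a haP).1, (hP a haP).2.2, (hP a haP).2.1⟩, h8⟩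
      show t a ∈ m (t a)
      rw [hm1 (t a) h8]
      exact ⟨a, ha, rfl⟩
  have e2 : (g.symm '' Itv L R o B E sg univ z z) ∩ P' = P' := by
    refine inter_eq_right.2 ?_
    rintro _ ⟨a, haP, rfl⟩
    obtain ⟨haE, hn1, hn2⟩ := hP a haP
    refine ⟨g (t a), ?_, g.symm_apply_apply _⟩
    have hgaE : g (t a) ∈ E := ((fai3 g hg).1 (t a)).2 haE
    have hgxE : g (t x) ∈ E := hgw.2.1
    have hn3 : ¬ Ll L R o B sg (g (t x)) (g (t a)) := fun h =>
      hn1 (((fai3 g hg).2 (t x) hxE (t a) haE true).1 h)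
    have hn4 : ¬ Ll L R o B sg (g (t a)) (g (t x)) := fun h =>
      hn2 (((fai3 g hg).2 (t a) haE (t x) hxE true).1 h)
    refine ⟨mem_univ _, hgaE, fun h => ?_, fun h => ?_⟩
    · rcases ord3 (g (t a)) hgaE z hz h (g (t x)) hgxE with h7 | h7
      · exact hn4 h7
      · exact hgw.2.2.1 h7
    · rcases ord3 z hz (g (t a)) hgaE h (g (t x)) hgxE with h7 | h7
      · exact hgw.2.2.2 h7
      · exact hn3 h7
  rw [e1, e2] at hS3
  have hS4 := INN_img t.symm (INN_mono hB'sub hS3)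
  rw [INN_symm_img, INN_symm_img, hP', INN_symm_img] at hS4
  exact hS4

end Pool.Agent.GRK
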