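import Pool.Agent.GRK.StE
import Pool.Agent.GRK.NBase
import Pool.Agent.MNO.Kit

/-!
MNO: [LFT] lifting from `Sm` to `SmN` (helper12).
-/

set_option autoImplicit false
set_option linter.unusedVariables false

namespace Pool.Agent.GRK

open FirstOrder.Language Set
open scoped FirstOrder
open Pool.Agent.WOM (tp Mon IsEl IsoM CtU Fx Orb)
open Pool.Agent.PMC (Ini ct Dc cel Sin Nd Ct lts ext XS Ex Fa Ll LL Itv Sm Md NPf fx_refl fx_symm
  fx_comp fx_mono comp_apply')

namespace LFT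

section

variable {L : FirstOrder.Language.{0, 0}} {U : Type} [L.Structure U]

theorem nconj {A : Set U} {g h : U ≃[L] U} (hg : Fx L A g) (hh : Nx L A h) :
    Nx L A (g.comp (h.comp g.symm)) := by
  refine ⟨fx_comp hg (fx_comp hh.1 (fx_symm hg)), fun E hE x => ?_⟩
  have hE' : FE L A (fun x y => E (g x) (g y)) := by
    refine ⟨?_, ?_, ?_⟩
    · have h1 := Pool.Agent.MNO.dp_img (α := Fin 2) (P := fun v : Fin 2 → U => E (v 0) (v 1))
        hE.dfn g.symm
      have h2 : g.symm '' A = A := by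
        ext y
        constructor
        · rintro ⟨a, ha, rfl⟩
          rw [fx_symm hg a ha]
          exact ha
        · intro hy
          exact ⟨y, hy, fx_symm hg y hy⟩
      rw [h2] at h1
      exact Pool.Agent.MNO.dp_congr h1 fun v => Iff.rfl
    · exact ⟨fun x => hE.eqv.refl _, fun hxy => hE.eqv.symm hxy,
        fun hxy hyz => hE.eqv.trans hxy hyz⟩
    · obtain ⟨s, hs, hs'⟩ := hE.fin
      refine ⟨g.symm '' s, hs.image _, fun x => ?_⟩
      obtain ⟨y, hy, hxy⟩ := hs' (g x)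
      refine ⟨_, ⟨y, hy, rfl⟩, ?_⟩
      rw [g.apply_symm_apply]
      exact hxy
  have h1 := hh.2 _ hE' (g.symm x)
  rw [g.apply_symm_apply] at h1
  rw [comp_apply', comp_apply']
  exact h1

/-- the automorphisms compatible with `f` on `F` up to `Nx` -/
def H (A : Set U) {X P : Set U} (f : X ≃ P) (F : Set X) : Set (U ≃[L] U) :=
  {h | Fx L A h ∧ ∃ n : U ≃[L] U, Nx L A n ∧ ∀ x ∈ F, n (h x) = f x}

variable {A X P : Set U} {f : X ≃ P}

theorem H_mono {F F' : Set X} (h : F ⊆ F') : H (L := L) A f F' ⊆ H A f F :=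
  fun _ ⟨h1, n, hn, h2⟩ => ⟨h1, n, hn, fun x hx => h2 x (h hx)⟩

theorem H_left {F : Set X} {h n' : U ≃[L] U} (hh : h ∈ H A f F) (hn' : Nx L A n') :
    n'.comp h ∈ H A f F := by
  obtain ⟨h1, n, hn, h2⟩ := hh
  refine ⟨fx_comp hn'.1 h1, n.comp n'.symm, nx_comp hn (nx_symm hn'), fun x hx => ?_⟩
  rw [comp_apply', comp_apply', n'.symm_apply_apply, h2 x hx]

theorem H_right {F : Set X} {h n' : U ≃[L] U} (hh : h ∈ H A f F) (hn' : Nx L A n') :
    h.comp n' ∈ H A f F := by
  obtain ⟨h1, n, hn, h2⟩ := hh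
  refine ⟨fx_comp h1 hn'.1, n.comp (h.comp (n'.symm.comp h.symm)), nx_comp hn (nconj h1 (nx_symm hn')),
    fun x hx => ?_⟩
  rw [comp_apply', comp_apply', comp_apply', comp_apply', h.symm_apply_apply,
    n'.symm_apply_apply, h2 x hx]

/-- the properties of the finite stages -/
def Pr (A : Set U) {X P : Set U} (f : X ≃ P) (t : Set (U × U)) : Prop :=
  ∀ F : Set X, F.Finite → ∃ h ∈ H (L := L) A f F, ∀ c ∈ t, h c.1 = c.2

/-- the choice of a point -/
theorem choice (hF : FinN L U) (hA : A.Finite) {t : Set U} (ht : t.Finite)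
    (D : Set X → Set U) (hne : ∀ F, F.Finite → (D F).Nonempty)
    (hmono : ∀ F F' : Set X, F ⊆ F' → D F' ⊆ D F)
    (hclo : ∀ F, ∀ g : U ≃[L] U, Nx L (A ∪ t) g → ∀ x ∈ D F, g x ∈ D F)
    (horb : ∀ F, F.Finite → ∀ d0 ∈ D ∅, ∀ d ∈ D F, d ∈ Orb L (A ∪ t) d0) :
    ∃ d, ∀ F, F.Finite → d ∈ D F := by
  obtain ⟨d0, hd0⟩ := hne ∅ Set.finite_empty
  obtain ⟨s, hs, hs'⟩ := hF (A ∪ t) (hA.union ht) d0
  by_contra hno
  push Not at hno
  choose Fd hFd hFd' using hno
  obtain ⟨d, hd⟩ := hne (⋃ z ∈ s, Fd z) (hs.biUnion fun z _ => hFd z)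
  obtain ⟨z, hz, g, hg, hgz⟩ := hs' d (horb _ (hs.biUnion fun z _ => hFd z) d0 hd0 d hd)
  have h1 := hclo _ g.symm (nx_symm hg) d hd
  rw [← hgz, g.symm_apply_apply] at h1
  exact hFd' z (hmono _ _ (Set.subset_biUnion_of_mem hz) h1)

end

end LFT

open LFT in
/-- [LFT] -/
theorem thm_LFT (hBAG : St_BAG) : St_LFT := by
  intro L U _ hM hF A P X hA hP hXP hS
  obtain ⟨f, hf⟩ := hS
  have hU : (univ : Set U).Countable := by
    have := hM.ctb
    exact Set.countable_univ
  obtain ⟨e, he⟩ := hBAG U U univ univ (Pr (L := L) A f) hU hU (by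
      intro F hFin
      obtain ⟨g, hg, hg'⟩ := hf F hFin
      exact ⟨g, ⟨hg, _, nx_refl A, fun x hx => hg' x hx⟩, fun c hc => absurd hc (notMem_empty c)⟩)
    (by
      intro s hs hPs x _
      obtain ⟨d, hd⟩ := choice hF hA (hs.image Prod.snd)
        (fun F : Set X => {d | ∃ h ∈ H (L := L) A f F, (∀ c ∈ s, h c.1 = c.2) ∧ h x = d})
        (by
          intro F hFin
          obtain ⟨h, h1, h2⟩ := hPs F hFin
          exact ⟨_, h, h1, h2, rfl⟩)
        (by
          rintro F F' hFF' _ ⟨h, h1, h2, rfl⟩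
          exact ⟨h, H_mono hFF' h1, h2, rfl⟩)
        (by
          rintro F g hg _ ⟨h, h1, h2, rfl⟩
          refine ⟨g.comp h, H_left h1 (nx_mono subset_union_left hg), fun c hc => ?_, comp_apply' _ _ _⟩
          rw [comp_apply', h2 c hc]
          exact hg.1 _ (Or.inr ⟨c, hc, rfl⟩))
        (by
          rintro F hFin _ ⟨h0, h1, h2, rfl⟩ _ ⟨h, h3, h4, rfl⟩
          refine ⟨h.comp h0.symm, ?_, ?_⟩
          · rintro a (ha | ⟨c, hc, rfl⟩)
            · rw [comp_apply', fx_symm h1.1 a ha, h3.1 a ha]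
            · rw [comp_apply', ← h2 c hc, h0.symm_apply_apply, h4 c hc, h2 c hc]
          · rw [comp_apply', h0.symm_apply_apply])
      refine ⟨d, mem_univ d, fun F hFin => ?_⟩
      obtain ⟨h, h1, h2, h3⟩ := hd F hFin
      refine ⟨h, h1, ?_⟩
      rintro c (rfl | hc)
      · exact h3
      · exact h2 c hc)
    (by
      intro s hs hPs y _
      obtain ⟨d, hd⟩ := choice hF hA (hs.image Prod.fst)
        (fun F : Set X => {d | ∃ h ∈ H (L := L) A f F, (∀ c ∈ s, h c.1 = c.2) ∧ h.symm y = d})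
        (by
          intro F hFin
          obtain ⟨h, h1, h2⟩ := hPs F hFin
          exact ⟨_, h, h1, h2, rfl⟩)
        (by
          rintro F F' hFF' _ ⟨h, h1, h2, rfl⟩
          exact ⟨h, H_mono hFF' h1, h2, rfl⟩)
        (by
          rintro F g hg _ ⟨h, h1, h2, rfl⟩
          refine ⟨h.comp g.symm, H_right h1 (nx_mono subset_union_left (nx_symm hg)), fun c hc => ?_, ?_⟩
          · rw [comp_apply', fx_symm hg.1 c.1 (Or.inr ⟨c, hc, rfl⟩), h2 c hc]
          · apply (h.comp g.symm).injective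
            rw [(h.comp g.symm).apply_symm_apply, comp_apply', g.symm_apply_apply,
              h.apply_symm_apply])
        (by
          rintro F hFin _ ⟨h0, h1, h2, rfl⟩ _ ⟨h, h3, h4, rfl⟩
          refine ⟨h.symm.comp h0, ?_, ?_⟩
          · rintro a (ha | ⟨c, hc, rfl⟩)
            · rw [comp_apply', h1.1 a ha, fx_symm h3.1 a ha]
            · rw [comp_apply', h2 c hc, ← h4 c hc, h.symm_apply_apply]
          · rw [comp_apply', h0.apply_symm_apply])
      refine ⟨d, mem_univ d, fun F hFin => ?_⟩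
      obtain ⟨h, h1, h2, h3⟩ := hd F hFin
      refine ⟨h, h1, ?_⟩
      rintro c (rfl | hc)
      · show h d = y
        rw [← h3, h.apply_symm_apply]
      · exact h2 c hc)
    (by
      intro s hs hPs c hc c' hc'
      obtain ⟨h, -, h2⟩ := hPs ∅ Set.finite_empty
      rw [← h2 c hc, ← h2 c' hc']
      exact h.injective.eq_iff.symm)
  let e' : U ≃ U := (Equiv.Set.univ U).symm.trans (e.trans (Equiv.Set.univ U))
  have stage : ∀ (F : Set X) (W : Set U), F.Finite → W.Finite → ∃ h ∈ H (L := L) A f F,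
      ∀ w ∈ W, h w = e' w := by
    intro F W hFin hW
    obtain ⟨t, ht, hPt, -, h3⟩ := he {x | (x : U) ∈ W} (hW.preimage Subtype.val_injective.injOn)
    obtain ⟨h, h4, h5⟩ := hPt F hFin
    exact ⟨h, h4, fun w hw => h5 _ (h3 ⟨w, mem_univ w⟩ hw)⟩
  have hPe : ∀ p, p ∈ P ↔ e'.symm p ∈ P := by
    intro p
    obtain ⟨h, h1, h2⟩ := stage ∅ {e'.symm p} Set.finite_empty (Set.finite_singleton _)
    have h3 := h2 _ rfl
    rw [e'.apply_symm_apply] at h3
    rw [← hP h h1.1 (e'.symm p), h3]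
  refine ⟨f.trans (e'.symm.subtypeEquiv hPe), fun s hs => ?_⟩
  obtain ⟨h, ⟨h1, n, hn, h2⟩, h3⟩ := stage s
    ((fun x : X => (x : U)) '' s ∪ (fun x : X => e'.symm (f x)) '' s) hs
    ((hs.image _).union (hs.image _))
  refine ⟨h.symm.comp (n.comp h), ?_, fun x hx => ?_⟩
  · have := nconj (fx_symm h1) hn
    exact this
  · rw [comp_apply', comp_apply', h2 x hx]
    have h4 := h3 _ (Or.inr ⟨x, hx, rfl⟩)
    simp only [e'.apply_symm_apply] at h4
    rw [← h4, h.symm_apply_apply]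
    rfl

end Pool.Agent.GRK
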