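import Pool.Agent.GRK.StA
import Pool.Agent.GRK.Base

/-!
GRK: [MKO] extreme pieces are good, with the orientation outwards (helper69).
-/

set_option autoImplicit false
set_option linter.unusedVariables false

namespace Pool.Agent.GRK

open FirstOrder.Language Set
open scoped FirstOrder
open Pool.Agent.WOM (tp Mon IsEl IsoM CtU Fx Orb)
open Pool.Agent.PMC (Ini ct Dc cel Sin Nd Ct lts ext XS Ex Fa Ll LL Itv Sm Md NPf)

section

variable {L : FirstOrder.Language.{0, 0}} {U : Type} [L.Structure U] {κ ι : Type}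
  {R : κ → U → U → Prop} {o : κ → κ} {S : ι → U → U → Prop}

/-- the inner part of an extreme cell is bounded in the cell over `A` -/
private theorem MKO_bd (hC : Cx L R o S) {A B : Set U} {j : κ} {z : U} {s : Bool}
    (hz : z ∈ ext L R o s B j (cel L R o A j z)) (h1 : Ct L R o B j (cel L R o A j z)) :
    ∃ p ∈ cel L R o A j z, ∃ p' ∈ cel L R o A j z,
      {x' | x' ∈ ext L R o s B j (cel L R o A j z) ∧ lts R o (!s) j z x'} ⊆ btw R o j p p' := by
  obtain ⟨C, hD, hS⟩ := h1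
  have hS' := hS
  obtain ⟨⟨c, hc, hcC⟩, ⟨c', hc', hcC'⟩⟩ := hS
  cases s
  · refine ⟨z, hz.1, c', hc', ?_⟩
    rintro x' ⟨h1, h2⟩
    have h3 : R (o j) z x' := (lts_true j z x').1 h2
    have h4 : x' ∈ C := (h1.2 C hD hS').2 rfl
    exact ⟨asymm' hC j h3, fun h => hcC' (hD.2 x' h4 c' h)⟩
  · refine ⟨c, hc, z, hz.1, ?_⟩
    rintro x' ⟨h1, h2⟩
    have h3 : R (o j) x' z := (lts_false j z x').1 h2
    have h4 : x' ∉ C := fun h => Bool.noConfusion ((h1.2 C hD hS').1 h)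
    exact ⟨fun h => h4 (hD.2 c hcC x' h), asymm' hC j h3⟩

end

theorem thm_MKO (hATT : St_ATT) (hAG : St_AG) (hEXB : St_EXB) (hXSP : St_XSP) : St_MKO := by
  intro L U _ κ ι R o S hC A x z0 hA hx hz0 hX0
  obtain ⟨B, hBdef⟩ : ∃ B : Set U, B = insert x A := ⟨_, rfl⟩
  rw [← hBdef] at hX0 ⊢
  have hAB : A ⊆ B := hBdef ▸ subset_insert x A
  have hxB : x ∈ B := hBdef ▸ mem_insert x A
  have hB : B.Finite := hBdef ▸ hA.insert x
  obtain ⟨j0⟩ := hC.ne
  have hEA : Pc L R o S B z0 ⊆ Pc L R o S A x := by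
    intro y hy
    rw [← pc_eq hz0]
    exact pc_anti hAB z0 hy
  have hEX : Pc L R o S B z0 ⊆ XS L R o A B := pc_sub (hXSP L U κ ι R o S hC A B hAB hB).2 hX0
  have hndA : ∀ z ∈ Pc L R o S B z0, Nd L A z := fun z hz => (hEX hz).1
  have hcutA : ∀ z ∈ Pc L R o S B z0, ∀ j, Ct L R o B j (cel L R o A j z) := fun z hz =>
    hAG L U κ ι R o S hC A B x z hAB hB hxB hx (hEA hz)
  have hoo : ∀ (b : Bool) (j : κ) (z : U), ext L R o b B (o j) (cel L R o A (o j) z) =
      ext L R o b B j (cel L R o A j z) := by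
    intro b j z
    rw [cel_oo hC]
    ext v
    constructor
    · rintro ⟨h1, h2⟩
      exact ⟨h1, fun C hD hS => h2 C ((dc_oo hC).2 hD) hS⟩
    · rintro ⟨h1, h2⟩
      exact ⟨h1, fun C hD hS => h2 C ((dc_oo hC).1 hD) hS⟩
  classical
  obtain ⟨sg, hsgdef⟩ : ∃ sg : κ → U → Bool, ∀ j z,
      sg j z = decide (z ∈ ext L R o true B j (cel L R o A j z)) := ⟨fun j z => decide _, fun _ _ => rfl⟩
  have hsg : ∀ z ∈ Pc L R o S B z0, ∀ j, z ∈ ext L R o (sg (o j) z) B j (cel L R o A j z) := by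
    intro z hz j
    rw [hsgdef, hoo]
    by_cases h : z ∈ ext L R o true B j (cel L R o A j z)
    · rw [decide_eq_true h]
      exact h
    · rw [decide_eq_false h]
      obtain ⟨b, hb⟩ := (hEX hz).2 j
      cases b
      · exact hb
      · exact absurd hb h
  have huniq : ∀ z ∈ Pc L R o S B z0, ∀ j b, z ∈ ext L R o b B j (cel L R o A j z) →
      b = sg (o j) z := by
    intro z hz j b hb
    by_contra hne
    have hb' : (!b) = sg (o j) z := by
      generalize sg (o j) z = s at hne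
      cases b <;> cases s <;> first | rfl | exact absurd rfl hne
    have h1 := hsg z hz j
    rw [← hb'] at h1
    exact (hEXB L U κ ι R o S hC A B j z b hAB hB (hndA z hz)).2.2.2.2.2.2 (hcutA z hz j) z hb h1
  have hcel : ∀ z ∈ Pc L R o S B z0, ∀ j, cel L R o B j z =
      ext L R o (sg (o j) z) B j (cel L R o A j z) := fun z hz j =>
    (hEXB L U κ ι R o S hC A B j z _ hAB hB (hndA z hz)).2.1 z (hsg z hz j)
  have hndB : ∀ z ∈ Pc L R o S B z0, Nd L B z := fun z hz =>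
    (hEXB L U κ ι R o S hC A B j0 z _ hAB hB (hndA z hz)).2.2.1 z (hsg z hz j0)
  have hcut : ∀ w ∈ Pc L R o S B z0, ∀ z ∈ Pc L R o S B z0, ∀ j,
      Ct L R o (insert w B) j (cel L R o B j z) := by
    intro w hw z hz
    refine hAG L U κ ι R o S hC B (insert w B) w z (subset_insert w B) (hB.insert w)
      (mem_insert w B) (hndB w hw) ?_
    rw [pc_eq hw]
    exact hz
  have hcst : ∀ j, ∀ z ∈ Pc L R o S B z0, ∀ y ∈ cel L R o B j z, sg (o j) y = sg (o j) z := by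
    intro j z hz y hy
    have hyE : y ∈ Pc L R o S B z0 := by
      rw [← pc_eq hz]
      exact cel_sub_pc hC hB j z hy
    have hyA : y ∈ cel L R o A j z := cel_anti hAB j z hy
    symm
    refine huniq y hyE j _ ?_
    rw [cel_eq hyA, ← hcel z hz j]
    exact hy
  refine ⟨sg, ⟨hB, ⟨z0, mem_pc B z0⟩, hndB, cls_pc B z0, hcut, hcst, ?_⟩, hsg, hEA⟩
  intro i j y1 hy1 y2 hy2
  obtain ⟨p, hp, p', hp', hX⟩ := MKO_bd hC (hsg y1 hy1 j) (hcutA y1 hy1 j)
  rw [← hcel y1 hy1 j] at hX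
  obtain ⟨k, hk⟩ := hATT L U κ ι R o S hC i
  obtain ⟨hfin, -, w, hw, hww⟩ := hk A j y1 y2 p p' _ (sg (o j) y2) hA (hndA y1 hy1)
    (hndA y2 hy2) hp hp' hX
  obtain ⟨q, hq, hwq⟩ := (hEXB L U κ ι R o S hC A B j y2 (sg (o j) y2) hAB hB
    (hndA y2 hy2)).2.2.2.1 w hw
  rw [← hcel y2 hy2 j] at hq
  refine ⟨y1, mem_cel B j y1, q, hq, hfin.subset ?_⟩
  rintro t ⟨y', hy', hqy, rfl⟩
  exact hww y' (cel_anti hAB j y2 hy') (lts_trans hC _ j hwq hqy)

end Pool.Agent.GRK
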