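import Pool.Agent.GRK.StB
import Pool.Agent.GRK.NBase

/-!
MNO, module (text of PMC) MVT: moving finite sets (helper19)
-/

set_option autoImplicit false
set_option linter.unusedVariables false

namespace Pool.Agent.GRK

open FirstOrder.Language Set
open scoped FirstOrder
open Pool.Agent.WOM (tp Mon IsEl IsoM CtU Fx Orb)
open Pool.Agent.PMC (Ini ct Dc cel Sin Nd Ct lts ext XS Ex Fa Ll LL Itv Sm Md NPf sd fx_refl fx_symm
  fx_comp fx_mono comp_apply' def_img def_mono def_compl def_inter def_union def_mem def_fix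
  def_of_fix conj_of_def exists_isd exists_fin_def isEl_of_orb mem_orb orb_meets sat_fam rel_fx
  rel_def1 rel_def2 rel_hull rel_swap def_close)

section mvt

variable {L : FirstOrder.Language.{0, 0}} {U : Type} [L.Structure U] {κ ι : Type}
  {R : κ → U → U → Prop} {o : κ → κ} {S : ι → U → U → Prop} {A E : Set U} {sg : κ → U → Bool}

private theorem MVT_lts (s : Bool) (j : κ) (x y : U) (h : lts R o (!s) j x y) :
    lts R o s j y x := by
  cases s
  · simpa [lts] using h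
  · simpa [lts] using h

private theorem MVT_one (hFAI : St_FAI) (hORD : St_ORD) (hBTW : St_BTW) (hTUP : St_TUP)
    (hC : Cx L R o S) (hO : Ori L R o S A E sg) {D V Z : Set U} (hD : D.Finite) (hV : V.Finite)
    (hZ : Z.Finite) (hDE : D ⊆ E) (hVE : V ⊆ E) (hZE : Z ⊆ E) (hDV : LL L R o A sg D V)
    (hDZ : LL L R o A sg D Z) :
    ∃ g : U ≃[L] U, Nx L (A ∪ D) g ∧ LL L R o A sg D (g '' Z) ∧ LL L R o A sg (g '' Z) V := by
  obtain ⟨-, -, f3, -, -, -, -, -⟩ := hFAI L U κ ι R o S hC A E sg hO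
  obtain ⟨o1, -, -, o4, o5, -⟩ := hORD L U κ ι R o S hC A E sg hO
  obtain ⟨z, hz⟩ := hO.ne
  obtain ⟨j⟩ := hC.ne
  have hKE : cel L R o A j z ⊆ E :=
    (cel_sub_pc hC hO.fin j z).trans (pc_sub hO.clo hz)
  obtain ⟨e, heK, heDZ, -⟩ := hBTW L U κ ι R o S hC A E sg hO (D ∪ Z) ∅ (hD.union hZ) finite_empty
    (union_subset hDE hZE) (empty_subset _) (fun d _ v hv => absurd hv (notMem_empty v)) z hz j
  obtain ⟨p, hpK, hpD, hpV⟩ := hBTW L U κ ι R o S hC A E sg hO D V hD hV hDE hVE hDV z hz j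
  have heD : ∀ d ∈ D, Ll L R o A sg d e := fun d hd => heDZ d (Or.inl hd) e rfl
  -- one cell over `A ∪ D`
  have hcell : ∀ x ∈ cel L R o A j z, (∀ d ∈ D, Ll L R o A sg d x) →
      ∀ y ∈ cel L R o A j z, (∀ d ∈ D, Ll L R o A sg d y) → x ∈ cel L R o (A ∪ D) j y := by
    intro x hx hxD y hy hyD C hCC
    by_cases hS : Sin C (cel L R o A j z)
    · have h1 := hTUP L U κ ι R o S hC A E sg hO D hD hDE z hz j C hCC hS x hx false
        (fun d hd => (o1 d (hDE hd) x (hKE hx) true).1 (hxD d hd))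
      have h2 := hTUP L U κ ι R o S hC A E sg hO D hD hDE z hz j C hCC hS y hy false
        (fun d hd => (o1 d (hDE hd) y (hKE hy) true).1 (hyD d hd))
      exact h1.trans h2.symm
    · constructor
      · intro hxC
        by_contra hyC
        exact hS ⟨⟨x, hx, hxC⟩, ⟨y, hy, hyC⟩⟩
      · intro hyC
        by_contra hxC
        exact hS ⟨⟨y, hy, hyC⟩, ⟨x, hx, hxC⟩⟩
  -- `e` is not definable over `A ∪ D`
  have hnd : Nd L (A ∪ D) e := by
    by_contra hcon
    obtain ⟨y, hyK, hy⟩ := exists_lts hC hO.fin (hO.nd z hz) heK (sg (o j) z)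
    have hyD : ∀ d ∈ D, Ll L R o A sg d y := fun d hd =>
      (o5 z hz j e heK y hyK hy d (hDE hd)).1 (heD d hd)
    have h1 := hcell y hyK hyD e heK heD
    rw [cel_def hC hcon j] at h1
    have h2 : y = e := h1
    rw [h2] at hy
    have h3 : R (o j) e e := by
      have h4 := hy
      unfold lts at h4
      split_ifs at h4
      · exact h4
      · exact h4
    exact hC.irr j e h3
  obtain ⟨g, hg, hgl⟩ := nx_move hC (hO.fin.union hD) hnd
    (hcell p hpK (fun d hd => hpD d hd p rfl) e heK heD) (mem_cel (A ∪ D) j e) (!sg (o j) z)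
  have hgA : Fx L A g := fx_mono subset_union_left hg.1
  have hgK : g e ∈ cel L R o A j z := (fx_mem_cel hC j e z hgA).2 heK
  obtain ⟨g1, g2⟩ := f3 g hgA
  have hgl' : lts R o (sg (o j) z) j (g e) p := MVT_lts _ j _ _ hgl
  refine ⟨g, hg, ?_, ?_⟩
  · rintro d hd _ ⟨x, hx, rfl⟩
    have h1 : g d = d := hg.1 d (Or.inr hd)
    have h2 := (g2 d (hDE hd) x (hZE hx) true).2 (hDZ d hd x hx)
    rw [h1] at h2
    exact h2
  · rintro _ ⟨x, hx, rfl⟩ v hv
    have h1 : Ll L R o A sg (g x) (g e) :=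
      (g2 x (hZE hx) e (hKE heK) true).2 (heDZ x (Or.inr hx) e rfl)
    have h2 : Ll L R o A sg (g e) v :=
      (o5 z hz j (g e) hgK p hpK hgl' v (hVE hv)).2 (hpV p rfl v hv)
    exact o4 (g x) ((g1 x).2 (hZE hx)) (g e) (hKE hgK) v (hVE hv) h1 h2

/-- [MVT] moving finite sets. -/
theorem thm_MVT (hFAI : St_FAI) (hORD : St_ORD) (hBTW : St_BTW) (hTUP : St_TUP) : St_MVT := by
  intro L U _ κ ι R o S hC A E sg hO D V Z hD hV hZ hDE hVE hZE hDV
  refine ⟨fun hDZ => MVT_one hFAI hORD hBTW hTUP hC hO hD hV hZ hDE hVE hZE hDV hDZ,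
    fun hZV => ?_⟩
  obtain ⟨⟨rev, ex⟩, -, -, -, -, -, -, -⟩ := hFAI L U κ ι R o S hC A E sg hO
  obtain ⟨o1, -, -, -, -, -⟩ := hORD L U κ ι R o S hC A E sg hO
  have key : ∀ w ∈ E, ∀ u ∈ E, Ll L R o A (fun j z => !sg j z) w u ↔ Ll L R o A sg u w := by
    intro w hw u hu
    have h1 : Ll L R o A (fun j z => !sg j z) w u ↔ Fa L R o A sg false w u :=
      forall_congr' fun j => ex true w j u
    rw [h1]
    exact o1 w hw u hu false
  obtain ⟨g, hg, h1, h2⟩ := MVT_one hFAI hORD hBTW hTUP hC rev (D := V) (V := D) (Z := Z) hV hD hZ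
    hVE hDE hZE (fun v hv d hd => (key v (hVE hv) d (hDE hd)).2 (hDV d hd v hv))
    (fun v hv x hx => (key v (hVE hv) x (hZE hx)).2 (hZV x hx v hv))
  obtain ⟨-, -, f3, -, -, -, -, -⟩ := hFAI L U κ ι R o S hC A E sg hO
  have hgE : ∀ x ∈ Z, g x ∈ E := fun x hx =>
    ((f3 g (fx_mono subset_union_left hg.1)).1 x).2 (hZE hx)
  refine ⟨g, hg, ?_, ?_⟩
  · rintro d hd _ ⟨x, hx, rfl⟩
    exact (key (g x) (hgE x hx) d (hDE hd)).1 (h2 (g x) ⟨x, hx, rfl⟩ d hd)
  · rintro _ ⟨x, hx, rfl⟩ v hv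
    exact (key v (hVE hv) (g x) (hgE x hx)).1 (h1 v hv (g x) ⟨x, hx, rfl⟩)

end mvt

end Pool.Agent.GRK
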