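import Pool.Agent.GRK.StB
import Pool.Agent.GRK.StE
import Pool.Agent.GRK.Base

/-!
MNO: [NRF] only finitely many pieces are not rigid (from `Pool/Agent/PMC/NRF.lean`).
-/

set_option autoImplicit false
set_option linter.unusedVariables false

namespace Pool.Agent.GRK

open FirstOrder.Language Set
open scoped FirstOrder
open Pool.Agent.WOM (tp Mon IsEl IsoM CtU Fx Orb)
open Pool.Agent.PMC (Ini ct Dc cel Sin Nd Ct lts ext XS Ex Fa Ll LL Itv Sm Md NPf)

/-- [NRF] -/
theorem thm_NRF (h1 : St_UNP) (h2 : St_SMN) (h9 : St_LFT) : St_NRF := by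
  classical
  intro L U _ κ ι R o S hC hN hFin A hA
  by_contra hinf
  have hinf' : {Q : Set U | ∃ z, Q = Pc L R o S A z ∧ ∃ M, Md L A M ∧
    ¬ SmN L A (M ∩ Q) Q}.Infinite := hinf
  let q := hinf'.natEmbedding
  have hq : ∀ n, ∃ z M, (q n).1 = Pc L R o S A z ∧ Md L A M ∧
      ¬ SmN L A (M ∩ (q n).1) (q n).1 := by
    intro n
    obtain ⟨z, h3, M, h4, h5⟩ := (q n).2
    exact ⟨z, M, h3, h4, h5⟩
  choose z M hz hM hS using hq
  have huniq : ∀ n m y, y ∈ Pc L R o S A (z n) → y ∈ Pc L R o S A (z m) → n = m := by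
    intro n m y hn hm
    apply q.injective
    apply Subtype.ext
    rw [hz, hz, ← pc_eq hn, ← pc_eq hm]
  let mm : (ℕ → Bool) → U → Set U := fun f y =>
    {v | ∀ n, f n = true → y ∈ Pc L R o S A (z n) → v ∈ M n}
  have hmm : ∀ f y, Md L A (mm f y) := by
    intro f y
    by_cases h : ∃ n, f n = true ∧ y ∈ Pc L R o S A (z n)
    · obtain ⟨n, h3, h4⟩ := h
      have : mm f y = M n := by
        ext v
        constructor
        · intro hv
          exact hv n h3 h4
        · intro hv m _ h6
          rw [huniq m n y h6 h4]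
          exact hv
      rw [this]
      exact hM n
    · have : mm f y = univ := by
        ext v
        refine ⟨fun _ => mem_univ v, fun _ n h3 h4 => absurd ⟨n, h3, h4⟩ h⟩
      rw [this]
      refine ⟨fun s _ hs => ?_, subset_univ A⟩
      rw [inter_univ]
      exact hs
  have hcst : ∀ f x, ∀ y ∈ Pc L R o S A x, mm f y = mm f x := by
    intro f x y hy
    have h3 : ∀ n, y ∈ Pc L R o S A (z n) ↔ x ∈ Pc L R o S A (z n) := by
      intro n
      constructor
      · intro h
        rw [← pc_eq h, pc_eq hy]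
        exact mem_pc A x
      · intro h
        rw [← pc_eq h, ← pc_eq hy]
        exact mem_pc A y
    ext v
    exact forall_congr' fun n => imp_congr Iff.rfl (imp_congr (h3 n) Iff.rfl)
  obtain ⟨f, f', hff, hSm⟩ := hN A (fun f => {y | y ∈ mm f y}) hA
    (fun f => h1 L U κ ι R o S hC A hA (mm f) (hmm f) (hcst f)) (by
      intro v
      by_cases h : ∃ n, v ∈ Pc L R o S A (z n)
      · obtain ⟨n, hn⟩ := h
        have h3 : {f : ℕ → Bool | v ∈ {y | y ∈ mm f y}} =
            (fun f : ℕ → Bool => f n) ⁻¹' {c | c = true → v ∈ M n} := by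
          ext f
          constructor
          · intro h4 h5
            exact h4 n h5 hn
          · intro h4 m h5 h6
            have h7 := huniq m n v h6 hn
            subst h7
            exact h4 h5
        show IsClopen {f : ℕ → Bool | v ∈ {y | y ∈ mm f y}}
        rw [h3]
        exact (isClopen_discrete _).preimage (continuous_apply n)
      · have h3 : {f : ℕ → Bool | v ∈ {y | y ∈ mm f y}} = univ := by
          ext f
          exact ⟨fun _ => mem_univ f, fun _ n _ h5 => absurd ⟨n, h5⟩ h⟩
        show IsClopen {f : ℕ → Bool | v ∈ {y | y ∈ mm f y}}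
        rw [h3]
        exact isClopen_univ)
  obtain ⟨n, hn⟩ : ∃ n, f n ≠ f' n := by
    by_contra h
    push Not at h
    exact hff (funext h)
  obtain ⟨-, -, -, -, -, -, hcap, hsm⟩ := h2 L U κ ι R o S hC
  have hinv : ∀ g : U ≃[L] U, Fx L A g → ∀ x, g x ∈ Pc L R o S A (z n) ↔ x ∈ Pc L R o S A (z n) :=
    fun g hg x => cls_fx hC hA (cls_pc A (z n)) hg x
  have ht : ∀ f : ℕ → Bool, f n = true →
      {y | y ∈ mm f y} ∩ Pc L R o S A (z n) = M n ∩ Pc L R o S A (z n) := by
    intro f hf
    ext y
    constructor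
    · rintro ⟨h3, h4⟩
      exact ⟨h3 n hf h4, h4⟩
    · rintro ⟨h3, h4⟩
      refine ⟨fun m _ h6 => ?_, h4⟩
      rw [huniq m n y h6 h4]
      exact h3
  have hfa : ∀ f : ℕ → Bool, f n = false →
      {y | y ∈ mm f y} ∩ Pc L R o S A (z n) = Pc L R o S A (z n) := by
    intro f hf
    ext y
    constructor
    · rintro ⟨h3, h4⟩
      exact h4
    · intro h4
      refine ⟨fun m h5 h6 => ?_, h4⟩
      rw [huniq m n y h6 h4, hf] at h5
      exact Bool.noConfusion h5
  have hc := hcap A _ _ _ hinv hSm
  have hlf : Sm L A (M n ∩ Pc L R o S A (z n)) (Pc L R o S A (z n)) → False := by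
    intro h
    have h3 := h9 L U hC.mon hFin A (Pc L R o S A (z n)) (M n ∩ Pc L R o S A (z n)) hA hinv
      inter_subset_right h
    have hSn := hS n
    rw [hz n] at hSn
    exact hSn h3
  rcases hfn : f n with _ | _
  · have hfn' : f' n = true := by
      rcases h : f' n with _ | _
      · exact absurd (hfn.trans h.symm) hn
      · rfl
    rw [hfa f hfn, ht f' hfn'] at hc
    exact hlf (hsm A _ _ univ hc).1
  · have hfn' : f' n = false := by
      rcases h : f' n with _ | _
      · rfl
      · exact absurd (hfn.trans h.symm) hn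
    rw [ht f hfn, hfa f' hfn'] at hc
    exact hlf hc

end Pool.Agent.GRK
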