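import Pool.Agent.GRK.StC
import Pool.Agent.GRK.StB
import Pool.Agent.GRK.Base
import Pool.Agent.GRK.NBase
import Pool.Agent.PMC.StC

/-!
MNO: all labels occur in all rich models: `St_NWL` (helper56; the text follows `Pool/Agent/PMC/NWL.lean`,
helper50, and `Pool/Agent/MNO/NWI.lean`; the new decoding with dense labels).
-/

set_option autoImplicit false
set_option linter.unusedVariables false

namespace Pool.Agent.GRK

open FirstOrder.Language Set
open scoped FirstOrder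
open Pool.Agent.WOM (tp Mon IsEl IsoM CtU Fx Orb)
open Pool.Agent.PMC (Ini ct Dc cel Sin Nd Ct lts ext XS Ex Fa Ll LL Itv Sm Md NPf St_CNO St_COD)

namespace NWLaux

variable {L : FirstOrder.Language.{0, 0}} {U : Type} [L.Structure U]

/-- `e` is given on finite sets by automorphisms over `A` -/
def He (L : FirstOrder.Language.{0, 0}) {U : Type} [L.Structure U] (A : Set U)
    {X X' : Set U} (e : X ≃ X') : Prop :=
  ∀ s : Set X, s.Finite → ∃ g : U ≃[L] U, Fx L A g ∧ ∀ x ∈ s, g x = e x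

/-- the image under an automorphism -/
theorem sm_image {A : Set U} {g : U ≃[L] U} (hg : Nx L A g) (X : Set U) :
    SmN L A X (g '' X) := by
  refine ⟨Equiv.Set.image g X g.injective, fun s hs => ⟨g, hg, fun x hx => ?_⟩⟩
  rfl

theorem sm_symm {A X Y : Set U} (h : SmN L A X Y) : SmN L A Y X := by
  obtain ⟨e, he⟩ := h
  refine ⟨e.symm, fun s hs => ?_⟩
  obtain ⟨g, hg, h1⟩ := he (e.symm '' s) (hs.image _)
  refine ⟨g.symm, nx_symm hg, fun y hy => ?_⟩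
  have h2 := h1 (e.symm y) (mem_image_of_mem _ hy)
  rw [e.apply_symm_apply] at h2
  calc g.symm (y : U) = g.symm (g (e.symm y : U)) := by rw [h2]
    _ = (e.symm y : U) := g.symm_apply_apply _

theorem sm_trans {A X Y Z : Set U} (h : SmN L A X Y) (h' : SmN L A Y Z) : SmN L A X Z := by
  obtain ⟨e, he⟩ := h
  obtain ⟨f, hf⟩ := h'
  refine ⟨e.trans f, fun s hs => ?_⟩
  obtain ⟨g, hg, h1⟩ := he s hs
  obtain ⟨k, hk, h2⟩ := hf (e '' s) (hs.image _)
  refine ⟨k.comp g, nx_comp hk hg, fun x hx => ?_⟩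
  change k (g x) = (f (e x) : U)
  rw [h1 x hx, h2 (e x) (mem_image_of_mem _ hx)]

/-- the restriction of a bijection -/
def eqr {X X' Y Y' : Set U} (e : X ≃ X') (hY : Y ⊆ X) (hY' : Y' ⊆ X')
    (h : ∀ x : X, (x : U) ∈ Y ↔ ((e x : X') : U) ∈ Y') : Y ≃ Y' where
  toFun y := ⟨e ⟨y, hY y.2⟩, (h _).1 y.2⟩
  invFun y := ⟨e.symm ⟨y, hY' y.2⟩, (h _).2 (by
    rw [e.apply_symm_apply]
    exact y.2)⟩
  left_inv y := by
    apply Subtype.ext
    show ((e.symm ⟨((e ⟨y, hY y.2⟩ : X') : U), _⟩ : X) : U) = y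
    rw [Subtype.coe_eta, e.symm_apply_apply]
  right_inv y := by
    apply Subtype.ext
    show ((e ⟨((e.symm ⟨y, hY' y.2⟩ : X) : U), _⟩ : X') : U) = y
    rw [Subtype.coe_eta, e.apply_symm_apply]

theorem He.symm {A X X' : Set U} {e : X ≃ X'} (he : He L A e) : He L A e.symm := by
  intro s hs
  obtain ⟨g, hg, hg'⟩ := he (e.symm '' s) (hs.image _)
  refine ⟨g.symm, Pool.Agent.PMC.fx_symm hg, fun x hx => ?_⟩
  have h1 := hg' (e.symm x) (mem_image_of_mem _ hx)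
  rw [e.apply_symm_apply] at h1
  rw [← h1, g.symm_apply_apply]

/-- similarity is preserved by `e` -/
theorem conj (hM : Mon L U) {A X X' Y Y' Z Z' : Set U} (e : X ≃ X')
    (he : He L A e) (hY : Y ⊆ X) (hY' : Y' ⊆ X')
    (h : ∀ x : X, (x : U) ∈ Y ↔ ((e x : X') : U) ∈ Y') (hZ : Z ⊆ X) (hZ' : Z' ⊆ X')
    (k : ∀ x : X, (x : U) ∈ Z ↔ ((e x : X') : U) ∈ Z') (hs : SmN L A Y Z) : SmN L A Y' Z' := by
  obtain ⟨b, hb⟩ := hs
  refine ⟨(eqr e hY hY' h).symm.trans (b.trans (eqr e hZ hZ' k)), fun s hs => ?_⟩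
  obtain ⟨φ, hφ⟩ : ∃ φ : Y ≃ Y', φ = eqr e hY hY' h := ⟨_, rfl⟩
  obtain ⟨ψ, hψ⟩ : ∃ ψ : Z ≃ Z', ψ = eqr e hZ hZ' k := ⟨_, rfl⟩
  have hφ1 : ∀ y : Y, ((φ y : Y') : U) = e ⟨y, hY y.2⟩ := fun y => by rw [hφ]; rfl
  have hψ1 : ∀ y : Z, ((ψ y : Z') : U) = e ⟨y, hZ y.2⟩ := fun y => by rw [hψ]; rfl
  rw [← hφ, ← hψ]
  obtain ⟨g1, hg1, hg1'⟩ := hb (φ.symm '' s) (hs.image _)
  obtain ⟨g, hg, hg'⟩ := he
    ((fun y : Y' => (⟨φ.symm y, hY (φ.symm y).2⟩ : X)) '' s ∪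
      (fun y : Y' => (⟨b (φ.symm y), hZ (b (φ.symm y)).2⟩ : X)) '' s)
    ((hs.image _).union (hs.image _))
  refine ⟨g.comp (g1.comp g.symm), nx_conj_fx hM hg hg1, fun y hy => ?_⟩
  have h1 := hg' _ (mem_union_left _ (mem_image_of_mem _ hy))
  have h2 := hg' _ (mem_union_right _ (mem_image_of_mem _ hy))
  have h3 := hg1' _ (mem_image_of_mem _ hy)
  have h4 := hφ1 (φ.symm y)
  rw [φ.apply_symm_apply] at h4
  rw [← h4] at h1
  have h5 := hψ1 (b (φ.symm y))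
  rw [← h5] at h2
  show g (g1 (g.symm y)) = ((ψ (b (φ.symm y)) : Z') : U)
  rw [← h1, g.symm_apply_apply]
  show g (g1 ((φ.symm y : Y) : U)) = _
  rw [h3]
  exact h2

variable {κ : Type} {R : κ → U → U → Prop} {o : κ → κ}

/-- dense points: between any two clusters there is a cluster similar to that of `x` -/
def Dn (L : FirstOrder.Language.{0, 0}) {U : Type} [L.Structure U] {κ : Type}
    (R : κ → U → U → Prop) (o : κ → κ) (A E : Set U) (sg : κ → U → Bool) (X : Set U)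
    (x : U) : Prop :=
  ∀ y ∈ X, y ∈ E → ∀ y' ∈ X, y' ∈ E → Ll L R o A sg y y' →
    ∃ x' ∈ X, x' ∈ E ∧ Ll L R o A sg y x' ∧ Ll L R o A sg x' y' ∧
      SmN L A (Itv L R o A E sg X x x) (Itv L R o A E sg X x' x')

section pres

variable {A E : Set U} {sg : κ → U → Bool} {X X' : Set U} {e : X ≃ X'}

theorem heE (hE : ∀ g : U ≃[L] U, Fx L A g → ∀ x, g x ∈ E ↔ x ∈ E) (he : He L A e) (x : X) :
    ((e x : X') : U) ∈ E ↔ (x : U) ∈ E := by
  obtain ⟨g, hg, hgx⟩ := he {x} (Set.finite_singleton x)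
  rw [← hgx x rfl]
  exact hE g hg x

theorem heL (hL : ∀ g : U ≃[L] U, Fx L A g → ∀ w ∈ E, ∀ z ∈ E,
      (Ll L R o A sg (g w) (g z) ↔ Ll L R o A sg w z)) (he : He L A e) (x y : X)
    (hx : (x : U) ∈ E) (hy : (y : U) ∈ E) :
    (Ll L R o A sg ((e x : X') : U) ((e y : X') : U) ↔ Ll L R o A sg (x : U) (y : U)) := by
  obtain ⟨g, hg, hgx⟩ := he {x, y} (Set.toFinite _)
  rw [← hgx x (by simp), ← hgx y (by simp)]
  exact hL g hg x hx y hy

theorem heI (hE : ∀ g : U ≃[L] U, Fx L A g → ∀ x, g x ∈ E ↔ x ∈ E)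
    (hL : ∀ g : U ≃[L] U, Fx L A g → ∀ w ∈ E, ∀ z ∈ E,
      (Ll L R o A sg (g w) (g z) ↔ Ll L R o A sg w z)) (he : He L A e) (x : X)
    (hx : (x : U) ∈ E) (y : X) :
    (y : U) ∈ Itv L R o A E sg X x x ↔
      ((e y : X') : U) ∈ Itv L R o A E sg X' ((e x : X') : U) ((e x : X') : U) := by
  constructor
  · rintro ⟨_, hyE, h1, h2⟩
    refine ⟨(e y).2, (heE hE he y).2 hyE, ?_, ?_⟩
    · rw [heL hL he y x hyE hx]; exact h1
    · rw [heL hL he x y hx hyE]; exact h2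
  · rintro ⟨_, hyE, h1, h2⟩
    have hyE' := (heE hE he y).1 hyE
    refine ⟨y.2, hyE', ?_, ?_⟩
    · rw [heL hL he y x hyE' hx] at h1; exact h1
    · rw [heL hL he x y hx hyE'] at h2; exact h2

theorem dn_pres (hM : Mon L U) (hE : ∀ g : U ≃[L] U, Fx L A g → ∀ x, g x ∈ E ↔ x ∈ E)
    (hL : ∀ g : U ≃[L] U, Fx L A g → ∀ w ∈ E, ∀ z ∈ E,
      (Ll L R o A sg (g w) (g z) ↔ Ll L R o A sg w z)) (he : He L A e) (x : X)
    (hx : (x : U) ∈ E) (hd : Dn L R o A E sg X x) : Dn L R o A E sg X' ((e x : X') : U) := by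
  intro y hy hyE y' hy' hyE' hyy
  have e1 : e (e.symm ⟨y, hy⟩) = ⟨y, hy⟩ := e.apply_symm_apply _
  have e2 : e (e.symm ⟨y', hy'⟩) = ⟨y', hy'⟩ := e.apply_symm_apply _
  have hE1 : ((e.symm ⟨y, hy⟩ : X) : U) ∈ E := by
    rw [← heE hE he, e1]
    exact hyE
  have hE2 : ((e.symm ⟨y', hy'⟩ : X) : U) ∈ E := by
    rw [← heE hE he, e2]
    exact hyE'
  obtain ⟨x', hx', hxE', h1, h2, h3⟩ := hd _ (e.symm ⟨y, hy⟩).2 hE1 _ (e.symm ⟨y', hy'⟩).2 hE2
    (by
      rw [← heL hL he _ _ hE1 hE2, e1, e2]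
      exact hyy)
  refine ⟨((e ⟨x', hx'⟩ : X') : U), (e ⟨x', hx'⟩ : X').2, (heE hE he ⟨x', hx'⟩).2 hxE', ?_, ?_, ?_⟩
  · have h4 := (heL hL he (e.symm ⟨y, hy⟩) ⟨x', hx'⟩ hE1 hxE').2 h1
    rw [e1] at h4
    exact h4
  · have h4 := (heL hL he ⟨x', hx'⟩ (e.symm ⟨y', hy'⟩) hxE' hE2).2 h2
    rw [e2] at h4
    exact h4
  · exact conj hM e he (fun y hy => hy.1) (fun y hy => hy.1) (heI hE hL he x hx)
      (fun y hy => hy.1) (fun y hy => hy.1) (heI hE hL he ⟨x', hx'⟩ hxE') h3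

end pres

end NWLaux

open NWLaux

theorem thm_NWL (hCNO : St_CNO) (hCOD : St_COD) (hINS : St_INS) (hFAI : St_FAI) (hORD : St_ORD) :
    St_NWL := by
  intro L U _ κ ι R o S hC hN A E sg hOri M0 M p hR0 hM hpM hpE
  by_contra hcon
  push Not at hcon
  obtain ⟨_, _, hF3, _, _, hF6, _, _⟩ := hFAI L U κ ι R o S hC A E sg hOri
  obtain ⟨_, hO2, hO3, hO4, _, _⟩ := hORD L U κ ι R o S hC A E sg hOri
  have hirr : ∀ x ∈ E, ¬ Ll L R o A sg x x := fun x hx => hO2 x hx true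
  have hasy : ∀ x ∈ E, ∀ y ∈ E, Ll L R o A sg x y → ¬ Ll L R o A sg y x :=
    fun x hx y hy h h' => hirr x hx (hO4 x hx y hy x hx h h')
  have hEi : ∀ g : U ≃[L] U, Fx L A g → ∀ x, g x ∈ E ↔ x ∈ E := fun g hg => (hF3 g hg).1
  have hLi : ∀ g : U ≃[L] U, Fx L A g → ∀ w ∈ E, ∀ z ∈ E,
      (Ll L R o A sg (g w) (g z) ↔ Ll L R o A sg w z) :=
    fun g hg w hw z hz => (hF3 g hg).2 w hw z hz true
  obtain ⟨O, _, _, Sf, hclo, hSinj⟩ := hCNO
  obtain ⟨X0, r, hrA, hE0, hEl, hdis, hlt, hc3, hd, hins, hff⟩ :=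
    hINS L U κ ι R o S hC A E sg hOri M0 M p p hR0 hM hpM hpE hpM hpE (hirr p hpE) O
  -- points of one cluster
  have hcln : ∀ (M : Set U) (z : U), z ∈ E → ∀ g : U ≃[L] U, Nx L A g →
      ∀ x ∈ g '' Itv L R o A E sg M z z, x ∈ E ∧ ∀ y ∈ g '' Itv L R o A E sg M z z,
        ¬ Ll L R o A sg x y := by
    rintro M z hz g hg _ ⟨x, hx, rfl⟩
    refine ⟨(hEi g hg.1 x).2 hx.2.1, ?_⟩
    rintro _ ⟨y, hy, rfl⟩ h
    have h1 : Ll L R o A sg x y := (hLi g hg.1 x hx.2.1 y hy.2.1).1 h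
    rcases hO3 x hx.2.1 y hy.2.1 h1 z hz with h2 | h2
    · exact hx.2.2.1 h2
    · exact hy.2.2.2 h2
  set I : Set U := Itv L R o A E sg M p p with hI
  have hpI : p ∈ I := ⟨hpM, hpE, hirr p hpE, hirr p hpE⟩
  set P : O → Set U := fun a => (r a) '' I with hP
  have hPE : ∀ a, ∀ x ∈ P a, x ∈ E := fun a x hx => (hcln M p hpE (r a) (hrA a) x hx).1
  have hPn : ∀ a, ∀ x ∈ P a, ∀ y ∈ P a, ¬ Ll L R o A sg x y :=
    fun a x hx => (hcln M p hpE (r a) (hrA a) x hx).2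
  have hPne : ∀ a, (P a).Nonempty := fun a => ⟨r a p, Set.mem_image_of_mem _ hpI⟩
  have hPuniq : ∀ a a' x, x ∈ P a → x ∈ P a' → a = a' := by
    intro a a' x hx hx'
    rcases lt_trichotomy a a' with h | h | h
    · exact absurd (hlt a a' h x hx x hx') (hirr x (hPE a x hx))
    · exact h
    · exact absurd (hlt a' a h x hx' x hx) (hirr x (hPE a x hx))
  set X : (ℕ → Bool) → Set U := fun f => X0 ∪ ⋃ a ∈ Sf f, P a with hX
  -- membership in `X f`
  have hXm : ∀ f x, x ∈ X f ↔ x ∈ X0 ∨ ∃ a ∈ Sf f, x ∈ P a := by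
    intro f x
    simp only [hX, Set.mem_union, Set.mem_iUnion, exists_prop]
  have hAX0 : A ⊆ X0 := by
    intro a ha
    rw [hE0 a ?_]
    · exact hR0.1.2 ha
    intro haE
    apply hOri.nd a haE
    obtain ⟨j⟩ := hC.ne
    have h1 := (lt_dc hC j a A).1
    have h2 := (le_dc hC j a A).1
    rw [Set.insert_eq_of_mem ha] at h1 h2
    have h3 := Pool.Agent.PMC.def_inter h2 (Pool.Agent.PMC.def_compl h1)
    have h4 : ({x | ¬ R (o j) a x} ∩ {x | R (o j) x a}ᶜ : Set U) = {a} := by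
      ext x
      simp only [Set.mem_inter_iff, Set.mem_setOf_eq, Set.mem_compl_iff, Set.mem_singleton_iff]
      constructor
      · rintro ⟨h5, h6⟩
        by_contra hne
        rcases hC.tot j x a hne with h7 | h7
        · exact h6 h7
        · exact h5 h7
      · rintro rfl
        exact ⟨hC.irr j x, hC.irr j x⟩
    rw [h4] at h3
    exact h3
  have hXmd : ∀ f, Md L A (X f) := by
    intro f
    exact ⟨hEl (Sf f), fun a ha => Or.inl (hAX0 ha)⟩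
  have hXc : ∀ v, IsClopen {f | v ∈ X f} := by
    intro v
    by_cases h0 : v ∈ X0
    · have h1 : {f | v ∈ X f} = Set.univ := by
        ext f
        simp only [Set.mem_setOf_eq, Set.mem_univ, iff_true]
        exact (hXm f v).2 (Or.inl h0)
      rw [h1]; exact isClopen_univ
    · by_cases h2 : ∃ a, v ∈ P a
      · obtain ⟨a, ha⟩ := h2
        have h1 : {f | v ∈ X f} = {f | a ∈ Sf f} := by
          ext f
          simp only [Set.mem_setOf_eq]
          rw [hXm]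
          constructor
          · rintro (h3 | ⟨a', ha', hv⟩)
            · exact absurd h3 h0
            · rw [hPuniq a a' v ha hv]; exact ha'
          · intro h3
            exact Or.inr ⟨a, h3, ha⟩
        rw [h1]; exact hclo a
      · have h1 : {f | v ∈ X f} = ∅ := by
          ext f
          simp only [Set.mem_setOf_eq, Set.mem_empty_iff_false, iff_false]
          rw [hXm]
          rintro (h3 | ⟨a', ha', hv⟩)
          · exact h0 h3
          · exact h2 ⟨a', hv⟩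
        rw [h1]; exact isClopen_empty
  obtain ⟨f, f', hne, e, he⟩ := hN A X hOri.fin hXmd hXc
  -- clusters in `X f`
  have hclP : ∀ f, ∀ a ∈ Sf f, ∀ x ∈ P a, Itv L R o A E sg (X f) x x = P a := by
    intro f a ha x hx
    ext y
    constructor
    · rintro ⟨hy, hyE, h1, h2⟩
      rcases (hXm f y).1 hy with h3 | ⟨a', ha', hy'⟩
      · rcases hc3 y h3 hyE a with h4 | h4
        · exact absurd (h4 x hx) h1
        · exact absurd (h4 x hx) h2
      · rcases lt_trichotomy a a' with h | h | h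
        · exact absurd (hlt a a' h x hx y hy') h2
        · rw [h]; exact hy'
        · exact absurd (hlt a' a h y hy' x hx) h1
    · intro hy
      exact ⟨(hXm f y).2 (Or.inr ⟨a, ha, hy⟩), hPE a y hy, hPn a y hy x hx, hPn a x hx y hy⟩
  have hcl0 : ∀ f, ∀ x ∈ X0, x ∈ E → ∀ z ∈ E, ∀ g : U ≃[L] U, Nx L A g →
      x ∈ g '' Itv L R o A E sg M0 z z →
      (∀ y ∈ E, ¬ Ll L R o A sg x y → ¬ Ll L R o A sg y x →
        (y ∈ X0 ↔ y ∈ g '' Itv L R o A E sg M0 z z)) →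
      Itv L R o A E sg (X f) x x = g '' Itv L R o A E sg M0 z z := by
    intro f x hx hxE z hz g hg hxg hcl
    ext y
    constructor
    · rintro ⟨hy, hyE, h1, h2⟩
      refine (hcl y hyE h2 h1).1 ?_
      rcases (hXm f y).1 hy with h3 | ⟨a, ha, hy'⟩
      · exact h3
      · exfalso
        rcases hc3 x hx hxE a with h4 | h4
        · exact h2 (h4 y hy')
        · exact h1 (h4 y hy')
    · intro hy
      have h1 := (hcln M0 z hz g hg x hxg).2 y hy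
      have h2 := (hcln M0 z hz g hg y hy).2 x hxg
      have hyE := (hcln M0 z hz g hg y hy).1
      exact ⟨(hXm f y).2 (Or.inl ((hcl y hyE h1 h2).2 hy)), hyE, h2, h1⟩
  -- points of `X0` are dense
  have hden : ∀ f, ∀ x ∈ X0, x ∈ E → Dn L R o A E sg (X f) x := by
    intro f x hx hxE y hy hyE y' hy' hyE' hyy
    obtain ⟨z, hz, hzE, g0, hg0, hxg, hcl⟩ := hd x hx hxE
    have hk : ∀ y, y ∈ X f → y ∈ X0 ∨ ∃ a, y ∈ P a := by
      intro y hy
      rcases (hXm f y).1 hy with h3 | ⟨a, _, hy'⟩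
      · exact Or.inl h3
      · exact Or.inr ⟨a, hy'⟩
    obtain ⟨g, hg, hgz, h1, h2, hcl'⟩ := hins y hyE y' hyE' (hk y hy) (hk y' hy') hyy
      (by
        rintro ⟨a, ha, ha'⟩
        exact hPn a y ha y' ha' hyy) z hz hzE
    have hgE : g z ∈ E := (hEi g hg.1 z).2 hzE
    refine ⟨g z, (hXm f _).2 (Or.inl hgz), hgE, h1, h2, ?_⟩
    have hzz : g z ∈ g '' Itv L R o A E sg M0 z z :=
      Set.mem_image_of_mem _ ⟨hz, hzE, hirr z hzE, hirr z hzE⟩
    rw [hcl0 f x hx hxE z hzE g0 hg0 hxg hcl, hcl0 f (g z) hgz hgE z hzE g hg hzz hcl']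
    exact sm_trans (sm_symm (sm_image hg0 _)) (sm_image hg _)
  -- the set `N f`
  set N : (ℕ → Bool) → Set U := fun f =>
    {x | x ∈ X f ∧ x ∈ E ∧ ¬ Dn L R o A E sg (X f) x} with hNdef
  have hNP : ∀ f x, x ∈ N f ↔ ∃ a ∈ Sf f, x ∈ P a := by
    intro f x
    constructor
    · rintro ⟨hx, hxE, hz⟩
      rcases (hXm f x).1 hx with h3 | h3
      · exact absurd (hden f x h3 hxE) hz
      · exact h3
    · rintro ⟨a, ha, hx⟩
      refine ⟨(hXm f x).2 (Or.inr ⟨a, ha, hx⟩), hPE a x hx, ?_⟩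
      intro hdn
      obtain ⟨y, hy, y', hy', hyE, hyE', hyy, hall⟩ := hff
      obtain ⟨x', hx', hxE', h1, h2, h3⟩ := hdn y ((hXm f y).2 (Or.inl hy)) hyE y'
        ((hXm f y').2 (Or.inl hy')) hyE' hyy
      rcases (hXm f x').1 hx' with h4 | ⟨b, hb, h4⟩
      · obtain ⟨z, hz, hzE, g, hg, hxg, hcl⟩ := hd x' h4 hxE'
        rw [hclP f a ha x hx, hcl0 f x' h4 hxE' z hzE g hg hxg hcl] at h3
        exact hcon z hz hzE (sm_trans (sm_image (hrA a) I) (sm_trans h3 (sm_symm (sm_image hg _))))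
      · exact hasy x' hxE' y' hyE' h2 (hall b x' h4)
  -- properties of `e`
  have he' : He L A e := he
  have heN : ∀ x : X f, (x : U) ∈ N f ↔ ((e x : X f') : U) ∈ N f' := by
    intro x
    constructor
    · rintro ⟨_, hxE, hz⟩
      refine ⟨(e x).2, (heE hEi he' x).2 hxE, ?_⟩
      intro hdn
      apply hz
      have h1 := dn_pres hC.mon hEi hLi (He.symm he') (e x) ((heE hEi he' x).2 hxE) hdn
      rw [e.symm_apply_apply] at h1
      exact h1
    · rintro ⟨_, hxE, hz⟩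
      have hxE' := (heE hEi he' x).1 hxE
      exact ⟨x.2, hxE', fun hdn => hz (dn_pres hC.mon hEi hLi he' x hxE' hdn)⟩
  have hNX : ∀ f, ∀ x, (∃ a ∈ Sf f, x ∈ P a) → x ∈ X f := fun f x hx => (hXm f x).2 (Or.inr hx)
  have hsame : ∀ f, ∀ x y, (∃ a ∈ Sf f, x ∈ P a) → (∃ a ∈ Sf f, y ∈ P a) →
      ((∃ a ∈ Sf f, x ∈ P a ∧ y ∈ P a) ↔ ¬ Ll L R o A sg x y ∧ ¬ Ll L R o A sg y x) := by
    rintro f x y ⟨a, ha, hx⟩ ⟨a', ha', hy⟩
    constructor
    · rintro ⟨c, hc, h1, h2⟩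
      exact ⟨hPn c x h1 y h2, hPn c y h2 x h1⟩
    · rintro ⟨h1, h2⟩
      rcases lt_trichotomy a a' with h | h | h
      · exact absurd (hlt a a' h x hx y hy) h1
      · subst h
        exact ⟨a, ha, hx, hy⟩
      · exact absurd (hlt a' a h y hy x hx) h2
  -- the bijection
  have hfw : ∀ x : {x : U // ∃ a ∈ Sf f, x ∈ P a},
      ∃ a ∈ Sf f', ((e ⟨x, hNX f x x.2⟩ : X f') : U) ∈ P a := by
    intro x
    rw [← hNP f']
    rw [← heN ⟨x, hNX f x x.2⟩]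
    exact (hNP f x).2 x.2
  have hbw : ∀ y : {x : U // ∃ a ∈ Sf f', x ∈ P a},
      ∃ a ∈ Sf f, ((e.symm ⟨y, hNX f' y y.2⟩ : X f) : U) ∈ P a := by
    intro y
    rw [← hNP f, heN (e.symm ⟨y, hNX f' y y.2⟩), Equiv.apply_symm_apply]
    exact (hNP f' y).2 y.2
  let φ : {x : U // ∃ a ∈ Sf f, x ∈ P a} ≃ {x : U // ∃ a ∈ Sf f', x ∈ P a} :=
    ⟨fun x => ⟨((e ⟨x, hNX f x x.2⟩ : X f') : U), hfw x⟩,
      fun y => ⟨((e.symm ⟨y, hNX f' y y.2⟩ : X f) : U), hbw y⟩,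
      by
        rintro ⟨x, hx⟩
        apply Subtype.ext
        have h1 : (⟨((e ⟨x, hNX f x hx⟩ : X f') : U), (e ⟨x, hNX f x hx⟩ : X f').2⟩ : X f')
            = e ⟨x, hNX f x hx⟩ := rfl
        show ((e.symm ⟨((e ⟨x, hNX f x hx⟩ : X f') : U), _⟩ : X f) : U) = x
        rw [h1, Equiv.symm_apply_apply],
      by
        rintro ⟨y, hy⟩
        apply Subtype.ext
        have h1 : (⟨((e.symm ⟨y, hNX f' y hy⟩ : X f) : U),
            (e.symm ⟨y, hNX f' y hy⟩ : X f).2⟩ : X f) = e.symm ⟨y, hNX f' y hy⟩ := rfl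
        show ((e ⟨((e.symm ⟨y, hNX f' y hy⟩ : X f) : U), _⟩ : X f') : U) = y
        rw [h1, Equiv.apply_symm_apply]⟩
  have hφL : ∀ x y : {x : U // ∃ a ∈ Sf f, x ∈ P a},
      (Ll L R o A sg ((φ x : {x : U // ∃ a ∈ Sf f', x ∈ P a}) : U)
        ((φ y : {x : U // ∃ a ∈ Sf f', x ∈ P a}) : U) ↔ Ll L R o A sg (x : U) (y : U)) := by
    intro x y
    have hx : (x : U) ∈ E := by
      obtain ⟨a, _, h⟩ := x.2
      exact hPE a _ h
    have hy : (y : U) ∈ E := by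
      obtain ⟨a, _, h⟩ := y.2
      exact hPE a _ h
    exact heL hLi he' ⟨x, hNX f x x.2⟩ ⟨y, hNX f y y.2⟩ hx hy
  have hφE : ∀ f, ∀ x : {x : U // ∃ a ∈ Sf f, x ∈ P a}, (x : U) ∈ E := by
    intro f x
    obtain ⟨a, _, h⟩ := x.2
    exact hPE a _ h
  have hres : Nonempty (Sf f ≃o Sf f') := by
    refine hCOD U O (fun x y => x ∈ E ∧ y ∈ E ∧ Ll L R o A sg x y) P (Sf f) (Sf f') φ hPne
      (fun x h => hirr x h.1 h.2.2) (fun x y h h' => hasy x h.1 y h.2.1 h.2.2 h'.2.2)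
      (fun a b hab x hx y hy => ⟨hPE a x hx, hPE b y hy, hlt a b hab x hx y hy⟩) ?_ ?_
    · intro x y
      rw [hsame f x y x.2 y.2, hsame f' _ _ (φ x).2 (φ y).2, hφL x y, hφL y x]
    · intro x y _
      constructor
      · rintro ⟨_, _, h⟩
        exact ⟨hφE f' (φ x), hφE f' (φ y), (hφL x y).2 h⟩
      · rintro ⟨_, _, h⟩
        exact ⟨hφE f x, hφE f y, (hφL x y).1 h⟩
  exact hne (hSinj f f' hres)

end Pool.Agent.GRK
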