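import Pool.Agent.GRK.StB
import Pool.Agent.MNO.OFM

/-!
GRK: [OFM] from `Pool/Agent/MNO/OFM.lean`.
-/

set_option autoImplicit false
set_option linter.unusedVariables false

namespace Pool.Agent.GRK

open FirstOrder.Language Set
open scoped FirstOrder

theorem thm_OFM : St_OFM := by
  intro L U _ hM α _ A x0 P p hA hp hinv hrefl hsymm htrans hfin hopen
  exact Pool.Agent.MNO.ofl_gen L U hM α A x0 P p hA hp hinv hrefl hsymm htrans hfin hopen

end Pool.Agent.GRK
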