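import Pool.Agent.GRK.StE
import Pool.Agent.MNO.Kit2
import Mathlib.Order.Filter.Ultrafilter.Basic

/-!
MNO: module OMI (helper72): a rich model which omits an orbit of `Nx A`.
-/

set_option autoImplicit false
set_option linter.unusedVariables false

namespace Pool.Agent.GRK

open FirstOrder.Language Set Filter
open scoped FirstOrder
open Pool.Agent.WOM (tp Mon IsEl IsoM CtU Fx Orb)
open Pool.Agent.PMC (Ini ct Dc cel Sin Nd Ct lts ext XS Ex Fa Ll LL Itv Sm Md NPf mem_orb)
open Pool.Agent.MNO (Dp dp_and dp_ball dp_congr dp_const dp_eqc dp_ex1 dp_fam0 dp_fin dp_fx dp_hom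
  dp_iff dp_mono dp_not dp_par dp_par1 dp_sat dp_sub exists_enum dp_of_def1)

/-! ### Limits of sequences of sequences -/

section lim

variable {L : FirstOrder.Language.{0, 0}} {U : Type} [L.Structure U]

variable (L) in
/-- the first `n` members of `w` realise the limit type of the sequences `a k` -/
private def Gd (B : Set U) (𝒰 : Ultrafilter ℕ) (a : ℕ → ℕ → U) (n : ℕ) (w : ℕ → U) : Prop :=
  ∀ P : (Fin n → U) → Prop, Dp L B P → (∀ᶠ k in (𝒰 : Filter ℕ), P (fun i => a k i)) →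
    P (fun i => w i)

private def g1 (n : ℕ) (i : Fin (n + 1)) : Unit ⊕ Fin n :=
  if h : (i : ℕ) < n then Sum.inr ⟨i, h⟩ else Sum.inl ()

private def g2 (n : ℕ) (i : Fin (n + 1)) : Fin n ⊕ Unit :=
  if h : (i : ℕ) < n then Sum.inl ⟨i, h⟩ else Sum.inr ()

private theorem g1_eq (n : ℕ) (w : ℕ → U) (z : U) (i : Fin (n + 1)) :
    Sum.elim (fun _ : Unit => z) (fun i : Fin n => w i) (g1 n i) = Function.update w n z i := by
  unfold g1
  by_cases h : (i : ℕ) < n
  · rw [dif_pos h, Function.update_of_ne (ne_of_lt h)]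
    rfl
  · have h1 : (i : ℕ) = n := by have := i.2; omega
    rw [dif_neg h, h1, Function.update_self]
    rfl

private theorem g2_eq (n : ℕ) (w : ℕ → U) (z : U) (i : Fin (n + 1)) :
    Sum.elim (fun i : Fin n => w i) (fun _ : Unit => z) (g2 n i) = Function.update w n z i := by
  unfold g2
  by_cases h : (i : ℕ) < n
  · rw [dif_pos h, Function.update_of_ne (ne_of_lt h)]
    rfl
  · have h1 : (i : ℕ) = n := by have := i.2; omega
    rw [dif_neg h, h1, Function.update_self]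
    rfl

private theorem gd_step (hM : Mon L U) {B : Set U} (hB : B.Finite) (𝒰 : Ultrafilter ℕ)
    (a : ℕ → ℕ → U) (n : ℕ) (w : ℕ → U) (hw : Gd L B 𝒰 a n w) :
    ∃ z, Gd L B 𝒰 a (n + 1) (Function.update w n z) := by
  classical
  set B' : Set U := B ∪ range (fun i : Fin n => w i) with hB'
  have hB'f : B'.Finite := hB.union (finite_range _)
  set F : Set ((Unit → U) → Prop) := {Q | ∃ P : (Fin (n + 1) → U) → Prop, Dp L B P ∧
    (∀ᶠ k in (𝒰 : Filter ℕ), P (fun i => a k i)) ∧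
    ∀ z : U, Q (fun _ => z) ↔ P (fun i => Function.update w n z i)} with hF
  obtain ⟨z, hz⟩ := dp_sat hM hB'f (α := Unit) (F := F) (by
    rintro Q ⟨P, hP, -, hQ⟩
    have h1 := dp_sub hP (g1 n)
    have h2 := dp_par (dp_mono (subset_union_left : B ⊆ B') h1) (fun i : Fin n => w i)
      (fun i => Or.inr ⟨i, rfl⟩)
    refine dp_congr h2 fun v => ?_
    have hv : v = fun _ => v () := funext fun _ => rfl
    rw [hv, hQ]
    apply iff_of_eq
    congr 1
    funext i
    exact (g1_eq n w (v ()) i).symm) (by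
    intro G hG hfin
    have h1 : ∀ Q : (Unit → U) → Prop, ∃ P : (Fin (n + 1) → U) → Prop, Q ∈ G → Dp L B P ∧
        (∀ᶠ k in (𝒰 : Filter ℕ), P (fun i => a k i)) ∧
        ∀ z : U, Q (fun _ => z) ↔ P (fun i => Function.update w n z i) := by
      intro Q
      by_cases hQ : Q ∈ G
      · obtain ⟨P, hP⟩ := hG hQ
        exact ⟨P, fun _ => hP⟩
      · exact ⟨fun _ => True, fun h => absurd h hQ⟩
    choose p hp using h1
    have h2 : Dp L B (fun v : Fin n → U => ∃ z : U, ∀ Q ∈ G,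
        p Q (fun i => Sum.elim v (fun _ : Unit => z) (g2 n i))) :=
      dp_ex1 (dp_ball hfin fun Q hQ => dp_sub (hp Q hQ).1 (g2 n))
    have h3 := hw _ h2 (by
      have h4 : ∀ᶠ k in (𝒰 : Filter ℕ), ∀ Q ∈ G, p Q (fun i => a k i) :=
        (Filter.eventually_all_finite hfin).2 fun Q hQ => (hp Q hQ).2.1
      filter_upwards [h4] with k hk
      refine ⟨a k n, fun Q hQ => ?_⟩
      have h5 : (fun i => Sum.elim (fun i : Fin n => a k i) (fun _ : Unit => a k n) (g2 n i)) =
          fun i : Fin (n + 1) => a k i := by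
        funext i
        rw [g2_eq, Function.update_eq_self]
      rw [h5]
      exact hk Q hQ)
    obtain ⟨z, hz⟩ := h3
    refine ⟨fun _ => z, fun Q hQ => ?_⟩
    rw [(hp Q hQ).2.2]
    have h6 := hz Q hQ
    have h7 : (fun i => Sum.elim (fun i : Fin n => w i) (fun _ : Unit => z) (g2 n i)) =
        fun i : Fin (n + 1) => Function.update w n z i := funext fun i => g2_eq n w z i
    rw [h7] at h6
    exact h6)
  refine ⟨z (), fun P hP hev => ?_⟩
  have h8 := hz (fun v => P (fun i => Function.update w n (v ()) i)) ⟨P, hP, hev, fun _ => Iff.rfl⟩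
  exact h8

/-- the limit type is realised -/
theorem omi_real (hM : Mon L U) {B : Set U} (hB : B.Finite) (𝒰 : Ultrafilter ℕ)
    (a : ℕ → ℕ → U) : ∃ W : ℕ → U, ∀ n, ∀ P : (Fin n → U) → Prop, Dp L B P →
    (∀ᶠ k in (𝒰 : Filter ℕ), P (fun i => a k i)) → P (fun i => W i) := by
  classical
  choose f hf using gd_step hM hB 𝒰 a
  have h0 : Gd L B 𝒰 a 0 (a 0) := by
    intro P hP hev
    obtain ⟨k, hk⟩ := hev.exists
    have h1 : (fun i : Fin 0 => a 0 i) = fun i : Fin 0 => a k i := by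
      funext i
      exact i.elim0
    rw [h1]
    exact hk
  let F : ∀ n, {w : ℕ → U // Gd L B 𝒰 a n w} := fun n =>
    Nat.rec ⟨a 0, h0⟩ (fun n p => ⟨Function.update p.1 n (f n p.1 p.2), hf n p.1 p.2⟩) n
  have hF : ∀ n, (F (n + 1)).1 = Function.update (F n).1 n (f n (F n).1 (F n).2) := fun n => rfl
  have hag : ∀ m k, k < m → (F m).1 k = (F (k + 1)).1 k := by
    intro m
    induction m with
    | zero => intro k hk; exact absurd hk (Nat.not_lt_zero k)
    | succ m ih =>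
      intro k hk
      rcases Nat.lt_succ_iff_lt_or_eq.mp hk with h | h
      · rw [hF m, Function.update_of_ne (ne_of_lt h), ih k h]
      · rw [h]
  refine ⟨fun n => (F (n + 1)).1 n, fun n P hP hev => ?_⟩
  have h1 : (fun i : Fin n => (F ((i : ℕ) + 1)).1 (i : ℕ)) = fun i : Fin n => (F n).1 i := by
    funext i
    exact (hag n i i.2).symm
  show P (fun i : Fin n => (F ((i : ℕ) + 1)).1 (i : ℕ))
  rw [h1]
  exact (F n).2 P hP hev

/-- transfer of properties of finite tuples -/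
theorem omi_tr {B : Set U} (𝒰 : Ultrafilter ℕ) (a : ℕ → ℕ → U) (W : ℕ → U)
    (hW : ∀ n, ∀ P : (Fin n → U) → Prop, Dp L B P →
      (∀ᶠ k in (𝒰 : Filter ℕ), P (fun i => a k i)) → P (fun i => W i)) {α : Type} [Finite α]
    (f : α → ℕ) {P : (α → U) → Prop} (hP : Dp L B P) :
    (∀ᶠ k in (𝒰 : Filter ℕ), P (fun i => a k (f i))) ↔ P (fun i => W (f i)) := by
  classical
  obtain ⟨N, hN⟩ : ∃ N, ∀ i, f i < N := by
    obtain ⟨N, hN⟩ := (finite_range f).bddAbove
    exact ⟨N + 1, fun i => Nat.lt_succ_of_le (hN ⟨i, rfl⟩)⟩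
  have key : ∀ Q : (α → U) → Prop, Dp L B Q →
      (∀ᶠ k in (𝒰 : Filter ℕ), Q (fun i => a k (f i))) → Q (fun i => W (f i)) := by
    intro Q hQ hev
    exact hW N _ (dp_sub hQ (fun i => (⟨f i, hN i⟩ : Fin N))) hev
  refine ⟨key P hP, fun h => ?_⟩
  by_contra hcon
  rw [← Ultrafilter.eventually_not] at hcon
  exact key _ (dp_not hP) hcon h

end lim

section fe

variable {L : FirstOrder.Language.{0, 0}} {U : Type} [L.Structure U]

private theorem fe1_eqv {C : Set U} {F : U → U → Prop} (h : FE L C F) :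
    (∀ x, F x x) ∧ (∀ x y, F x y → F y x) ∧ ∀ x y z, F x y → F y z → F x z := by
  exact ⟨fun x => h.eqv.refl x, fun x y hxy => h.eqv.symm hxy,
    fun x y z hxy hyz => h.eqv.trans hxy hyz⟩

private theorem fe1_dp {C : Set U} {F : U → U → Prop} (h : FE L C F) {α : Type} (i j : α) :
    Dp L C (fun v : α → U => F (v i) (v j)) :=
  dp_sub (P := fun v : Fin 2 → U => F (v 0) (v 1)) (FE.dfn h) (fun k : Fin 2 => if k = 0 then i else j)

end fe

theorem thm_OMI (hFE : St_FE1) : St_OMI := by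
  classical
  intro L U _ κ ι R o S hC A B x hAB hB hnf
  have hM := hC.mon
  have hA : A.Finite := hB.subset hAB
  obtain ⟨e1, e2, e3, e4, e5, e6, e7, e8⟩ := hFE L U κ ι R o S hC A hA
  have hct : Countable U := hM.ctb
  have hne : Nonempty U := ⟨x⟩
  obtain ⟨u, hu⟩ := exists_surjective_nat U
  obtain ⟨p, hp⟩ := exists_surjective_nat (U × U)
  -- a sequence of finite equivalence relations
  have hch : ∀ n, ∃ F : U → U → Prop, FE L A F ∧
      ((¬ ∃ g : U ≃[L] U, Nx L A g ∧ g (p n).1 = (p n).2) → ¬ F (p n).1 (p n).2) := by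
    intro n
    by_cases h : ∃ g : U ≃[L] U, Nx L A g ∧ g (p n).1 = (p n).2
    · exact ⟨fun _ _ => True, e1, fun h' => absurd h h'⟩
    · by_contra hcon
      refine h (e4 _ _ fun F hF => ?_)
      by_contra hF2
      exact hcon ⟨F, hF, fun _ => hF2⟩
  choose F hF hF2 using hch
  set E : ℕ → U → U → Prop := fun n x y => ∀ i ≤ n, F i x y with hEdef
  have hE : ∀ n, FE L A (E n) := by
    intro n
    induction n with
    | zero =>
      have h1 : E 0 = F 0 := by
        funext x y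
        apply propext
        constructor
        · intro h
          exact h 0 le_rfl
        · intro h i hi
          have : i = 0 := by omega
          rw [this]
          exact h
      rw [h1]
      exact hF 0
    | succ n ih =>
      have h1 : E (n + 1) = fun x y => E n x y ∧ F (n + 1) x y := by
        funext x y
        apply propext
        constructor
        · intro h
          exact ⟨fun i hi => h i (by omega), h (n + 1) le_rfl⟩
        · rintro ⟨h, h'⟩ i hi
          rcases Nat.lt_or_ge n i with h2 | h2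
          · have : i = n + 1 := by omega
            rw [this]
            exact h'
          · exact h i h2
      rw [h1]
      exact e2 _ _ ih (hF (n + 1))
  have hEdec : ∀ n m, n ≤ m → ∀ x y, E m x y → E n x y := fun n m hnm x y h i hi =>
    h i (le_trans hi hnm)
  have hEconj : ∀ x y, (∀ n, E n x y) → ∃ g : U ≃[L] U, Nx L A g ∧ g x = y := by
    intro y z h
    obtain ⟨n, hn⟩ := hp (y, z)
    by_contra hcon
    have h1 := hF2 n
    rw [hn] at h1
    exact h1 hcon (h n n le_rfl)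
  -- pairs which are close but not conjugate
  have hpair : ∀ n, ∃ w ∈ Orb L A x, ∃ w' ∈ Orb L A x, E n w w' ∧
      ¬ ∃ g : U ≃[L] U, Nx L A g ∧ g w = w' := by
    intro n
    by_contra hcon
    apply hnf
    obtain ⟨s, hs, hs2⟩ := FE.fin (hE n)
    let r : U → U := fun y =>
      if h : ∃ z ∈ Orb L A x, E n z y then h.choose else x
    refine ⟨r '' s, hs.image r, fun z hz => ?_⟩
    obtain ⟨y, hy, hzy⟩ := hs2 z
    have h : ∃ z ∈ Orb L A x, E n z y := ⟨z, hz, hzy⟩
    refine ⟨r y, mem_image_of_mem r hy, ?_⟩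
    have hr : r y = h.choose := dif_pos h
    have hr1 : r y ∈ Orb L A x := by
      rw [hr]
      exact h.choose_spec.1
    have hr2 : E n (r y) y := by
      rw [hr]
      exact h.choose_spec.2
    obtain ⟨_, hsy, htr⟩ := fe1_eqv (hE n)
    by_contra hcon2
    exact hcon ⟨r y, hr1, z, hz, htr _ _ _ hr2 (hsy _ _ hzy), hcon2⟩
  have hclaim : ∀ v ∈ Orb L A x, ∀ n, ∃ m, n < m ∧ ∃ v' ∈ Orb L A x, E n v v' ∧ ¬ E m v v' := by
    rintro v ⟨g0, hg0, rfl⟩ n
    obtain ⟨w, ⟨g1, hg1, rfl⟩, w', ⟨g2, hg2, rfl⟩, hw, hw'⟩ := hpair n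
    obtain ⟨m, hm⟩ : ∃ m, ¬ E m (g1 x) (g2 x) := by
      by_contra hcon
      exact hw' (hEconj _ _ fun n => by
        by_contra h
        exact hcon ⟨n, h⟩)
    have hnm : n < m := by
      by_contra h
      exact hm (hEdec m n (not_lt.mp h) _ _ hw)
    have hg : Fx L A (g0.comp g1.symm) := Pool.Agent.PMC.fx_comp hg0 (Pool.Agent.PMC.fx_symm hg1)
    have hgw : (g0.comp g1.symm) (g1 x) = g0 x := by
      show g0 (g1.symm (g1 x)) = g0 x
      rw [g1.symm_apply_apply]
    refine ⟨m, hnm, (g0.comp g1.symm) (g2 x), ⟨(g0.comp g1.symm).comp g2,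
      Pool.Agent.PMC.fx_comp hg hg2, rfl⟩, ?_, ?_⟩
    · rw [← hgw]
      exact (e6 _ (hE n) _ hg _ _).2 hw
    · rw [← hgw]
      exact fun h => hm ((e6 _ (hE m) _ hg _ _).1 h)
  -- the sequence
  have step : ∀ (k : ℕ) (q : {q : U × ℕ // q.1 ∈ Orb L A x}),
      ∃ q' : {q : U × ℕ // q.1 ∈ Orb L A x}, q.1.2 < q'.1.2 ∧ E q.1.2 q.1.1 q'.1.1 ∧
        ¬ E q'.1.2 (u k) q'.1.1 := by
    rintro k ⟨⟨v, m⟩, hv⟩
    obtain ⟨m', hm', v', hv', h1, h2⟩ := hclaim v hv m
    by_cases h3 : E m' (u k) v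
    · refine ⟨⟨(v', m'), hv'⟩, hm', h1, fun h4 => h2 ?_⟩
      obtain ⟨_, hsy, htr⟩ := fe1_eqv (hE m')
      exact htr _ _ _ (hsy _ _ h3) h4
    · exact ⟨⟨(v, m'), hv⟩, hm', (fe1_eqv (hE m)).1 v, h3⟩
  choose f hf1 hf2 hf3 using step
  let s : ℕ → {q : U × ℕ // q.1 ∈ Orb L A x} := fun k =>
    Nat.rec ⟨(x, 0), mem_orb A x⟩ (fun k q => f k q) k
  have hs : ∀ k, s (k + 1) = f k (s k) := fun k => rfl
  let v : ℕ → U := fun k => (s k).1.1
  let mm : ℕ → ℕ := fun k => (s k).1.2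
  have hv : ∀ k, v k ∈ Orb L A x := fun k => (s k).2
  have hmm : ∀ k, mm k < mm (k + 1) := fun k => hf1 k (s k)
  have hE1 : ∀ k, E (mm k) (v k) (v (k + 1)) := fun k => hf2 k (s k)
  have hE2 : ∀ k, ¬ E (mm (k + 1)) (u k) (v (k + 1)) := fun k => hf3 k (s k)
  have hmono : Monotone mm := monotone_nat_of_le_succ fun k => le_of_lt (hmm k)
  have hE3 : ∀ l k, l ≤ k → E (mm l) (v k) (v l) := by
    intro l k hlk
    obtain ⟨hrf, hsy, htr⟩ := fe1_eqv (hE (mm l))
    induction k, hlk using Nat.le_induction with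
    | base => exact hrf _
    | succ k hk ih => exact htr _ _ _ (hsy _ _ (hEdec _ _ (hmono hk) _ _ (hE1 k))) ih
  -- the limit
  let 𝒰 : Ultrafilter ℕ := Filter.hyperfilter ℕ
  let a : ℕ → ℕ → U := fun k i => Nat.rec (v k) (fun j _ => u j) i
  obtain ⟨W, hW⟩ := omi_real hM hB 𝒰 a
  have tr0 : ∀ {α : Type} [Finite α] (f : α → ℕ) {P : (α → U) → Prop}, Dp L B P →
      (P (fun i => u (f i)) ↔ P (fun i => W (f i + 1))) := by
    intro α _ f P hP
    have h1 := omi_tr 𝒰 a W hW (fun i => f i + 1) hP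
    rw [← h1]
    show _ ↔ ∀ᶠ k in (𝒰 : Filter ℕ), P (fun i => u (f i))
    rw [Filter.eventually_const]
  set M0 : Set U := range (fun n => W (n + 1)) with hM0
  have hBM : B ⊆ M0 := by
    intro b hb
    obtain ⟨n, hn⟩ := hu b
    exact ⟨n, (tr0 (fun _ : Unit => n) (dp_eqc () hb)).1 hn⟩
  have hEl : IsEl L M0 := by
    intro s hs hne
    have h1 : Dp L M0 (fun v : Unit → U => v () ∈ s) := dp_of_def1 hs
    obtain ⟨C, hCf, hCM, h2⟩ := dp_fin h1
    obtain ⟨n, c, rfl⟩ := exists_enum hCf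
    obtain ⟨Q, hQ, hPQ⟩ := dp_fam0 h2
    choose f hf using fun i => hCM ⟨i, rfl⟩
    have hf' : c = fun i => W (f i + 1) := funext fun i => (hf i).symm
    have h3 : Dp L B (fun v : Fin n → U => ∃ z : U, Q (fun i => Sum.elim v (fun _ : Unit => z)
        ((Sum.elim (fun _ => Sum.inr ()) Sum.inl : Unit ⊕ Fin n → Fin n ⊕ Unit) i))) :=
      dp_ex1 (dp_sub (dp_mono (empty_subset B) hQ) _)
    obtain ⟨z, hz⟩ := hne
    obtain ⟨z', hz'⟩ := (tr0 f h3).2 ⟨z, by
      have h4 := (hPQ (fun _ => z)).1 hz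
      rw [hf'] at h4
      have h5 : (fun i => Sum.elim (fun i => W (f i + 1)) (fun _ : Unit => z)
          ((Sum.elim (fun _ => Sum.inr ()) Sum.inl : Unit ⊕ Fin n → Fin n ⊕ Unit) i)) =
          Sum.elim (fun _ => z) (fun i => W (f i + 1)) := by
        funext i
        rcases i with i | i <;> rfl
      rw [h5]
      exact h4⟩
    obtain ⟨m, rfl⟩ := hu z'
    have h6 := (tr0 (Sum.elim (fun _ : Unit => m) f) (dp_mono (empty_subset B) hQ)).1 (by
      have h5 : (fun i => Sum.elim (fun i => u (f i)) (fun _ : Unit => u m)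
          ((Sum.elim (fun _ => Sum.inr ()) Sum.inl : Unit ⊕ Fin n → Fin n ⊕ Unit) i)) =
          fun i => u (Sum.elim (fun _ : Unit => m) f i) := by
        funext i
        rcases i with i | i <;> rfl
      rw [h5] at hz'
      exact hz')
    refine ⟨W (m + 1), (hPQ (fun _ => W (m + 1))).2 ?_, m, rfl⟩
    have h7 : (Sum.elim (fun _ => W (m + 1)) c : Unit ⊕ Fin n → U) =
        fun i => W (Sum.elim (fun _ : Unit => m) f i + 1) := by
      rw [hf']
      funext i
      rcases i with i | i <;> rfl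
    rw [h7]
    exact h6
  have hMd : Md L B M0 := ⟨hEl, hBM⟩
  refine ⟨M0, W 0, ⟨hMd, ?_⟩, ?_, ?_⟩
  · -- rich
    intro G hG j x1
    obtain ⟨-, -, -, -, -, -, b7, -⟩ := hFE L U κ ι R o S hC B hB
    obtain ⟨_, ⟨l, rfl⟩, hl⟩ := b7 G hG M0 hMd x1
    obtain ⟨hrf, hsy, htr⟩ := fe1_eqv hG
    have hBi : (insert (u l) B).Finite := hB.insert _
    obtain ⟨y0, hy0⟩ := dp_sat hM hBi (α := Unit)
      (F := {Q | ∃ C, Dc L R o B j C ∧ Q = fun v => (v () ∈ C ↔ x1 ∈ C)} ∪
        {fun v => G (u l) (v ())}) (by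
      rintro Q (⟨C, hCC, rfl⟩ | hQ)
      · exact dp_mono (subset_insert _ _) (dp_iff (dp_of_def1 hCC.1) (dp_const _))
      · rw [mem_singleton_iff] at hQ
        rw [hQ]
        have h1 : Dp L (insert (u l) B) (fun v : Unit ⊕ Unit → U =>
          G (v (Sum.inr ())) (v (Sum.inl ()))) := dp_mono (subset_insert _ _) (fe1_dp hG _ _)
        exact dp_par1 h1 (mem_insert _ _)) (by
      intro H hH hfin
      have h1 : Dp L B (fun v : Unit → U =>
          ∀ Q ∈ {Q | Q ∈ H ∧ ∃ C, Dc L R o B j C ∧ Q = fun v => (v () ∈ C ↔ x1 ∈ C)}, Q v) := by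
        refine dp_ball (hfin.subset fun Q hQ => hQ.1) ?_
        rintro Q ⟨-, C, hCC, rfl⟩
        exact dp_iff (dp_of_def1 hCC.1) (dp_const _)
      have h2 : Dp L B (fun w : Unit → U => ∃ z : U,
          (∀ Q ∈ {Q | Q ∈ H ∧ ∃ C, Dc L R o B j C ∧ Q = fun v => (v () ∈ C ↔ x1 ∈ C)},
            Q (fun i => Sum.elim w (fun _ : Unit => z) ((fun _ => Sum.inr ()) i))) ∧
          G (Sum.elim w (fun _ : Unit => z) (Sum.inl ()))
            (Sum.elim w (fun _ : Unit => z) (Sum.inr ()))) :=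
        dp_ex1 (dp_and (dp_sub h1 (fun _ => Sum.inr ())) (fe1_dp hG _ _))
      obtain ⟨z, hz, hz'⟩ := (tr0 (fun _ : Unit => l) h2).2 ⟨x1, by
        rintro Q ⟨-, C, hCC, rfl⟩
        exact Iff.rfl, hsy _ _ hl⟩
      refine ⟨fun _ => z, fun Q hQ => ?_⟩
      rcases hH hQ with hQ' | hQ'
      · exact hz Q ⟨hQ, hQ'⟩
      · rw [mem_singleton_iff] at hQ'
        rw [hQ']
        exact hz')
    obtain ⟨n, hn⟩ := hu (y0 ())
    have h3 : G (u l) (u n) := by
      rw [hn]
      exact hy0 _ (Or.inr rfl)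
    have h4 : G (W (l + 1)) (W (n + 1)) := by
      have h5 := (tr0 (fun b : Bool => if b = true then l else n)
        (fe1_dp hG (α := Bool) true false)).1 h3
      exact h5
    refine ⟨W (n + 1), ⟨n, rfl⟩, fun C hCC => ?_, htr _ _ _ hl h4⟩
    have h6 := (tr0 (fun _ : Unit => n) (dp_of_def1 hCC.1 (i := ())))
    have h7 : u n ∈ C ↔ x1 ∈ C := by
      rw [hn]
      exact hy0 _ (Or.inl ⟨C, hCC, rfl⟩)
    exact h6.symm.trans h7
  · -- the orbit
    obtain ⟨g, hg, hgx⟩ := dp_hom hM hA (α := Unit) (a := fun _ => x) (b := fun _ => W 0) (by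
      intro P hP hPx
      refine (omi_tr 𝒰 a W hW (fun _ : Unit => 0) (dp_mono hAB hP)).1 (Filter.Eventually.of_forall
        fun k => ?_)
      obtain ⟨g, hg, hgk⟩ := hv k
      have h1 := (dp_fx hP hg (fun _ => x)).2 hPx
      rw [hgk] at h1
      exact h1)
    exact ⟨g, hg, hgx ()⟩
  · -- omission
    rintro _ ⟨n, rfl⟩ ⟨g, hg, hgy⟩
    obtain ⟨i, hi⟩ := hu (v (n + 1))
    obtain ⟨_, hsy, htr⟩ := fe1_eqv (hE (mm (n + 1)))
    have h1 : E (mm (n + 1)) (W 0) (W (i + 1)) := by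
      refine (omi_tr 𝒰 a W hW (fun b : Bool => if b = true then 0 else i + 1)
        (dp_mono hAB (fe1_dp (hE (mm (n + 1))) (α := Bool) true false))).1 ?_
      have h2 : ∀ᶠ k in (𝒰 : Filter ℕ), n + 1 ≤ k :=
        (Filter.eventually_ge_atTop (n + 1)).filter_mono Nat.hyperfilter_le_atTop
      filter_upwards [h2] with k hk
      show E (mm (n + 1)) (v k) (u i)
      rw [hi]
      exact hE3 _ _ hk
    have h3 : E (mm (n + 1)) (W 0) (g (W 0)) := e3 _ (hE _) g hg _
    rw [hgy] at h3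
    have h4 : E (mm (n + 1)) (W (n + 1)) (W (i + 1)) := htr _ _ _ (hsy _ _ h3) h1
    have h5 := (tr0 (fun b : Bool => if b = true then n else i)
      (dp_mono hAB (fe1_dp (hE (mm (n + 1))) (α := Bool) true false))).2 h4
    have h6 : E (mm (n + 1)) (u n) (u i) := h5
    rw [hi] at h6
    exact hE2 n h6

end Pool.Agent.GRK
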