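import Pool.Agent.GRK.StB
import Pool.Agent.GRK.NBase

/-!
MNO, module (text of PMC) ORD: the weak order on a good piece (helper55)
-/

set_option autoImplicit false
set_option linter.unusedVariables false

namespace Pool.Agent.GRK

open FirstOrder.Language Set
open scoped FirstOrder
open Pool.Agent.WOM (tp Mon IsEl IsoM CtU Fx Orb)
open Pool.Agent.PMC (Ini ct Dc cel Sin Nd Ct lts ext XS Ex Fa Ll LL Itv Sm Md NPf sd fx_refl fx_symm
  fx_comp fx_mono comp_apply' def_img def_mono def_compl def_inter def_union def_mem def_fix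
  def_of_fix conj_of_def exists_isd exists_fin_def isEl_of_orb mem_orb orb_meets sat_fam rel_fx
  rel_def1 rel_def2 rel_hull rel_swap def_close)

private theorem ORD_bool (s b : Bool) : (s ≠ (!b)) ↔ ¬ (s ≠ b) := by
  cases s <;> cases b <;> simp

private theorem ORD_lts {U κ : Type} (R : κ → U → U → Prop) (o : κ → κ) (s b : Bool) (j : κ)
    (x y : U) : lts R o (sd (!b) s) j x y ↔ lts R o (sd b s) j y x := by
  cases s <;> cases b <;> simp [lts, sd]

/-- a point beyond a point of the side is on the side -/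
private theorem ORD_side {U κ : Type} {R : κ → U → U → Prop} {o : κ → κ} {s b : Bool} {j : κ}
    {C : Set U} (hC : Ini R o j C) {x y : U} (h : lts R o (sd b s) j x y)
    (hx : x ∈ C ↔ s ≠ b) : y ∈ C ↔ s ≠ b := by
  cases s <;> cases b <;> simp [lts, sd] at h hx ⊢
  · exact fun hy => hx (hC y hy x h)
  · exact hC x hx y h
  · exact hC x hx y h
  · exact fun hy => hx (hC y hy x h)

/-- a point of the side is beyond the points of the other side -/
private theorem ORD_bey {L : FirstOrder.Language.{0, 0}} {U : Type} [L.Structure U] {κ ι : Type}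
    {R : κ → U → U → Prop} {o : κ → κ} {S : ι → U → U → Prop} (hC : Cx L R o S) {s b : Bool} {j : κ}
    {C : Set U} (hI : Ini R o j C) {x y : U} (hx : x ∈ C ↔ s ≠ (!b)) (hy : y ∈ C ↔ s ≠ b) :
    lts R o (sd b s) j x y := by
  have hne : x ≠ y := by
    rintro rfl
    rw [ORD_bool] at hx
    tauto
  rcases hC.tot j x y hne with h | h
  · cases s <;> cases b <;> simp [lts, sd] at hx hy ⊢
    · exact h
    · exact absurd (hI y hy x h) hx
    · exact absurd (hI y hy x h) hx
    · exact h
  · cases s <;> cases b <;> simp [lts, sd] at hx hy ⊢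
    · exact absurd (hI x hx y h) hy
    · exact h
    · exact h
    · exact absurd (hI x hx y h) hy

private theorem ORD_cut {L : FirstOrder.Language.{0, 0}} {U : Type} [L.Structure U] {κ ι : Type}
    {R : κ → U → U → Prop} {o : κ → κ} {S : ι → U → U → Prop} (hC : Cx L R o S) {A : Set U} (hA : A.Finite) {w : U}
    (hw : Nd L A w) (j : κ) (s b : Bool) : ∃ C, Dc L R o (insert w A) j C ∧
      Sin C (cel L R o A j w) ∧ (w ∈ C ↔ s ≠ (!b)) ∧
      ∀ y, (y ∈ C ↔ s ≠ b) → lts R o (sd b s) j w y := by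
  have h1 := sin_self hC hA j hw
  have h2 : Sin {x | ¬ R (o j) w x} (cel L R o A j w) := by
    obtain ⟨y, hy, hl⟩ := exists_lts hC hA (j := j) hw (mem_cel A j w) true
    refine ⟨⟨w, mem_cel A j w, ?_⟩, ⟨y, hy, ?_⟩⟩
    · exact hC.irr j w
    · simp only [lts, if_true] at hl
      exact fun h => h hl
  cases s <;> cases b
  · refine ⟨_, le_dc hC j w A, h2, ?_, ?_⟩
    · simp [hC.irr j w]
    · intro y hy
      simp [lts, sd] at hy ⊢
      exact hy
  · refine ⟨_, lt_dc hC j w A, h1, ?_, ?_⟩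
    · simp [hC.irr j w]
    · intro y hy
      simp [lts, sd] at hy ⊢
      exact hy
  · refine ⟨_, lt_dc hC j w A, h1, ?_, ?_⟩
    · simp [hC.irr j w]
    · intro y hy
      simp [lts, sd] at hy ⊢
      exact hy
  · refine ⟨_, le_dc hC j w A, h2, ?_, ?_⟩
    · simp [hC.irr j w]
    · intro y hy
      simp [lts, sd] at hy ⊢
      exact hy

theorem thm_ORD (h1 : St_FAI) (h2 : St_FTW) : St_ORD := by
  intro L U _ κ ι R o S hC A E sg hO
  obtain ⟨-, f2, -, -, -, f6, f7, -⟩ := h1 L U κ ι R o S hC A E sg hO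
  have ftw := h2 L U κ ι R o S hC A E sg hO
  have hA := hO.fin
  have g1 : ∀ w ∈ E, ∀ u ∈ E, ∀ b, Fa L R o A sg b w u → Fa L R o A sg (!b) u w := by
    intro w hw u hu b h j C hD hS
    by_contra hno
    have hwC : w ∈ C ↔ sg (o j) w ≠ b := by
      rw [ORD_bool] at hno
      tauto
    obtain ⟨C', hD', hS', hw', hy'⟩ := ORD_cut hC hA (hO.nd w hw) j (sg (o j) w) b
    obtain ⟨y, hy, hyC, hyC'⟩ := ftw w hw u hu b h w hw j C C' hD hD' hS hS'
    have h3 := ORD_side hD.2 (hy' y hyC') hwC
    rw [ORD_bool] at hyC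
    tauto
  have g2 : ∀ w ∈ E, ∀ u ∈ E, ∀ b, (Fa L R o A sg b w u ↔ Fa L R o A sg (!b) u w) := by
    intro w hw u hu b
    refine ⟨g1 w hw u hu b, fun h => ?_⟩
    have h3 := g1 u hu w hw (!b) h
    rwa [Bool.not_not] at h3
  have g3 : ∀ u ∈ E, ∀ w ∈ E, Ll L R o A sg u w → ∀ v ∈ E,
      Ll L R o A sg u v ∨ Ll L R o A sg v w := by
    intro u hu w hw huw v hv
    by_contra hno
    push Not at hno
    obtain ⟨hn1, hn2⟩ := hno
    have h3 : ¬ Fa L R o A sg false w v := fun h => hn2 ((g2 v hv w hw true).2 h)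
    unfold Fa Ex at h3
    push Not at h3
    obtain ⟨j, C', hD', hS', hx⟩ := h3
    apply hn1
    refine f2 u hu v hv true j ?_
    intro C hD hS
    obtain ⟨y, hy, hyC, hyC'⟩ := ftw w hw u hu false (g1 u hu w hw true huw) v hv j C C' hD hD'
      hS hS'
    have h4 : lts R o (sd true (sg (o j) v)) j y v := by
      refine ORD_bey hC hD'.2 (b := true) hyC' ?_
      have h5 := ORD_bool (sg (o j) v) false
      simp only [Bool.not_false] at h5
      rw [h5]
      tauto
    exact ORD_side hD.2 h4 hyC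
  refine ⟨g2, ?_, g3, ?_, ?_, ?_⟩
  · intro w hw b h
    obtain ⟨j⟩ := hC.ne
    obtain ⟨C', hD', hS', hw', -⟩ := ORD_cut hC hA (hO.nd w hw) j (sg (o j) w) b
    have h3 := h j C' hD' hS'
    rw [ORD_bool] at hw'
    tauto
  · intro u hu v hv w hw huv hvw
    rcases g3 u hu v hv huv w hw with h | h
    · exact h
    · exact absurd (g1 w hw v hv true h) (f6 v hv w hw true hvw)
  · intro z hz j y hy y' hy' hl w hw
    have hE : ∀ x ∈ cel L R o A j z, x ∈ E := fun x hx =>
      pc_sub hO.clo hz (cel_sub_pc hC hA j z hx)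
    constructor
    · intro h
      refine f7 w hw y (hE y hy) j true y' ?_ h ?_
      · rw [cel_eq hy]
        exact hy'
      · rw [hO.cst j z hz y hy]
        exact hl
    · intro h
      refine (g2 y (hE y hy) w hw true).2 ?_
      refine f7 w hw y' (hE y' hy') j (!true) y ?_ (g1 y' (hE y' hy') w hw true h) ?_
      · rw [cel_eq hy']
        exact hy
      · rw [hO.cst j z hz y' hy', ORD_lts]
        exact hl
  · intro z hz j y hy y' hy' h
    have hE : ∀ x ∈ cel L R o A j z, x ∈ E := fun x hx =>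
      pc_sub hO.clo hz (cel_sub_pc hC hA j z hx)
    obtain ⟨C', hD', hS', -, hb⟩ := ORD_cut hC hA (hO.nd y (hE y hy)) j (sg (o j) z) true
    refine hb y' ?_
    have h3 := h j C' hD' (by rw [cel_eq hy']; rwa [cel_eq hy] at hS')
    rwa [hO.cst j z hz y' hy'] at h3

end Pool.Agent.GRK
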