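import Pool.Agent.GRK.StB
import Pool.Agent.GRK.NBase

/-!
GRK: orthogonality (text of PMC).
-/

set_option autoImplicit false
set_option linter.unusedVariables false

namespace Pool.Agent.GRK

open FirstOrder.Language Set
open scoped FirstOrder
open Pool.Agent.WOM (tp Mon IsEl IsoM CtU Fx Orb)
open Pool.Agent.PMC (Ini ct Dc cel Sin Nd Ct lts ext XS Ex Fa Ll LL Itv Sm Md NPf sd fx_refl fx_symm
  fx_comp fx_mono comp_apply')

section ORT

variable {L : FirstOrder.Language.{0, 0}} {U : Type} [L.Structure U] {κ ι : Type}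
  {R : κ → U → U → Prop} {o : κ → κ} {S : ι → U → U → Prop}

private theorem ORT_sub (h1 : St_FAI) (hC : Cx L R o S) {A E : Set U} {sg : κ → U → Bool}
    (hO : Ori L R o S A E sg) {g : U ≃[L] U} (hg : Fx L A g) {F : Set U} (hF : F ⊆ E) :
    g '' F ⊆ E := by
  rintro _ ⟨x, hx, rfl⟩
  exact (((h1 L U κ ι R o S hC A E sg hO).2.2.1 g hg).1 x).2 (hF hx)

private theorem ORT_one (h1 : St_FAI) (h2 : St_ORD) (h3 : St_MVT) (h4 : St_CHN)
    (hC : Cx L R o S)
    {A E : Set U} {sg : κ → U → Bool} (hO : Ori L R o S A E sg) (F W : Set U) (hF : F.Finite)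
    (hW : W.Finite) (hFE : F ⊆ E) (hWE : W ⊆ E) (hFW : LL L R o A sg F W) (g : U ≃[L] U)
    (hg : Nx L A g) (hgW : LL L R o A sg (g '' F) W) :
    ∃ h : U ≃[L] U, Nx L A h ∧ (∀ w ∈ W, h w = w) ∧ ∀ b ∈ F, h b = g b := by
  rcases F.eq_empty_or_nonempty with rfl | ⟨s, hs⟩
  · exact ⟨FirstOrder.Language.Equiv.refl L U, nx_refl _, fun w _ => rfl, by simp⟩
  have hgF : g '' F ⊆ E := ORT_sub h1 hC hO hg.1 hFE
  obtain ⟨t, ht, -, htF⟩ := (h3 L U κ ι R o S hC A E sg hO ∅ (F ∪ g '' F) F Set.finite_empty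
    (hF.union (hF.image g)) hF (Set.empty_subset _) (Set.union_subset hFE hgF) hFE
    (fun d hd => absurd hd (by simp))).1 (fun d hd => absurd hd (by simp))
  have htA : Nx L A t := nx_mono Set.subset_union_left ht
  have htE : t '' F ⊆ E := ORT_sub h1 hC hO htA.1 hFE
  have htr := (h2 L U κ ι R o S hC A E sg hO).2.2.2.1
  have htW : LL L R o A sg (t '' F) W := fun d hd w hw =>
    htr d (htE hd) s (hFE hs) w (hWE hw) (htF d hd s (Or.inl hs)) (hFW s hs w hw)
  have e1 : t.symm '' (t '' F) = F := by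
    ext x
    constructor
    · rintro ⟨_, ⟨y, hy, rfl⟩, rfl⟩
      rw [t.symm_apply_apply]; exact hy
    · intro hx
      exact ⟨t x, ⟨x, hx, rfl⟩, t.symm_apply_apply x⟩
  have e2 : (g.comp t.symm) '' (t '' F) = g '' F := by
    ext x
    constructor
    · rintro ⟨_, ⟨y, hy, rfl⟩, rfl⟩
      refine ⟨y, hy, ?_⟩
      show g y = g (t.symm (t y))
      rw [t.symm_apply_apply]
    · rintro ⟨y, hy, rfl⟩
      refine ⟨t y, ⟨y, hy, rfl⟩, ?_⟩
      show g (t.symm (t y)) = g y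
      rw [t.symm_apply_apply]
  obtain ⟨k1, hk1, hk1W, hk1'⟩ := h4 L U κ ι R o S hC A E sg hO (t '' F) W (hF.image t) hW htE
    hWE htW t.symm (nx_symm htA) (by rw [e1]; exact fun d hd v hv => htF d hd v (Or.inl hv))
    (by rw [e1]; exact hFW)
  obtain ⟨k2, hk2, hk2W, hk2'⟩ := h4 L U κ ι R o S hC A E sg hO (t '' F) W (hF.image t) hW htE
    hWE htW (g.comp t.symm) (nx_comp hg (nx_symm htA))
    (by rw [e2]; exact fun d hd v hv => htF d hd v (Or.inr hv)) (by rw [e2]; exact hgW)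
  refine ⟨k2.comp k1.symm, nx_comp hk2 (nx_symm hk1), fun w hw => ?_, fun b hb => ?_⟩
  · have h5 : k1.symm w = w := by
      have := k1.symm_apply_apply w
      rwa [hk1W w hw] at this
    show k2 (k1.symm w) = w
    rw [h5, hk2W w hw]
  have h5 : k1 (t b) = b := by
    rw [hk1' (t b) ⟨b, hb, rfl⟩]; exact t.symm_apply_apply b
  have h6 : k1.symm b = t b := by
    have := k1.symm_apply_apply (t b)
    rwa [h5] at this
  show k2 (k1.symm b) = g b
  rw [h6, hk2' (t b) ⟨b, hb, rfl⟩]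
  show g (t.symm (t b)) = g b
  rw [t.symm_apply_apply]

private theorem ORT_rev (h1 : St_FAI) (h2 : St_ORD) (hC : Cx L R o S)
    {A E : Set U} {sg : κ → U → Bool} (hO : Ori L R o S A E sg) {D V : Set U} (hD : D ⊆ E)
    (hV : V ⊆ E) : LL L R o A (fun j z => !sg j z) D V ↔ LL L R o A sg V D := by
  have hex := (h1 L U κ ι R o S hC A E sg hO).1.2
  have hsw := (h2 L U κ ι R o S hC A E sg hO).1
  have key : ∀ d ∈ E, ∀ v ∈ E, (Ll L R o A (fun j z => !sg j z) d v ↔ Ll L R o A sg v d) := by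
    intro d hd v hv
    have a1 : Ll L R o A (fun j z => !sg j z) d v ↔ Fa L R o A sg false d v := by
      constructor
      · intro h j
        exact (hex true d j v).1 (h j)
      · intro h j
        exact (hex true d j v).2 (h j)
    rw [a1, hsw d hd v hv false]
    exact Iff.rfl
  constructor
  · intro h v hv d hd
    exact (key d (hD hd) v (hV hv)).1 (h d hd v hv)
  · intro h d hd v hv
    exact (key d (hD hd) v (hV hv)).2 (h v hv d hd)

theorem thm_ORT (h1 : St_FAI) (h2 : St_ORD) (h3 : St_MVT) (h4 : St_CHN) : St_ORT := by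
  intro L U _ κ ι R o S hC A E sg hO
  have p1 := ORT_one h1 h2 h3 h4 hC hO
  have hO' : Ori L R o S A E (fun j z => !sg j z) := (h1 L U κ ι R o S hC A E sg hO).1.1
  have p2 : ∀ (F W : Set U), F.Finite → W.Finite → F ⊆ E → W ⊆ E → LL L R o A sg W F →
      ∀ g : U ≃[L] U, Nx L A g → LL L R o A sg W (g '' F) →
      ∃ h : U ≃[L] U, Nx L A h ∧ (∀ w ∈ W, h w = w) ∧ ∀ b ∈ F, h b = g b := by
    intro F W hF hW hFE hWE hWF g hg hWg
    exact ORT_one h1 h2 h3 h4 hC hO' F W hF hW hFE hWE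
      ((ORT_rev h1 h2 hC hO hFE hWE).2 hWF) g hg
      ((ORT_rev h1 h2 hC hO (ORT_sub h1 hC hO hg.1 hFE) hWE).2 hWg)
  refine ⟨p1, p2, ?_, ?_⟩
  · intro D M V hD hM hV hDE hME hVE hDV hDM hMV g hg hDg hgV
    obtain ⟨k1, hk1, hk1V, hk1'⟩ := p1 M V hM hV hME hVE hMV g hg hgV
    have e1 : k1 '' (M ∪ V) = g '' M ∪ V := by
      rw [Set.image_union]
      congr 1
      · exact Set.image_congr hk1'
      · ext x
        constructor
        · rintro ⟨y, hy, rfl⟩
          rw [hk1V y hy]; exact hy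
        · intro hx
          exact ⟨x, hx, hk1V x hx⟩
    obtain ⟨k2, hk2, hk2D, hk2'⟩ := p2 (M ∪ V) D (hM.union hV) hD (Set.union_subset hME hVE) hDE
      (fun d hd v hv => hv.elim (hDM d hd v) (hDV d hd v)) k1 hk1
      (by rw [e1]; exact fun d hd v hv => hv.elim (hDg d hd v) (hDV d hd v))
    refine ⟨k2, hk2, hk2D, fun w hw => ?_, fun m hm => ?_⟩
    · rw [hk2' w (Or.inr hw)]; exact hk1V w hw
    · rw [hk2' m (Or.inl hm)]; exact hk1' m hm
  · intro D V Z hD hV hZ hDE hVE hZE hDV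
    obtain ⟨g1, hg1, -, hg1V⟩ := (h3 L U κ ι R o S hC A E sg hO ∅ V Z Set.finite_empty hV hZ
      (Set.empty_subset _) hVE hZE (fun d hd => absurd hd (by simp))).1
      (fun d hd => absurd hd (by simp))
    have hg1A : Nx L A g1 := nx_mono Set.subset_union_left hg1
    obtain ⟨g2, hg2, hD2, hV2⟩ := (h3 L U κ ι R o S hC A E sg hO D V (g1 '' Z) hD hV (hZ.image g1)
      hDE hVE (ORT_sub h1 hC hO hg1A.1 hZE) hDV).2 hg1V
    refine ⟨g2.comp g1, nx_comp (nx_mono Set.subset_union_left hg2) hg1A, ?_, ?_⟩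
    · have e : (g2.comp g1) '' Z = g2 '' (g1 '' Z) := by
        rw [Set.image_image]; rfl
      rw [e]; exact hD2
    · have e : (g2.comp g1) '' Z = g2 '' (g1 '' Z) := by
        rw [Set.image_image]; rfl
      rw [e]; exact hV2

end ORT

end Pool.Agent.GRK
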