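import Pool.Agent.GRK.StD
import Pool.Agent.PMC.PAT
import Pool.Agent.OGD.St

/-!
GRK: the dichotomy for ordered digraphs with unary predicates without grids (the form `OGD.T4`).
-/

set_option autoImplicit false
set_option linter.unusedVariables false

namespace Pool.Agent.GRK

open FirstOrder.Language Set
open scoped FirstOrder
open Pool.Agent.WOM (CtT PerfT)
open Pool.Agent.PMC (Sy LP ls us rel)
open Pool.Agent.Helper6.Str (PerfK CtblK Iso RelIso)
open VPF (ModF)

namespace OT4

theorem rel_eq {ι M : Type} (S : (LP ι).Structure M) (b : Bool) :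
    @rel (LP ι) M S (PMC.PAT.fm ι b) = ls S b := by
  funext x y
  exact propext (PMC.PAT.real_fm S b x y)

/-- a permutation which preserves the symbols is an automorphism -/
theorem aut {ι M : Type} (S : (LP ι).Structure M) (g : M ≃ M)
    (h2 : ∀ (b : Bool) (x y : M), ls S b (g x) (g y) ↔ ls S b x y)
    (h1 : ∀ (i : ι) (x : M), us S i (g x) ↔ us S i x) :
    ∃ h : @FirstOrder.Language.Equiv (LP ι) M M S S,
      ∀ x, (@FirstOrder.Language.Equiv.toEquiv (LP ι) M M S S h) x = g x := by
  have hrel : ∀ (m : ℕ) (r : Sy ι m) (v : Fin m → M),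
      S.RelMap (n := m) r (g ∘ v) ↔ S.RelMap (n := m) r v := ?_
  · exact ⟨@FirstOrder.Language.Equiv.mk (LP ι) M M S S g (fun f _ => Empty.elim f)
      (fun r v => hrel _ r v), fun x => rfl⟩
  intro m r v
  cases r with
  | un i =>
    have h3 : g ∘ v = ![g (v 0)] := by
      funext k
      fin_cases k
      rfl
    have h4 : v = ![v 0] := by
      funext k
      fin_cases k
      rfl
    rw [h3]
    rw [h4]
    exact h1 i (v 0)
  | lt b =>
    have h3 : g ∘ v = ![g (v 0), g (v 1)] := by
      funext k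
      fin_cases k <;> rfl
    have h4 : v = ![v 0, v 1] := by
      funext k
      fin_cases k <;> rfl
    rw [h3]
    rw [h4]
    exact h2 b (v 0) (v 1)

theorem hyp {ι M : Type} (S : (LP ι).Structure M) (k : ℕ) (hl : OGD.Lin (ls S true))
    (hk : NoDv (ls S true) (ls S false) k) :
    @Hyp (LP ι) M S (PMC.PAT.fm ι true) (fun _ => PMC.PAT.fm ι false) := by
  obtain ⟨hi, ht, htot⟩ := hl
  have e1 := rel_eq S true
  have e2 := rel_eq S false
  refine @Hyp.mk (LP ι) M S _ _ ?_ ?_ ?_ ?_ ?_
  · rw [e1]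
    exact hi
  · rw [e1]
    exact ht
  · rw [e1]
    exact htot
  · intro i
    refine ⟨k, ?_⟩
    rw [e1, e2]
    exact hk
  · intro g hg1 hg2 hg3
    rw [e1] at hg1
    rw [e2] at hg2
    refine aut S g (fun b => ?_) (fun i x => ?_)
    · cases b
      · exact hg2 0
      · exact hg1
    · rw [← PMC.PAT.real_fu S, ← PMC.PAT.real_fu S]
      exact hg3 _ x

theorem iso_of_equiv {L : FirstOrder.Language.{0, 0}} {S S' : L.Structure ℕ}
    (h : Nonempty (@FirstOrder.Language.Equiv L ℕ ℕ S S')) : Iso S S' := by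
  obtain ⟨e⟩ := h
  exact ⟨@FirstOrder.Language.Equiv.toEquiv L ℕ ℕ S S' e, fun n R v =>
    (@FirstOrder.Language.Equiv.map_rel L ℕ ℕ S S' e n R v).symm⟩

theorem equiv_of_iso {L : FirstOrder.Language.{0, 0}} (hf : ∀ n, IsEmpty (L.Functions n))
    {S S' : L.Structure ℕ} (h : Iso S S') :
    Nonempty (@FirstOrder.Language.Equiv L ℕ ℕ S S') := by
  obtain ⟨e, he⟩ := h
  exact ⟨@FirstOrder.Language.Equiv.mk L ℕ ℕ S S' e (fun {n} f _ => (hf n).elim f)
    (fun {n} R v => (he n R v).symm)⟩

end OT4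

/-- [OT4] the dichotomy for ordered digraphs with unary predicates without grids -/
theorem thm_OT4 (h : St_MAIN) : Pool.Agent.OGD.T4 := by
  intro ι hι T k hT
  have hf : ∀ n, IsEmpty ((LP ι).Functions n) := fun n => (inferInstance : IsEmpty Empty)
  have hc : Countable (LP ι).Symbols := by
    have h1 : Countable (Σ m, (LP ι).Functions m) := by
      have : ∀ m, Countable ((LP ι).Functions m) := fun m => (inferInstance : Countable Empty)
      infer_instance
    have h2 : Countable (Σ m, (LP ι).Relations m) := by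
      have : ∀ m, Countable ((LP ι).Relations m) := fun m => PMC.PAT.countable_sy ι m
      infer_instance
    exact (inferInstance : Countable ((Σ m, (LP ι).Functions m) ⊕ (Σ m, (LP ι).Relations m)))
  have hm := h (LP ι) hc hf T (PMC.PAT.fm ι true) (fun _ => PMC.PAT.fm ι false)
    (fun S hS => OT4.hyp S k (hT S hS).1 (hT S hS).2)
  rcases hm with ⟨g, hg⟩ | ⟨f, hf1, hf2, hf3, -⟩
  · left
    refine ⟨g, fun S hS => ?_⟩
    obtain ⟨n, hn⟩ := hg S hS
    exact ⟨n, OT4.iso_of_equiv hn⟩
  · right
    exact ⟨f, hf1, fun x y hxy => hf2 x y (OT4.equiv_of_iso hf hxy), hf3⟩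

end Pool.Agent.GRK
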