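import Pool.Agent.GRK.StE
import Pool.Agent.GRK.StB
import Pool.Agent.GRK.Base

/-!
MNO: [PCC] countably many parts of a piece over the empty set.
-/

set_option autoImplicit false
set_option linter.unusedVariables false

namespace Pool.Agent.GRK

open FirstOrder.Language Set
open scoped FirstOrder
open Pool.Agent.WOM (tp Mon IsEl IsoM CtU Fx Orb)
open Pool.Agent.PMC (Ini ct Dc cel Sin Nd Ct lts ext XS Ex Fa Ll LL Itv Sm Md NPf def_mono)

/-- definable points belong to the submodels -/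
private theorem PCC_mem {L : FirstOrder.Language.{0, 0}} {U : Type} [L.Structure U] {B M : Set U}
    {v : U} (hM : Md L B M) (hv : ¬ Nd L B v) : v ∈ M := by
  have h1 : B.Definable₁ L {v} := not_not.1 hv
  obtain ⟨w, hw, hwM⟩ := hM.1 {v} (def_mono hM.2 h1) ⟨v, rfl⟩
  rw [Set.mem_singleton_iff.1 hw] at hwM
  exact hwM

theorem thm_PCC (hTWO : St_TWO) (hEXB : St_EXB) (hXSP : St_XSP) (hXTY : St_XTY) (hINN : St_INN)
    (hSMN : St_SMN) : St_PCC := by
  classical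
  intro L U _ κ ι R o S hC hN hF z
  obtain ⟨s1, s2, s3, -, s5, s6, -, -⟩ := hSMN L U κ ι R o S hC
  obtain ⟨j0⟩ := hC.ne
  have : Countable U := hC.mon.ctb
  by_cases hz : Nd L (∅ : Set U) z
  swap
  · -- a definable point
    refine ⟨fun _ => Set.univ, fun M hM => ⟨0, ?_⟩⟩
    have h1 : z ∈ M := PCC_mem ⟨hM, Set.empty_subset _⟩ hz
    rw [pc_def hC hz, Set.univ_inter, Set.inter_eq_right.2 (Set.singleton_subset_iff.2 h1)]
    exact s1 _ _
  -- the extreme pieces and the sequences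
  have key : ∀ x : U, ∃ (y1 y2 : U) (c1 c2 : ℕ → Set U), Nd L (∅ : Set U) x →
      (∀ v ∈ Pc L R o S ∅ x, v ∈ XS L R o ∅ (insert x ∅) →
        v ∈ Pc L R o S (insert x ∅) y1 ∨ v ∈ Pc L R o S (insert x ∅) y2) ∧
      (∀ M : Set U, Md L (insert x ∅) M → ∃ n, SmN L (insert x ∅)
        (M ∩ Pc L R o S (insert x ∅) y1) (c1 n ∩ Pc L R o S (insert x ∅) y1)) ∧
      ∀ M : Set U, Md L (insert x ∅) M → ∃ n, SmN L (insert x ∅)
        (M ∩ Pc L R o S (insert x ∅) y2) (c2 n ∩ Pc L R o S (insert x ∅) y2) := by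
    intro x
    by_cases hnd : Nd L (∅ : Set U) x
    swap
    · exact ⟨x, x, fun _ => ∅, fun _ => ∅, fun h => absurd h hnd⟩
    have hBf : (insert x (∅ : Set U)).Finite := Set.finite_empty.insert x
    have hX : ∀ b, ∃ y, y ∈ ext L R o b (insert x ∅) j0 (cel L R o ∅ j0 x) ∧
        y ∈ Pc L R o S ∅ x ∧ y ∈ XS L R o ∅ (insert x ∅) := by
      intro b
      obtain ⟨⟨y, hy⟩, -⟩ := hEXB L U κ ι R o S hC ∅ (insert x ∅) j0 x b (Set.empty_subset _) hBf hnd
      have hyc : y ∈ cel L R o ∅ j0 x := hy.1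
      refine ⟨y, hy, cel_sub_pc hC Set.finite_empty j0 x hyc, ?_⟩
      refine (hXSP L U κ ι R o S hC ∅ (insert x ∅) (Set.empty_subset _) hBf).1 y j0 b
        (nd_cel hC hnd hyc) ?_
      rw [cel_eq hyc]
      exact hy
    obtain ⟨y1, hy1, hp1, hx1⟩ := hX true
    obtain ⟨y2, hy2, hp2, hx2⟩ := hX false
    obtain ⟨c1, hc1⟩ := hXTY L U κ ι R o S hC hN ∅ x y1 Set.finite_empty hnd hp1 hx1
    obtain ⟨c2, hc2⟩ := hXTY L U κ ι R o S hC hN ∅ x y2 Set.finite_empty hnd hp2 hx2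
    exact ⟨y1, y2, c1, c2, fun _ => ⟨(hTWO L U κ ι R o S hC ∅ (insert x ∅) x y1 y2 j0
      (Set.empty_subset _) hBf hnd hy1 hy2).1, hc1, hc2⟩⟩
  choose y1 y2 c1 c2 hkey using key
  -- the property of a model
  let T : U → ℕ → ℕ → Set U → Prop := fun x n1 n2 M => Md L (insert x ∅) M ∧
    SmN L (insert x ∅) (M ∩ Pc L R o S (insert x ∅) (y1 x)) (c1 x n1 ∩ Pc L R o S (insert x ∅) (y1 x)) ∧
    SmN L (insert x ∅) (M ∩ Pc L R o S (insert x ∅) (y2 x)) (c2 x n2 ∩ Pc L R o S (insert x ∅) (y2 x))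
  have hclaim : ∀ x ∈ Pc L R o S ∅ z, ∀ n1 n2 M M', T x n1 n2 M → T x n1 n2 M' →
      SmN L ∅ (M ∩ Pc L R o S ∅ z) (M' ∩ Pc L R o S ∅ z) := by
    intro x hx n1 n2 M M' hM hM'
    have hBf : (insert x (∅ : Set U)).Finite := Set.finite_empty.insert x
    have hnd : Nd L (∅ : Set U) x := (pc_nd hC hx).2 hz
    refine (s5 ∅ (insert x ∅) _ _ (Set.empty_subset _)
      (s6 (insert x ∅) (Pc L R o S ∅ z) M M' hBf (cls_anti (Set.empty_subset _) (cls_pc _ _)) fun v hv => ?_)).1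
    by_cases hvB : Nd L (insert x ∅) v
    swap
    · rw [pc_def hC hvB, Set.inter_eq_right.2 (Set.singleton_subset_iff.2 (PCC_mem hM.1 hvB)),
        Set.inter_eq_right.2 (Set.singleton_subset_iff.2 (PCC_mem hM'.1 hvB))]
      exact s1 _ _
    have hvx : v ∈ Pc L R o S ∅ x := by
      rw [pc_eq hx]
      exact hv
    by_cases hvX : v ∈ XS L R o ∅ (insert x ∅)
    · rcases (hkey x hnd).1 v hvx hvX with h | h
      · rw [pc_eq h]
        exact s3 _ _ _ _ hM.2.1 (s2 _ _ _ hM'.2.1)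
      · rw [pc_eq h]
        exact s3 _ _ _ _ hM.2.2 (s2 _ _ _ hM'.2.2)
    · have hr := hINN L U κ ι R o S hC hN hF ∅ x v Set.finite_empty hnd hvx hvB hvX
      exact s3 _ _ _ _ (hr M hM.1) (s2 _ _ _ (hr M' hM'.1))
  -- the sequence
  obtain ⟨e, he⟩ := exists_surjective_nat (Option (U × ℕ × ℕ))
  let F : Option (U × ℕ × ℕ) → Set U := fun t => match t with
    | none => ∅
    | some (x, n1, n2) => if h : ∃ M, T x n1 n2 M then h.choose else ∅
  refine ⟨fun n => F (e n), fun M hM => ?_⟩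
  by_cases hne : (M ∩ Pc L R o S ∅ z).Nonempty
  · obtain ⟨x, hxM, hx⟩ := hne
    have hnd : Nd L (∅ : Set U) x := (pc_nd hC hx).2 hz
    have hMd : Md L (insert x ∅) M :=
      ⟨hM, Set.insert_subset hxM (Set.empty_subset _)⟩
    obtain ⟨-, h2, h3⟩ := hkey x hnd
    obtain ⟨n1, hn1⟩ := h2 M hMd
    obtain ⟨n2, hn2⟩ := h3 M hMd
    have hTM : T x n1 n2 M := ⟨hMd, hn1, hn2⟩
    have hex : ∃ M, T x n1 n2 M := ⟨M, hTM⟩
    obtain ⟨n, hn⟩ := he (some (x, n1, n2))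
    refine ⟨n, ?_⟩
    have h4 : F (e n) = hex.choose := by
      rw [hn]
      show (if h : ∃ M, T x n1 n2 M then h.choose else ∅) = _
      rw [dif_pos hex]
    show SmN L ∅ _ (F (e n) ∩ _)
    rw [h4]
    exact hclaim x hx n1 n2 M _ hTM hex.choose_spec
  · obtain ⟨n, hn⟩ := he none
    refine ⟨n, ?_⟩
    have h4 : F (e n) = ∅ := by rw [hn]
    show SmN L ∅ _ (F (e n) ∩ _)
    rw [h4, Set.not_nonempty_iff_eq_empty.1 hne, Set.empty_inter]
    exact s1 _ _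

end Pool.Agent.GRK
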