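import Pool.Agent.GRK.NBase
import Pool.Agent.GRK.StA

/-!
GRK, MP_5df2c5_lc: module PRD (gluing along unions of pieces).
-/

set_option autoImplicit false
set_option linter.unusedVariables false

namespace Pool.Agent.GRK

open FirstOrder.Language Set
open scoped FirstOrder
open Pool.Agent.WOM (tp Mon IsEl IsoM CtU Fx Orb)
open Pool.Agent.PMC (Ini ct Dc cel Sin Nd Ct lts ext XS Ex Fa Ll LL Itv Sm Md NPf)

/-- [PRD] -/
theorem thm_PRD (hUNL : St_UNL) : St_PRD := by
  classical
  intro L U _ κ ι R o S hC A Q hA hQ g hg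
  have hfg : Fx L A g := nx_fx hg
  have hfs : Fx L A g.symm := nx_fx (nx_symm hg)
  have hgQ : ∀ x, g x ∈ Q ↔ x ∈ Q := cls_fx hC hA hQ hfg
  have hsQ : ∀ x, g.symm x ∈ Q ↔ x ∈ Q := cls_fx hC hA hQ hfs
  let e : U ≃ U :=
    { toFun := fun x => if x ∈ Q then g x else x
      invFun := fun x => if x ∈ Q then g.symm x else x
      left_inv := by
        intro x
        by_cases hx : x ∈ Q
        · simp only [if_pos hx, if_pos ((hgQ x).2 hx)]
          exact g.symm_apply_apply x
        · simp only [if_neg hx]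
      right_inv := by
        intro x
        by_cases hx : x ∈ Q
        · simp only [if_pos hx, if_pos ((hsQ x).2 hx)]
          exact g.apply_symm_apply x
        · simp only [if_neg hx] }
  have he1 : ∀ x ∈ Q, e x = g x := fun x hx => if_pos hx
  have he2 : ∀ x ∉ Q, e x = x := fun x hx => if_neg hx
  have hS : ∀ i x y, S i (e x) (e y) ↔ S i x y := by
    intro i x y
    by_cases hx : x ∈ Q
    · by_cases hy : y ∈ Q
      · rw [he1 x hx, he1 y hy]
        exact S_img hC i x y g
      · rw [he1 x hx, he2 y hy]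
        have hn : ¬ Lk L R o S A x y := fun h => hy ((hQ x y h).1 hx)
        exact (hUNL L U κ ι R o S hC A x y hA hn g _ hg (nx_refl A) i).1
    · by_cases hy : y ∈ Q
      · rw [he2 x hx, he1 y hy]
        have hn : ¬ Lk L R o S A y x := fun h => hx ((hQ y x h).1 hy)
        exact (hUNL L U κ ι R o S hC A y x hA hn g _ hg (nx_refl A) i).2
      · rw [he2 x hx, he2 y hy]
  obtain ⟨h, hh⟩ := hC.det e hS (fun x => by
    by_cases hx : x ∈ Q
    · exact ⟨g, (he1 x hx).symm⟩
    · exact ⟨FirstOrder.Language.Equiv.refl L U, (he2 x hx).symm⟩)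
  refine ⟨h, nx_glue fun x => ?_, fun x hx => by rw [hh, he1 x hx],
    fun x hx => by rw [hh, he2 x hx]⟩
  by_cases hx : x ∈ Q
  · exact ⟨g, hg, by rw [hh, he1 x hx]⟩
  · exact ⟨FirstOrder.Language.Equiv.refl L U, nx_refl A, by rw [hh, he2 x hx]; rfl⟩

end Pool.Agent.GRK
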