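import Pool.Agent.GRK.StB
import Pool.Agent.GRK.StE
import Pool.Agent.GRK.NBase

/-!
MNO: ordered sums of intervals are elementary submodels (block SUM); text of `Pool/Agent/PMC/SUM.lean`
with `Nx` in place of `Fx`, a model `M0` outside of the good piece, and case (b) by compactness.
-/

set_option autoImplicit false
set_option linter.unusedVariables false

namespace Pool.Agent.GRK

open FirstOrder.Language Set
open scoped FirstOrder
open Pool.Agent.WOM (tp Mon IsEl IsoM CtU Fx Orb)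
open Pool.Agent.PMC (Ini ct Dc cel Sin Nd Ct lts ext XS Ex Fa Ll LL Itv Sm Md NPf fx_refl fx_symm
  fx_comp fx_mono comp_apply' def_img def_mono def_compl isEl_of_orb mem_orb)

private theorem SUM_def {L : FirstOrder.Language.{0, 0}} {U : Type} [L.Structure U] {A : Set U}
    {y : U} (hy : y ∈ A) : A.Definable₁ L {y} := by
  have hs : ({y} : Set U).Definable₁ L {y} := by
    unfold Set.Definable₁
    rw [Set.definable_iff_exists_formula_sum]
    refine ⟨(FirstOrder.Language.Term.var (Sum.inr 0)).equal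
      (FirstOrder.Language.Term.var (Sum.inl ⟨y, rfl⟩)), ?_⟩
    ext v
    simp [FirstOrder.Language.Formula.realize_equal]
  exact Set.Definable.mono hs (by simpa using hy)

/-- finitely many finite equivalence relations -/
private theorem SUM_inf {L : FirstOrder.Language.{0, 0}} {U : Type} [L.Structure U] {A : Set U}
    (h1 : FE L A (fun _ _ : U => True))
    (h2 : ∀ F F' : U → U → Prop, FE L A F → FE L A F' → FE L A (fun x y => F x y ∧ F' x y))
    (x : U) {G : Set (Set U)} (hG : G.Finite) :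
    ∃ F : U → U → Prop, FE L A F ∧ ∀ s ∈ G, (∃ F', FE L A F' ∧ s = {y | F' x y}) →
      ∀ y, F x y → y ∈ s := by
  classical
  induction G, hG using Set.Finite.induction_on with
  | empty => exact ⟨_, h1, fun s hs => absurd hs (notMem_empty s)⟩
  | @insert a t _ _ ih =>
    obtain ⟨F, hF, hF'⟩ := ih
    by_cases ha : ∃ F', FE L A F' ∧ a = {y | F' x y}
    · obtain ⟨F', hF1, hF2⟩ := ha
      refine ⟨_, h2 F F' hF hF1, ?_⟩
      rintro s (rfl | hs) hs' y hy
      · rw [hF2]
        exact hy.2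
      · exact hF' s hs hs' y hy.1
    · refine ⟨F, hF, ?_⟩
      rintro s (rfl | hs) hs' y hy
      · exact absurd hs' ha
      · exact hF' s hs hs' y hy

/-- [SUM] -/
theorem thm_SUM (hFE : St_FE1) (hPRD : St_PRD) (hFAI : St_FAI) (hORD : St_ORD)
    (hORT : St_ORT) : St_SUM := by
  classical
  intro L U _ κ ι R o S hC A E sg hO D _ D0 M0 M p q g hgN hM0 hM hp hq hpq hrich
  have hgA : ∀ d, Fx L A (g d) := fun d => (hgN d).1
  obtain ⟨E1, E2, -, E4, E5, -, -, -⟩ := hFE L U κ ι R o S hC A hO.fin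
  obtain ⟨-, F2, F3, -, -, -, -, -⟩ := hFAI L U κ ι R o S hC A E sg hO
  obtain ⟨O1, O2, O3, O4, -, -⟩ := hORD L U κ ι R o S hC A E sg hO
  obtain ⟨-, -, T3, -⟩ := hORT L U κ ι R o S hC A E sg hO
  let lt : U → U → Prop := Ll L R o A sg
  let P : D → Set U := fun d => (g d) '' Itv L R o A E sg (M d) (p d) (q d)
  have hlt : ∀ x y, lt x y ↔ Ll L R o A sg x y := fun _ _ => Iff.rfl
  have asym : ∀ x ∈ E, ∀ y ∈ E, lt x y → ¬ lt y x := fun x hx y hy h h' =>
    O2 x hx true (O4 x hx y hy x hx h h')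
  have hE : ∀ h : U ≃[L] U, Fx L A h → ∀ x, h x ∈ E ↔ x ∈ E := fun h hh => (F3 h hh).1
  have hL : ∀ h : U ≃[L] U, Fx L A h → ∀ x ∈ E, ∀ y ∈ E, (lt (h x) (h y) ↔ lt x y) :=
    fun h hh x hx y hy => (F3 h hh).2 x hx y hy true
  have hAE : ∀ a ∈ A, a ∉ E := fun a ha haE => hO.nd a haE (SUM_def ha)
  -- the blocks
  have hPE : ∀ d, ∀ x ∈ P d, x ∈ E := by
    rintro d x ⟨z, hz, rfl⟩
    exact (hE _ (hgA d) z).2 hz.2.1
  have hgp : ∀ d, g d (p d) ∈ E := fun d => (hE _ (hgA d) _).2 (hp d).2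
  have hgq : ∀ d, g d (q d) ∈ E := fun d => (hE _ (hgA d) _).2 (hq d).2
  have hPp : ∀ d, ∀ x ∈ P d, ¬ lt x (g d (p d)) := by
    rintro d x ⟨z, hz, rfl⟩ h
    exact hz.2.2.1 ((hL _ (hgA d) z hz.2.1 _ (hp d).2).1 h)
  have hPq : ∀ d, ∀ x ∈ P d, ¬ lt (g d (q d)) x := by
    rintro d x ⟨z, hz, rfl⟩ h
    exact hz.2.2.2 ((hL _ (hgA d) _ (hq d).2 z hz.2.1).1 h)
  have hPP : ∀ d d', d < d' → ∀ x ∈ P d, ∀ y ∈ P d', lt x y := by
    intro d d' hdd x hx y hy
    have h1 : lt x (g d' (p d')) := by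
      rcases O3 _ (hgq d) _ (hgp d') (hpq d d' hdd) x (hPE d x hx) with h | h
      · exact absurd h (hPq d x hx)
      · exact h
    rcases O3 x (hPE d x hx) _ (hgp d') h1 y (hPE d' y hy) with h | h
    · exact h
    · exact absurd h (hPp d' y hy)
  -- the set
  have hAX : A ⊆ (M0 \ E) ∪ ⋃ d, P d := fun a ha => Or.inl ⟨hM0.2 ha, hAE a ha⟩
  change IsEl L ((M0 \ E) ∪ ⋃ d, P d)
  refine isEl_of_orb hC.mon hO.fin hAX ?_
  intro B hBf hAB hBX x hdef
  -- blocks of the parameters
  have hBE : ∀ b ∈ B, b ∈ E → ∃ d, b ∈ P d := by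
    intro b hb hbE
    rcases hBX hb with h | h
    · exact absurd hbE h.2
    · exact mem_iUnion.1 h
  -- gluing: an automorphism which fixes `B ∩ E`
  have glue : ∀ (k : U ≃[L] U), Nx L A k → (∀ b ∈ B, b ∈ E → k b = b) → ∀ v ∈ E,
      v ∈ Orb L B x → k v ∈ Orb L B x := by
    rintro k hk hkB v hvE ⟨r, hr, hrv⟩
    obtain ⟨k', hk'A, hk'E, hk'⟩ := hPRD L U κ ι R o S hC A E hO.fin hO.clo k hk
    refine ⟨k'.comp r, fx_comp ?_ hr, ?_⟩
    · intro b hb
      by_cases hbE : b ∈ E
      · rw [hk'E b hbE, hkB b hb hbE]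
      · exact hk' b hbE
    · rw [comp_apply', hrv]
      exact hk'E v hvE
  have hxO : x ∈ Orb L B x := mem_orb B x
  by_cases hxE : x ∉ E
  · -- case (0)
    let B0 : Set U := A ∪ {b | b ∈ B ∧ b ∉ E}
    have hB0B : B0 ⊆ B := by
      rintro b (hb | hb)
      · exact hAB hb
      · exact hb.1
    have hB0M : B0 ⊆ M0 := by
      rintro b (hb | hb)
      · exact hM0.2 hb
      · rcases hBX hb.1 with h | h
        · exact h.1
        · obtain ⟨d, hd⟩ := mem_iUnion.1 h
          exact absurd (hPE d b hd) hb.2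
    have hOE : ∀ y ∈ Orb L B x, y ∉ E := by
      rintro y ⟨r, hr, rfl⟩ hy
      exact hxE ((hE r (fx_mono hAB hr) x).1 hy)
    obtain ⟨y, hyM, hyO⟩ := nx_meets hC.mon (hBf.subset hB0B) hBf hdef (by
      rintro h hh y hy
      obtain ⟨k', hk'A, hk'E, hk'⟩ := hPRD L U κ ι R o S hC A Eᶜ hO.fin (cls_compl hO.clo) h
        (nx_mono subset_union_left hh)
      obtain ⟨r, hr, hry⟩ := hy
      refine ⟨k'.comp r, fx_comp ?_ hr, ?_⟩
      · intro b hb
        by_cases hbE : b ∈ E
        · exact hk' b (fun h' => h' hbE)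
        · rw [hk'E b hbE]
          exact hh.1 b (Or.inr ⟨hb, hbE⟩)
      · rw [comp_apply', hry]
        exact hk'E y (hOE y ⟨r, hr, hry⟩)) (⟨hM0.1, hB0M⟩ : Md L B0 M0) ⟨x, hxO⟩
    exact ⟨y, Or.inl ⟨hyM, hOE y hyO⟩, hyO⟩
  rw [not_not] at hxE
  have hOE : ∀ y ∈ Orb L B x, y ∈ E := by
    rintro y ⟨r, hr, rfl⟩
    exact (hE r (fx_mono hAB hr) x).2 hxE
  by_cases hcase : ∃ d, ∃ y ∈ B, y ∈ P d ∧ ∃ y' ∈ B, y' ∈ P d ∧ ¬ lt x y ∧ ¬ lt y' x
  · -- case (a)
    obtain ⟨d, y, hyB, hyP, y', hy'B, hy'P, hxy, hy'x⟩ := hcase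
    let Dn : Set U := {b | b ∈ B ∧ ∃ c, c < d ∧ b ∈ P c}
    let Vn : Set U := {b | b ∈ B ∧ ∃ c, d < c ∧ b ∈ P c}
    let Bd : Set U := {b | b ∈ B ∧ b ∈ P d}
    have hDf : Dn.Finite := hBf.subset fun b hb => hb.1
    have hVf : Vn.Finite := hBf.subset fun b hb => hb.1
    have hBdf : Bd.Finite := hBf.subset fun b hb => hb.1
    have hDE : Dn ⊆ E := by
      rintro b ⟨-, c, -, hb⟩
      exact hPE c b hb
    have hVE : Vn ⊆ E := by
      rintro b ⟨-, c, -, hb⟩
      exact hPE c b hb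
    have hBdE : Bd ⊆ E := fun b hb => hPE d b hb.2
    have hyE := hPE d y hyP
    have hy'E := hPE d y' hy'P
    have hlow : ∀ z ∈ E, ¬ lt z y → ∀ b ∈ Dn, lt b z := by
      rintro z hz hzy b ⟨-, c, hc, hb⟩
      rcases O3 b (hPE c b hb) y hyE (hPP c d hc b hb y hyP) z hz with h | h
      · exact h
      · exact absurd h hzy
    have hhigh : ∀ z ∈ E, ¬ lt y' z → ∀ b ∈ Vn, lt z b := by
      rintro z hz hyz b ⟨-, c, hc, hb⟩
      rcases O3 y' hy'E b (hPE c b hb) (hPP d c hc y' hy'P b hb) z hz with h | h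
      · exact absurd h hyz
      · exact h
    have hDV : LL L R o A sg Dn Vn := by
      rintro b ⟨-, c, hc, hb⟩ b' ⟨-, c', hc', hb'⟩
      exact hPP c c' (hc.trans hc') b hb b' hb'
    let B' : Set U := A ∪ Bd
    have hB'B : B' ⊆ B := by
      rintro b (hb | hb)
      · exact hAB hb
      · exact hb.1
    have hB'f : B'.Finite := hO.fin.union hBdf
    -- position of the points of the orbit
    have hpos : ∀ v ∈ Orb L B x, ¬ lt v y ∧ ¬ lt y' v := by
      rintro v ⟨r, hr, rfl⟩
      have hrA : Fx L A r := fx_mono hAB hr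
      constructor
      · intro h1
        rw [← hr y hyB] at h1
        exact hxy ((hL r hrA x hxE y hyE).1 h1)
      · intro h1
        rw [← hr y' hy'B] at h1
        exact hy'x ((hL r hrA y' hy'E x hxE).1 h1)
    have key : ∀ h : U ≃[L] U, Nx L B' h → ∀ v ∈ Orb L B x, h v ∈ Orb L B x := by
      intro h hh v hv
      have hhA : Nx L A h := nx_mono subset_union_left hh
      have hhy : h y = y := hh.1 y (Or.inr ⟨hyB, hyP⟩)
      have hhy' : h y' = y' := hh.1 y' (Or.inr ⟨hy'B, hy'P⟩)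
      have hvE : v ∈ E := hOE v hv
      have hhvE : h v ∈ E := (hE h hhA.1 v).2 hvE
      obtain ⟨m1, m2⟩ := hpos v hv
      have n1 : ¬ lt (h v) y := by
        intro h1
        rw [← hhy] at h1
        exact m1 ((hL h hhA.1 v hvE y hyE).1 h1)
      have n2 : ¬ lt y' (h v) := by
        intro h1
        rw [← hhy'] at h1
        exact m2 ((hL h hhA.1 y' hy'E v hvE).1 h1)
      have hMf : (insert v Bd).Finite := hBdf.insert v
      have hME : insert v Bd ⊆ E := insert_subset hvE hBdE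
      have hDM : LL L R o A sg Dn (insert v Bd) := by
        intro b hb w hw
        rcases hw with rfl | hw
        · exact hlow w hvE m1 b hb
        · obtain ⟨-, c, hc, hb'⟩ := hb
          exact hPP c d hc b hb' w hw.2
      have hMV : LL L R o A sg (insert v Bd) Vn := by
        intro w hw b hb
        rcases hw with rfl | hw
        · exact hhigh w hvE m2 b hb
        · obtain ⟨-, c, hc, hb'⟩ := hb
          exact hPP d c hc w hw.2 b hb'
      have hfixBd : ∀ b ∈ Bd, h b = b := fun b hb => hh.1 b (Or.inr hb)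
      have hD2 : LL L R o A sg Dn (h '' insert v Bd) := by
        rintro b hb _ ⟨w, hw, rfl⟩
        rcases hw with rfl | hw
        · exact hlow _ hhvE n1 b hb
        · rw [hfixBd w hw]
          exact hDM b hb w (Or.inr hw)
      have hV2 : LL L R o A sg (h '' insert v Bd) Vn := by
        rintro _ ⟨w, hw, rfl⟩ b hb
        rcases hw with rfl | hw
        · exact hhigh _ hhvE n2 b hb
        · rw [hfixBd w hw]
          exact hMV w (Or.inr hw) b hb
      obtain ⟨k, hk, hkD, hkV, hkM⟩ := T3 Dn (insert v Bd) Vn hDf hMf hVf hDE hME hVE hDV hDM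
        hMV h hhA hD2 hV2
      rw [← hkM v (mem_insert _ _)]
      refine glue k hk (fun b hb hbE => ?_) v hvE hv
      obtain ⟨c, hc⟩ := hBE b hb hbE
      rcases lt_trichotomy c d with h1 | h1 | h1
      · exact hkD b ⟨hb, c, h1, hc⟩
      · subst h1
        rw [hkM b (Or.inr ⟨hb, hc⟩)]
        exact hfixBd b ⟨hb, hc⟩
      · exact hkV b ⟨hb, c, h1, hc⟩
    have hAg : ∀ a ∈ A, (g d).symm a = a := fun a ha => fx_symm (hgA d) a ha
    have hsubM : (g d).symm '' B' ⊆ M d := by
      rintro _ ⟨b, hb, rfl⟩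
      rcases hb with hb | hb
      · rw [hAg b hb]
        exact (hM d).2 hb
      · obtain ⟨z, hz, hzb⟩ := hb.2
        rw [← hzb, FirstOrder.Language.Equiv.symm_apply_apply]
        exact hz.1
    obtain ⟨w, hwM, hw⟩ := nx_meets hC.mon (hB'f.image (g d).symm) (hBf.image (g d).symm)
      (def_img hC.mon (g d).symm hdef) (by
      rintro h hh _ ⟨v, hv, rfl⟩
      have h1 := nx_conj hC.mon (g d) hh
      rw [img_img_symm] at h1
      refine ⟨_, key _ h1 v hv, ?_⟩
      rw [comp_apply', comp_apply', FirstOrder.Language.Equiv.symm_apply_apply])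
      (⟨(hM d).1, hsubM⟩ : Md L ((g d).symm '' B') (M d)) ⟨_, x, hxO, rfl⟩
    obtain ⟨v, hv, hvw⟩ := hw
    have hgw : g d w = v := by
      rw [← hvw, FirstOrder.Language.Equiv.apply_symm_apply]
    obtain ⟨k2, k3⟩ := hpos v hv
    have hvE : v ∈ E := hOE v hv
    have hwE : w ∈ E := by
      rw [← hE (g d) (hgA d) w, hgw]
      exact hvE
    refine ⟨v, Or.inr (mem_iUnion.2 ⟨d, w, ⟨hwM, hwE, ?_, ?_⟩, hgw⟩), hv⟩
    · intro h1
      have h2 : lt v (g d (p d)) := by
        rw [← hgw]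
        exact (hL (g d) (hgA d) w hwE _ (hp d).2).2 h1
      rcases O3 v hvE _ (hgp d) h2 y hyE with h3 | h3
      · exact k2 h3
      · exact hPp d y hyP h3
    · intro h1
      have h2 : lt (g d (q d)) v := by
        rw [← hgw]
        exact (hL (g d) (hgA d) _ (hq d).2 w hwE).2 h1
      rcases O3 _ (hgq d) v hvE h2 y' hy'E with h3 | h3
      · exact hPq d y' hy'P h3
      · exact k3 h3
  · -- case (b)
    have hno : ∀ d, ∀ y ∈ B, y ∈ P d → ∀ y' ∈ B, y' ∈ P d → lt x y ∨ lt y' x := by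
      intro d y hy hyP y' hy' hy'P
      by_contra hcon
      rw [not_or] at hcon
      exact hcase ⟨d, y, hy, hyP, y', hy', hy'P, hcon.1, hcon.2⟩
    let Lo : Set U := {b | b ∈ B ∧ b ∈ E ∧ lt b x}
    let Hi : Set U := {b | b ∈ B ∧ b ∈ E ∧ lt x b}
    have hLf : Lo.Finite := hBf.subset fun b hb => hb.1
    have hHf : Hi.Finite := hBf.subset fun b hb => hb.1
    have hdich : ∀ b ∈ B, b ∈ E → b ∈ Lo ∨ b ∈ Hi := by
      intro b hb hbE
      obtain ⟨d, hd⟩ := hBE b hb hbE
      rcases hno d b hb hd b hb hd with h | h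
      · exact Or.inr ⟨hb, hbE, h⟩
      · exact Or.inl ⟨hb, hbE, h⟩
    obtain ⟨j⟩ := hC.ne
    have hKE : ∀ y ∈ cel L R o A j x, y ∈ E := fun y hy =>
      (cls_cel hC hO.fin hO.clo hy).2 hxE
    -- the claim
    have claim : ∃ F, FE L A F ∧ ∀ y ∈ cel L R o A j x, F x y → (∀ b ∈ Lo, lt b y) →
        (∀ b ∈ Hi, lt y b) → y ∈ Orb L B x := by
      by_contra hcon
      have hneg : ∀ F, FE L A F → ∃ y ∈ cel L R o A j x, F x y ∧ (∀ b ∈ Lo, lt b y) ∧
          (∀ b ∈ Hi, lt y b) ∧ y ∉ Orb L B x := by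
        intro F hF
        by_contra h
        refine hcon ⟨F, hF, fun y hy h1 h2 h3 => ?_⟩
        by_contra h4
        exact h ⟨y, hy, h1, h2, h3, h4⟩
      let Fam : Set (Set U) := {s | (∃ F', FE L A F' ∧ s = {y | F' x y}) ∨ s = (Orb L B x)ᶜ ∨
        (∃ b ∈ Lo, ∃ C, Dc L R o (insert b A) j C ∧ Sin C (cel L R o A j x) ∧
          s = {y | y ∈ C ↔ sg (o j) x ≠ true}) ∨
        (∃ b ∈ Hi, ∃ C, Dc L R o (insert b A) j C ∧ Sin C (cel L R o A j x) ∧
          s = {y | y ∈ C ↔ sg (o j) x ≠ false})}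
      have hside : ∀ (b : U) (C : Set U) (pr : Prop), b ∈ B → Dc L R o (insert b A) j C →
          (insert x B).Definable₁ L {y | y ∈ C ↔ pr} := by
        intro b C pr hb hCd
        have h1 : (insert x B).Definable₁ L C := def_mono (insert_subset
          (mem_insert_of_mem x hb) (hAB.trans (subset_insert x B))) hCd.1
        by_cases hpr : pr
        · have h2 : {y | y ∈ C ↔ pr} = C := by
            ext y
            simp [hpr]
          rw [h2]
          exact h1
        · have h2 : {y | y ∈ C ↔ pr} = Cᶜ := by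
            ext y
            simp [hpr]
          rw [h2]
          exact def_compl h1
      obtain ⟨y, hyK, hyF⟩ := sat_cel hC (A := A) (B := insert x B) (hBf.insert x)
        (hAB.trans (subset_insert x B)) (j := j) (z := x) (F := Fam) (by
        rintro s (⟨F', hF', rfl⟩ | rfl | ⟨b, hb, C, h1, h2, rfl⟩ | ⟨b, hb, C, h1, h2, rfl⟩)
        · exact def_mono (insert_subset_insert hAB) (E5 F' hF' x)
        · exact def_mono (subset_insert x B) (def_compl hdef)
        · exact hside b C _ hb.1 h1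
        · exact hside b C _ hb.1 h1) (by
        intro G hG hGf
        obtain ⟨F, hF, hFG⟩ := SUM_inf E1 E2 x hGf
        obtain ⟨y, hy, hFy, h1, h2, h3⟩ := hneg F hF
        have hsg : sg (o j) y = sg (o j) x := hO.cst j x hxE y hy
        have hcy : cel L R o A j y = cel L R o A j x := cel_eq hy
        refine ⟨y, hy, fun s hs => ?_⟩
        rcases hG hs with h4 | h4 | ⟨b, hb, C, h4, h5, h6⟩ | ⟨b, hb, C, h4, h5, h6⟩
        · exact hFG s hs h4 y hFy
        · rw [h4]
          exact h3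
        · rw [h6]
          have h7 := h1 b hb j C h4 (by rw [hcy]; exact h5)
          rw [hsg] at h7
          exact h7
        · rw [h6]
          have h7 := (O1 y (hKE y hy) b hb.2.1 true).1 (h2 b hb) j C h4 (by rw [hcy]; exact h5)
          rw [hsg] at h7
          exact h7)
      have hyE : y ∈ E := hKE y hyK
      have hsg : sg (o j) y = sg (o j) x := hO.cst j x hxE y hyK
      have hcy : cel L R o A j y = cel L R o A j x := cel_eq hyK
      have hyLo : ∀ b ∈ Lo, lt b y := by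
        intro b hb
        refine F2 b hb.2.1 y hyE true j ?_
        intro C h1 h2
        rw [hcy] at h2
        rw [hsg]
        exact hyF _ (Or.inr (Or.inr (Or.inl ⟨b, hb, C, h1, h2, rfl⟩)))
      have hyHi : ∀ b ∈ Hi, lt y b := by
        intro b hb
        refine (O1 y hyE b hb.2.1 true).2 ?_
        refine F2 b hb.2.1 y hyE false j ?_
        intro C h1 h2
        rw [hcy] at h2
        rw [hsg]
        exact hyF _ (Or.inr (Or.inr (Or.inr ⟨b, hb, C, h1, h2, rfl⟩)))
      obtain ⟨h, hh, hhx⟩ := E4 x y (fun F hF => hyF _ (Or.inl ⟨F, hF, rfl⟩))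
      obtain ⟨k, hk, hkD, hkV, hkM⟩ := T3 Lo {x} Hi hLf (finite_singleton x) hHf
        (fun b hb => hb.2.1) (singleton_subset_iff.2 hxE) (fun b hb => hb.2.1)
        (fun b hb b' hb' => O4 b hb.2.1 x hxE b' hb'.2.1 hb.2.2 hb'.2.2)
        (by
          rintro b hb v hv
          rw [mem_singleton_iff] at hv
          subst hv
          exact hb.2.2)
        (by
          rintro v hv b hb
          rw [mem_singleton_iff] at hv
          subst hv
          exact hb.2.2) h hh
        (by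
          rintro b hb _ ⟨v, hv, rfl⟩
          rw [mem_singleton_iff] at hv
          subst hv
          rw [hhx]
          exact hyLo b hb)
        (by
          rintro _ ⟨v, hv, rfl⟩ b hb
          rw [mem_singleton_iff] at hv
          subst hv
          rw [hhx]
          exact hyHi b hb)
      have hyO : y ∈ Orb L B x := by
        rw [← hhx, ← hkM x (mem_singleton x)]
        refine glue k hk (fun b hb hbE => ?_) x hxE hxO
        rcases hdich b hb hbE with h1 | h1
        · exact hkD b h1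
        · exact hkV b h1
      exact hyF _ (Or.inr (Or.inl rfl)) hyO
    obtain ⟨F, hF, hclaim⟩ := claim
    obtain ⟨r1, r2, r3, r4⟩ := hrich x hxE F hF j
    -- indices
    have hidx : ∃ idx : U → D, ∀ b ∈ B, b ∈ E → b ∈ P (idx b) := by
      obtain ⟨c0, -, -⟩ := r1
      refine ⟨fun b => if h : ∃ d, b ∈ P d then h.choose else c0, fun b hb hbE => ?_⟩
      have h := hBE b hb hbE
      simp only [dif_pos h]
      exact h.choose_spec
    obtain ⟨idx, hidx⟩ := hidx
    have hLH : ∀ b ∈ Lo, ∀ b' ∈ Hi, idx b < idx b' := by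
      intro b hb b' hb'
      have hbP := hidx b hb.1 hb.2.1
      have hb'P := hidx b' hb'.1 hb'.2.1
      rcases lt_trichotomy (idx b) (idx b') with h | h | h
      · exact h
      · exfalso
        rw [← h] at hb'P
        rcases hno (idx b) b hb.1 hbP b' hb'.1 hb'P with h1 | h1
        · exact asym x hxE b hb.2.1 h1 hb.2.2
        · exact asym x hxE b' hb'.2.1 hb'.2.2 h1
      · exfalso
        have h1 := hPP _ _ h b' hb'P b hbP
        have h2 : lt b b' := O4 b hb.2.1 x hxE b' hb'.2.1 hb.2.2 hb'.2.2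
        exact asym b hb.2.1 b' hb'.2.1 h2 h1
    have hc : ∃ c ∈ D0, (∀ b ∈ Lo, idx b < c) ∧ (∀ b ∈ Hi, c < idx b) ∧
        ∃ x' ∈ P c, x' ∈ cel L R o A j x ∧ F x x' := by
      rcases Lo.eq_empty_or_nonempty with hLe | hLn
      · rcases Hi.eq_empty_or_nonempty with hHe | hHn
        · obtain ⟨c, hc, hx'⟩ := r1
          refine ⟨c, hc, ?_, ?_, hx'⟩
          · intro b hb
            rw [hLe] at hb
            exact absurd hb (notMem_empty b)
          · intro b hb
            rw [hHe] at hb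
            exact absurd hb (notMem_empty b)
        · obtain ⟨b0, hb0, hmin⟩ := Set.exists_min_image Hi idx hHf hHn
          obtain ⟨c, hc, hlt', hx'⟩ := r2 (idx b0)
          refine ⟨c, hc, ?_, fun b hb => lt_of_lt_of_le hlt' (hmin b hb), hx'⟩
          intro b hb
          rw [hLe] at hb
          exact absurd hb (notMem_empty b)
      · obtain ⟨a0, ha0, hmax⟩ := Set.exists_max_image Lo idx hLf hLn
        rcases Hi.eq_empty_or_nonempty with hHe | hHn
        · obtain ⟨c, hc, hlt', hx'⟩ := r3 (idx a0)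
          refine ⟨c, hc, fun b hb => lt_of_le_of_lt (hmax b hb) hlt', ?_, hx'⟩
          intro b hb
          rw [hHe] at hb
          exact absurd hb (notMem_empty b)
        · obtain ⟨b0, hb0, hmin⟩ := Set.exists_min_image Hi idx hHf hHn
          obtain ⟨c, hc, hl1, hl2, hx'⟩ := r4 (idx a0) (idx b0) (hLH a0 ha0 b0 hb0)
          exact ⟨c, hc, fun b hb => lt_of_le_of_lt (hmax b hb) hl1,
            fun b hb => lt_of_lt_of_le hl2 (hmin b hb), hx'⟩
    obtain ⟨c, hcD, hcL, hcH, x', hx'P, hx'K, hx'F⟩ := hc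
    have hlo : ∀ b ∈ Lo, lt b x' := fun b hb =>
      hPP _ _ (hcL b hb) b (hidx b hb.1 hb.2.1) _ hx'P
    have hhi : ∀ b ∈ Hi, lt x' b := fun b hb =>
      hPP _ _ (hcH b hb) _ hx'P b (hidx b hb.1 hb.2.1)
    exact ⟨x', Or.inr (mem_iUnion.2 ⟨c, hx'P⟩), hclaim x' hx'K hx'F hlo hhi⟩

end Pool.Agent.GRK
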