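import Pool.Agent.GRK.StD
import Pool.Agent.WOM.TOP
import Pool.Agent.WOM.DEFF
import Pool.Agent.WOM.DEF1
import Pool.Agent.WOM.ULT
import Pool.Agent.WOM.SUBM
import Pool.Agent.WOM.HOMG
import Pool.Agent.WOM.MEAS
import Pool.Agent.WOM.REAL
import Pool.Agent.WOM.INC
import Pool.Agent.WOM.NSM
import Pool.Agent.WOM.EMB
import Pool.Agent.WOM.TRC

/-!
GRK, module TOP: assembly (helper95; model: `Pool/Agent/PMC/TOP.lean` of helper87).
-/

set_option autoImplicit false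

namespace Pool.Agent.GRK

open FirstOrder.Language Set
open scoped FirstOrder
open Pool.Agent.WOM (Mon CtU CtT PerfT ThS Small)

theorem TOP_of (hULT : Pool.Agent.WOM.St_ULT) (hSUBM : Pool.Agent.WOM.St_SUBM)
    (hHOMG : Pool.Agent.WOM.St_HOMG) (hINC : Pool.Agent.WOM.St_INC)
    (hNSM : Pool.Agent.WOM.St_NSM) (hTRC : Pool.Agent.WOM.St_TRC) : St_TOP := by
  intro hEND hCVG hHYU hNPU L hL hF T lt ψ hT
  refine hINC L hL T fun S hS => ?_
  by_cases hp : PerfT L (ThS L S)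
  · exact Or.inr hp
  · have hsm : Small L (ThS L S) := by
      by_contra h
      exact hp (hNSM L hL _ h)
    obtain ⟨V, _, _, hV, hsV⟩ := hULT L hL S
    obtain ⟨U, _, hc, hi, hU, hsU⟩ := hSUBM L hL S hsm V hV hsV
    have hM : Mon L U := hHOMG L U hc hi hsU
    have hC := hHYU hCVG L T lt ψ hT U (Pool.Agent.WOM.TOP_mono L T S hS U hU) hM
    have hN := hNPU L hL hF U hM S hU hp
    exact Or.inl (hTRC L U hM (hEND L U Unit (Bool × Option ℕ) _ _ _ hC hN) S hU)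

theorem thm_TOP : St_TOP := by
  have hDEF1 := Pool.Agent.WOM.thm_DEF1 Pool.Agent.WOM.thm_DEFF
  have hREAL := Pool.Agent.WOM.thm_REAL Pool.Agent.WOM.thm_MEAS
  exact TOP_of (Pool.Agent.WOM.thm_ULT hDEF1) (Pool.Agent.WOM.thm_SUBM hDEF1)
    (Pool.Agent.WOM.thm_HOMG hDEF1) (Pool.Agent.WOM.thm_INC Pool.Agent.WOM.thm_MEAS hREAL)
    (Pool.Agent.WOM.thm_NSM Pool.Agent.WOM.thm_MEAS hREAL)
    (Pool.Agent.WOM.thm_TRC (Pool.Agent.WOM.thm_EMB hDEF1))

end Pool.Agent.GRK
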