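import Pool.Agent.GRK.StB
import Pool.Agent.GRK.NBase

/-!
MNO (text of PMC) [TUP] (helper33): cuts of finite sets.
-/

set_option autoImplicit false

namespace Pool.Agent.GRK

open FirstOrder.Language Set
open scoped FirstOrder
open Pool.Agent.WOM (tp Mon IsEl IsoM CtU Fx Orb)
open Pool.Agent.PMC (Ini ct Dc cel Sin Nd Ct lts ext XS Ex Fa Ll LL Itv Sm Md NPf sd fx_refl fx_symm
  fx_comp fx_mono comp_apply' def_img def_mono def_compl def_inter def_union def_mem def_fix
  def_of_fix conj_of_def exists_isd exists_fin_def isEl_of_orb mem_orb orb_meets sat_fam rel_fx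
  rel_def1 rel_def2 rel_hull rel_swap def_close)

section

variable {L : FirstOrder.Language.{0, 0}} {U : Type} [L.Structure U] {κ ι : Type}
  {R : κ → U → U → Prop} {o : κ → κ} {S : ι → U → U → Prop}

/-- beyond and sides -/
private theorem TUP_side {j : κ} {C : Set U} (hI : Ini R o j C) {b s : Bool} {x y : U}
    (hx : x ∈ C ↔ s ≠ b) (h : lts R o (sd b s) j x y) : y ∈ C ↔ s ≠ b := by
  unfold lts sd at h
  cases b <;> cases s <;> simp at h hx ⊢
  · intro hy
    exact hx (hI y hy x h)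
  · exact hI x hx y h
  · exact hI x hx y h
  · intro hy
    exact hx (hI y hy x h)

private theorem TUP_rev {j : κ} {b s : Bool} {x y : U} (h : lts R o (sd (!b) s) j x y) :
    lts R o (sd b s) j y x := by
  unfold lts sd at h ⊢
  cases b <;> cases s <;> simpa using h

end

/-- [TUP] -/
theorem thm_TUP (hFAI : St_FAI) (hGPR : St_GPR) (hORD : St_ORD) (hBTW : St_BTW) : St_TUP := by
  intro L U _ κ ι R o S hC A E sg hO D hD hDE z hz j C hCd hS v hv b hvd
  obtain ⟨-, f2, f3, f4, -, -, f7, f8⟩ := hFAI L U κ ι R o S hC A E sg hO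
  obtain ⟨o1, -, -, o4, -, o6⟩ := hORD L U κ ι R o S hC A E sg hO
  have hsub : ∀ z ∈ E, ∀ i, ∀ y ∈ cel L R o A i z, y ∈ E := fun z hz i y hy =>
    pc_sub hO.clo hz (cel_sub_pc hC hO.fin i z hy)
  have hvE : v ∈ E := hsub z hz j v hv
  -- transitivity
  have htr : ∀ x ∈ E, ∀ y ∈ E, ∀ w ∈ E, Fa L R o A sg b x y → Fa L R o A sg b y w →
      Fa L R o A sg b x w := by
    intro x hx y hy w hw h1 h2
    cases b with
    | true => exact o4 x hx y hy w hw h1 h2
    | false =>
      rw [o1 x hx w hw]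
      rw [o1 x hx y hy] at h1
      rw [o1 y hy w hw] at h2
      exact o4 w hw y hy x hx h2 h1
  -- beyond
  have hbe : ∀ x ∈ cel L R o A j z, ∀ y ∈ cel L R o A j z, Fa L R o A sg b x y →
      lts R o (sd b (sg (o j) z)) j x y := by
    intro x hx y hy h
    cases b with
    | true => exact o6 z hz j x hx y hy h
    | false =>
      rw [o1 x (hsub z hz j x hx) y (hsub z hz j y hy)] at h
      have h1 := o6 z hz j y hy x hx h
      have h2 : lts R o (sd (!false) (sg (o j) z)) j y x := h1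
      exact TUP_rev h2
  by_contra hcon
  have hvC : v ∈ C ↔ sg (o j) z ≠ b := by
    by_cases h1 : v ∈ C
    · have h2 : ¬ (sg (o j) z ≠ (!b)) := fun h => hcon ⟨fun _ => h, fun _ => h1⟩
      refine ⟨fun _ h => h2 ?_, fun _ => h1⟩
      rw [h]
      cases b <;> simp
    · have h2 : sg (o j) z ≠ (!b) := by
        intro h
        exact hcon ⟨fun h' => absurd h' h1, fun h' => absurd h h'⟩
      refine ⟨fun h => absurd h h1, fun h => absurd ?_ h⟩
      revert h2
      generalize sg (o j) z = s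
      intro h2
      cases s <;> cases b
      · rfl
      · exact absurd rfl h2
      · exact absurd rfl h2
      · rfl
  -- sets of points on the `b`-side have no inner cut
  have hns : ∀ (x : U) (C' : Set U), x ∈ cel L R o A j z → Ini R o j C' →
      (x ∈ C' ↔ sg (o j) z ≠ b) → (∀ y ∈ cel L R o A j z, Fa L R o A sg b v y →
        Fa L R o A sg b x y ∨ x = v) →
      ¬ Sin C' {y | y ∈ cel L R o A j z ∧ Fa L R o A sg b v y} := by
    rintro x C' hx hI hxC hh ⟨⟨y, ⟨hy, hy'⟩, hyC⟩, w, ⟨hw, hw'⟩, hwC⟩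
    have key : ∀ y ∈ cel L R o A j z, Fa L R o A sg b v y → (y ∈ C' ↔ sg (o j) z ≠ b) := by
      intro y hy hy'
      have h1 : Fa L R o A sg b x y := by
        rcases hh y hy hy' with h | h
        · exact h
        · rw [h]
          exact hy'
      exact TUP_side hI hxC (hbe x hx y hy h1)
    exact hwC ((key w hw hw').2 ((key y hy hy').1 hyC))
  have hC1 : Dc L R o (insert v A) j C :=
    hGPR L U κ ι R o S hC A E sg hO v hvE b D hD hDE hvd z hz j C hCd hS
      (hns v C hv hCd.2 hvC fun _ _ _ => Or.inr rfl)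
  obtain ⟨v0, hv0, hfv0⟩ := f4 v hvE z hz j (!b)
  obtain ⟨t, htA, ht⟩ := move hC hO.fin (hO.nd z hz) hv0 hv (sd (!b) (sg (o j) z))
  have hdct : Dc L R o (t '' insert v A) j (t '' C) := dc_img hC hC1 t
  have hEt : ∀ g : U ≃[L] U, Fx L A g → ∀ x, g x ∈ E ↔ x ∈ E := fun g hg => (f3 g hg).1
  have himA : ∀ g : U ≃[L] U, Fx L A g → g '' A = A := by
    intro g hg
    ext x
    constructor
    · rintro ⟨y, hy, rfl⟩
      rw [hg y hy]
      exact hy
    · intro hx
      exact ⟨x, hx, hg x hx⟩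
  rw [image_insert_eq, himA t htA] at hdct
  have hdct2 : Dc L R o (A ∪ t '' D) j (t '' C) := by
    have := dc_img hC hCd t
    rwa [image_union, himA t htA] at this
  have hv0C : v0 ∈ t '' C ↔ sg (o j) z ≠ b := by
    refine TUP_side hdct.2 (x := t v) ?_ (TUP_rev ht)
    rw [← hvC]
    exact t.injective.mem_set_image
  -- the point between
  obtain ⟨e, heK, hve, hed⟩ : ∃ e ∈ cel L R o A j z, Fa L R o A sg b v e ∧
      ∀ d ∈ D, Fa L R o A sg b e d := by
    cases b with
    | true =>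
      obtain ⟨p, hp, h1, h2⟩ := hBTW L U κ ι R o S hC A E sg hO {v} D (finite_singleton v) hD
        (singleton_subset_iff.2 hvE) hDE (by
          rintro _ rfl d hd
          exact hvd d hd) z hz j
      exact ⟨p, hp, h1 v rfl p rfl, fun d hd => h2 p rfl d hd⟩
    | false =>
      obtain ⟨p, hp, h1, h2⟩ := hBTW L U κ ι R o S hC A E sg hO D {v} hD (finite_singleton v)
        hDE (singleton_subset_iff.2 hvE) (by
          rintro d hd _ rfl
          exact (o1 _ hvE d (hDE hd) false).1 (hvd d hd)) z hz j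
      have hpE := hsub z hz j p hp
      exact ⟨p, hp, (o1 v hvE p hpE false).2 (h2 p rfl v rfl), fun d hd =>
        (o1 p hpE d (hDE hd) false).2 (h1 d hd p rfl)⟩
  have heE : e ∈ E := hsub z hz j e heK
  have hteE : t e ∈ E := (hEt t htA e).2 heE
  have htvE : t v ∈ E := (hEt t htA v).2 hvE
  obtain ⟨p, hp, hvp⟩ := f4 v hvE (t e) hteE j b
  have hpE : p ∈ E := hsub (t e) hteE j p hp
  have htve : Fa L R o A sg b (t v) (t e) := ((f3 t htA).2 v hvE e heE b).2 hve
  obtain ⟨r, hr, hpr⟩ := f8 (t v) htvE (t e) hteE j b p hp htve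
  have hrA : Fx L A r := fx_mono (subset_insert _ _) hr.1
  have hrteE : r (t e) ∈ E := (hEt r hrA _).2 hteE
  have hcs : sg (o j) p = sg (o j) (t e) := hO.cst j (t e) hteE p hp
  have hvrte : Fa L R o A sg b v (r (t e)) := by
    refine f7 v hvE p hpE j b (r (t e)) ?_ hvp ?_
    · rw [cel_eq hp]
      exact fx_cel hC j (t e) hrA
    · rw [hcs]
      exact hpr
  have hD' : ∀ d' ∈ r '' (t '' D), d' ∈ E ∧ Fa L R o A sg b v d' := by
    rintro _ ⟨_, ⟨d, hd, rfl⟩, rfl⟩
    have htd : t d ∈ E := (hEt t htA d).2 (hDE hd)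
    have h1 : r (t d) ∈ E := (hEt r hrA _).2 htd
    have h2 : Fa L R o A sg b (t e) (t d) := ((f3 t htA).2 e heE d (hDE hd) b).2 (hed d hd)
    have h3 : Fa L R o A sg b (r (t e)) (r (t d)) :=
      ((f3 r hrA).2 (t e) hteE (t d) htd b).2 h2
    exact ⟨h1, htr v hvE _ hrteE _ h1 hvrte h3⟩
  have hrC : r '' (t '' C) = t '' C := dc_fix hdct hr.1
  have hdct3 : Dc L R o (A ∪ r '' (t '' D)) j (t '' C) := by
    have := dc_img hC hdct2 r
    rwa [image_union, himA r hrA, hrC] at this
  have hS' : Sin (t '' C) (cel L R o A j z) := sin_img hC (fx_img_cel hC j z htA) hS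
  have hv0E := hsub z hz j v0 hv0
  have hv0v : Fa L R o A sg b v0 v := (o1 v0 hv0E v hvE b).2 hfv0
  have hfin := hGPR L U κ ι R o S hC A E sg hO v hvE b (r '' (t '' D)) ((hD.image _).image _)
    (fun d hd => (hD' d hd).1) (fun d hd => (hD' d hd).2) z hz j (t '' C) hdct3 hS'
    (hns v0 (t '' C) hv0 hdct.2 hv0C fun y hy hy' =>
      Or.inl (htr v0 hv0E v hvE y (hsub z hz j y hy) hv0v hy'))
  have h1 := hfv0 j (t '' C) hfin (by rw [cel_eq hv0]; exact hS')
  rw [hO.cst j z hz v0 hv0] at h1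
  rw [h1] at hv0C
  cases hs : sg (o j) z <;> cases b <;> simp [hs] at hv0C

end Pool.Agent.GRK
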