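import Pool.Agent.GRK.Base
import Pool.Agent.GRK.StA

/-!
GRK: [UNL] facts between unlinked points depend only on the orbits under `Nx L A`.
-/

set_option autoImplicit false
set_option linter.unusedVariables false
set_option linter.unusedSectionVars false

namespace Pool.Agent.GRK

open FirstOrder.Language Set
open scoped FirstOrder
open Pool.Agent.WOM (tp Mon IsEl IsoM CtU Fx Orb)
open Pool.Agent.PMC (Ini ct Dc cel Sin Nd Ct lts ext XS Ex Fa Ll LL Itv Sm Md NPf fx_refl)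

private theorem unl_def {L : FirstOrder.Language.{0, 0}} {U : Type} [L.Structure U]
    {A D' : Set U} {P : U → U → Prop}
    (hP : (∅ : Set U).Definable L {v : Fin 2 → U | P (v 0) (v 1)}) (hD' : A.Definable₁ L D') :
    A.Definable L {v : Fin 2 → U | ∀ y' ∈ D', (P (v 0) y' ↔ P (v 1) y')} := by
  have hPA : A.Definable L {v : Fin 2 → U | P (v 0) (v 1)} := hP.mono (empty_subset A)
  have h0 : A.Definable L {w : Fin 3 → U | w 2 ∈ D'} :=
    Set.Definable.preimage_comp (fun _ : Fin 1 => (2 : Fin 3)) hD'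
  have h1 : A.Definable L {w : Fin 3 → U | P (w 0) (w 2)} :=
    Set.Definable.preimage_comp (![0, 2] : Fin 2 → Fin 3) hPA
  have h2 : A.Definable L {w : Fin 3 → U | P (w 1) (w 2)} :=
    Set.Definable.preimage_comp (![1, 2] : Fin 2 → Fin 3) hPA
  have h3 : A.Definable L ({w : Fin 3 → U | w 2 ∈ D'} ∩
      (({w : Fin 3 → U | P (w 0) (w 2)} ∩ {w : Fin 3 → U | P (w 1) (w 2)}) ∪
        ({w : Fin 3 → U | P (w 0) (w 2)}ᶜ ∩ {w : Fin 3 → U | P (w 1) (w 2)}ᶜ))ᶜ) :=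
    h0.inter ((h1.inter h2).union (h1.compl.inter h2.compl)).compl
  have h4 := (h3.image_comp (Fin.castSucc : Fin 2 → Fin 3)).compl
  have h5 : {v : Fin 2 → U | ∀ y' ∈ D', (P (v 0) y' ↔ P (v 1) y')} =
      ((fun g : Fin 3 → U => g ∘ (Fin.castSucc : Fin 2 → Fin 3)) ''
        ({w : Fin 3 → U | w 2 ∈ D'} ∩
      (({w : Fin 3 → U | P (w 0) (w 2)} ∩ {w : Fin 3 → U | P (w 1) (w 2)}) ∪
        ({w : Fin 3 → U | P (w 0) (w 2)}ᶜ ∩ {w : Fin 3 → U | P (w 1) (w 2)}ᶜ))ᶜ))ᶜ := by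
    ext v
    constructor
    · rintro hv ⟨w, ⟨hw1, hw2⟩, hwv⟩
      apply hw2
      have e0 : w 0 = v 0 := congrFun hwv 0
      have e1 : w 1 = v 1 := congrFun hwv 1
      have h6 := hv (w 2) hw1
      rw [← e0, ← e1] at h6
      by_cases h7 : P (w 0) (w 2)
      · exact Or.inl ⟨h7, h6.1 h7⟩
      · exact Or.inr ⟨h7, fun h8 => h7 (h6.2 h8)⟩
    · intro hv y' hy'
      by_contra hne
      apply hv
      refine ⟨![v 0, v 1, y'], ⟨hy', ?_⟩, ?_⟩
      · rintro (⟨h7, h8⟩ | ⟨h7, h8⟩)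
        · exact hne ⟨fun _ => h8, fun _ => h7⟩
        · exact hne ⟨fun h9 => absurd h9 h7, fun h9 => absurd h9 h8⟩
      · funext a
        fin_cases a <;> rfl
  rw [h5]
  exact h4

private theorem fin_rep {U β : Type} [Nonempty U] (f : U → β) (hf : (Set.range f).Finite) :
    ∃ s : Set U, s.Finite ∧ ∀ x, ∃ y ∈ s, f x = f y := by
  classical
  refine ⟨(fun b => if hb : ∃ x, f x = b then hb.choose else Classical.arbitrary U) '' Set.range f,
    hf.image _, fun x => ?_⟩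
  refine ⟨_, ⟨f x, ⟨x, rfl⟩, rfl⟩, ?_⟩
  have hb : ∃ x', f x' = f x := ⟨x, rfl⟩
  show f x = f (if hb : ∃ x', f x' = f x then hb.choose else Classical.arbitrary U)
  rw [dif_pos hb]
  exact hb.choose_spec.symm

private theorem unl_fe {L : FirstOrder.Language.{0, 0}} {U : Type} [L.Structure U] {ι : Type}
    {S : ι → U → U → Prop} {A D D' : Set U} {i : ι} [Nonempty U]
    (hP : (∅ : Set U).Definable L {v : Fin 2 → U | S i (v 0) (v 1)}) (hD : A.Definable₁ L D)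
    (hD' : A.Definable₁ L D') (hfin : {t | ∃ y' ∈ D', t = tr S i D y'}.Finite) :
    FE L A (fun x1 x2 => (x1 ∈ D ∧ x2 ∈ D ∧ ∀ y' ∈ D', (S i x1 y' ↔ S i x2 y')) ∨
      (x1 ∉ D ∧ x2 ∉ D)) := by
  classical
  refine ⟨?_, ⟨?_, ?_, ?_⟩, ?_⟩
  · have h0 : A.Definable L {w : Fin 2 → U | w 0 ∈ D} :=
      Set.Definable.preimage_comp (fun _ : Fin 1 => (0 : Fin 2)) hD
    have h1 : A.Definable L {w : Fin 2 → U | w 1 ∈ D} :=
      Set.Definable.preimage_comp (fun _ : Fin 1 => (1 : Fin 2)) hD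
    have h2 := unl_def (A := A) hP hD'
    exact (h0.inter (h1.inter h2)).union (h0.compl.inter h1.compl)
  · intro x
    by_cases hx : x ∈ D
    · exact Or.inl ⟨hx, hx, fun y' _ => Iff.rfl⟩
    · exact Or.inr ⟨hx, hx⟩
  · rintro x y (⟨h1, h2, h3⟩ | ⟨h1, h2⟩)
    · exact Or.inl ⟨h2, h1, fun y' hy' => (h3 y' hy').symm⟩
    · exact Or.inr ⟨h2, h1⟩
  · rintro x y z (⟨h1, h2, h3⟩ | ⟨h1, h2⟩) (⟨h4, h5, h6⟩ | ⟨h4, h5⟩)
    · exact Or.inl ⟨h1, h5, fun y' hy' => (h3 y' hy').trans (h6 y' hy')⟩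
    · exact absurd h2 h4
    · exact absurd h4 h2
    · exact Or.inr ⟨h1, h5⟩
  · let f : U → Prop × Set (Set U) := fun x =>
      (x ∈ D, {t | t ∈ {t | ∃ y' ∈ D', t = tr S i D y'} ∧ x ∈ t})
    have hf : (Set.range f).Finite := by
      refine Set.Finite.subset (Set.Finite.prod (Set.toFinite (Set.univ : Set Prop))
        hfin.finite_subsets) ?_
      rintro _ ⟨x, rfl⟩
      exact ⟨Set.mem_univ _, fun t ht => ht.1⟩
    obtain ⟨s, hs, hs'⟩ := fin_rep f hf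
    refine ⟨s, hs, fun x => ?_⟩
    obtain ⟨y, hy, hxy⟩ := hs' x
    refine ⟨y, hy, ?_⟩
    have h1 : (x ∈ D) = (y ∈ D) := congrArg Prod.fst hxy
    have h2 : {t | t ∈ {t | ∃ y' ∈ D', t = tr S i D y'} ∧ x ∈ t} =
        {t | t ∈ {t | ∃ y' ∈ D', t = tr S i D y'} ∧ y ∈ t} := congrArg Prod.snd hxy
    by_cases hx : x ∈ D
    · have hyD : y ∈ D := h1 ▸ hx
      refine Or.inl ⟨hx, hyD, fun y' hy' => ?_⟩
      have h3 : tr S i D y' ∈ {t | t ∈ {t | ∃ y' ∈ D', t = tr S i D y'} ∧ x ∈ t} ↔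
          tr S i D y' ∈ {t | t ∈ {t | ∃ y' ∈ D', t = tr S i D y'} ∧ y ∈ t} := by rw [h2]
      constructor
      · intro h4
        exact (h3.1 ⟨⟨y', hy', rfl⟩, hx, h4⟩).2.2
      · intro h4
        exact (h3.2 ⟨⟨y', hy', rfl⟩, hyD, h4⟩).2.2
    · have hyD : y ∉ D := h1 ▸ hx
      exact Or.inr ⟨hx, hyD⟩

private theorem unl_core (hCLA : St_CLA) {L : FirstOrder.Language.{0, 0}} {U : Type}
    [L.Structure U] {κ ι : Type} {R : κ → U → U → Prop} {o : κ → κ} {S : ι → U → U → Prop}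
    (hC : Cx L R o S) {A : Set U} {x y : U} (hA : A.Finite) (hxy : ¬ Lk L R o S A x y)
    {g h : U ≃[L] U} (hg : Nx L A g) (hh : Fx L A h) (i : ι) :
    S i (g x) (h y) ↔ S i x (h y) := by
  obtain ⟨j⟩ := hC.ne
  have : Nonempty U := ⟨x⟩
  have h1 : {t | ∃ y' ∈ cel L R o A j y, t = tr S i (cel L R o A j x) y'}.Finite := by
    by_contra hne
    exact hxy ⟨i, j, hne⟩
  obtain ⟨D, D', hD, hD', hKD, hLD', hfin⟩ := hCLA L U κ ι R o S hC A i j x y hA h1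
  have hFE := unl_fe (S := S) (i := i) (hC.sdf i) hD hD' hfin
  have hx : x ∈ D := hKD (mem_cel A j x)
  have hhy : h y ∈ D' := hLD' (fx_cel hC j y hh)
  rcases hg.2 _ hFE x with ⟨-, -, h2⟩ | ⟨h2, -⟩
  · exact (h2 _ hhy).symm
  · exact absurd hx h2

private theorem unl_main (hCLA : St_CLA) {L : FirstOrder.Language.{0, 0}} {U : Type}
    [L.Structure U] {κ ι : Type} {R : κ → U → U → Prop} {o : κ → κ} {S : ι → U → U → Prop}
    (hC : Cx L R o S) {A : Set U} {x y : U} (hA : A.Finite) (hxy : ¬ Lk L R o S A x y)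
    {g h : U ≃[L] U} (hg : Nx L A g) (hh : Nx L A h) (i : ι) :
    S i (g x) (h y) ↔ S i x y := by
  have h1 := unl_core hCLA hC hA hxy hg hh.1 i
  obtain ⟨i', hi'⟩ := hC.cnv i
  have hyx : ¬ Lk L R o S A y x := fun h2 => hxy (lk_symm hC h2)
  have h2 := unl_core hCLA hC hA hyx hh (fx_refl A) i'
  have h3 : S i' (h y) x ↔ S i' y x := h2
  rw [hi', hi'] at h3
  exact h1.trans h3

theorem thm_UNL (hCLA : St_CLA) : St_UNL := by
  intro L U _ κ ι R o S hC A x y hA hxy g h hg hh i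
  refine ⟨unl_main hCLA hC hA hxy hg hh i, ?_⟩
  obtain ⟨i', hi'⟩ := hC.cnv i
  have h1 := unl_main hCLA hC hA hxy hg hh i'
  rw [hi', hi'] at h1
  exact h1

end Pool.Agent.GRK
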