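import Pool.Agent.GRK.NBase
import Pool.Agent.GRK.StA

/-!
GRK, MP_5df2c5_lc: module UNP (an elementary submodel may be chosen for every piece; text of PMC).
-/

set_option autoImplicit false
set_option linter.unusedVariables false

namespace Pool.Agent.GRK

open FirstOrder.Language Set
open scoped FirstOrder
open Pool.Agent.WOM (tp Mon IsEl IsoM CtU Fx Orb)
open Pool.Agent.PMC (Ini ct Dc cel Sin Nd Ct lts ext XS Ex Fa Ll LL Itv Sm Md NPf fx_refl fx_symm
  fx_comp fx_mono comp_apply' def_img def_mono def_compl def_inter def_union def_mem def_fix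
  def_of_fix conj_of_def exists_isd exists_fin_def isEl_of_orb mem_orb orb_meets sat_fam rel_fx
  rel_def1 rel_def2 rel_hull rel_swap def_close)

theorem thm_UNP (hPRD : St_PRD) : St_UNP := by
  intro L U _ κ ι R o S hC A hA m hm hmm
  have hAX : A ⊆ {z | z ∈ m z} := fun a ha => (hm a).2 ha
  refine ⟨isEl_of_orb hC.mon hA hAX ?_, hAX⟩
  intro B hB hAB hBX x hO
  by_cases hx : Nd L A x
  · set P : Set U := Pc L R o S A x with hP
    have hPc : Cls L R o S A P := cls_pc A x
    have hxP : x ∈ P := mem_pc A x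
    set B' : Set U := A ∪ (B ∩ P) with hB'
    have hB'B : B' ⊆ B := union_subset hAB inter_subset_left
    have hB'f : B'.Finite := hB.subset hB'B
    have hAB' : A ⊆ B' := subset_union_left
    have hOP : ∀ y ∈ Orb L B x, y ∈ P := by
      rintro y ⟨k, hk, rfl⟩
      exact (cls_fx hC hA hPc (fx_mono hAB hk) x).2 hxP
    have key : ∀ g : U ≃[L] U, Nx L B' g → ∀ y ∈ Orb L B x, g y ∈ Orb L B x := by
      intro g hg y hy
      obtain ⟨h, hhA, hhP, hhn⟩ := hPRD L U κ ι R o S hC A P hA hPc g (nx_mono hAB' hg)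
      have hyP := hOP y hy
      obtain ⟨k, hk, rfl⟩ := hy
      have hhB : Fx L B h := by
        intro b hb
        by_cases hbP : b ∈ P
        · rw [hhP b hbP]
          exact (nx_fx hg) b (Or.inr ⟨hb, hbP⟩)
        · exact hhn b hbP
      refine ⟨h.comp k, fx_comp hhB hk, ?_⟩
      rw [comp_apply']
      exact hhP _ hyP
    have hsub : B' ⊆ m x := by
      rintro y (hy | ⟨hyB, hyP⟩)
      · exact (hm x).2 hy
      · have h1 : y ∈ m y := hBX hyB
        rw [hmm x y hyP] at h1
        exact h1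
    obtain ⟨y, hym, hyO⟩ := nx_meets hC.mon hB'f hB hO key (M := m x) ⟨(hm x).1, hsub⟩
      ⟨x, FirstOrder.Language.Equiv.refl L U, fx_refl B, rfl⟩
    refine ⟨y, ?_, hyO⟩
    have hyP : y ∈ P := hOP y hyO
    show y ∈ m y
    rw [hmm x y hyP]
    exact hym
  · refine ⟨x, ?_, ⟨FirstOrder.Language.Equiv.refl L U, fx_refl B, rfl⟩⟩
    have h1 : A.Definable₁ L ({x} : Set U) := by
      by_contra h
      exact hx h
    obtain ⟨y, hy1, hy2⟩ := (hm x).1 {x} (def_mono (hm x).2 h1) ⟨x, rfl⟩
    rw [mem_singleton_iff] at hy1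
    subst hy1
    exact hy2

end Pool.Agent.GRK
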