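import Pool.Agent.GRK.AEI
import Pool.Agent.GRK.AF
import Pool.Agent.GRK.AG
import Pool.Agent.GRK.ASV
import Pool.Agent.GRK.ATT
import Pool.Agent.GRK.AV
import Pool.Agent.GRK.AVP
import Pool.Agent.GRK.BAF
import Pool.Agent.GRK.BAG
import Pool.Agent.GRK.BTW
import Pool.Agent.GRK.CHN
import Pool.Agent.GRK.CLA
import Pool.Agent.GRK.CLS
import Pool.Agent.GRK.CVG
import Pool.Agent.GRK.END
import Pool.Agent.GRK.EXB
import Pool.Agent.GRK.FAI
import Pool.Agent.GRK.FC1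
import Pool.Agent.GRK.FC2
import Pool.Agent.GRK.FCA
import Pool.Agent.GRK.FCT
import Pool.Agent.GRK.FE1
import Pool.Agent.GRK.FIN
import Pool.Agent.GRK.FTW
import Pool.Agent.GRK.GLC
import Pool.Agent.GRK.GLE
import Pool.Agent.GRK.GPR
import Pool.Agent.GRK.GRP
import Pool.Agent.GRK.HYU
import Pool.Agent.GRK.INN
import Pool.Agent.GRK.INS
import Pool.Agent.GRK.LFT
import Pool.Agent.GRK.MKO
import Pool.Agent.GRK.MVT
import Pool.Agent.GRK.NRF
import Pool.Agent.GRK.NWI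
import Pool.Agent.GRK.NWL
import Pool.Agent.GRK.OFM
import Pool.Agent.GRK.OMI
import Pool.Agent.GRK.ORD
import Pool.Agent.GRK.ORT
import Pool.Agent.GRK.OT4
import Pool.Agent.GRK.PCC
import Pool.Agent.GRK.PLC
import Pool.Agent.GRK.PRD
import Pool.Agent.GRK.PRF
import Pool.Agent.GRK.SMN
import Pool.Agent.GRK.SUM
import Pool.Agent.GRK.TOP
import Pool.Agent.GRK.TUP
import Pool.Agent.GRK.TWO
import Pool.Agent.GRK.UNL
import Pool.Agent.GRK.UNP
import Pool.Agent.GRK.XSP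
import Pool.Agent.GRK.XTY
import Pool.Agent.PMC.CNO
import Pool.Agent.PMC.COD
import Pool.Agent.PMC.NPU

/-!
GRK: assembly of all modules (bounded grid rank: `St_MAIN`, and the form `OGD.T4`).
-/

set_option autoImplicit false

namespace Pool.Agent.GRK

theorem all_END : St_END := by
  have hFE1 : St_FE1 := thm_FE1
  have hOMI : St_OMI := thm_OMI hFE1
  have hEXB : St_EXB := thm_EXB
  have hATT : St_ATT := thm_ATT
  have hAV : St_AV := thm_AV hATT hEXB
  have hXSP : St_XSP := thm_XSP hAV hEXB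
  have hAF : St_AF := thm_AF hATT hEXB
  have hAG : St_AG := thm_AG hAF
  have hMKO : St_MKO := thm_MKO hATT hAG hEXB hXSP
  have hFAI : St_FAI := thm_FAI hEXB
  have hCLA : St_CLA := thm_CLA
  have hUNL : St_UNL := thm_UNL hCLA
  have hPRD : St_PRD := thm_PRD hUNL
  have hGLC : St_GLC := thm_GLC hAV hFAI
  have hGLE : St_GLE := thm_GLE hPRD hGLC
  have hGPR : St_GPR := thm_GPR hGLE hFAI
  have hFTW : St_FTW := thm_FTW hFAI hGPR
  have hORD : St_ORD := thm_ORD hFAI hFTW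
  have hBTW : St_BTW := thm_BTW hFAI hFTW hORD
  have hTUP : St_TUP := thm_TUP hFAI hGPR hORD hBTW
  have hMVT : St_MVT := thm_MVT hFAI hORD hBTW hTUP
  have hOFM : St_OFM := thm_OFM
  have hFC1 : St_FC1 := thm_FC1 hFAI hORD hBTW hTUP
  have hFC2 : St_FC2 := thm_FC2 hFAI
  have hFCA : St_FCA := thm_FCA hOFM hFC1 hFC2 hFAI
  have hFCT : St_FCT := thm_FCT hFCA hFAI hORD hBTW
  have hCHN : St_CHN := thm_CHN hPRD hMVT hFCT hFAI hORD
  have hORT : St_ORT := thm_ORT hFAI hORD hMVT hCHN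
  have hPLC : St_PLC := thm_PLC hORT
  have hSUM : St_SUM := thm_SUM hFE1 hPRD hFAI hORD hORT
  have hINS : St_INS := thm_INS hPLC hSUM hORD hFAI
  have hNWL : St_NWL := thm_NWL Pool.Agent.PMC.thm_CNO Pool.Agent.PMC.thm_COD hINS hFAI hORD
  have hFIN : St_FIN := thm_FIN hOMI hEXB hXSP hMKO hORD hNWL
  have hUNP : St_UNP := thm_UNP hPRD
  have hPRF : St_PRF := thm_PRF hPRD
  have hSMN : St_SMN := thm_SMN hPRF
  have hBAG : St_BAG := thm_BAG
  have hLFT : St_LFT := thm_LFT hBAG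
  have hNRF : St_NRF := thm_NRF hUNP hSMN hLFT
  have hAVP : St_AVP := thm_AVP hATT hEXB
  have hTWO : St_TWO := thm_TWO hAVP hXSP hEXB
  have hNWI : St_NWI := thm_NWI Pool.Agent.PMC.thm_CNO Pool.Agent.PMC.thm_COD hFE1 hINS hFAI hORD hSMN
  have hBAF : St_BAF := thm_BAF hBAG
  have hGRP : St_GRP := thm_GRP hFAI hORD hORT
  have hCLS : St_CLS := thm_CLS hBAF hGRP hORD hSMN
  have hXTY : St_XTY := thm_XTY hMKO hNWL hNWI hCLS hFE1
  have hASV : St_ASV := thm_ASV hPRD hEXB hFAI hFTW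
  have hAEI : St_AEI := thm_AEI hPRD hAG hEXB hXSP hMKO hASV hORD
  have hINN : St_INN := thm_INN hUNP hSMN hNWL hAEI hORD hFAI hLFT hFE1
  have hPCC : St_PCC := thm_PCC hTWO hEXB hXSP hXTY hINN hSMN
  exact thm_END hFIN hNRF hPCC hSMN

/-- Vaught for theories with a definable linear order and bounded grid rank -/
theorem thm_MAIN : St_MAIN :=
  thm_TOP all_END thm_CVG thm_HYU Pool.Agent.PMC.thm_NPU

/-- the form used by `OGD` -/
theorem thm_T4 : Pool.Agent.OGD.T4 :=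
  thm_OT4 thm_MAIN

end Pool.Agent.GRK
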