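import Pool.Agent.PMC.Defs

/-!
GRK: Vaught's conjecture for ordered binary structures of bounded grid rank (bounded twin-width),
first-order theories (helper23).  Definitions.  The paper proof is in the team store
(`GC_VN4_helper23.md`).  The build follows `Pool/Agent/PMC` (helper58); the difference is that the
automorphisms over `A` (`Fx L A g`) are replaced by those which preserve the classes of all
`A`-definable equivalence relations on `U` with finitely many classes (`Nx L A g`).

`U` is the countable saturated model.  `R (o j)`, `j : κ`, is THE linear order (`κ` has one element; the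
index is kept to use the text of PMC), `S i`, `i : ι`, are definable binary relations, closed under
converse, of bounded grid rank with respect to the order.
-/

set_option autoImplicit false
set_option linter.unusedVariables false

namespace Pool.Agent.GRK

open FirstOrder.Language Set
open scoped FirstOrder
open Pool.Agent.WOM (tp Mon IsEl IsoM CtU Fx Orb)
open Pool.Agent.PMC (Ini ct Dc cel Sin Nd Ct lts ext XS Ex Fa Ll LL Itv Sm Md NPf)

section cells

variable (L : FirstOrder.Language.{0, 0}) {U : Type} [L.Structure U] {κ ι : Type}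
  (R : κ → U → U → Prop) (o : κ → κ) (S : ι → U → U → Prop)

/-- the trace of `y` on `B` -/
def tr (i : ι) (B : Set U) (y : U) : Set U := {x | x ∈ B ∧ S i x y}

/-- There is no `k × k` division in which all zones have `k` different columns: no sets
`I_1 < .. < I_k` and `J_1 < .. < J_k` such that every `J_b` contains `k` elements with pairwise different
traces on `I_a`, for all `a`, `b`. -/
def NoDiv (j : κ) (i : ι) (k : ℕ) : Prop :=
  ¬ ∃ I J : Fin k → Set U,
    (∀ a a', a < a' → ∀ x ∈ I a, ∀ x' ∈ I a', R (o j) x x') ∧
    (∀ b b', b < b' → ∀ y ∈ J b, ∀ y' ∈ J b', R (o j) y y') ∧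
    ∀ a b, ∃ y : Fin k → U, (∀ m, y m ∈ J b) ∧
      ∀ m m', m ≠ m' → tr S i (I a) (y m) ≠ tr S i (I a) (y m')

/-- The context: the countable saturated model `U` with a definable linear order; every permutation
which preserves the relations `S i` and the types of the elements is an automorphism. -/
structure Cx : Prop where
  mon : Mon L U
  ne : Nonempty κ
  uni : ∀ j j' : κ, j = j'
  dfn : ∀ j, (∅ : Set U).Definable L {v : Fin 2 → U | R j (v 0) (v 1)}
  oo : ∀ j, o (o j) = o j
  irr : ∀ j x, ¬ R (o j) x x
  tra : ∀ j x y z, R (o j) x y → R (o j) y z → R (o j) x z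
  tot : ∀ j x y, x ≠ y → R (o j) x y ∨ R (o j) y x
  ini : ∀ j u, Ini R o j (ct R j u)
  sdf : ∀ i, (∅ : Set U).Definable L {v : Fin 2 → U | S i (v 0) (v 1)}
  ord : ∀ j, ∃ i, ∀ x y, S i x y ↔ R (o j) x y
  cnv : ∀ i, ∃ i', ∀ x y, S i' x y ↔ S i y x
  grd : ∀ i, ∃ k, ∀ j, NoDiv R o S j i k
  det : ∀ g : U ≃ U, (∀ i x y, S i (g x) (g y) ↔ S i x y) →
    (∀ x, ∃ h : U ≃[L] U, h x = g x) → ∃ h : U ≃[L] U, ∀ x, h x = g x

/-- `E` is an `A`-definable equivalence relation with finitely many classes -/
structure FE (A : Set U) (E : U → U → Prop) : Prop where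
  dfn : A.Definable L {v : Fin 2 → U | E (v 0) (v 1)}
  eqv : Equivalence E
  fin : ∃ s : Set U, s.Finite ∧ ∀ x, ∃ y ∈ s, E x y

/-- automorphisms over `A` which preserve all classes of the `A`-definable finite equivalence
relations on elements -/
def Nx (A : Set U) (g : U ≃[L] U) : Prop := Fx L A g ∧ ∀ E, FE L A E → ∀ x, E x (g x)

/-- The cells of `x` and `y` over `A` are linked: for some `i` the elements of the cell of `y` have
infinitely many traces on the cell of `x`. -/
def Lk (A : Set U) (x y : U) : Prop :=
  ∃ i j, {t | ∃ y' ∈ cel L R o A j y, t = tr S i (cel L R o A j x) y'}.Infinite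

/-- the piece of `z` over `A` (`{z}` if `z` is definable over `A`) -/
def Pc (A : Set U) (z : U) : Set U := {y | Relation.EqvGen (Lk L R o S A) z y}

/-- unions of pieces over `A` -/
def Cls (A Q : Set U) : Prop := ∀ x y, Lk L R o S A x y → (x ∈ Q ↔ y ∈ Q)

/-- the traces on `B` which are recurrent in `K` in the direction `b` -/
def Rc (b : Bool) (j : κ) (i : ι) (B K : Set U) : Set (Set U) :=
  {t | ∀ w ∈ K, ∃ y ∈ K, lts R o b j w y ∧ t = tr S i B y}

/-- the points between `p` and `p'` (included) -/
def btw (j : κ) (p p' : U) : Set U := {x | ¬ R (o j) x p ∧ ¬ R (o j) p' x}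

/-- Good pieces: `E` is a union of pieces over `A`, its cells are oriented by `sg`; the elements far
out in a cell have only finitely many traces on an inner part of another cell. -/
structure Ori (A E : Set U) (sg : κ → U → Bool) : Prop where
  fin : A.Finite
  ne : E.Nonempty
  nd : ∀ z ∈ E, Nd L A z
  clo : Cls L R o S A E
  cut : ∀ w ∈ E, ∀ z ∈ E, ∀ j, Ct L R o (insert w A) j (cel L R o A j z)
  cst : ∀ j, ∀ z ∈ E, ∀ y ∈ cel L R o A j z, sg (o j) y = sg (o j) z
  god : ∀ i j, ∀ x ∈ E, ∀ y ∈ E, ∃ p ∈ cel L R o A j x, ∃ q ∈ cel L R o A j y,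
    {t | ∃ y' ∈ cel L R o A j y, lts R o (sg (o j) y) j q y' ∧
      t = tr S i {x' | x' ∈ cel L R o A j x ∧ lts R o (!sg (o j) x) j p x'} y'}.Finite

/-- `M` is an elementary submodel which contains `A` and meets all classes of `A`-definable finite
equivalence relations in all cells over `A` where they occur -/
def Ric (A M : Set U) : Prop :=
  Md L A M ∧ ∀ F, FE L A F → ∀ j x, ∃ y ∈ M, y ∈ cel L R o A j x ∧ F x y

end cells

section types

variable (L : FirstOrder.Language.{0, 0}) {U : Type} [L.Structure U]

/-- there is a bijection of `X` and `Y` which is on every finite set an automorphism in `Nx L A` -/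
def SmN (A X Y : Set U) : Prop :=
  ∃ e : X ≃ Y, ∀ s : Set X, s.Finite → ∃ g : U ≃[L] U, Nx L A g ∧ ∀ x ∈ s, g x = e x

end types

end Pool.Agent.GRK
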