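import Pool.Agent.GRK.Base
import Pool.Agent.GRK.StB

/-!
GRK, module FC1: the equivalence relation of the facts has finitely many classes (helper36).
-/

set_option autoImplicit false
set_option linter.unusedVariables false
set_option linter.unusedSectionVars false

namespace Pool.Agent.GRK

open FirstOrder.Language Set
open scoped FirstOrder
open Pool.Agent.WOM (tp Mon IsEl IsoM CtU Fx Orb)
open Pool.Agent.PMC (Ini ct Dc cel Sin Nd Ct lts ext XS Ex Fa Ll LL Itv Sm Md NPf sd fx_refl fx_symm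
  fx_comp fx_mono comp_apply' def_img def_mono def_compl def_inter def_union def_mem def_fix
  def_of_fix conj_of_def exists_isd exists_fin_def isEl_of_orb mem_orb orb_meets sat_fam rel_fx
  rel_def1 rel_def2 rel_hull rel_swap def_close)

variable {L : FirstOrder.Language.{0, 0}} {U : Type} [L.Structure U] {κ ι : Type}
  {R : κ → U → U → Prop} {o : κ → κ} {S : ι → U → U → Prop} {A E : Set U} {sg : κ → U → Bool}

/-- two points of a cell have a common bound in the cell -/
private theorem FC1_two (hC : Cx L R o S) (hA : A.Finite) {j : κ} {z : U} (hz : Nd L A z)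
    (d : Bool) {y a : U} (hy : y ∈ cel L R o A j z) (ha : a ∈ cel L R o A j z) :
    ∃ c ∈ cel L R o A j z, lts R o d j y c ∧ lts R o d j a c := by
  by_cases h : lts R o d j y a
  · obtain ⟨c, hc, hc'⟩ := exists_lts hC hA hz ha d
    exact ⟨c, hc, lts_trans hC d j h hc', hc'⟩
  · obtain ⟨c, hc, hc'⟩ := exists_lts hC hA hz hy d
    refine ⟨c, hc, hc', ?_⟩
    rcases eq_or_ne y a with rfl | hne
    · exact hc'
    · rcases lts_tot hC d j hne with h1 | h1
      · exact absurd h1 h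
      · exact lts_trans hC d j h1 hc'

/-- a finite subset of a cell is bounded in the cell -/
private theorem FC1_bnd (hC : Cx L R o S) (hA : A.Finite) {j : κ} {z : U} (hz : Nd L A z)
    (d : Bool) {Y : Set U} (hY : Y.Finite) (hYK : Y ⊆ cel L R o A j z) :
    ∃ y ∈ cel L R o A j z, ∀ v ∈ Y, lts R o d j v y := by
  revert hYK
  refine Set.Finite.induction_on Y hY ?_ ?_
  · intro _
    exact ⟨z, mem_cel A j z, fun v hv => absurd hv (notMem_empty v)⟩
  · intro a Y' _ _ ih hYK
    obtain ⟨y, hy, hy'⟩ := ih ((subset_insert a Y').trans hYK)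
    obtain ⟨c, hc, h1, h2⟩ := FC1_two hC hA hz d hy (hYK (mem_insert a Y'))
    refine ⟨c, hc, ?_⟩
    rintro v (rfl | hv)
    · exact h2
    · exact lts_trans hC d j (hy' v hv) h1

/-- points further out are also beyond -/
private theorem FC1_up (hFAI : St_FAI) (hC : Cx L R o S) (hO : Ori L R o S A E sg) {w v y c : U}
    (hw : w ∈ E) (hv : v ∈ E) {j : κ} (hy : y ∈ cel L R o A j w) (hc : c ∈ cel L R o A j w)
    {b : Bool} (h : Fa L R o A sg b v y) (hl : lts R o (sd b (sg (o j) w)) j y c) :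
    Fa L R o A sg b v c := by
  obtain ⟨-, -, -, -, -, -, f7, -⟩ := hFAI L U κ ι R o S hC A E sg hO
  have hyE : y ∈ E := (cls_cel hC hO.fin hO.clo hy).2 hw
  refine f7 v hv y hyE j b c ?_ h ?_
  · rw [cel_eq hy]
    exact hc
  · rw [hO.cst j w hw y hy]
    exact hl

/-- finite sets have a point beyond them in every cell -/
private theorem FC1_bey (hFAI : St_FAI) (hC : Cx L R o S) (hO : Ori L R o S A E sg) {w : U}
    (hw : w ∈ E) (j : κ) (b : Bool) {X : Set U} (hX : X.Finite) (hXE : X ⊆ E) :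
    ∃ y ∈ cel L R o A j w, ∀ v ∈ X, Fa L R o A sg b v y := by
  obtain ⟨-, -, -, f4, -, -, -, -⟩ := hFAI L U κ ι R o S hC A E sg hO
  revert hXE
  refine Set.Finite.induction_on X hX ?_ ?_
  · intro _
    exact ⟨w, mem_cel A j w, fun v hv => absurd hv (notMem_empty v)⟩
  · intro a X' _ _ ih hXE
    obtain ⟨y, hy, hy'⟩ := ih ((subset_insert a X').trans hXE)
    have ha : a ∈ E := hXE (mem_insert a X')
    obtain ⟨y2, hy2, hy2'⟩ := f4 a ha w hw j b
    obtain ⟨c, hc, h1, h2⟩ := FC1_two hC hO.fin (hO.nd w hw) (sd b (sg (o j) w)) hy hy2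
    refine ⟨c, hc, ?_⟩
    rintro v (rfl | hv)
    · exact FC1_up hFAI hC hO hw ha hy2 hc hy2' h2
    · exact FC1_up hFAI hC hO hw (hXE (Or.inr hv)) hy hc (hy' v hv) h1

/-- MOVING -/
private theorem FC1_mov (hFAI : St_FAI) (hORD : St_ORD) (hTUP : St_TUP) (hC : Cx L R o S)
    (hO : Ori L R o S A E sg) {D : Set U} (hD : D.Finite) (hDE : D ⊆ E) {w w' : U} (hw : w ∈ E)
    (j : κ) (hw' : w' ∈ cel L R o A j w) (b : Bool) (hb : ∀ d ∈ D, Fa L R o A sg b d w')
    {y : U} (hy : y ∈ cel L R o A j w) :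
    ∃ h : U ≃[L] U, Fx L (A ∪ D) h ∧ lts R o (sd b (sg (o j) w)) j y (h w') := by
  obtain ⟨o1, -, -, -, -, -⟩ := hORD L U κ ι R o S hC A E sg hO
  obtain ⟨v, hv, h1, h2⟩ := FC1_two hC hO.fin (hO.nd w hw) (sd b (sg (o j) w)) hy hw'
  have hwE' : w' ∈ E := (cls_cel hC hO.fin hO.clo hw').2 hw
  have hvE : v ∈ E := (cls_cel hC hO.fin hO.clo hv).2 hw
  have hbv : ∀ d ∈ D, Fa L R o A sg b d v := fun d hd =>
    FC1_up hFAI hC hO hw (hDE hd) hw' hv (hb d hd) h2
  have hcell : v ∈ cel L R o (A ∪ D) j w' := by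
    intro C hCC
    by_cases hS : Sin C (cel L R o A j w)
    · have h3 := hTUP L U κ ι R o S hC A E sg hO D hD hDE w hw j C hCC hS v hv (!b)
        (fun d hd => (o1 d (hDE hd) v hvE b).1 (hbv d hd))
      have h4 := hTUP L U κ ι R o S hC A E sg hO D hD hDE w hw j C hCC hS w' hw' (!b)
        (fun d hd => (o1 d (hDE hd) w' hwE' b).1 (hb d hd))
      exact h3.trans h4.symm
    · constructor
      · intro hxC
        by_contra hyC
        exact hS ⟨⟨v, hv, hxC⟩, ⟨w', hw', hyC⟩⟩
      · intro hyC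
        by_contra hxC
        exact hS ⟨⟨w', hw', hyC⟩, ⟨v, hv, hxC⟩⟩
  have hnd : Nd L (A ∪ D) w' := by
    by_contra hcon
    have h3 := hcell
    rw [cel_def hC hcon j] at h3
    have h4 : v = w' := h3
    rw [h4] at h2
    exact lts_irr hC _ j w' h2
  obtain ⟨h, hh, hl⟩ := move hC (hO.fin.union hD) hnd hcell (mem_cel (A ∪ D) j w')
    (sd b (sg (o j) w))
  exact ⟨h, hh, lts_trans hC _ j h1 hl⟩

/-- copies of a finite set in increasing order -/
private theorem FC1_cop (hC : Cx L R o S) (hA : A.Finite) {j : κ} {x : U} (hx : Nd L A x)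
    {X : Set U} (hX : X.Finite) (hXK : X ⊆ cel L R o A j x) (n : ℕ) :
    ∃ I : ℕ → Set U, (∀ a < n, ∃ g : U ≃[L] U, Fx L A g ∧ I a = g '' X) ∧
      ∀ a a', a < a' → a' < n → ∀ u ∈ I a, ∀ u' ∈ I a', R (o j) u u' := by
  induction n with
  | zero => exact ⟨fun _ => ∅, fun a ha => absurd ha (Nat.not_lt_zero a),
      fun a a' _ ha' => absurd ha' (Nat.not_lt_zero a')⟩
  | succ n ih =>
    obtain ⟨I, hI1, hI2⟩ := ih
    have hY : (⋃ a ∈ Set.Iio n, I a).Finite := by
      refine Set.Finite.biUnion (Set.finite_Iio n) ?_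
      intro a ha
      obtain ⟨g, -, hg⟩ := hI1 a ha
      rw [hg]
      exact hX.image _
    have hYK : (⋃ a ∈ Set.Iio n, I a) ⊆ cel L R o A j x := by
      intro y hy
      rw [mem_iUnion₂] at hy
      obtain ⟨a, ha, hy⟩ := hy
      obtain ⟨g, hg', hg⟩ := hI1 a ha
      rw [hg] at hy
      obtain ⟨u, hu, rfl⟩ := hy
      exact (fx_mem_cel hC j u x hg').2 (hXK hu)
    obtain ⟨q, hq, hq'⟩ := FC1_bnd hC hA hx true hY hYK
    obtain ⟨p, hp, hp'⟩ := FC1_bnd hC hA hx false hX hXK
    obtain ⟨g, hg, hgl⟩ := move hC hA hx hq hp true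
    refine ⟨fun a => if a < n then I a else g '' X, ?_, ?_⟩
    · intro a ha
      by_cases h : a < n
      · obtain ⟨g', hg', hg''⟩ := hI1 a h
        exact ⟨g', hg', by simp only [if_pos h]; exact hg''⟩
      · exact ⟨g, hg, by simp only [if_neg h]⟩
    · intro a a' haa ha' u hu u' hu'
      have han : a < n := lt_of_lt_of_le haa (Nat.lt_succ_iff.mp ha')
      simp only [if_pos han] at hu
      by_cases h : a' < n
      · simp only [if_pos h] at hu'
        exact hI2 a a' haa h u hu u' hu'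
      · simp only [if_neg h] at hu'
        obtain ⟨v, hv, rfl⟩ := hu'
        have h1 : R (o j) u q := by
          have := hq' u (mem_iUnion₂.2 ⟨a, han, hu⟩)
          rwa [lts_true] at this
        have h2 : R (o j) q (g p) := by rwa [lts_true] at hgl
        have h3 : R (o j) (g p) (g v) := by
          have := hp' v hv
          rw [lts_false] at this
          exact (R_img hC (o j) p v g).2 this
        exact hC.tra j _ _ _ h1 (hC.tra j _ _ _ h2 h3)

/-- finite sets with many traces in increasing order -/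
private theorem FC1_col (hC : Cx L R o S) (hA : A.Finite) {j : κ} {w : U} (hw : Nd L A w)
    (d : Bool) {k : ℕ} (i : ι) (I : ℕ → Set U)
    (hT : ∀ a < k, ∀ y ∈ cel L R o A j w, ∃ v : Fin k → U,
      (∀ m, v m ∈ cel L R o A j w ∧ lts R o d j y (v m)) ∧
      ∀ m m', m ≠ m' → tr S i (I a) (v m) ≠ tr S i (I a) (v m')) (n : ℕ) :
    ∃ V : ℕ → Set U, (∀ c < n, (V c).Finite ∧ V c ⊆ cel L R o A j w) ∧
      (∀ c c', c < c' → c' < n → ∀ v ∈ V c, ∀ v' ∈ V c', lts R o d j v v') ∧
      ∀ c < n, ∀ a < k, ∃ v : Fin k → U, (∀ m, v m ∈ V c) ∧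
        ∀ m m', m ≠ m' → tr S i (I a) (v m) ≠ tr S i (I a) (v m') := by
  induction n with
  | zero => exact ⟨fun _ => ∅, fun a ha => absurd ha (Nat.not_lt_zero a),
      fun a a' _ ha' => absurd ha' (Nat.not_lt_zero a'), fun a ha => absurd ha (Nat.not_lt_zero a)⟩
  | succ n ih =>
    obtain ⟨V, hV1, hV2, hV3⟩ := ih
    have hY : (⋃ a ∈ Set.Iio n, V a).Finite :=
      Set.Finite.biUnion (Set.finite_Iio n) fun a ha => (hV1 a ha).1
    have hYK : (⋃ a ∈ Set.Iio n, V a) ⊆ cel L R o A j w :=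
      iUnion₂_subset fun a ha => (hV1 a ha).2
    obtain ⟨q, hq, hq'⟩ := FC1_bnd hC hA hw d hY hYK
    have h1 : ∀ a : Fin k, ∃ v : Fin k → U,
      (∀ m, v m ∈ cel L R o A j w ∧ lts R o d j q (v m)) ∧
      ∀ m m', m ≠ m' → tr S i (I a) (v m) ≠ tr S i (I a) (v m') := fun a => hT a a.2 q hq
    choose v hv1 hv2 using h1
    let W : Set U := range fun c : Fin k × Fin k => v c.1 c.2
    refine ⟨fun c => if c < n then V c else W, ?_, ?_, ?_⟩
    · intro c hc
      by_cases h : c < n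
      · simp only [if_pos h]
        exact hV1 c h
      · simp only [if_neg h]
        refine ⟨finite_range _, ?_⟩
        rintro _ ⟨c', rfl⟩
        exact (hv1 c'.1 c'.2).1
    · intro c c' hcc hc' u hu u' hu'
      have han : c < n := lt_of_lt_of_le hcc (Nat.lt_succ_iff.mp hc')
      simp only [if_pos han] at hu
      by_cases h : c' < n
      · simp only [if_pos h] at hu'
        exact hV2 c c' hcc h u hu u' hu'
      · simp only [if_neg h] at hu'
        obtain ⟨c'', rfl⟩ := hu'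
        exact lts_trans hC d j (hq' u (mem_iUnion₂.2 ⟨c, han, hu⟩)) (hv1 c''.1 c''.2).2
    · intro c hc a ha
      by_cases h : c < n
      · simp only [if_pos h]
        exact hV3 c h a ha
      · simp only [if_neg h]
        exact ⟨v ⟨a, ha⟩, fun m => ⟨(⟨a, ha⟩, m), rfl⟩, hv2 ⟨a, ha⟩⟩

/-- enough traces -/
private theorem FC1_cnt {Q X : Set U} {i : ι} {k : ℕ} (hX : X.Finite) (hcard : 2 ^ k ≤ X.ncard)
    (h : ∀ u ∈ X, ∀ u' ∈ X, u ≠ u' → ∃ q ∈ Q, ¬ (S i u q ↔ S i u' q)) :
    ∃ q : Fin k → U, (∀ m, q m ∈ Q) ∧ ∀ m m', m ≠ m' → tr S i X (q m) ≠ tr S i X (q m') := by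
  classical
  have hT : {t | ∃ q ∈ Q, t = tr S i X q}.Finite := by
    refine hX.finite_subsets.subset ?_
    rintro t ⟨q, -, rfl⟩
    exact fun u hu => hu.1
  have h1 : hX.toFinset.card ≤ hT.toFinset.powerset.card := by
    refine Finset.card_le_card_of_injOn (fun u => hT.toFinset.filter (fun t => u ∈ t)) ?_ ?_
    · intro u _
      exact Finset.mem_coe.2 (Finset.mem_powerset.2 (Finset.filter_subset _ _))
    · intro u hu u' hu' he
      by_contra hne
      have hu1 : u ∈ X := by simpa using hu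
      have hu2 : u' ∈ X := by simpa using hu'
      obtain ⟨q, hq, hq'⟩ := h u hu1 u' hu2 hne
      apply hq'
      have h2 : ∀ v ∈ X, (tr S i X q ∈ hT.toFinset.filter (fun t => v ∈ t) ↔ S i v q) := by
        intro v hv
        rw [Finset.mem_filter, Set.Finite.mem_toFinset]
        exact ⟨fun h3 => h3.2.2, fun h3 => ⟨⟨q, hq, rfl⟩, hv, h3⟩⟩
      have he' : hT.toFinset.filter (fun t => u ∈ t) = hT.toFinset.filter (fun t => u' ∈ t) := he
      rw [← h2 u hu1, ← h2 u' hu2, he']
  rw [Finset.card_powerset, ← Set.ncard_eq_toFinset_card X hX] at h1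
  have h2 : k ≤ hT.toFinset.card :=
    (Nat.pow_le_pow_iff_right (by norm_num)).1 (hcard.trans h1)
  obtain ⟨e⟩ : Nonempty (Fin k ↪ hT.toFinset) :=
    Function.Embedding.nonempty_of_card_le (by simpa using h2)
  have h3 : ∀ m, ∃ q ∈ Q, (e m : Set U) = tr S i X q := fun m => by
    have := (e m).2
    rw [Set.Finite.mem_toFinset] at this
    exact this
  choose q hq hq' using h3
  refine ⟨q, hq, fun m m' hne he => hne (e.injective (Subtype.ext ?_))⟩
  rw [hq' m, hq' m', he]

/-- [FC1] -/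
theorem thm_FC1 (hFAI : St_FAI) (hORD : St_ORD) (hBTW : St_BTW) (hTUP : St_TUP) : St_FC1 := by
  classical
  intro L U _ κ ι R o S hC A E sg hO i b x w hx hw
  obtain ⟨j⟩ := hC.ne
  obtain ⟨-, -, f3, f4, -, -, -, -⟩ := hFAI L U κ ι R o S hC A E sg hO
  have hXE : Orb L A x ⊆ E := by
    rintro u ⟨g, hg, rfl⟩
    exact ((f3 g hg).1 x).2 hx
  have hXK : Orb L A x ⊆ cel L R o A j x := by
    rintro u ⟨g, hg, rfl⟩
    exact fx_cel hC j x hg
  -- moving `g w`
  have hmv : ∀ D : Set U, D.Finite → D ⊆ E → ∀ g : U ≃[L] U, Fx L A g →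
      (∀ d ∈ D, Fa L R o A sg b d (g w)) → ∀ y ∈ cel L R o A j w,
      ∃ g' : U ≃[L] U, Fx L A g' ∧ lts R o (sd b (sg (o j) w)) j y (g' w) ∧
        (∀ d ∈ D, Fa L R o A sg b d (g' w)) ∧ ∀ d ∈ D, (S i d (g' w) ↔ S i d (g w)) := by
    intro D hD hDE g hg hb y hy
    have hgw : g w ∈ cel L R o A j w := fx_cel hC j w hg
    have hgE : g w ∈ E := ((f3 g hg).1 w).2 hw
    obtain ⟨h, hh, hl⟩ := FC1_mov hFAI hORD hTUP hC hO hD hDE hw j hgw b hb hy
    have hhA : Fx L A h := fx_mono subset_union_left hh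
    refine ⟨h.comp g, fx_comp hhA hg, hl, ?_, ?_⟩
    · intro d hd
      have h1 := ((f3 h hhA).2 d (hDE hd) (g w) hgE b).2 (hb d hd)
      rw [hh d (Or.inr hd)] at h1
      exact h1
    · intro d hd
      have h1 := S_img hC i d (g w) h
      rw [hh d (Or.inr hd)] at h1
      exact h1
  refine ⟨?_, ?_⟩
  · intro u1 hu1 u2 hu2 u3 hu3 h12 h23 g hg hg1 hg3
    obtain ⟨y, hy, hy2⟩ := f4 u2 (hXE hu2) w hw j b
    obtain ⟨g', hg', hl, hb, hs⟩ := hmv {u1, u3} (toFinite _)
      (by rintro _ (rfl | rfl); exacts [hXE hu1, hXE hu3]) g hg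
      (by rintro _ (rfl | rfl); exacts [hg1, hg3]) y hy
    have h1 := hb u1 (Or.inl rfl)
    have h3 := hb u3 (Or.inr rfl)
    have h2 : Fa L R o A sg b u2 (g' w) :=
      FC1_up hFAI hC hO hw (hXE hu2) hy (fx_cel hC j w hg') hy2 hl
    rw [← hs u1 (Or.inl rfl), ← hs u3 (Or.inr rfl)]
    exact (h12 g' hg' h1 h2).trans (h23 g' hg' h2 h3)
  · by_contra hcon
    obtain ⟨k, hk⟩ := hC.grd i
    -- many inequivalent points
    have hmany : ∀ n : ℕ, ∃ X : Finset U, X.card = n ∧ (X : Set U) ⊆ Orb L A x ∧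
        ∀ u ∈ X, ∀ u' ∈ X, u ≠ u' → ¬ Fcr (L := L) R o S A sg b i w u u' := by
      intro n
      induction n with
      | zero => exact ⟨∅, rfl, by simp, by simp⟩
      | succ n ih =>
        obtain ⟨X, hX1, hX2, hX3⟩ := ih
        have h1 : ∃ u ∈ Orb L A x, ∀ v ∈ X, ¬ Fcr (L := L) R o S A sg b i w u v := by
          by_contra h2
          push Not at h2
          exact hcon ⟨X, hX2, X.finite_toSet, h2⟩
        obtain ⟨u, hu, hu'⟩ := h1
        have hnot : u ∉ X := fun h => hu' u h fun g _ _ _ => Iff.rfl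
        refine ⟨insert u X, by rw [Finset.card_insert_of_notMem hnot, hX1], ?_, ?_⟩
        · rw [Finset.coe_insert]
          exact insert_subset hu hX2
        · intro a ha c hc hne
          rw [Finset.mem_insert] at ha hc
          rcases ha with rfl | ha
          · rcases hc with rfl | hc
            · exact absurd rfl hne
            · exact hu' c hc
          · rcases hc with rfl | hc
            · exact fun h => hu' a ha fun g hg h1 h2 => (h g hg h2 h1).symm
            · exact hX3 a ha c hc hne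
    obtain ⟨Xf, hX1, hX2, hX3⟩ := hmany (2 ^ k)
    have hXfin : (Xf : Set U).Finite := Xf.finite_toSet
    -- separating points beyond all of `X`
    obtain ⟨y0, hy0, hy0'⟩ := FC1_bey hFAI hC hO hw j b hXfin (hX2.trans hXE)
    have hsep : ∀ u ∈ (Xf : Set U), ∀ u' ∈ (Xf : Set U), u ≠ u' →
        ∃ q ∈ {q | ∃ g : U ≃[L] U, Fx L A g ∧ q = g w ∧
          ∀ v ∈ (Xf : Set U), Fa L R o A sg b v q}, ¬ (S i u q ↔ S i u' q) := by
      intro u hu u' hu' hne
      have h1 := hX3 u hu u' hu' hne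
      unfold Fcr at h1
      push Not at h1
      obtain ⟨g, hg, hg1, hg2, hg3⟩ := h1
      obtain ⟨g', hg', hl, -, hs⟩ := hmv {u, u'} (toFinite _)
        (by rintro _ (rfl | rfl); exacts [hXE (hX2 hu), hXE (hX2 hu')]) g hg
        (by rintro _ (rfl | rfl); exacts [hg1, hg2]) y0 hy0
      refine ⟨g' w, ⟨g', hg', rfl, fun v hv => ?_⟩, ?_⟩
      · exact FC1_up hFAI hC hO hw (hXE (hX2 hv)) hy0 (fx_cel hC j w hg') (hy0' v hv) hl
      · rw [hs u (Or.inl rfl), hs u' (Or.inr rfl)]
        intro h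
        rcases hg3 with ⟨h2, h3⟩ | ⟨h2, h3⟩
        · exact h3 (h.1 h2)
        · exact h2 (h.2 h3)
    obtain ⟨q, hq, hqne⟩ := FC1_cnt (k := k) hXfin
      (by rw [Set.ncard_coe_finset, hX1]) hsep
    -- `k` traces on `X` beyond every point
    have hT : ∀ y ∈ cel L R o A j w, ∃ v : Fin k → U,
        (∀ m, v m ∈ cel L R o A j w ∧ lts R o (sd b (sg (o j) w)) j y (v m)) ∧
        ∀ m m', m ≠ m' → tr S i (Xf : Set U) (v m) ≠ tr S i (Xf : Set U) (v m') := by
      intro y hy
      have h1 : ∀ m, ∃ v, (v ∈ cel L R o A j w ∧ lts R o (sd b (sg (o j) w)) j y v) ∧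
          tr S i (Xf : Set U) v = tr S i (Xf : Set U) (q m) := by
        intro m
        obtain ⟨g, hg, hgq, hgb⟩ := hq m
        rw [hgq] at hgb
        obtain ⟨g', hg', hl, -, hs⟩ := hmv (Xf : Set U) hXfin (hX2.trans hXE) g hg hgb y hy
        refine ⟨g' w, ⟨fx_cel hC j w hg', hl⟩, ?_⟩
        ext u
        constructor
        · rintro ⟨h2, h3⟩
          exact ⟨h2, by rw [hgq]; exact (hs u h2).1 h3⟩
        · rintro ⟨h2, h3⟩
          rw [hgq] at h3
          exact ⟨h2, (hs u h2).2 h3⟩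
      choose v hv1 hv2 using h1
      refine ⟨v, hv1, fun m m' hne => ?_⟩
      rw [hv2, hv2]
      exact hqne m m' hne
    obtain ⟨I, hI1, hI2⟩ := FC1_cop hC hO.fin (hO.nd x hx) (j := j) hXfin (hX2.trans hXK) k
    have hTI : ∀ a < k, ∀ y ∈ cel L R o A j w, ∃ v : Fin k → U,
        (∀ m, v m ∈ cel L R o A j w ∧ lts R o (sd b (sg (o j) w)) j y (v m)) ∧
        ∀ m m', m ≠ m' → tr S i (I a) (v m) ≠ tr S i (I a) (v m') := by
      intro a ha y hy
      obtain ⟨g, hg, hgI⟩ := hI1 a ha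
      obtain ⟨v, hv1, hv2⟩ := hT (g.symm y) ((fx_mem_cel hC j y w (fx_symm hg)).2 hy)
      refine ⟨fun m => g (v m), fun m => ⟨(fx_mem_cel hC j (v m) w hg).2 (hv1 m).1, ?_⟩, ?_⟩
      · have h1 := (lts_img hC (sd b (sg (o j) w)) j (g.symm y) (v m) g).2 (hv1 m).2
        rw [g.apply_symm_apply] at h1
        exact h1
      · intro m m' hne he
        rw [hgI, ← tr_img hC, ← tr_img hC] at he
        refine hv2 m m' hne ?_
        have h1 := congrArg (fun t => g.symm '' t) he
        simp only [img_symm_img] at h1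
        exact h1
    obtain ⟨V, hV1, hV2, hV3⟩ := FC1_col hC hO.fin (hO.nd w hw) (sd b (sg (o j) w)) i I hTI k
    cases hd : sd b (sg (o j) w) with
    | true =>
      rw [hd] at hV2
      refine hk j ⟨fun a => I a, fun c => V c, ?_, ?_, ?_⟩
      · intro a a' haa
        exact hI2 a a' haa a'.2
      · intro c c' hcc v hv v' hv'
        have h1 := hV2 c c' hcc c'.2 v hv v' hv'
        rwa [lts_true] at h1
      · intro a c
        exact hV3 c c.2 a a.2
    | false =>
      rw [hd] at hV2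
      refine hk j ⟨fun a => I a, fun c => V (k - 1 - c), ?_, ?_, ?_⟩
      · intro a a' haa
        exact hI2 a a' haa a'.2
      · intro c c' hcc v hv v' hv'
        have h0 : (c : ℕ) < c' := hcc
        have h2 := c'.2
        have h1 := hV2 (k - 1 - c') (k - 1 - c) (by omega) (by omega) v' hv' v hv
        rwa [lts_false] at h1
      · intro a c
        have h2 := c.2
        exact hV3 (k - 1 - c) (by omega) a a.2

end Pool.Agent.GRK
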