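import Pool.Agent.GRK.Base
import Pool.Agent.GRK.StA

/-!
GRK: homogeneity for tuples over a finite set (helper18).
-/

set_option autoImplicit false
set_option linter.unusedVariables false

namespace Pool.Agent.GRK

open FirstOrder.Language Set
open scoped FirstOrder
open Pool.Agent.WOM (tp Mon IsEl IsoM CtU Fx Orb)

theorem thm_HMN : St_HMN := by
  intro L U _ hM A hA n a b h
  obtain ⟨k, c, hc⟩ : ∃ k, ∃ c : Fin k → U, range c = A := by
    obtain ⟨s, rfl⟩ := hA.exists_finset_coe
    refine ⟨s.card, fun i => (s.equivFin.symm i : U), ?_⟩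
    ext x
    constructor
    · rintro ⟨i, rfl⟩
      exact (s.equivFin.symm i).2
    · intro hx
      exact ⟨s.equivFin ⟨x, hx⟩, by simp⟩
  have key : ∀ φ : L.Formula (Fin (k + n)), φ.Realize (Fin.append c a) →
      φ.Realize (Fin.append c b) := by
    intro φ hφ
    refine h {v | φ.Realize (Fin.append c v)} ?_ hφ
    rw [definable_iff_exists_formula_sum]
    refine ⟨φ.relabel (Fin.addCases (fun i => Sum.inl ⟨c i, hc ▸ mem_range_self i⟩)
      (fun m => Sum.inr m)), ?_⟩
    ext v
    rw [mem_ofPred_eq, mem_ofPred_eq, FirstOrder.Language.Formula.realize_relabel]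
    have : (Sum.elim (fun x : A => (x : U)) v ∘ (Fin.addCases (m := k) (n := n)
        (motive := fun _ => A ⊕ Fin n) (fun i => Sum.inl ⟨c i, hc ▸ mem_range_self i⟩)
        (fun m => Sum.inr m))) = Fin.append c v := by
      funext i
      refine Fin.addCases (fun i => ?_) (fun i => ?_) i
      · simp
      · simp
    rw [this]
  have htp : tp (L := L) (Fin.append c a) = tp (Fin.append c b) := by
    ext φ
    constructor
    · exact key φ
    · intro hφ
      by_contra hno
      exact FirstOrder.Language.Formula.realize_not.1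
        (key _ (FirstOrder.Language.Formula.realize_not.2 hno)) hφ
  obtain ⟨g, hg⟩ := hM.hom (k + n) _ _ htp
  refine ⟨g, ?_, ?_⟩
  · intro x hx
    rw [← hc] at hx
    obtain ⟨i, rfl⟩ := hx
    have := hg (Fin.castAdd n i)
    rwa [Fin.append_left, Fin.append_left] at this
  · intro m
    have := hg (Fin.natAdd k m)
    rwa [Fin.append_right, Fin.append_right] at this

end Pool.Agent.GRK
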