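import Pool.Agent.GRK.StA

/-!
GRK, [SAN]: saturation in several variables (helper82).
-/

set_option autoImplicit false

namespace Pool.Agent.GRK

open FirstOrder.Language Set
open scoped FirstOrder
open Pool.Agent.WOM (tp Mon IsEl IsoM CtU Fx Orb)

section san

variable {L : FirstOrder.Language.{0, 0}} {U : Type} [L.Structure U]

private theorem san_inter {B : Set U} {n : ℕ} {G : Set (Set (Fin n → U))} (hG : G.Finite)
    (h : ∀ s ∈ G, B.Definable L s) : B.Definable L {v | ∀ s ∈ G, v ∈ s} := by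
  induction G, hG using Set.Finite.induction_on with
  | empty =>
    have h1 : {v : Fin n → U | ∀ s ∈ (∅ : Set (Set (Fin n → U))), v ∈ s} = univ := by
      ext v
      exact ⟨fun _ => mem_univ v, fun _ s hs => absurd hs (notMem_empty s)⟩
    rw [h1]
    exact definable_univ
  | insert hs hf ih =>
    rename_i a s
    have h1 : {v : Fin n → U | ∀ t ∈ insert a s, v ∈ t} = a ∩ {v | ∀ t ∈ s, v ∈ t} := by
      ext v
      constructor
      · intro hv
        exact ⟨hv a (mem_insert a s), fun t ht => hv t (mem_insert_of_mem a ht)⟩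
      · rintro ⟨hv, hv'⟩ t ht
        rcases mem_insert_iff.1 ht with rfl | ht
        · exact hv
        · exact hv' t ht
    rw [h1]
    exact (h a (mem_insert a s)).inter (ih fun t ht => h t (mem_insert_of_mem a ht))

private theorem san_proj {B : Set U} {n : ℕ} {s : Set (Fin (n + 1) → U)} (h : B.Definable L s) :
    B.Definable₁ L {x | ∃ v : Fin n → U, (Fin.snoc v x : Fin (n + 1) → U) ∈ s} := by
  unfold Definable₁
  have h1 := h.image_comp (fun _ : Fin 1 => Fin.last n)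
  have h2 : {w : Fin 1 → U | w 0 ∈ {x | ∃ v : Fin n → U, (Fin.snoc v x : Fin (n + 1) → U) ∈ s}} =
      (fun g : Fin (n + 1) → U => g ∘ fun _ : Fin 1 => Fin.last n) '' s := by
    ext w
    constructor
    · rintro ⟨v, hv⟩
      refine ⟨_, hv, ?_⟩
      funext i
      have hi : i = 0 := Subsingleton.elim _ _
      rw [hi]
      exact Fin.snoc_last (α := fun _ => U) (w 0) v
    · rintro ⟨g, hg, rfl⟩
      refine ⟨Fin.init g, ?_⟩
      have h3 : (Fin.snoc (Fin.init g : Fin n → U) (g (Fin.last n)) : Fin (n + 1) → U) = g :=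
        Fin.snoc_init_self g
      show (Fin.snoc (Fin.init g : Fin n → U) (g (Fin.last n)) : Fin (n + 1) → U) ∈ s
      rw [h3]
      exact hg
  rw [h2]
  exact h1

private theorem san_fib {B : Set U} {n : ℕ} {s : Set (Fin (n + 1) → U)} (h : B.Definable L s)
    (x : U) : (insert x B).Definable L {v : Fin n → U | (Fin.snoc v x : Fin (n + 1) → U) ∈ s} := by
  rw [definable_iff_exists_formula_sum] at h ⊢
  obtain ⟨φ, hφ⟩ := h
  let f : B ⊕ Fin (n + 1) → (insert x B : Set U) ⊕ Fin n :=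
    Sum.elim (fun b => Sum.inl ⟨b, mem_insert_of_mem x b.2⟩)
      (Fin.snoc (α := fun _ => (insert x B : Set U) ⊕ Fin n) (fun i => Sum.inr i)
        (Sum.inl ⟨x, mem_insert x B⟩))
  refine ⟨φ.relabel f, ?_⟩
  ext v
  have h1 : (Fin.snoc v x : Fin (n + 1) → U) ∈ s ↔
      φ.Realize (Sum.elim Subtype.val (Fin.snoc v x : Fin (n + 1) → U)) := by
    rw [hφ]
    rfl
  have h2 : v ∈ {v : Fin n → U | (Fin.snoc v x : Fin (n + 1) → U) ∈ s} ↔
      (Fin.snoc v x : Fin (n + 1) → U) ∈ s := Iff.rfl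
  rw [h2, h1]
  have h3 : v ∈ {v : Fin n → U | (φ.relabel f).Realize (Sum.elim Subtype.val v)} ↔
      (φ.relabel f).Realize (Sum.elim Subtype.val v) := Iff.rfl
  rw [h3, FirstOrder.Language.Formula.realize_relabel]
  apply iff_of_eq
  congr 1
  funext i
  rcases i with i | i
  · rfl
  · refine Fin.lastCases ?_ (fun i => ?_) i
    · show (Fin.snoc v x : Fin (n + 1) → U) (Fin.last n) = (Sum.elim Subtype.val v)
        ((Fin.snoc (α := fun _ => (insert x B : Set U) ⊕ Fin n) (fun i => Sum.inr i)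
        (Sum.inl ⟨x, mem_insert x B⟩)) (Fin.last n))
      rw [Fin.snoc_last, Fin.snoc_last]
      rfl
    · show (Fin.snoc v x : Fin (n + 1) → U) (Fin.castSucc i) = (Sum.elim Subtype.val v)
        ((Fin.snoc (α := fun _ => (insert x B : Set U) ⊕ Fin n) (fun i => Sum.inr i)
        (Sum.inl ⟨x, mem_insert x B⟩)) (Fin.castSucc i))
      rw [Fin.snoc_castSucc, Fin.snoc_castSucc]
      rfl

end san

/-- [SAN] -/
theorem thm_SAN : St_SAN := by
  intro L U _ hM n
  induction n with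
  | zero =>
    intro B hB F hF h
    refine ⟨Fin.elim0, fun s hs => ?_⟩
    obtain ⟨v, hv⟩ := h {s} (singleton_subset_iff.2 hs) (finite_singleton s)
    have h1 : v = Fin.elim0 := Subsingleton.elim _ _
    rw [← h1]
    exact hv s (mem_singleton s)
  | succ n ih =>
    intro B hB F hF h
    obtain ⟨x, hx⟩ : ∃ x : U, ∀ G ⊆ F, G.Finite →
        x ∈ {x | ∃ v : Fin n → U, (Fin.snoc v x : Fin (n + 1) → U) ∈ {v | ∀ s ∈ G, v ∈ s}} := by
      obtain ⟨x, hx⟩ := hM.sat B hB ((fun G : Set (Set (Fin (n + 1) → U)) =>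
        {x | ∃ v : Fin n → U, (Fin.snoc v x : Fin (n + 1) → U) ∈ {v | ∀ s ∈ G, v ∈ s}}) ''
          {G | G ⊆ F ∧ G.Finite}) (by
        rintro _ ⟨G, hG, rfl⟩
        exact san_proj (san_inter hG.2 fun s hs => hF s (hG.1 hs))) (by
        intro 𝒢 h𝒢 hfin
        have h1 : ∀ D : 𝒢, ∃ G : Set (Set (Fin (n + 1) → U)), (G ⊆ F ∧ G.Finite) ∧
            {x | ∃ v : Fin n → U, (Fin.snoc v x : Fin (n + 1) → U) ∈ {v | ∀ s ∈ G, v ∈ s}} =
              (D : Set U) := fun D => by
          obtain ⟨G, hG, hGD⟩ := h𝒢 D.2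
          exact ⟨G, hG, hGD⟩
        choose GG hGG hGD using h1
        have : Finite 𝒢 := hfin.to_subtype
        obtain ⟨v, hv⟩ := h (⋃ D : 𝒢, GG D) (iUnion_subset fun D => (hGG D).1)
          (finite_iUnion fun D => (hGG D).2)
        refine ⟨v (Fin.last n), fun D hD => ?_⟩
        have h2 := hGD ⟨D, hD⟩
        have h3 : v (Fin.last n) ∈ {x | ∃ w : Fin n → U, (Fin.snoc w x : Fin (n + 1) → U) ∈
            {w | ∀ s ∈ GG ⟨D, hD⟩, w ∈ s}} := by
          refine ⟨Fin.init v, ?_⟩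
          have h4 : (Fin.snoc (Fin.init v : Fin n → U) (v (Fin.last n)) : Fin (n + 1) → U) = v :=
            Fin.snoc_init_self v
          show (Fin.snoc (Fin.init v : Fin n → U) (v (Fin.last n)) : Fin (n + 1) → U) ∈
            {w | ∀ s ∈ GG ⟨D, hD⟩, w ∈ s}
          rw [h4]
          exact fun s hs => hv s (mem_iUnion.2 ⟨_, hs⟩)
        rw [h2] at h3
        exact h3)
      exact ⟨x, fun G hG hGf => hx _ ⟨G, ⟨hG, hGf⟩, rfl⟩⟩
    obtain ⟨v, hv⟩ := ih (insert x B) (hB.insert x)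
      ((fun s : Set (Fin (n + 1) → U) =>
        {v : Fin n → U | (Fin.snoc v x : Fin (n + 1) → U) ∈ s}) '' F) (by
      rintro _ ⟨s, hs, rfl⟩
      exact san_fib (hF s hs) x) (by
      intro 𝒢 h𝒢 hfin
      have h1 : ∀ D : 𝒢, ∃ s ∈ F, {v : Fin n → U | (Fin.snoc v x : Fin (n + 1) → U) ∈ s} =
          (D : Set (Fin n → U)) := fun D => by
        obtain ⟨s, hs, hD⟩ := h𝒢 D.2
        exact ⟨s, hs, hD⟩
      choose ss hss hsD using h1
      have : Finite 𝒢 := hfin.to_subtype
      obtain ⟨v, hv⟩ := hx (range ss) (by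
        rintro _ ⟨D, rfl⟩
        exact hss D) (finite_range ss)
      refine ⟨v, fun D hD => ?_⟩
      have h2 : v ∈ {v : Fin n → U | (Fin.snoc v x : Fin (n + 1) → U) ∈ ss ⟨D, hD⟩} :=
        hv _ ⟨⟨D, hD⟩, rfl⟩
      rw [hsD] at h2
      exact h2)
    exact ⟨Fin.snoc v x, fun s hs => hv _ ⟨s, hs, rfl⟩⟩

end Pool.Agent.GRK
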