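import Pool.Agent.GRK.Defs

/-!
GRK: statements of the third part (helper58), with proofs in the docstrings: insertion of intervals,
coding, classification of the parts of a good piece.  The text follows `Pool/Agent/PMC/StC.lean`: `Fx` is
replaced by `Nx`, `Sm` by `SmN`, the model `univ` by a rich model `M0` (`Ric`).
`Itv A E sg X p q`: the points of `X ∩ E` which are neither `<< p` nor `>> q`; `Itv A E sg X p p` is the
cluster of `p` in `X`.  Write `x ~ y` for: neither `x << y` nor `y << x`.  ORT (3), (4), FAI, ORD, PRD as in the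
first two parts (`ORT (3)`: the automorphism obtained is in `Nx L A`, fixes `A ∪ D ∪ V` pointwise and agrees
with `g` on `M`).
-/

set_option autoImplicit false
set_option linter.unusedVariables false

namespace Pool.Agent.GRK

open FirstOrder.Language Set
open scoped FirstOrder
open Pool.Agent.WOM (tp Mon IsEl IsoM CtU Fx Orb)
open Pool.Agent.PMC (Ini ct Dc cel Sin Nd Ct lts ext XS Ex Fa Ll LL Itv Sm Md NPf)

/-- [BAG] back and forth, general form.
PROOF.  Enumerate `X` and `Y`, alternate (as in `PMC.thm_BAF`, `Pool/Agent/PMC/BAF.lean`); the union of the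
increasing finite relations is the graph of a bijection, every finite subset of `X` is contained in the
domain of one stage. -/
def St_BAG : Prop :=
  ∀ (U V : Type) (X : Set U) (Y : Set V) (P : Set (U × V) → Prop), X.Countable → Y.Countable → P ∅ →
    (∀ s, s.Finite → P s → ∀ x ∈ X, ∃ y ∈ Y, P (insert (x, y) s)) →
    (∀ s, s.Finite → P s → ∀ y ∈ Y, ∃ x ∈ X, P (insert (x, y) s)) →
    (∀ s, s.Finite → P s → ∀ c ∈ s, ∀ c' ∈ s, (c.1 = c'.1 ↔ c.2 = c'.2)) →
    ∃ e : X ≃ Y, ∀ s : Set X, s.Finite → ∃ t : Set (U × V), t.Finite ∧ P t ∧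
      (∀ c ∈ t, ∃ x : X, c = ((x : U), (e x : V))) ∧ ∀ x ∈ s, (((x : U), (e x : V)) : U × V) ∈ t

/-- [BAF] back and forth.
PROOF.  BAG. -/
def St_BAF : Prop :=
  ∀ (L : FirstOrder.Language.{0, 0}) (U : Type) [L.Structure U] (A X Y : Set U)
    (P : Set (U × U) → Prop), X.Countable → Y.Countable → P ∅ →
    (∀ s, s.Finite → P s → ∀ x ∈ X, ∃ y ∈ Y, P (insert (x, y) s)) →
    (∀ s, s.Finite → P s → ∀ y ∈ Y, ∃ x ∈ X, P (insert (x, y) s)) →
    (∀ s, s.Finite → P s → ∃ g : U ≃[L] U, Nx L A g ∧ ∀ c ∈ s, g c.1 = c.2) → SmN L A X Y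

/-- [GRP] gluing of automorphisms along clusters.
PROOF.  As `PMC.thm_GRP`: induction on the finite set `F`; `S` = the points of a last cluster, `W = F \ S`,
`LL W S`.  `g'` for `W`; `g0` for `x0 ∈ S`: `g0 = t` on `S`.  `g'⁻¹ ∘ g0` is in `Nx A` and maps `S` to a set `>> W`.
ORT (2) for `W`, `S`: `h` in `Nx A` which fixes `W` with `h = g'⁻¹ ∘ g0` on `S`.  `g = g' ∘ h`. -/
def St_GRP : Prop :=
  ∀ (L : FirstOrder.Language.{0, 0}) (U : Type) [L.Structure U] (κ ι : Type) (R : κ → U → U → Prop)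
    (o : κ → κ) (S : ι → U → U → Prop), Cx L R o S →
    ∀ (A E : Set U) (sg : κ → U → Bool), Ori L R o S A E sg →
    ∀ (F : Set U) (t : U → U), F.Finite → F ⊆ E → (∀ x ∈ F, t x ∈ E) →
    (∀ x ∈ F, ∀ y ∈ F, Ll L R o A sg x y → Ll L R o A sg (t x) (t y)) →
    (∀ x ∈ F, ∃ g : U ≃[L] U, Nx L A g ∧
      ∀ y ∈ F, ¬ Ll L R o A sg x y → ¬ Ll L R o A sg y x → g y = t y) →
    ∃ g : U ≃[L] U, Nx L A g ∧ ∀ x ∈ F, g x = t x

/-- [PLC] placement of a countable family of intervals.
PROOF.  As `PMC.thm_PLC`: enumerate `D`; recursively choose `g_d`, ORT (4). -/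
def St_PLC : Prop :=
  ∀ (L : FirstOrder.Language.{0, 0}) (U : Type) [L.Structure U] (κ ι : Type) (R : κ → U → U → Prop)
    (o : κ → κ) (S : ι → U → U → Prop), Cx L R o S →
    ∀ (A E : Set U) (sg : κ → U → Bool), Ori L R o S A E sg →
    ∀ (D : Type) [LinearOrder D] [Countable D] (p q : D → U), (∀ d, p d ∈ E) → (∀ d, q d ∈ E) →
    (∀ d, ¬ Ll L R o A sg (q d) (p d)) →
    ∃ g : D → (U ≃[L] U), (∀ d, Nx L A (g d)) ∧
      ∀ d d', d < d' → Ll L R o A sg (g d (q d)) (g d' (p d'))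

/-- [SUM] ordered sums of intervals are elementary submodels.  `D` is an order of indices, `M d` an
elementary submodel, `p d, q d ∈ M d ∩ E`; `P d` is the image of the interval `[p d, q d]` of `M d` under
`g d`; the indices in `D0` are `rich`: between any two indices there are indices `c` in `D0` such that `P c`
meets a given class of a finite equivalence relation in a given cell.  `M0` is the model outside `E`.
PROOF.  `X = (M0 \ E) ∪ ⋃ d, P d`; `A ⊆ X`.  For `d < d'`, `x ∈ P d`, `y ∈ P d'`: `x << y` (`x << g d' (p d')` since not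
`g d (q d) << x`, ORD (3), then again ORD (3)).  `isEl_of_orb`: `A ⊆ B ⊆ X` finite, `O = Orb B x` definable
over `B`; we need a point of `O ∩ X`.
(0) `x ∉ E`.  `B0 = A ∪ (B \ E) ⊆ M0`.  For `h` in `Nx B0` and `y ∈ O` (so `y ∉ E`): PRD over `A` for `Eᶜ`
(`cls_compl`): `h'` = `h` outside `E`, identity on `E`, fixes `B`, so `h y = h' y ∈ O`.  `nx_meets` over `B0`
with `M0`.
Let `x ∈ E`, `B_d = B ∩ P d`, nonempty for finitely many `d`.  All points of `O` have the same position with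
respect to the points of `B ∩ E` as `x`.
(a) For some `d` there are `y, y' ∈ B_d` with not `x << y`, not `y' << x`.  `B' = A ∪ B_d`.  Let `h` be in
`Nx B'`, `v ∈ O`: not `v << y`, not `y' << v`, and the same for `h v`.  So for `c < d`, `b ∈ B_c`: `b << v` and
`b << h v`; for `d < c`, `b ∈ B_c`: `v << b`, `h v << b` (ORD (3)).  ORT (3) (`D` := the union of the `B_c`, `c < d`;
`M := B_d ∪ {v}`; `V` := the union of the `B_c`, `d < c`; `g := h`) and PRD for `E` (points of `B` outside `E`):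
`h v ∈ Orb B v = O`.  So `O` is invariant under `Nx B'`.  `(g d) '' M d` is an elementary submodel which contains
`B'`; `nx_meets` over `B'`: `g d w ∈ O`, `w ∈ M d`, not `w << (g d)⁻¹ y`, not `(g d)⁻¹ y' << w`, so `w ∈ [p d, q d]`
(ORD (3)), `g d w ∈ P d ∩ O`.
(b) Otherwise for every `d` with `B_d` nonempty: `x << B_d` or `B_d << x`.  Let `d` be the last index with
`B_d << x` nonempty and `d'` the first index with `x << B_d'` (if they exist); `d < d'`.  Fix `j : κ`, `K = cel A j x`.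
Claim: there is `F` with `FE A F` such that all `y ∈ K` with `F x y` and `B_c << y` for `c ≤ d`, `y << B_c` for
`d' ≤ c` are in `O`.  Otherwise `sat_cel` over `insert x (A ∪ B)` for the sets `{y | F x y}` (`fe_def`), the complement
of `O`, and the sets of the points on the true-side (false-side) of the `insert b A`-definable cuts strictly
inside `K`, `b` below (above) gives `y ∈ K`, `y ∉ O`, `F x y` for all `F`, `B_c << y`, `y << B_c` as stated (FAI
(2); finite subfamilies: `fe_inter`).  `nx_of_fe`: `y = h x`, `h` in `Nx A`; ORT (3) (with `M := {x}`) and PRD: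
`y ∈ Orb B x`: contradiction.  Take `c ∈ D0`, `d < c < d'` (strictly between, or below, or above, or
arbitrary) and `x' ∈ P c`, `x' ∈ K`, `F x x'`: `x' ∈ O`. -/
def St_SUM : Prop :=
  ∀ (L : FirstOrder.Language.{0, 0}) (U : Type) [L.Structure U] (κ ι : Type) (R : κ → U → U → Prop)
    (o : κ → κ) (S : ι → U → U → Prop), Cx L R o S →
    ∀ (A E : Set U) (sg : κ → U → Bool), Ori L R o S A E sg →
    ∀ (D : Type) [LinearOrder D] (D0 : Set D) (M0 : Set U) (M : D → Set U) (p q : D → U)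
      (g : D → (U ≃[L] U)), (∀ d, Nx L A (g d)) → Md L A M0 → (∀ d, Md L A (M d)) →
    (∀ d, p d ∈ M d ∧ p d ∈ E) → (∀ d, q d ∈ M d ∧ q d ∈ E) →
    (∀ d d', d < d' → Ll L R o A sg (g d (q d)) (g d' (p d'))) →
    (∀ x ∈ E, ∀ F, FE L A F → ∀ j,
      (∃ c ∈ D0, ∃ x' ∈ (g c) '' Itv L R o A E sg (M c) (p c) (q c),
        x' ∈ cel L R o A j x ∧ F x x') ∧
      (∀ d, ∃ c ∈ D0, c < d ∧ ∃ x' ∈ (g c) '' Itv L R o A E sg (M c) (p c) (q c),
        x' ∈ cel L R o A j x ∧ F x x') ∧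
      (∀ d, ∃ c ∈ D0, d < c ∧ ∃ x' ∈ (g c) '' Itv L R o A E sg (M c) (p c) (q c),
        x' ∈ cel L R o A j x ∧ F x x') ∧
      ∀ d d', d < d' → ∃ c ∈ D0, d < c ∧ c < d' ∧
        ∃ x' ∈ (g c) '' Itv L R o A E sg (M c) (p c) (q c), x' ∈ cel L R o A j x ∧ F x x') →
    IsEl L ((M0 \ E) ∪ ⋃ d, (g d) '' Itv L R o A E sg (M d) (p d) (q d))

/-- [INS] insertion of copies of an interval of a model `M` into (a shuffle of the clusters of) a rich
model `M0`, indexed by any countable order.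
PROOF.  `Z = M0 ∩ E` is countable and nonempty (`Ric` for the trivial relation, `fe_top`); `c : ℚ → U` from
`PMC.thm_DNF` for `Z`.  `D` = the subtype `{d : (WithBot O) ×ₗ (WithBot ℚ) // d ≠ (⊥, ⊥)}`; for `d = (some a, ⊥)`: the
model `M`, the points `p`, `q`; for all other `d = (_, some r)`: the model `M0` and `p d = q d = c r`.  PLC gives
`g`.  `r a = g (some a, ⊥)`, `X0 = (M0 \ E) ∪` the union of the images `g d '' Itv M0 (p d) (p d)` for the other
`d`.  For `S ⊆ O` apply SUM to the suborder of `D` of all `d` except the `(some a, ⊥)`, `a ∉ S`, with `D0` = the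
indices `(_, some r)`: for `x ∈ E`, `F`, `j` there is `y ∈ M0 ∩ cel A j x` with `F x y` (`Ric`), `y ∈ Z`; below,
above and between any indices of `D` there are the `(_, some r)` with `r` in an interval of `ℚ`, so also one with
`c r = y`, and `x' = g d y` (`F y (g d y)` as `g d` is in `Nx A`).  (d) `x ∈ g d '' cluster of c r`: `z = c r`, `g d`; a
point `y ∈ X0 ∩ E`, `y ~ x` is in the same `P d` (`P d << P d'` for `d < d'`), and a point `y ∈ P d` is in `X0`.
(e) `x ∈ P d`, `y ∈ P d'`; `d < d'` (as in `PMC.thm_INS`), take `(_, some r)` between with `c r = z`.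
(f) the indices `(⊥, some 0)`, `(⊥, some 1)`. -/
def St_INS : Prop :=
  ∀ (L : FirstOrder.Language.{0, 0}) (U : Type) [L.Structure U] (κ ι : Type) (R : κ → U → U → Prop)
    (o : κ → κ) (S : ι → U → U → Prop), Cx L R o S →
    ∀ (A E : Set U) (sg : κ → U → Bool), Ori L R o S A E sg →
    ∀ (M0 M : Set U) (p q : U), Ric L R o A M0 → Md L A M → p ∈ M → p ∈ E → q ∈ M → q ∈ E →
    ¬ Ll L R o A sg q p → ∀ (O : Type) [LinearOrder O] [Countable O],
    ∃ (X0 : Set U) (r : O → (U ≃[L] U)), (∀ a, Nx L A (r a)) ∧ (∀ x ∉ E, (x ∈ X0 ↔ x ∈ M0)) ∧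
      (∀ T : Set O, IsEl L (X0 ∪ ⋃ a ∈ T, (r a) '' Itv L R o A E sg M p q)) ∧
      (∀ a, ∀ x ∈ (r a) '' Itv L R o A E sg M p q, x ∉ X0) ∧
      (∀ a a', a < a' → ∀ x ∈ (r a) '' Itv L R o A E sg M p q,
        ∀ y ∈ (r a') '' Itv L R o A E sg M p q, Ll L R o A sg x y) ∧
      (∀ x ∈ X0, x ∈ E → ∀ a, (∀ y ∈ (r a) '' Itv L R o A E sg M p q, Ll L R o A sg x y) ∨
        ∀ y ∈ (r a) '' Itv L R o A E sg M p q, Ll L R o A sg y x) ∧
      (∀ x ∈ X0, x ∈ E → ∃ z ∈ M0, z ∈ E ∧ ∃ g : U ≃[L] U, Nx L A g ∧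
        x ∈ g '' Itv L R o A E sg M0 z z ∧ ∀ y ∈ E, ¬ Ll L R o A sg x y → ¬ Ll L R o A sg y x →
          (y ∈ X0 ↔ y ∈ g '' Itv L R o A E sg M0 z z)) ∧
      (∀ x ∈ E, ∀ y ∈ E, (x ∈ X0 ∨ ∃ a, x ∈ (r a) '' Itv L R o A E sg M p q) →
        (y ∈ X0 ∨ ∃ a, y ∈ (r a) '' Itv L R o A E sg M p q) → Ll L R o A sg x y →
        (¬ ∃ a, x ∈ (r a) '' Itv L R o A E sg M p q ∧ y ∈ (r a) '' Itv L R o A E sg M p q) →
        ∀ z ∈ M0, z ∈ E → ∃ g : U ≃[L] U, Nx L A g ∧ g z ∈ X0 ∧ Ll L R o A sg x (g z) ∧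
          Ll L R o A sg (g z) y ∧ ∀ w ∈ E, ¬ Ll L R o A sg (g z) w → ¬ Ll L R o A sg w (g z) →
            (w ∈ X0 ↔ w ∈ g '' Itv L R o A E sg M0 z z)) ∧
      (∃ y ∈ X0, ∃ y' ∈ X0, y ∈ E ∧ y' ∈ E ∧ Ll L R o A sg y y' ∧
        ∀ a, ∀ x ∈ (r a) '' Itv L R o A E sg M p q, Ll L R o A sg y' x)

/-- [NWL] all labels occur in all rich models.
PROOF.  Suppose the cluster of `p` in `M` is not similar (`SmN A`) to a cluster of `M0`.  `O`, `S` from
`PMC.thm_CNO`, INS with `q = p`; `P a = r a '' Itv M p p`, `X f = X0 ∪ ⋃ a ∈ S f, P a`.  `A ⊆ X0`.  `{f | v ∈ X f}` is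
clopen.  `NPf`: `f ≠ f'`, `e : X f ≃ X f'` as in `Sm A`; `e` preserves membership in `E` and `<<` (FAI (3)).
For `x ∈ X f ∩ E` write `K f x = Itv (X f) x x`.  `e` preserves similarity of clusters: if `b : K f x ≃ K f x'` is as
in `SmN A` then so is `e ∘ b ∘ e⁻¹ : K f' (e x) ≃ K f' (e x')` (for a finite set take `g` over `A` for `e` on the
finite set and its image under `b`, `h` in `Nx A` for `b`; `g ∘ h ∘ g⁻¹` is in `Nx A`, `nx_conj_fx`).  Say that
`x ∈ X f ∩ E` is DENSE if for all `y << y'` in `X f ∩ E` there is `x' ∈ X f ∩ E`, `y << x' << y'` with `K f x`, `K f x'`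
similar; `e` maps the dense points of `X f` onto those of `X f'`.  `x ∈ X0`: `K f x = g '' Itv M0 z z` (INS (d); points
of `P a` are not `~ x`, INS (c3)), similar to `Itv M0 z z`; `y << y'` are not in the same `P a` (one cluster), so INS
(e): `x` is dense.  `x ∈ P a`: `K f x = P a`, similar to `Itv M p p`; for the points `y`, `y'` of INS (f) all
`x' ∈ X f ∩ E` with `y << x' << y'` are in `X0`, so their clusters are similar to clusters of `M0`: `x` is not
dense.  So `e` restricts to a bijection of `⋃ a ∈ S f, P a` and `⋃ a ∈ S f', P a`; two points are in the same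
`P a` iff `x ~ y`.  `PMC.thm_COD`: `S f ≃o S f'`, so `f = f'`. -/
def St_NWL : Prop :=
  ∀ (L : FirstOrder.Language.{0, 0}) (U : Type) [L.Structure U] (κ ι : Type) (R : κ → U → U → Prop)
    (o : κ → κ) (S : ι → U → U → Prop), Cx L R o S → NPf L U →
    ∀ (A E : Set U) (sg : κ → U → Bool), Ori L R o S A E sg →
    ∀ (M0 M : Set U) (p : U), Ric L R o A M0 → Md L A M → p ∈ M → p ∈ E →
    ∃ z ∈ M0, z ∈ E ∧ SmN L A (Itv L R o A E sg M p p) (Itv L R o A E sg M0 z z)

/-- [NWI] all labels occur between any two clusters of a model.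
PROOF.  Suppose not, for `p << q` in `M` and `z`.  `O`, `S`, INS with `M0 = univ` (it is rich), `P a`, `X f`, `e`, `K f x`
as in NWL.  `bad_f x y`: `x, y ∈ X f ∩ E`, `x << y` and there is `w ∈ X f ∩ E` such that no `z' ∈ X f ∩ E` with
`x << z' << y` has `K f z'` similar to `K f w`.  `e` preserves `bad`.  Claim: `bad_f x y` iff `x, y ∈ P a` for some
`a ∈ S f` and `x << y`.  (←) `w` = a point of `X0` whose cluster is similar to `Itv univ z z` (INS (e) for the
points of INS (f)); a `z'` would be in `P a` (INS (c2), (c3)), `z' = r a z''`; `p << z'' << q` (ORD (3)), and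
`K f z' = r a '' Itv M z'' z''`: contradiction.  (→) otherwise let `w ∈ X f ∩ E`; by the hypothesis NWL (for the
model `X f` and `univ`) `K f w` is similar to some `Itv univ z1 z1`, and INS (e) gives `g z1 ∈ X0` between `x` and
`y` with the cluster `g '' Itv univ z1 z1`.  The set of the points which occur in a bad pair is
`⋃ a ∈ S f, P a` (for `x = r a x0`: `p << x0` or `x0 << q`), and two of them are in the same `P a` iff `bad_f x y`
or `bad_f y x` or `x ~ y`.  COD. -/
def St_NWI : Prop :=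
  St_NWL →
  ∀ (L : FirstOrder.Language.{0, 0}) (U : Type) [L.Structure U] (κ ι : Type) (R : κ → U → U → Prop)
    (o : κ → κ) (S : ι → U → U → Prop), Cx L R o S → NPf L U →
    ∀ (A E : Set U) (sg : κ → U → Bool), Ori L R o S A E sg →
    ∀ (M : Set U) (p q : U), Md L A M → p ∈ M → p ∈ E → q ∈ M → q ∈ E → Ll L R o A sg p q →
    ∀ z ∈ E, ∃ z' ∈ M, z' ∈ E ∧ Ll L R o A sg p z' ∧ Ll L R o A sg z' q ∧
      SmN L A (Itv L R o A E sg M z' z') (Itv L R o A E sg univ z z)

/-- [CLS] countably many parts of a good piece.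
PROOF.  As `PMC.thm_CLS`, with `SmN` in place of `Sm` (BAF, GRP of this file). -/
def St_CLS : Prop :=
  ∀ (L : FirstOrder.Language.{0, 0}) (U : Type) [L.Structure U] (κ ι : Type) (R : κ → U → U → Prop)
    (o : κ → κ) (S : ι → U → U → Prop), Cx L R o S →
    ∀ (A E : Set U) (sg : κ → U → Bool), Ori L R o S A E sg →
    (∀ (M : Set U) (p : U), Md L A M → p ∈ M → p ∈ E →
      ∃ z ∈ E, SmN L A (Itv L R o A E sg M p p) (Itv L R o A E sg univ z z)) →
    (∀ (M : Set U) (p q : U), Md L A M → p ∈ M → p ∈ E → q ∈ M → q ∈ E → Ll L R o A sg p q →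
      ∀ z ∈ E, ∃ z' ∈ M, z' ∈ E ∧ Ll L R o A sg p z' ∧ Ll L R o A sg z' q ∧
        SmN L A (Itv L R o A E sg M z' z') (Itv L R o A E sg univ z z)) →
    ∃ c : ℕ → Set U, ∀ M : Set U, Md L A M → ∃ n, Md L A (c n) ∧ SmN L A (M ∩ E) (c n ∩ E)

end Pool.Agent.GRK
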