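import Pool.Agent.GRK.StC
import Pool.Agent.PMC.StD

/-!
GRK: statements of the fourth part (helper58), with proofs in the docstrings: calculus of `SmN`,
finiteness of the number of `Nx`-orbits, inner pieces, assembly in the saturated model, transfer to models
on `ℕ`.  The text follows `Pool/Agent/PMC/StD.lean`.
-/

set_option autoImplicit false
set_option linter.unusedVariables false

namespace Pool.Agent.GRK

open FirstOrder.Language Set
open scoped FirstOrder
open Pool.Agent.WOM (tp Mon IsEl IsoM CtU Fx Orb CtT PerfT ThS Small)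
open Pool.Agent.PMC (Ini ct Dc cel Sin Nd Ct lts ext XS Ex Fa Ll LL Itv Sm Md NPf rel)

/-- [SMN] calculus of `SmN` and `Sm`.
PROOF.  (1)-(5) clear (compare `Pool/Agent/PMC/SMB.lean`: `SMB.sm_refl`, `sm_symm`, `sm_trans`, `sm_inter`, `sm_glue`,
`isoM_of_sm`).  (6) let `e_z` be bijections of `M ∩ P` and `M' ∩ P` for every piece `P` over `A` contained in `Q`
(choose one for every piece); their union is a bijection `e : M ∩ Q ≃ M' ∩ Q`.  A finite set `s` meets
finitely many pieces `P_i`; automorphisms `g_i` in `Nx A` for `e` on `s ∩ P_i`; PRF (gluing in `Nx A`).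
(7), (8) for `Sm` as in PMC. -/
def St_SMN : Prop :=
  ∀ (L : FirstOrder.Language.{0, 0}) (U : Type) [L.Structure U] (κ ι : Type) (R : κ → U → U → Prop)
    (o : κ → κ) (S : ι → U → U → Prop), Cx L R o S →
    (∀ A X : Set U, SmN L A X X) ∧
    (∀ A X Y : Set U, SmN L A X Y → SmN L A Y X) ∧
    (∀ A X Y Z : Set U, SmN L A X Y → SmN L A Y Z → SmN L A X Z) ∧
    (∀ A X Y Q : Set U, (∀ g : U ≃[L] U, Fx L A g → ∀ x, g x ∈ Q ↔ x ∈ Q) → SmN L A X Y →
      SmN L A (X ∩ Q) (Y ∩ Q)) ∧
    (∀ A B X Y : Set U, A ⊆ B → SmN L B X Y → SmN L A X Y ∧ Sm L A X Y) ∧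
    (∀ A Q M M' : Set U, A.Finite → Cls L R o S A Q →
      (∀ z ∈ Q, SmN L A (M ∩ Pc L R o S A z) (M' ∩ Pc L R o S A z)) →
        SmN L A (M ∩ Q) (M' ∩ Q)) ∧
    (∀ A X Y Q : Set U, (∀ g : U ≃[L] U, Fx L A g → ∀ x, g x ∈ Q ↔ x ∈ Q) → Sm L A X Y →
      Sm L A (X ∩ Q) (Y ∩ Q)) ∧
    (∀ A X Y Z : Set U, Sm L A X Y → Sm L A Y X ∧ (Sm L A Y Z → Sm L A X Z) ∧ IsoM L X Y)

/-- every orbit over a finite set is a finite union of orbits under `Nx` -/
def FinN (L : FirstOrder.Language.{0, 0}) (U : Type) [L.Structure U] : Prop :=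
  ∀ A : Set U, A.Finite → ∀ x : U, ∃ s : Set U, s.Finite ∧
    ∀ y ∈ Orb L A x, ∃ z ∈ s, ∃ g : U ≃[L] U, Nx L A g ∧ g z = y

/-- [OMI] a rich model which omits an orbit of `Nx A`.
PROOF.  (1) For each of the countably many pairs `(u, v)` of points not conjugate under `Nx A` choose `F` with
`FE A F`, not `F u v` (`nx_of_fe`); finite intersections (`fe_inter`) give a decreasing sequence `E_0 ⊇ E_1 ⊇ ..` with
`FE A (E_n)` such that `u, v` are conjugate under `Nx A` if `E_n u v` for all `n`.
(2) For `v ∈ Orb A x` and `n` there are `m > n` and `v' ∈ Orb A x` with `E_n v v'`, not `E_m v v'`: as `E_n` has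
finitely many classes and `Orb A x` is not contained in finitely many orbits of `Nx A`, there are
`w, w' ∈ Orb A x` in one class of `E_n`, not conjugate under `Nx A`; take `g` over `A` with `g w = v`, `v' = g w'`
(`E_n` is preserved by automorphisms over `A`).  Enumerate `U = {u_0, u_1, ..}`; choose `v_k ∈ Orb A x` and
`m_0 < m_1 < ..` with `E_(m_k) v_k v_(k+1)`, not `E_(m_(k+1)) u_k v_(k+1)` (one of `v_k` and `v'` has this property).
So no `u ∈ U` satisfies `E_(m_k) u v_k` for all `k`; and `E_(m_l) v_k v_l` for `k ≥ l`.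
(3) Let `𝒰` be the hyperfilter on `ℕ`, `b` a tuple which enumerates `B`.  By recursion `x', w_0, w_1, ..` in `U`
with: for all `n` and all formulas `φ`: `φ (x', w_0, .., w_n, b)` iff `φ (v_k, u_0, .., u_n, b)` for `𝒰`-many `k`.
Step: saturation over the finite set `{x', w_0, .., w_n} ∪ B` for the definable sets given by the formulas `φ`
in the limit type; finitely many are consistent, since `∃ z, ⋀ φ_i` is in the limit type of
`(v_k, u_0, .., u_n, b)`.  (4) `M0 = {w_n}`, `j u_n = w_n`: tuples of `U` and their images have the same type over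
`B` (the formulas without the first variable), in particular `B ⊆ M0`, `j` is the identity on `B`; `M0` is
elementary (Tarski-Vaught in `U`, transferred by `j`).  `x' ∈ Orb A x` (formulas over `A ⊆ B` true for all `v_k`;
`conj_of_def`).  `E_(m_l) x' (j v_l)` for all `l`.  If `j u` is conjugate to `x'` under `Nx A` then
`E_(m_l) (j u) (j v_l)`, so `E_(m_l) u v_l` for all `l`: contradiction.
(5) `Ric B M0`: let `FE B F`, `x1 ∈ U`.  `fe_meets`: `w_l ∈ M0` with `F x1 w_l`.  For finitely many `B`-definable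
cuts let `D` be the `B`-definable set of the points on the same side as `x1` of all of them: `D` meets the
class of `w_l`, so it meets the class of `u_l` (same type over `B`).  Saturation over `insert u_l B`: there is `y0`
with `F u_l y0` and `y0 ∈ cel B j x1`; `y = j y0`: `F w_l y`, so `F x1 y`, and `y ∈ cel B j x1`. -/
def St_OMI : Prop :=
  ∀ (L : FirstOrder.Language.{0, 0}) (U : Type) [L.Structure U] (κ ι : Type) (R : κ → U → U → Prop)
    (o : κ → κ) (S : ι → U → U → Prop), Cx L R o S → ∀ (A B : Set U) (x : U), A ⊆ B → B.Finite →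
    (¬ ∃ s : Set U, s.Finite ∧ ∀ y ∈ Orb L A x, ∃ z ∈ s, ∃ g : U ≃[L] U, Nx L A g ∧ g z = y) →
    ∃ (M0 : Set U) (x' : U), Ric L R o B M0 ∧ x' ∈ Orb L A x ∧
      ∀ y ∈ M0, ¬ ∃ g : U ≃[L] U, Nx L A g ∧ g x' = y

/-- [FIN] finiteness.
PROOF.  Suppose not, for `A` and `x`; `x` is not definable over `A` (`Orb A x` has more than one point).
`B = insert x A`, OMI: `M0`, `x'`.  Fix `j : κ`, `K = cel A j x`; `z0 ∈ ext true B j K` (EXB (1)), extreme (XSP (1)),
in `Pc A x` (`cel_sub_pc`); `E = Pc B z0` with `sg` from MKO.  `nx_move` over `A` (`x' ∈ K`): `g` in `Nx A` with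
`R (o j) z0 (g x')`, so `g x' ∈ ext true B j K = cel B j z0 ⊆ E` (EXB (6), (2)).  NWL over `B` for the models
`M0` and `univ`, `p = g x'`: a bijection of the cluster of `p` in `univ` and of a cluster of `M0` as in
`SmN B`; the image of `p` is `h p ∈ M0`, `h` in `Nx B`.  `h ∘ g` is in `Nx A` (`nx_mono`): contradiction. -/
def St_FIN : Prop :=
  ∀ (L : FirstOrder.Language.{0, 0}) (U : Type) [L.Structure U] (κ ι : Type) (R : κ → U → U → Prop)
    (o : κ → κ) (S : ι → U → U → Prop), Cx L R o S → NPf L U → FinN L U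

/-- [LFT] lifting from `Sm` to `SmN`.
PROOF.  Let `f : X ≃ P` be as in `Sm A`.  For a finite set `F ⊆ X` let `H F` be the set of the `h` over `A` such
that some `n` in `Nx A` has `n (h x) = f x` for all `x ∈ F`.  `H F` is decreasing in `F`, and closed under
composition with `n'` in `Nx A` on both sides (`n ∘ n'⁻¹`, and `n ∘ h ∘ n'⁻¹ ∘ h⁻¹`, `nx_conj_fx`).  BAG for `X = Y = univ`
and `P t` := for all finite `F ⊆ X` some `h ∈ H F` has `h c.1 = c.2` for all `c ∈ t`.  `P ∅`: `h` = an automorphism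
for `f` on `F`.  Forth: `c ∈ U`; for `F` let `D F` be the set of the `h c`, `h ∈ H F`, `h` compatible with `t`.  Fix
one `d0 ∈ D ∅`, `A'` = `A` and the second coordinates of `t`: `D F ⊆ Orb A' d0`, and `D F` is closed under
`Nx A'`.  If for every `d` there is `F_d` with `d ∉ D F_d`: let `s` be finite as in `FinN` for `A'`, `d0`, `F` the
union of the `F_z`, `z ∈ s`; take `d ∈ D F`; it is conjugate to some `z ∈ s` under `Nx A'`, so
`z ∈ D F ⊆ D F_z`: contradiction.  Back: the same for the sets of the `h⁻¹ d` and the first coordinates.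
BAG gives `e : U ≃ U`.  Let `f' x = e⁻¹ (f x)`, a bijection of `X` and `P`: for finite `s ⊆ X` take a stage `t` which
contains the pairs of the points of `s` and of `e⁻¹ (f s)`, and `h ∈ H s` for `t`, `n`: `h⁻¹ ∘ n ∘ h` is in `Nx A`
and maps `x ∈ s` to `h⁻¹ (f x) = e⁻¹ (f x)`.  `f' x ∈ P`: `h` is over `A` and `P` is invariant; `f'` is onto `P`
for the same reason. -/
def St_LFT : Prop :=
  ∀ (L : FirstOrder.Language.{0, 0}) (U : Type) [L.Structure U], Mon L U → FinN L U →
    ∀ (A P X : Set U), A.Finite → (∀ g : U ≃[L] U, Fx L A g → ∀ x, g x ∈ P ↔ x ∈ P) → X ⊆ P →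
    Sm L A X P → SmN L A X P

/-- [NRF] only finitely many pieces are not rigid.
PROOF.  As `PMC.thm_NRF`.  Otherwise choose an injective sequence of such pieces `Q n = Pc A (z n)` and models
`M n` with not `SmN A (M n ∩ Q n) (Q n)`.  For `f : ℕ → Bool` let `m f z = M n` if `z ∈ Q n` and `f n = true`,
otherwise `univ`.  UNP: `X f = {z | z ∈ m f z}` is an elementary submodel which contains `A`; `{f | v ∈ X f}` is
clopen.  `NPf`: `f ≠ f'` and `Sm A (X f) (X f')`, so (SMN (7)) `Sm A (X f ∩ Q n) (X f' ∩ Q n)` for all `n`.  If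
`f n ≠ f' n` this says `Sm A (M n ∩ Q n) (Q n)`, LFT: contradiction. -/
def St_NRF : Prop :=
  ∀ (L : FirstOrder.Language.{0, 0}) (U : Type) [L.Structure U] (κ ι : Type) (R : κ → U → U → Prop)
    (o : κ → κ) (S : ι → U → U → Prop), Cx L R o S → NPf L U → FinN L U → ∀ A : Set U, A.Finite →
    {Q : Set U | ∃ z, Q = Pc L R o S A z ∧ ∃ M, Md L A M ∧ ¬ SmN L A (M ∩ Q) Q}.Finite

/-- [ASV] (A7) cuts of a point of an extreme piece are strictly inside the cells of this piece.
PROOF.  As `PMC.thm_ASV`.  `B = insert x A`, `E = Pc B z0`.  For `v ∈ E`: `cel B j v = ext (sg (o j) v) B j (cel A j v) ⊆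
E` (EXB (2), `cel_sub_pc`).  Suppose `C` is strictly inside no cell `cel B j v`, `v ∈ E ∩ K`, `K = cel A j z`.
(i) For `s` in `Nx B` let `g` be `s` on `E`, identity elsewhere (PRD over `B`, `cls_pc`).  If a cut `C1` strictly
inside `K` is strictly inside no `cel B j v`, `v ∈ E ∩ K`, then `g '' C1 = C1` (`g` maps the cells `cel B j v`,
`v ∈ E ∩ K`, onto themselves, each is contained in or disjoint from `C1`; the other points of `K` are fixed;
points below `K` are in `C1`, points above are not).  If moreover `C1` is definable over `insert u1 A`,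
`u1 ∈ E`, then `s '' C1 = g '' C1 = C1` (`g⁻¹ ∘ s` fixes `u1` and `A`), so `C1` is `B`-definable (`nx_cut`).
(ii) So `C` is `B`-definable and `s '' C = C` for all `s` in `Nx B`.  Let `i : κ`, `K' = cel A i u`, `b = sg (o i) u`, so
`u ∈ ext b B i K'`.  Let `Λ` = the set of the `g u`, `g` in `Nx A` with `g '' C = C`: it is cofinal in `K'` in the
direction `b` (`nx_move` over `B` in `cel B i u = ext b B i K'`, EXB (4)).  Hence for every `t` in `Nx A` also the
set `Λ_t` of the `g u`, `g` in `Nx A` with `g '' C = t '' C`, is cofinal in `K'` in the direction `b`.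
(iii) Take `v1 ∈ ext true B j K` (EXB (1)) and `t` in `Nx A` with `v1 ∈ t '' C` (`nx_move` a point of `C ∩ K`
above `v1`); `C2 = t '' C` is strictly inside `ext true B j K = cel B j v1` (it contains `v1`, and misses a
point of `K`, above `v1`).  Take `u2 = g2 u ∈ Λ_t` beyond `u` in the direction `b`: `u2 ∈ ext b B i K' ⊆ E`
(EXB (6), `cel_sub_pc`).  `C2 = g2 '' C` is definable over `insert u2 A`.  If no `cel B j v`, `v ∈ E ∩ K`, has
`C2` strictly inside then by (i) `C2` is `B`-definable, contradiction (`not_sin_cel`).  So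
`cel B j v1 = cel B j v` for some `v ∈ E` (`cel_eq_of_sin`); `v1 ∈ E`.  Let `u3 = g3 u ∈ Λ_t` with `u2 << u3` in
`Ori B E sg`: `p ∈ cel B i u` with `Fa true u2 p` (FAI (4)), `u3 ∈ Λ_t` beyond `p` in the direction `b`; it is in
`cel B i u`, FAI (7).  `C2` is definable over `insert u2 B` and over `insert u3 B` and strictly inside
`cel B j v1`: FTW (with both cuts equal to `C2`) gives a contradiction. -/
def St_ASV : Prop :=
  ∀ (L : FirstOrder.Language.{0, 0}) (U : Type) [L.Structure U] (κ ι : Type) (R : κ → U → U → Prop)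
    (o : κ → κ) (S : ι → U → U → Prop), Cx L R o S → ∀ (A : Set U) (x z0 : U), A.Finite → Nd L A x →
    z0 ∈ Pc L R o S A x → z0 ∈ XS L R o A (insert x A) →
    ∀ sg : κ → U → Bool, Ori L R o S (insert x A) (Pc L R o S (insert x A) z0) sg →
    (∀ z ∈ Pc L R o S (insert x A) z0, ∀ j,
      z ∈ ext L R o (sg (o j) z) (insert x A) j (cel L R o A j z)) →
    ∀ u ∈ Pc L R o S (insert x A) z0, ∀ z ∈ Pc L R o S A x, ∀ (j : κ) (C : Set U),
    Dc L R o (insert u A) j C → Sin C (cel L R o A j z) →
    ∃ v ∈ Pc L R o S (insert x A) z0, v ∈ cel L R o A j z ∧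
      Sin C (cel L R o (insert x A) j v)

/-- [AEI] (A8) a copy of an inner piece inside one cluster of a good extreme piece.
PROOF.  As `PMC.thm_AEI`.  `B = insert x A`; `y` inner: by XSP (1) `y ∉ ext b B j (cel A j y)` for all `j`, `b`, and
the same for all points of `Pc B y` (XSP (2), `pc_nd`).  Fix `j0 : κ`, `K = cel A j0 y`.  Take
`a ∈ ext false B j0 K`, `a' ∈ ext true B j0 K` (EXB (1)) and `t` in `Nx A` with `R (o j0) a' (t a)` (`nx_move`).
`x' = t x`, `B' = insert x' A`, `Q' = t '' Pc B y = Pc B' (t y)` (`img_pc`).  (0) Every `B'`-definable cut `C'` strictly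
inside `K` contains `t a` (image of `a ∈ ext false`), so it contains `a'`, and every `B`-definable cut `C`
strictly inside `K` misses `a'`: `C ⊂ C'`, and `C'` is strictly inside `ext true B j0 K = cel B j0 a'`; such
cuts exist (AG).  `z0 = a'`: `a' ∈ Pc A x` (`cel_sub_pc`), `a' ∈ XS A B` (XSP); `E = Pc B a'`, `sg` from MKO.
(1) `x' ∈ E`: otherwise let `s` in `Nx B`, `g` = `s` on `E`, identity elsewhere (PRD over `B`): `g` fixes `x'` and
`A`, so `g '' C' = C'`, and `s '' C' = C'` for a cut `C'` of (0) (`s = g` on the cell of `a'`); so `C'` is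
`B`-definable (`nx_cut`): contradiction.  (2) `x ∉ Q'`: otherwise for `s` in `Nx B'` let `g` be `s` on `Q'`, identity
elsewhere (PRD over `B'`), a `B`-definable cut `C` strictly inside `K` (AG).  The points of `Q' ∩ K` are
inner over `B'`, so above some `C'` of (0), so not in `C`; so `g '' C = C`.  `g x = s x`, so `s '' C = g '' C
= C` (`g⁻¹ ∘ s` fixes `B`): `C` is `B'`-definable, so `C ⊂ C` by (0): contradiction.
(3) For `v ∈ Q'` no `B`-definable cut `C` is strictly inside `cel B' j v`: otherwise for `s` in `Nx B'` and `g`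
as in (2): `g` fixes `x` (`x ∉ Q'`), so `g '' C = C`, and `s '' C = C` (`s = g` on `cel B' j v ⊆ Q'`): `C` is
`B'`-definable, contradiction.  So `cel B' j v ⊆ cel B j v` for `v ∈ Q'`.  (4) `Q' ⊆ E`: let `v1, v2 ∈ Q'`,
`Lk B' v1 v2`: then `Lk B v1 v2` (the cells over `B` are larger, `fin_tr_sub`).  So `Q'` is inside one piece
over `B`.  `t y ∈ Q'` is in `K` (`fx_cel`), inner over `B'`, so above some `C'` of (0), so above `a'`:
`t y ∈ ext true B j0 K = cel B j0 a' ⊆ E`.
(5) `v ∈ Q'` and `x'` are in the same cluster.  Let `J = cel A j v`, `b = sg (o j) v`, `cel B j v = ext b B j J`.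
`v` is inner over `B'`: there are `B'`-definable cuts `C1`, `C2` strictly inside `J` with `v ∉ C1`, `v ∈ C2`.
Let `b = true` (`b = false` is symmetric).  `C2` contains `v` and misses a point of `J`, above `v`, so in
`ext true B j J`: `C2` is strictly inside `cel B j v` (take a point of `cel B j v` below `v`, `exists_lts`).  Take
`w ∈ ext false B j J` above all `B'`-definable cuts strictly inside `ext false B j J` (`sat_cel` over
`B ∪ B'`).  `w` and `v` are separated by a `B'`-definable cut `C3`: if `w ∈ cel B' j v ⊆ cel B j v` (by (3)) then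
`w ∈ ext true ∩ ext false`, no (EXB (7), AG).  `w ∈ C3`, `v ∉ C3` (`w` is below `v`), so `C3` is strictly inside `J`.
By ASV (`u := x'`) `C3` is strictly inside some `cel B j v3`, `v3 ∈ E ∩ J`, which is `ext true B j J` or
`ext false B j J`; not the latter by the choice of `w`.  So `C3`, `C2` are strictly inside `cel B j v`, definable
over `insert x' B`, `v` is not on the `true`-side of `C2` and not on the `false`-side of `C3`: `v` is not
`>> x'`, not `<< x'` (FAI (2), ORD (1)). -/
def St_AEI : Prop :=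
  ∀ (L : FirstOrder.Language.{0, 0}) (U : Type) [L.Structure U] (κ ι : Type) (R : κ → U → U → Prop)
    (o : κ → κ) (S : ι → U → U → Prop), Cx L R o S → ∀ (A : Set U) (x y : U), A.Finite → Nd L A x →
    y ∈ Pc L R o S A x → Nd L (insert x A) y → y ∉ XS L R o A (insert x A) →
    ∃ (t : U ≃[L] U) (z0 : U) (sg : κ → U → Bool), Nx L A t ∧
      Ori L R o S (insert x A) (Pc L R o S (insert x A) z0) sg ∧
      t x ∈ Pc L R o S (insert x A) z0 ∧ x ∉ t '' Pc L R o S (insert x A) y ∧
      ∀ v ∈ Pc L R o S (insert x A) y, t v ∈ Pc L R o S (insert x A) z0 ∧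
        ¬ Ll L R o (insert x A) sg (t x) (t v) ∧ ¬ Ll L R o (insert x A) sg (t v) (t x)

/-- [INN] inner pieces are rigid.
PROOF.  `B = insert x A`, `P = Pc B y`; LFT over `B`: it is enough to prove `Sm B (M ∩ P) P`; this is the proof of
`PMC.thm_INN`: `t`, `E = Pc B z0`, `sg` from AEI, `x' = t x`, `B' = insert x' A`, `P' = t '' P = Pc B' (t y)`.
`M' = (t '' M ∩ P') ∪ P'ᶜ` is an elementary submodel which contains `B'`: UNP over `B'` with the submodels `t '' M`
for the points of `P'` and `univ` for the others.  `x ∈ M'` as `x ∉ P'`, so `Md B M'`.  `x' ∈ M' ∩ E`.  NWL (with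
the rich model `univ`): `z ∈ E` and `e : Itv M' x' x' ≃ Itv univ z z` as in `SmN B`.  `P' ∩ M' ⊆ Itv M' x' x'`,
`P' ⊆ Itv univ x' x'`.  Let `w = e x'`, and `g0` over `B` with `g0 x' = w`.  For `v` in `Itv M' x' x'`: `v ∈ P'` iff
`e v ∈ g0 '' P'`: `h` over `B` with `h v = e v`, `h x' = w`; `g0⁻¹ ∘ h` fixes `B` and `x'`, so `B'`, so it preserves `P'`
(`cls_fx`).  `g0 '' P' ⊆ Itv univ z z` (`w ~ z`, and `g0 '' P'` is in the cluster of `w`).  So `e` restricts to a
bijection of `P' ∩ M' = t '' (P ∩ M)` and `g0 '' P'`, and `v ↦ t⁻¹ (g0⁻¹ (e (t v)))` is a bijection of `M ∩ P` and `P`.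
For a finite set `s ⊆ M ∩ P` take `h` over `B` which agrees with `e` on `t '' s ∪ {x'}`;
`t⁻¹ ∘ g0⁻¹ ∘ h ∘ t` fixes `A` and `x`. -/
def St_INN : Prop :=
  ∀ (L : FirstOrder.Language.{0, 0}) (U : Type) [L.Structure U] (κ ι : Type) (R : κ → U → U → Prop)
    (o : κ → κ) (S : ι → U → U → Prop), Cx L R o S → NPf L U → FinN L U →
    ∀ (A : Set U) (x y : U), A.Finite → Nd L A x →
    y ∈ Pc L R o S A x → Nd L (insert x A) y → y ∉ XS L R o A (insert x A) →
    ∀ M : Set U, Md L (insert x A) M → SmN L (insert x A) (M ∩ Pc L R o S (insert x A) y)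
      (Pc L R o S (insert x A) y)

/-- [XTY] countably many parts of the extreme pieces.
PROOF.  MKO, NWL (with `M0 = univ`, which is rich), NWI, CLS. -/
def St_XTY : Prop :=
  ∀ (L : FirstOrder.Language.{0, 0}) (U : Type) [L.Structure U] (κ ι : Type) (R : κ → U → U → Prop)
    (o : κ → κ) (S : ι → U → U → Prop), Cx L R o S → NPf L U → ∀ (A : Set U) (x z0 : U),
    A.Finite → Nd L A x → z0 ∈ Pc L R o S A x → z0 ∈ XS L R o A (insert x A) →
    ∃ c : ℕ → Set U, ∀ M : Set U, Md L (insert x A) M → ∃ n,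
      SmN L (insert x A) (M ∩ Pc L R o S (insert x A) z0) (c n ∩ Pc L R o S (insert x A) z0)

/-- [PCC] countably many parts of a piece over `∅`.
PROOF.  `Q = Pc ∅ z`.  If `z` is definable over `∅` then `Q = {z}` and `z ∈ M`: `c n = univ`.  Let `z` be not
definable over `∅`.  For `x ∈ Q`, `B = insert x ∅`: `x` is not definable over `∅` (`pc_nd`); `y1`, `y2` as in TWO (EXB
(1)), sequences `c1`, `c2` from XTY for `y1` and `y2` (XSP (1)).  For every `(x, n1, n2)` choose, if possible, a
model `M'` with `x ∈ M'`, `SmN B (M' ∩ Pc B y1) (c1 n1 ∩ Pc B y1)` and the same for `y2`, `c2 n2`.  Claim: if `M` has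
the same properties then `SmN ∅ (M ∩ Q) (M' ∩ Q)`.  SMN (6) over `B` for `Q` (`cls_anti`): let `v ∈ Q`, `P = Pc B v`.
`v` definable over `B`: `P = {v}`, `v ∈ M`, `v ∈ M'`.  `v ∈ XS ∅ B`: `P = Pc B y1` or `Pc B y2` (TWO (1)).  Otherwise INN
for both.  Then SMN (5).  The `M` with `M ∩ Q` empty: `c n = ∅`. -/
def St_PCC : Prop :=
  ∀ (L : FirstOrder.Language.{0, 0}) (U : Type) [L.Structure U] (κ ι : Type) (R : κ → U → U → Prop)
    (o : κ → κ) (S : ι → U → U → Prop), Cx L R o S → NPf L U → FinN L U → ∀ z : U,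
    ∃ c : ℕ → Set U, ∀ M : Set U, IsEl L M → ∃ n,
      SmN L ∅ (M ∩ Pc L R o S ∅ z) (c n ∩ Pc L R o S ∅ z)

/-- [END] the count.
PROOF.  FIN.  NRF for `A = ∅`: the set `N` of the nonrigid pieces over `∅` is finite.  For `Q ∈ N` let `c_Q` be as in
PCC; choose for `M` numbers `n_M Q`, `Q ∈ N`; there are countably many functions `N → ℕ`; choose one model for
each function which occurs.  If `n_M = n_M'` then `SmN ∅ (M ∩ P) (M' ∩ P)` for all pieces `P = Pc ∅ v` (for
`P ∉ N` both are similar to `P`), so `SmN ∅ M M'` (SMN (6) with `Q = univ`), so `IsoM` (SMN (5), (8)). -/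
def St_END : Prop :=
  ∀ (L : FirstOrder.Language.{0, 0}) (U : Type) [L.Structure U] (κ ι : Type) (R : κ → U → U → Prop)
    (o : κ → κ) (S : ι → U → U → Prop), Cx L R o S → NPf L U → CtU L U

/-! ### Transfer to models on `ℕ` -/

/-- [CVG] divisions of the converse relation and of the order.
PROOF.  (1) Let `I`, `J` be a division of size `2 ^ k` for `i'`.  Then `J`, `I` (the first `k` of each, `k ≤ 2 ^ k`)
is a division of size `k` for `i`: the `2 ^ k` points `y m ∈ J b` have different traces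
`{x ∈ I a | S i (y m) x}`, so the points `x ∈ I a` have at least `k` different traces `{y ∈ J b | S i y x}` (if
there were less than `k`, the trace of `y m` would be determined by a subset of a set with less than `k`
elements).  (2) `(a, b) = (0, 1)`: points `y, y' ∈ J 1` with different traces on `I 0`, so (say) `x ∈ I 0` with
`y ≤ x`; `(a, b) = (1, 0)`: `x' ∈ I 1`, `y'' ∈ J 0` with `x' < y''` (one of two different traces is not the
smaller one).  `y ≤ x < x' < y'' < y`: contradiction. -/
def St_CVG : Prop :=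
  ∀ (U κ ι : Type) (R : κ → U → U → Prop) (o : κ → κ) (S : ι → U → U → Prop) (j : κ) (i i' : ι),
    (∀ k, (∀ x y, S i' x y ↔ S i y x) → NoDiv R o S j i k → NoDiv R o S j i' (2 ^ k)) ∧
    ((∀ x, ¬ R (o j) x x) → (∀ x y z, R (o j) x y → R (o j) y z → R (o j) x z) →
      (∀ x y, x ≠ y → R (o j) x y ∨ R (o j) y x) → (∀ x y, S i x y ↔ R (o j) x y) →
      NoDiv R o S j i 2)

/-- There is no `k × k` division for the relation `S` on a set ordered by `lt`: no sets `I_1 < .. < I_k` and
`J_1 < .. < J_k` such that every `J_b` contains `k` elements with pairwise different traces on `I_a`, for all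
`a`, `b`. -/
def NoDv {M : Type} (lt S : M → M → Prop) (k : ℕ) : Prop :=
  ¬ ∃ I J : Fin k → Set M,
    (∀ a a', a < a' → ∀ x ∈ I a, ∀ x' ∈ I a', lt x x') ∧
    (∀ b b', b < b' → ∀ y ∈ J b, ∀ y' ∈ J b', lt y y') ∧
    ∀ a b, ∃ y : Fin k → M, (∀ m, y m ∈ J b) ∧
      ∀ m m', m ≠ m' → ∃ x ∈ I a, ¬ (S x (y m) ↔ S x (y m'))

section top

variable (L : FirstOrder.Language.{0, 0})

/-- The hypothesis of the theorem for one structure: `lt` defines a linear order, the relations defined by
the formulas `ψ i` have bounded grid rank, and the structure is determined by these relations and the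
formulas in one variable. -/
structure Hyp (M : Type) [L.Structure M] (lt : L.Formula (Fin 2)) (ψ : ℕ → L.Formula (Fin 2)) :
    Prop where
  irr : ∀ x : M, ¬ rel L M lt x x
  tra : ∀ x y z : M, rel L M lt x y → rel L M lt y z → rel L M lt x z
  tot : ∀ x y : M, x ≠ y → rel L M lt x y ∨ rel L M lt y x
  grd : ∀ i, ∃ k, NoDv (rel L M lt) (rel L M (ψ i)) k
  det : ∀ g : M ≃ M, (∀ x y, rel L M lt (g x) (g y) ↔ rel L M lt x y) →
    (∀ i x y, rel L M (ψ i) (g x) (g y) ↔ rel L M (ψ i) x y) →
    (∀ (χ : L.Formula (Fin 1)) x, χ.Realize ![g x] ↔ χ.Realize ![x]) →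
    ∃ h : M ≃[L] M, ∀ x, h x = g x

/-- the relations: the order, the `ψ i`, and their converses -/
def SS (M : Type) [L.Structure M] (lt : L.Formula (Fin 2)) (ψ : ℕ → L.Formula (Fin 2)) :
    Bool × Option ℕ → M → M → Prop
  | (false, none), x, y => rel L M lt x y
  | (true, none), x, y => rel L M lt y x
  | (false, some i), x, y => rel L M (ψ i) x y
  | (true, some i), x, y => rel L M (ψ i) y x

/-- THE THEOREM (general form) -/
def St_MAIN : Prop :=
  ∀ (L : FirstOrder.Language.{0, 0}), Countable L.Symbols → (∀ n, IsEmpty (L.Functions n)) →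
    ∀ (T : L.Theory) (lt : L.Formula (Fin 2)) (ψ : ℕ → L.Formula (Fin 2)),
    (∀ S : L.Structure ℕ, @FirstOrder.Language.Theory.Model L ℕ S T → @Hyp L ℕ S lt ψ) →
    CtT L T ∨ PerfT L T

end top

/-- [HYU] the hypotheses in the saturated model.
PROOF.  As `PMC.thm_HYU`: a bijection of `ℕ` and `U` gives a structure on `ℕ` isomorphic to `U`, a model of `T`; all
clauses of `Hyp` are invariant under isomorphism.  `grd` for the converses and the order: CVG. -/
def St_HYU : Prop :=
  St_CVG → ∀ (L : FirstOrder.Language.{0, 0}) (T : L.Theory) (lt : L.Formula (Fin 2))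
    (ψ : ℕ → L.Formula (Fin 2)),
    (∀ S : L.Structure ℕ, @FirstOrder.Language.Theory.Model L ℕ S T → @Hyp L ℕ S lt ψ) →
    ∀ (U : Type) [L.Structure U], U ⊨ T → Mon L U →
      Cx L (fun _ : Unit => rel L U lt) id (SS L U lt ψ)

/-- [TOP] assembly.
PROOF.  As `PMC.thm_TOP` (`Pool/Agent/PMC/TOP.lean`), with HYU and END of this file; `PMC.thm_NPU`. -/
def St_TOP : Prop := St_END → St_CVG → St_HYU → Pool.Agent.PMC.St_NPU → St_MAIN

end Pool.Agent.GRK
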